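import Pool.Agent.SSF.Br.Bc

/-!
# The interface between the functional and the cycles
-/

namespace Pool.Agent.SSF.Br

open AlgebraicGeometry TensorProduct HomogeneousLocalization HomogeneousIdeal Graded

/-- The group `Kˣ / (Kˣ)²`. -/
abbrev Sq (K : Type) [Field K] : Type := Kˣ ⧸ (powMonoidHom 2 : Kˣ →* Kˣ).range

/-- The class of a unit. -/
abbrev sq {K : Type} [Field K] (u : Kˣ) : Sq K := QuotientGroup.mk u

variable {k A : Type} [Field k] [CommRing A] [Algebra k A] (𝒜 : ℕ → Submodule k A)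
  [GradedAlgebra 𝒜]

/-- The image in `C ⊗ A` of `I ∩ (O ⊗ A)` for an ideal `I` of `K ⊗ A`, where `O → K` and
`O → C`. -/
noncomputable abbrev specialize {O K κ : Type} [CommRing O] [Algebra k O] [CommRing K]
    [Algebra k K] [CommRing κ] [Algebra k κ] (ι : O →ₐ[k] K) (π : O →ₐ[k] κ)
    (I : Ideal (K ⊗[k] A)) : Ideal (κ ⊗[k] A) :=
  (I.comap (bcMap A ι)).map (bcMap A π)

/-- The facts about the functional: a class in `Kˣ / (Kˣ)²` for every homogeneous ideal of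
`K ⊗ A`, where `K` is an extension field of `k`. -/
structure Datum (n : kˣ) where
  /-- the functional -/
  φ : ∀ (K : Type) [Field K] [Algebra k K], Ideal (K ⊗[k] A) → Sq K
  add : ∀ (K : Type) [Field K] [Algebra k K] (I : Ideal (K ⊗[k] A)),
    I.IsHomogeneous (bc 𝒜 K) → DimLE (bc 𝒜 K) I 2 → ∀ i, ∀ r ∈ bc 𝒜 K i,
      φ K I = φ K (I.colon (Ideal.span {r})) * φ K (I ⊔ Ideal.span {r})
  low : ∀ (K : Type) [Field K] [Algebra k K] (I : Ideal (K ⊗[k] A)),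
    I.IsHomogeneous (bc 𝒜 K) → DimLE (bc 𝒜 K) I 1 → φ K I = 1
  rat : ∀ (K : Type) [Field K] [Algebra k K] (y : ProjectiveSpectrum (bc 𝒜 K)),
    DimLE (bc 𝒜 K) (idl (bc 𝒜 K) y) 3 → ∀ i, ∀ a ∈ bc 𝒜 K i, ∀ b ∈ bc 𝒜 K i,
      a ∉ idl (bc 𝒜 K) y → b ∉ idl (bc 𝒜 K) y →
      φ K (idl (bc 𝒜 K) y ⊔ Ideal.span {a}) = φ K (idl (bc 𝒜 K) y ⊔ Ideal.span {b})
  dvr : ∀ (O K κ : Type) [CommRing O] [IsDomain O] [IsDiscreteValuationRing O] [Algebra k O]
    [Field K] [Algebra k K] [Field κ] [Algebra k κ] (ι : O →ₐ[k] K) (π : O →ₐ[k] κ),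
    Function.Injective ι → FracLike ι → Function.Surjective π →
    ∀ P : ProjectiveSpectrum (bc 𝒜 K), DimLE (bc 𝒜 K) (idl (bc 𝒜 K) P) 2 →
      DimLE (bc 𝒜 κ) (specialize ι π (idl (bc 𝒜 K) P)) 2 →
      ∃ u : Oˣ, φ K (idl (bc 𝒜 K) P) = sq (Units.map ι.toRingHom.toMonoidHom u) ∧
        φ κ (specialize ι π (idl (bc 𝒜 K) P)) = sq (Units.map π.toRingHom.toMonoidHom u)
  iso : ∀ (K L : Type) [Field K] [Algebra k K] [Field L] [Algebra k L] (j : K →ₐ[k] L),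
    Function.Bijective j → ∀ (I : Ideal (K ⊗[k] A)) (u : Kˣ), I.IsHomogeneous (bc 𝒜 K) →
      DimLE (bc 𝒜 K) I 2 → φ K I = sq u →
      φ L (I.map (bcMap A j)) = sq (Units.map j.toRingHom.toMonoidHom u)
  van : ∀ (K : Type) [Field K] [Algebra k K], ¬ IsSquare (algebraMap k K n) →
    ∀ (I : Ideal (K ⊗[k] A)), I.IsHomogeneous (bc 𝒜 K) → DimLE (bc 𝒜 K) I 2 →
      φ K I = 1 ∨ φ K I = sq (Units.map (algebraMap k K).toMonoidHom n)

/-- The facts on dimensions and degrees: `A` is finitely generated in degree one over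
`A₀ = k`, and `Proj (B ⊗ A)` has dimension at most `4` if `B` is a field and at most `5` if `B`
is a discrete valuation ring. -/
structure Geom : Prop where
  zero : Function.Surjective (algebraMap k (𝒜 0))
  gen : ∃ s : Finset A, (∀ a ∈ s, a ∈ 𝒜 1) ∧ Algebra.adjoin k (s : Set A) = ⊤
  dim4 : ∀ (K : Type) [Field K] [Algebra k K], DimLE (bc 𝒜 K) ⊥ 4
  dim5 : ∀ (O : Type) [CommRing O] [IsDomain O] [IsDiscreteValuationRing O] [Algebra k O],
    DimLE (bc 𝒜 O) ⊥ 5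

variable {𝒜} {n : kˣ}

/-- The value of the functional at a cycle. -/
noncomputable def Datum.psi (D : Datum 𝒜 n) (K : Type) [Field K] [Algebra k K]
    (c : ProjectiveSpectrum (bc 𝒜 K) →₀ ℤ) : Sq K :=
  c.prod fun P m => D.φ K (idl (bc 𝒜 K) P) ^ m

variable (𝒜) in
open Classical in
/-- The multiplicity of `w` in the intersection of the closure of `v` with `f = 0`, for an element
`f` of the base ring. -/
noncomputable def multA {B : Type} [CommRing B] [Algebra k B] (f : B)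
    (v w : ProjectiveSpectrum (bc 𝒜 B)) : ℤ :=
  if idl (bc 𝒜 B) v ≤ idl (bc 𝒜 B) w ∧ algebraMap B (B ⊗[k] A) f ∉ idl (bc 𝒜 B) v then
    (Module.length (LR (bc 𝒜 B) w) (LR (bc 𝒜 B) w ⧸
      (locIdeal (bc 𝒜 B) (idl (bc 𝒜 B) v) w ⊔ Ideal.span {baseTo 𝒜 w f}))).toNat
  else 0

end Pool.Agent.SSF.Br
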