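import Pool.Agent.SSF.Br.Step
import Pool.Agent.SSF.Chain

/-!
The specialization of cycles along a regular system of parameters.
-/

namespace Pool.Agent.SSF.Br

open AlgebraicGeometry TensorProduct HomogeneousLocalization HomogeneousIdeal Graded IsLocalRing
open Pool.Agent.SSF.Reg Pool.Agent.SSF.Chain

variable {k A : Type} [Field k] [CommRing A] [Algebra k A] {𝒜 : ℕ → Submodule k A}
  [GradedAlgebra 𝒜]

/-- Two maps to fields with the same kernel, each of them onto the fractions. -/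
theorem exists_fieldIso {B K L : Type} [CommRing B] [Algebra k B] [Field K] [Algebra k K]
    [Field L] [Algebra k L] (ψ : B →ₐ[k] K) (ψ' : B →ₐ[k] L) (hψ : FracLike ψ)
    (hψ' : FracLike ψ') (hker : RingHom.ker ψ = RingHom.ker ψ') :
    ∃ j : K →ₐ[k] L, Function.Bijective j ∧ j.comp ψ = ψ' := by
  let m : B →ₐ[k] B ⧸ RingHom.ker ψ := Ideal.Quotient.mkₐ k (RingHom.ker ψ)
  have hm : Function.Surjective m := Ideal.Quotient.mk_surjective
  let ψ₁ : (B ⧸ RingHom.ker ψ) →ₐ[k] K := Ideal.kerLiftAlg ψ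
  have hψ₁ : Function.Injective ψ₁ := Ideal.kerLiftAlg_injective ψ
  have e1 : ∀ b, ψ₁ (m b) = ψ b := fun b => rfl
  let ψ₂ : (B ⧸ RingHom.ker ψ) →ₐ[k] L := Ideal.Quotient.liftₐ (RingHom.ker ψ) ψ'
    (fun a ha => by
      rw [hker] at ha
      exact ha)
  have e2 : ∀ b, ψ₂ (m b) = ψ' b := fun b => rfl
  have hψ₂ : Function.Injective ψ₂ := by
    rw [injective_iff_map_eq_zero]
    intro a ha
    obtain ⟨b, rfl⟩ := hm a
    rw [e2] at ha
    have hb : b ∈ RingHom.ker ψ := by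
      rw [hker]
      exact ha
    exact Ideal.Quotient.eq_zero_iff_mem.2 hb
  have hdomB : IsDomain (B ⧸ RingHom.ker ψ) := hψ₁.isDomain ψ₁.toRingHom
  let _ : Algebra (B ⧸ RingHom.ker ψ) K := ψ₁.toRingHom.toAlgebra
  let _ : Algebra (B ⧸ RingHom.ker ψ) L := ψ₂.toRingHom.toAlgebra
  have hf1 : FaithfulSMul (B ⧸ RingHom.ker ψ) K :=
    (faithfulSMul_iff_algebraMap_injective _ _).2 hψ₁
  have hf2 : FaithfulSMul (B ⧸ RingHom.ker ψ) L :=
    (faithfulSMul_iff_algebraMap_injective _ _).2 hψ₂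
  have hfr1 : IsFractionRing (B ⧸ RingHom.ker ψ) K := by
    apply IsFractionRing.of_field
    intro z
    obtain ⟨b, s, hs, e⟩ := hψ z
    refine ⟨m b, m s, ?_⟩
    change z = ψ₁ (m b) / ψ₁ (m s)
    rw [e1, e1, ← e, mul_div_assoc, div_self hs.ne_zero, mul_one]
  have hfr2 : IsFractionRing (B ⧸ RingHom.ker ψ) L := by
    apply IsFractionRing.of_field
    intro z
    obtain ⟨b, s, hs, e⟩ := hψ' z
    refine ⟨m b, m s, ?_⟩
    change z = ψ₂ (m b) / ψ₂ (m s)
    rw [e2, e2, ← e, mul_div_assoc, div_self hs.ne_zero, mul_one]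
  let E : K ≃ₐ[B ⧸ RingHom.ker ψ] L :=
    IsLocalization.algEquiv (nonZeroDivisors (B ⧸ RingHom.ker ψ)) K L
  have hE : ∀ q, E (ψ₁ q) = ψ₂ q := fun q => E.commutes q
  refine ⟨{ E.toAlgHom.toRingHom with commutes' := ?_ }, E.bijective, ?_⟩
  · intro r
    have h1 := hE (algebraMap k _ r)
    rw [AlgHom.commutes, AlgHom.commutes] at h1
    exact h1
  · ext b
    exact hE (m b)

/-- The map of square classes. -/
noncomputable def sqMap {K L : Type} [Field K] [Field L] (j : K →+* L) : Sq K →* Sq L :=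
  QuotientGroup.map _ _ (Units.map j.toMonoidHom) (by
    rintro _ ⟨y, rfl⟩
    exact ⟨Units.map j.toMonoidHom y, by rw [powMonoidHom_apply, powMonoidHom_apply, map_pow]⟩)

theorem sqMap_sq {K L : Type} [Field K] [Field L] (j : K →+* L) (u : Kˣ) :
    sqMap j (sq u) = sq (Units.map j.toMonoidHom u) := rfl

theorem bcMap_id {B : Type} [CommRing B] [Algebra k B] (y : B ⊗[k] A) :
    bcMap A (AlgHom.id k B) y = y := by
  induction y using TensorProduct.induction_on with
  | zero => simp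
  | tmul b a => rfl
  | add y1 y2 h1 h2 => rw [map_add, h1, h2]

theorem bcPt_id {B : Type} [CommRing B] [Algebra k B] (P : ProjectiveSpectrum (bc 𝒜 B)) :
    bcPt 𝒜 (AlgHom.id k B) P = P := by
  apply ProjectiveSpectrum.ext
  apply HomogeneousIdeal.toIdeal_injective
  ext y
  change bcMap A (AlgHom.id k B) y ∈ idl (bc 𝒜 B) P ↔ y ∈ idl (bc 𝒜 B) P
  rw [bcMap_id]

variable {n : kˣ}

/-- The functional under an isomorphism of fields. -/
theorem Datum.psi_iso (D : Datum 𝒜 n) {K L : Type} [Field K] [Algebra k K] [Field L]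
    [Algebra k L] (j : K →ₐ[k] L) (hj : Function.Bijective j)
    (c : ProjectiveSpectrum (bc 𝒜 L) →₀ ℤ) (c' : ProjectiveSpectrum (bc 𝒜 K) →₀ ℤ)
    (hcc : ∀ P, c P = c' (bcPt 𝒜 j P)) (hdim : ∀ P, c' P ≠ 0 → DimLE (bc 𝒜 K) (idl (bc 𝒜 K) P) 2)
    (e : kˣ) (he : D.psi K c' = sq (Units.map (algebraMap k K).toMonoidHom e)) :
    D.psi L c = sq (Units.map (algebraMap k L).toMonoidHom e) := by
  classical
  let j' : L →ₐ[k] K := (AlgEquiv.ofBijective j hj).symm.toAlgHom
  have hj1 : j'.comp j = AlgHom.id k K := by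
    ext x
    exact (AlgEquiv.ofBijective j hj).symm_apply_apply x
  have hj2 : j.comp j' = AlgHom.id k L := by
    ext x
    exact (AlgEquiv.ofBijective j hj).apply_symm_apply x
  have hb1 : ∀ P, bcPt 𝒜 j (bcPt 𝒜 j' P) = P := fun P => by
    rw [← bcPt_comp, hj1, bcPt_id]
  have hb2 : ∀ P, bcPt 𝒜 j' (bcPt 𝒜 j P) = P := fun P => by
    rw [← bcPt_comp, hj2, bcPt_id]
  have hsur : Function.Surjective (bcMap A j) := fun y => ⟨bcMap A j' y, by
    rw [← bcMap_comp, hj2, bcMap_id]⟩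
  have hterm : ∀ P : ProjectiveSpectrum (bc 𝒜 L), c P ≠ 0 →
      D.φ L (idl (bc 𝒜 L) P) = sqMap j.toRingHom (D.φ K (idl (bc 𝒜 K) (bcPt 𝒜 j P))) := by
    intro P hP
    obtain ⟨u, hu⟩ := QuotientGroup.mk_surjective (D.φ K (idl (bc 𝒜 K) (bcPt 𝒜 j P)))
    have h1 := D.iso K L j hj (idl (bc 𝒜 K) (bcPt 𝒜 j P)) u
      (bcPt 𝒜 j P).asHomogeneousIdeal.isHomogeneous (hdim _ (by rw [← hcc]; exact hP)) hu.symm
    have h2 : (idl (bc 𝒜 K) (bcPt 𝒜 j P)).map (bcMap A j) = idl (bc 𝒜 L) P :=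
      Ideal.map_comap_of_surjective _ hsur _
    rw [h2] at h1
    rw [h1, ← hu]
    rfl
  have hpsi : D.psi L c = sqMap j.toRingHom (D.psi K c') := by
    rw [Datum.psi, Datum.psi, Finsupp.prod, Finsupp.prod, map_prod]
    refine Finset.prod_nbij' (bcPt 𝒜 j) (bcPt 𝒜 j') ?_ ?_ ?_ ?_ ?_
    · intro P hP
      rw [Finsupp.mem_support_iff, ← hcc]
      exact Finsupp.mem_support_iff.1 hP
    · intro P hP
      rw [Finsupp.mem_support_iff, hcc, hb1]
      exact Finsupp.mem_support_iff.1 hP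
    · intro P _
      exact hb2 P
    · intro P _
      exact hb1 P
    · intro P hP
      rw [hterm P (Finsupp.mem_support_iff.1 hP), map_zpow, hcc]
  rw [hpsi, he, sqMap_sq]
  congr 1
  apply Units.ext
  exact j.commutes (e : k)

/-- The models of the fields of the chain. -/
theorem exists_model {B : Type} [CommRing B] [Algebra k B] (q : Ideal B) [q.IsPrime] :
    ∃ (L : Type) (_ : Field L) (_ : Algebra k L) (ψ : B →ₐ[k] L),
      FracLike ψ ∧ RingHom.ker ψ = q := by
  refine ⟨FractionRing (B ⧸ q), inferInstance, inferInstance,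
    (IsScalarTower.toAlgHom k (B ⧸ q) (FractionRing (B ⧸ q))).comp (Ideal.Quotient.mkₐ k q),
    ?_, ?_⟩
  · intro c
    obtain ⟨⟨b, s⟩, h⟩ := IsLocalization.surj (nonZeroDivisors (B ⧸ q)) c
    obtain ⟨b', rfl⟩ := Ideal.Quotient.mk_surjective b
    obtain ⟨s', hs'⟩ := Ideal.Quotient.mk_surjective (s : B ⧸ q)
    refine ⟨b', s', ?_, ?_⟩
    · change IsUnit (algebraMap (B ⧸ q) (FractionRing (B ⧸ q)) (Ideal.Quotient.mk q s'))
      rw [hs']
      exact IsLocalization.map_units _ s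
    · change c * algebraMap (B ⧸ q) (FractionRing (B ⧸ q)) (Ideal.Quotient.mk q s') = _
      rw [hs']
      exact h
  · ext b
    rw [RingHom.mem_ker]
    change algebraMap (B ⧸ q) (FractionRing (B ⧸ q)) (Ideal.Quotient.mk q b) = 0 ↔ _
    rw [IsFractionRing.to_map_eq_zero_iff, Ideal.Quotient.eq_zero_iff_mem]

section RSP

variable {B : Type} [CommRing B] {d : ℕ} {f : Fin d → B}

theorem notMem_qI (h : RSP d B f) (i : Fin d) : f i ∉ qI f i := by
  intro hi
  have h1 : qI f (i + 1) = qI f i := by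
    rw [qI_succ]
    exact sup_eq_left.2 ((Ideal.span_singleton_le_iff_mem _).2 hi)
  have h2 := (rsp_quot h i i.2.le).dim_eq
  have h3 := (rsp_quot h (i + 1) i.2).dim_eq
  rw [h1] at h3
  rw [h3] at h2
  have h4 : d - ((i : ℕ) + 1) = d - (i : ℕ) := by exact_mod_cast h2
  have := i.2
  omega

end RSP

theorem rsp_of {B : Type} [CommRing B] [IsLocalRing B] [IsNoetherianRing B] {d : ℕ}
    {f : Fin d → B} (hf : Ideal.span (Set.range f) = maximalIdeal B)
    (hd : ringKrullDim B = d) : RSP d B f :=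
  ⟨inferInstance, inferInstance, hf, hd.ge⟩

theorem fracLike_of_field {B : Type} [CommRing B] [Algebra k B] (ε : B →ₐ[k] k) :
    FracLike ε := fun c => ⟨algebraMap k B c, 1, by rw [map_one]; exact isUnit_one, by
      rw [map_one, mul_one, AlgHom.commutes]
      rfl⟩

theorem ker_eval {B : Type} [CommRing B] [IsLocalRing B] [Algebra k B] (ε : B →ₐ[k] k) :
    RingHom.ker ε = maximalIdeal B := by
  have hs : Function.Surjective ε := fun c => ⟨algebraMap k B c, AlgHom.commutes _ _⟩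
  exact IsLocalRing.eq_maximalIdeal (RingHom.ker_isMaximal_of_surjective ε hs)

/-- Module B7b: the specialization along a regular system of parameters. -/
theorem Datum.chain (D : Datum 𝒜 n) (G : Geom 𝒜) {B K : Type} [CommRing B] [IsLocalRing B]
    [IsNoetherianRing B] [Algebra k B] [Field K] [Algebra k K] (ψ : B →ₐ[k] K)
    (hψ : FracLike ψ) (hinj : Function.Injective ψ) (ε : B →ₐ[k] k) {d : ℕ} (f : Fin d → B)
    (hf : Ideal.span (Set.range f) = maximalIdeal B) (hd : ringKrullDim B = d)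
    (C : ℕ → (ProjectiveSpectrum (bc 𝒜 B) →₀ ℤ))
    (hcod : ∀ v : ProjectiveSpectrum (bc 𝒜 K), C 0 (bcPt 𝒜 ψ v) ≠ 0 →
      2 ≤ ringKrullDim (LR (bc 𝒜 K) v))
    (hC : ∀ (i : Fin d) w, C (i + 1) w = (C i).sum fun v m => m * multA 𝒜 (f i) v w) (e : kˣ)
    (he : D.psi K ((C 0).comapDomain _ (bcPt_injective hψ).injOn) =
      sq (Units.map (algebraMap k K).toMonoidHom e)) :
    D.psi k ((C d).comapDomain _ (bcPt_injective (fracLike_of_field ε)).injOn) = sq e := by
  have hR : RSP d B f := rsp_of hf hd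
  have main : ∀ i, i ≤ d → ∃ (L : Type) (_ : Field L) (_ : Algebra k L) (ψL : B →ₐ[k] L)
      (hfl : FracLike ψL), RingHom.ker ψL = qI f i ∧
      (∀ v, C i v ≠ 0 → ∀ b, ψL b = 0 → algebraMap B (B ⊗[k] A) b ∈ idl (bc 𝒜 B) v) ∧
      (∀ v : ProjectiveSpectrum (bc 𝒜 L), C i (bcPt 𝒜 ψL v) ≠ 0 →
        2 ≤ ringKrullDim (LR (bc 𝒜 L) v)) ∧
      D.psi L ((C i).comapDomain _ (bcPt_injective hfl).injOn) =
        sq (Units.map (algebraMap k L).toMonoidHom e) := by
    intro i
    induction i with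
    | zero =>
      intro _
      refine ⟨K, inferInstance, inferInstance, ψ, hψ, ?_, ?_, hcod, he⟩
      · rw [qI_zero]
        exact (RingHom.injective_iff_ker_eq_bot _).1 hinj
      · intro v _ b hb
        have hb0 : b = 0 := hinj (hb.trans (map_zero ψ).symm)
        rw [hb0, map_zero]
        exact Ideal.zero_mem _
    | succ i ih =>
      intro hi
      obtain ⟨L, _, _, ψL, hfl, hker, hsupp, hcodL, hpsi⟩ := ih (by omega)
      have hp : (qI f (i + 1)).IsPrime := isPrime_qI hR hi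
      obtain ⟨L', _, _, ψL', hfl', hker'⟩ := exists_model (k := k) (qI f (i + 1))
      have hfi : ψL (f ⟨i, hi⟩) ≠ 0 := by
        intro h0
        have h1 : f ⟨i, hi⟩ ∈ RingHom.ker ψL := h0
        rw [hker] at h1
        exact notMem_qI hR ⟨i, hi⟩ h1
      obtain ⟨g1, g2, g3⟩ := D.step G ψL ψL' hfl hfl' (f ⟨i, hi⟩) hfi (by
        rw [hker', hker]
        exact qI_succ f ⟨i, hi⟩) (C i) (C (i + 1)) hsupp hcodL (hC ⟨i, hi⟩)
      exact ⟨L', inferInstance, inferInstance, ψL', hfl', hker', g1, g2, g3 e hpsi⟩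
  obtain ⟨L, _, _, ψL, hfl, hker, -, hcodL, hpsi⟩ := main d le_rfl
  obtain ⟨j, hj, hjψ⟩ := exists_fieldIso ψL ε hfl (fracLike_of_field ε) (by
    rw [hker, qI_full, hf, ker_eval])
  have hfin := D.psi_iso j hj ((C d).comapDomain _ (bcPt_injective (fracLike_of_field ε)).injOn)
    ((C d).comapDomain _ (bcPt_injective hfl).injOn) (fun P => ?_) (fun P hP => ?_) e hpsi
  · rw [hfin]
    rfl
  · rw [Finsupp.comapDomain_apply, Finsupp.comapDomain_apply, ← bcPt_comp, hjψ]
  · rw [Finsupp.comapDomain_apply] at hP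
    obtain ⟨l, hl, hl2⟩ := exists_chain (bc 𝒜 L) (hcodL P hP)
    exact dimLE_of_chain (c := 2) (d := 2) (G.dim4 L) l hl2.ge fun Q hQ => hl ▸ hQ

/-- Module B7c: a non-square stays a non-square in the field of fractions of a regular local
ring with a rational point. -/
theorem not_isSquare_frac {B K : Type} [CommRing B] [IsLocalRing B]
    [IsNoetherianRing B] [Algebra k B] [Field K] [Algebra k K] (ψ : B →ₐ[k] K)
    (hψ : FracLike ψ) (hinj : Function.Injective ψ) (ε : B →ₐ[k] k) {d : ℕ} (f : Fin d → B)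
    (hf : Ideal.span (Set.range f) = maximalIdeal B) (hd : ringKrullDim B = d)
    (a : k) (ha : ¬ IsSquare a) : ¬ IsSquare (algebraMap k K a) := by
  intro hsq
  apply ha
  have hR : RSP d B f := rsp_of hf hd
  have main : ∀ i, i ≤ d → ∃ (L : Type) (_ : Field L) (_ : Algebra k L) (ψL : B →ₐ[k] L),
      FracLike ψL ∧ RingHom.ker ψL = qI f i ∧ IsSquare (algebraMap k L a) := by
    intro i
    induction i with
    | zero =>
      intro _
      refine ⟨K, inferInstance, inferInstance, ψ, hψ, ?_, hsq⟩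
      rw [qI_zero]
      exact (RingHom.injective_iff_ker_eq_bot _).1 hinj
    | succ i ih =>
      intro hi
      obtain ⟨L, _, _, ψL, hfl, hker, c, hc⟩ := ih (by omega)
      have hp : (qI f (i + 1)).IsPrime := isPrime_qI hR hi
      obtain ⟨L', _, _, ψL', hfl', hker'⟩ := exists_model (k := k) (qI f (i + 1))
      have hfi : ψL (f ⟨i, hi⟩) ≠ 0 := by
        intro h0
        have h1 : f ⟨i, hi⟩ ∈ RingHom.ker ψL := h0
        rw [hker] at h1
        exact notMem_qI hR ⟨i, hi⟩ h1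
      obtain ⟨O, _, _, _, _, χ, ι, π, hιχ, hπχ, hflχ, hιinj, hflι, hπs, hkerπ⟩ :=
        exists_dvr ψL ψL' hfl hfl' (f ⟨i, hi⟩) hfi (by
          rw [hker', hker]
          exact qI_succ f ⟨i, hi⟩)
      obtain ⟨c', -, hc'⟩ := exists_root (u := algebraMap k O a) (c := c) hιinj hflι (by
        rw [AlgHom.commutes, hc, pow_two])
      refine ⟨L', inferInstance, inferInstance, ψL', hfl', hker', π c', ?_⟩
      rw [← map_mul, ← pow_two, hc', AlgHom.commutes]
  obtain ⟨L, _, _, ψL, hfl, hker, c, hc⟩ := main d le_rfl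
  obtain ⟨j, hj, hjψ⟩ := exists_fieldIso ψL ε hfl (fracLike_of_field ε) (by
    rw [hker, qI_full, hf, ker_eval])
  refine ⟨j c, ?_⟩
  rw [← map_mul, ← hc, AlgHom.commutes]
  rfl

end Pool.Agent.SSF.Br
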