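import Pool.Agent.SSF.Br.Gr

/-!
# Devissage for functions on homogeneous ideals

Lengths at the points of `Proj` are additive along `0 → A/(I : r) → A/I → A/(I + r) → 0`, and a
function on homogeneous ideals with that additivity which vanishes in low dimension is the product
of its values at the points of top dimension, with the lengths as exponents.
-/

set_option autoImplicit false

namespace Pool.Agent.SSF.Br

open AlgebraicGeometry TensorProduct HomogeneousLocalization

/-- Additivity of the length of `S / J` along a multiplication. -/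
theorem length_quot_add {S : Type*} [CommRing S] (J J' K : Ideal S) (w : S)
    (h1 : ∀ z, z ∈ J' ↔ w * z ∈ J) (h2 : K = J ⊔ Ideal.span {w}) :
    Module.length S (S ⧸ J) = Module.length S (S ⧸ J') + Module.length S (S ⧸ K) := by
  subst h2
  let f : (S ⧸ J') →ₗ[S] (S ⧸ J) := Submodule.mapQ J' J (LinearMap.mulLeft S w) (by
    intro z hz
    exact (h1 z).1 hz)
  let g : (S ⧸ J) →ₗ[S] (S ⧸ (J ⊔ Ideal.span {w})) := Submodule.mapQ J (J ⊔ Ideal.span {w})
    LinearMap.id (by
      intro z hz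
      exact Ideal.mem_sup_left hz)
  refine Module.length_eq_add_of_exact f g ?_ ?_ ?_
  · rw [← LinearMap.ker_eq_bot, LinearMap.ker_eq_bot']
    intro z hz
    obtain ⟨z, rfl⟩ := Submodule.Quotient.mk_surjective _ z
    rw [Submodule.Quotient.mk_eq_zero]
    rw [h1]
    have : Submodule.Quotient.mk (p := J) (w * z) = 0 := hz
    rwa [Submodule.Quotient.mk_eq_zero] at this
  · intro z
    obtain ⟨z, rfl⟩ := Submodule.Quotient.mk_surjective _ z
    exact ⟨Submodule.Quotient.mk z, rfl⟩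
  · intro z
    obtain ⟨z, rfl⟩ := Submodule.Quotient.mk_surjective _ z
    constructor
    · intro hz
      have hz' : Submodule.Quotient.mk (p := J ⊔ Ideal.span {w}) z = 0 := hz
      rw [Submodule.Quotient.mk_eq_zero] at hz'
      obtain ⟨a, ha, b, hb, hab⟩ := Submodule.mem_sup.1 hz'
      obtain ⟨c, rfl⟩ := Ideal.mem_span_singleton'.1 hb
      refine ⟨Submodule.Quotient.mk c, ?_⟩
      change Submodule.Quotient.mk (p := J) (w * c) = Submodule.Quotient.mk z
      rw [Submodule.Quotient.eq]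
      have : w * c - z = -a := by rw [← hab]; ring
      rw [this]
      exact J.neg_mem ha
    · rintro ⟨c, hc⟩
      obtain ⟨c, rfl⟩ := Submodule.Quotient.mk_surjective _ c
      have hc' : Submodule.Quotient.mk (p := J) (w * c) = Submodule.Quotient.mk z := hc
      rw [Submodule.Quotient.eq] at hc'
      change Submodule.Quotient.mk (p := J ⊔ Ideal.span {w}) z = 0
      rw [Submodule.Quotient.mk_eq_zero]
      have : z = -(w * c - z) + c * w := by ring
      rw [this]
      exact add_mem (neg_mem (Ideal.mem_sup_left hc'))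
        (Ideal.mem_sup_right (Ideal.mul_mem_left _ _ (Ideal.mem_span_singleton_self w)))

section Loc

variable {σ A : Type*} [CommRing A] [SetLike σ A] [AddSubgroupClass σ A] (𝒜 : ℕ → σ)
  [GradedRing 𝒜]

/-- Some homogeneous component of an element outside a homogeneous ideal is outside. -/
theorem exists_component_notMem {P : Ideal A} {t : A} (ht : t ∉ P) :
    ∃ j, (DirectSum.decompose 𝒜 t j : A) ∉ P := by
  by_contra hcon
  push Not at hcon
  apply ht
  classical
  rw [← DirectSum.sum_support_decompose 𝒜 t]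
  exact Ideal.sum_mem _ fun j _ => hcon j

variable {𝒜}

/-- If `t * a ∈ I` with `a` homogeneous and `I` homogeneous, then so for the components of `t`. -/
theorem component_mul_mem {I : Ideal A} (hI : I.IsHomogeneous 𝒜) {i : ℕ} {a t : A}
    (ha : a ∈ 𝒜 i) (h : t * a ∈ I) (j : ℕ) : (DirectSum.decompose 𝒜 t j : A) * a ∈ I := by
  have h1 := hI (j + i) h
  rwa [DirectSum.coe_decompose_mul_add_of_right_mem 𝒜 ha] at h1

/-- Membership in the localised ideal. -/
theorem mem_locIdeal_iff {I : Ideal A} (hI : I.IsHomogeneous 𝒜) (P : ProjectiveSpectrum 𝒜)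
    (c : NumDenSameDeg 𝒜 (idl 𝒜 P).primeCompl) :
    HomogeneousLocalization.mk c ∈ locIdeal 𝒜 I P ↔
      ∃ j, ∃ t ∈ 𝒜 j, t ∉ idl 𝒜 P ∧ t * (c.num : A) ∈ I := by
  unfold locIdeal
  rw [Ideal.mem_comap, HomogeneousLocalization.algebraMap_apply, HomogeneousLocalization.val_mk,
    Localization.mk_eq_mk', IsLocalization.mk'_mem_map_algebraMap_iff]
  constructor
  · rintro ⟨t, ht, hta⟩
    obtain ⟨j, hj⟩ := exists_component_notMem 𝒜 (P := idl 𝒜 P) ht
    exact ⟨j, _, SetLike.coe_mem _, hj, component_mul_mem hI c.num.2 hta j⟩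
  · rintro ⟨j, t, -, ht, hta⟩
    exact ⟨t, ht, hta⟩

/-- Elements outside `P` in degrees differing by a given number. -/
theorem exists_shift (P : ProjectiveSpectrum 𝒜)
    (hgen : ∃ i, ∃ s ∈ 𝒜 i, ∃ t ∈ 𝒜 (i + 1), s ∉ idl 𝒜 P ∧ t ∉ idl 𝒜 P) (j : ℕ) :
    ∃ m, ∃ v ∈ 𝒜 m, ∃ u ∈ 𝒜 (m + j), v ∉ idl 𝒜 P ∧ u ∉ idl 𝒜 P := by
  obtain ⟨i, s, hs, t, ht, hsP, htP⟩ := hgen
  refine ⟨j • i, s ^ j, SetLike.pow_mem_graded j hs, t ^ j, ?_, ?_, ?_⟩
  · have h := SetLike.pow_mem_graded (A := 𝒜) j ht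
    have e : j • i + j = j • (i + 1) := by simp [Nat.mul_add]
    rw [e]
    exact h
  · exact fun h => hsP (P.isPrime.mem_of_pow_mem _ h)
  · exact fun h => htP (P.isPrime.mem_of_pow_mem _ h)

/-- The colon ideal of a homogeneous ideal by a homogeneous element is homogeneous. -/
theorem isHomogeneous_colon {I : Ideal A} (hI : I.IsHomogeneous 𝒜) {i : ℕ} {r : A}
    (hr : r ∈ 𝒜 i) : (I.colon (Ideal.span {r})).IsHomogeneous 𝒜 := by
  intro j x hx
  rw [Submodule.mem_colon] at hx ⊢
  intro s hs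
  obtain ⟨c, rfl⟩ := Ideal.mem_span_singleton'.1 hs
  have h1 : x * r ∈ I := hx r (Ideal.mem_span_singleton_self r)
  have h2 := component_mul_mem hI hr h1 j
  rw [smul_eq_mul, mul_left_comm]
  exact Ideal.mul_mem_left _ _ h2

theorem mem_colon_span {I : Ideal A} {r x : A} : x ∈ I.colon (Ideal.span {r} : Set A) ↔
    x * r ∈ I := by
  rw [Submodule.mem_colon]
  constructor
  · intro h
    exact h r (Ideal.mem_span_singleton_self r)
  · intro h s hs
    obtain ⟨c, rfl⟩ := Ideal.mem_span_singleton'.1 hs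
    rw [smul_eq_mul, mul_left_comm]
    exact Ideal.mul_mem_left _ _ h

theorem isHomogeneous_sup_span {I : Ideal A} (hI : I.IsHomogeneous 𝒜) {i : ℕ} {r : A}
    (hr : r ∈ 𝒜 i) : (I ⊔ Ideal.span {r}).IsHomogeneous 𝒜 :=
  hI.sup (Ideal.homogeneous_span _ _ (by
    rintro x rfl
    exact ⟨i, hr⟩))

/-- Additivity of lengths. -/
theorem len_colon_add {I : Ideal A} (hI : I.IsHomogeneous 𝒜) {i : ℕ} {r : A} (hr : r ∈ 𝒜 i)
    (P : ProjectiveSpectrum 𝒜)
    (hgen : ∃ i, ∃ s ∈ 𝒜 i, ∃ t ∈ 𝒜 (i + 1), s ∉ idl 𝒜 P ∧ t ∉ idl 𝒜 P) :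
    len 𝒜 I P = len 𝒜 (I.colon (Ideal.span {r})) P + len 𝒜 (I ⊔ Ideal.span {r}) P := by
  obtain ⟨m, v, hv, u, hu, hvP, huP⟩ := exists_shift P hgen i
  have hrv : r * v ∈ 𝒜 (m + i) := by
    have := SetLike.mul_mem_graded hr hv
    rwa [add_comm] at this
  let c0 : NumDenSameDeg 𝒜 (idl 𝒜 P).primeCompl := ⟨m + i, ⟨r * v, hrv⟩, ⟨u, hu⟩, huP⟩
  let w : LR 𝒜 P := HomogeneousLocalization.mk c0
  refine length_quot_add _ _ _ w ?_ ?_
  · intro z
    obtain ⟨c, rfl⟩ := HomogeneousLocalization.mk_surjective z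
    have hw : w * HomogeneousLocalization.mk c = HomogeneousLocalization.mk (c0 * c) := rfl
    rw [hw, mem_locIdeal_iff hI, mem_locIdeal_iff (isHomogeneous_colon hI hr)]
    constructor
    · rintro ⟨j, t, ht, htP, h⟩
      refine ⟨j, t, ht, htP, ?_⟩
      rw [mem_colon_span] at h
      have e : t * ((c0 * c).num : A) = (t * (c.num : A) * r) * v := by
        rw [NumDenSameDeg.num_mul]
        change t * (r * v * (c.num : A)) = _
        ring
      rw [e]
      exact Ideal.mul_mem_right _ _ h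
    · rintro ⟨j, t, ht, htP, h⟩
      refine ⟨j + m, t * v, SetLike.mul_mem_graded ht hv, ?_, ?_⟩
      · intro h'
        rcases P.isPrime.mem_or_mem h' with h' | h'
        · exact htP h'
        · exact hvP h'
      · rw [mem_colon_span]
        have e : t * ((c0 * c).num : A) = t * v * (c.num : A) * r := by
          rw [NumDenSameDeg.num_mul]
          change t * (r * v * (c.num : A)) = _
          ring
        rwa [e] at h
  · apply le_antisymm
    · intro z hz
      obtain ⟨c, rfl⟩ := HomogeneousLocalization.mk_surjective z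
      rw [mem_locIdeal_iff (isHomogeneous_sup_span hI hr)] at hz
      obtain ⟨j, t, ht, htP, h⟩ := hz
      obtain ⟨b, hb, b₂, hb₂, hsum⟩ := Submodule.mem_sup.1 h
      obtain ⟨c', rfl⟩ := Ideal.mem_span_singleton'.1 hb₂
      have hta : t * (c.num : A) ∈ 𝒜 (j + c.deg) := SetLike.mul_mem_graded ht c.num.2
      have hcomp : (DirectSum.decompose 𝒜 b (j + c.deg) : A) +
          (DirectSum.decompose 𝒜 (c' * r) (j + c.deg) : A) = t * (c.num : A) := by
        rw [← DirectSum.decompose_of_mem_same 𝒜 hta, ← hsum, DirectSum.decompose_add]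
        rfl
      have hbI : (DirectSum.decompose 𝒜 b (j + c.deg) : A) ∈ I := hI _ hb
      by_cases hle : i ≤ j + c.deg
      · rw [DirectSum.coe_decompose_mul_of_right_mem_of_le 𝒜 hr hle] at hcomp
        set b' : A := (DirectSum.decompose 𝒜 b (j + c.deg) : A) with hb'
        obtain ⟨c'', hc''⟩ : ∃ c'' : 𝒜 (j + c.deg - i), DirectSum.decompose 𝒜 c' (j + c.deg - i) =
          c'' := ⟨_, rfl⟩
        rw [hc''] at hcomp
        have hn : u * (c'' : A) ∈ 𝒜 (m + (j + c.deg)) := by
          have := SetLike.mul_mem_graded hu c''.2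
          have e : m + i + (j + c.deg - i) = m + (j + c.deg) := by omega
          rwa [e] at this
        have hdd : v * (t * (c.den : A)) ∈ 𝒜 (m + (j + c.deg)) :=
          SetLike.mul_mem_graded hv (SetLike.mul_mem_graded ht c.den.2)
        have hdP : v * (t * (c.den : A)) ∈ (idl 𝒜 P).primeCompl :=
          Submonoid.mul_mem _ hvP (Submonoid.mul_mem _ htP c.den_mem)
        let c1 : NumDenSameDeg 𝒜 (idl 𝒜 P).primeCompl :=
          ⟨m + (j + c.deg), ⟨u * (c'' : A), hn⟩, ⟨v * (t * (c.den : A)), hdd⟩, hdP⟩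
        have key : HomogeneousLocalization.mk c - w * HomogeneousLocalization.mk c1 ∈
            locIdeal 𝒜 I P := by
          unfold locIdeal
          rw [Ideal.mem_comap, HomogeneousLocalization.algebraMap_apply,
            HomogeneousLocalization.val_sub, HomogeneousLocalization.val_mul]
          simp only [w, HomogeneousLocalization.val_mk, Localization.mk_eq_mk']
          set α := algebraMap A (Localization.AtPrime (idl 𝒜 P)) with hα
          have hu1 : IsUnit (α (t * (c.den : A))) :=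
            IsLocalization.map_units (Localization.AtPrime (idl 𝒜 P))
              (⟨t * (c.den : A), Submonoid.mul_mem _ htP c.den_mem⟩ : (idl 𝒜 P).primeCompl)
          have hu2 : IsUnit (α (v * u)) :=
            IsLocalization.map_units (Localization.AtPrime (idl 𝒜 P))
              (⟨v * u, Submonoid.mul_mem _ hvP huP⟩ : (idl 𝒜 P).primeCompl)
          rw [← Ideal.mul_unit_mem_iff_mem _ hu1]
          have e1 := IsLocalization.mk'_spec (Localization.AtPrime (idl 𝒜 P)) (c.num : A)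
            (⟨(c.den : A), c.den_mem⟩ : (idl 𝒜 P).primeCompl)
          have e2 := IsLocalization.mk'_spec (Localization.AtPrime (idl 𝒜 P)) (c0.num : A)
            (⟨(c0.den : A), c0.den_mem⟩ : (idl 𝒜 P).primeCompl)
          have e3 := IsLocalization.mk'_spec (Localization.AtPrime (idl 𝒜 P)) (c1.num : A)
            (⟨(c1.den : A), c1.den_mem⟩ : (idl 𝒜 P).primeCompl)
          have e4 : b' ∈ I := hbI
          have e5 := Ideal.mem_map_of_mem α e4
          have e6 : b' = t * (c.num : A) - c'' * r := by rw [← hcomp]; ring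
          rw [e6] at e5
          change _ * α (c.den : A) = α (c.num : A) at e1
          change _ * α u = α (r * v) at e2
          change _ * α (v * (t * (c.den : A))) = α (u * (c'' : A)) at e3
          set x1 := IsLocalization.mk' (Localization.AtPrime (idl 𝒜 P)) (c.num : A)
            (⟨(c.den : A), c.den_mem⟩ : (idl 𝒜 P).primeCompl) with hx1
          set x2 := IsLocalization.mk' (Localization.AtPrime (idl 𝒜 P)) (c0.num : A)
            (⟨(c0.den : A), c0.den_mem⟩ : (idl 𝒜 P).primeCompl) with hx2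
          set x3 := IsLocalization.mk' (Localization.AtPrime (idl 𝒜 P)) (c1.num : A)
            (⟨(c1.den : A), c1.den_mem⟩ : (idl 𝒜 P).primeCompl) with hx3
          have e7 : (x1 - x2 * x3) * α (t * (c.den : A)) =
              α (t * (c.num : A) - c'' * r) := by
            apply hu2.mul_right_cancel
            simp only [map_mul, map_sub] at e1 e2 e3 ⊢
            linear_combination (α t * α v * α u) * e1 -
              (α (c'' : A) * α u) * e2 - (x2 * α u) * e3
          rw [e7]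
          exact e5
        have e : HomogeneousLocalization.mk c =
            (HomogeneousLocalization.mk c - w * HomogeneousLocalization.mk c1) +
              HomogeneousLocalization.mk c1 * w := by ring
        rw [e]
        exact add_mem (Ideal.mem_sup_left key)
          (Ideal.mem_sup_right (Ideal.mul_mem_left _ _ (Ideal.mem_span_singleton_self w)))
      · rw [DirectSum.coe_decompose_mul_of_right_mem_of_not_le 𝒜 hr hle, add_zero] at hcomp
        refine Ideal.mem_sup_left ?_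
        rw [mem_locIdeal_iff hI]
        exact ⟨j, t, ht, htP, hcomp ▸ hbI⟩
    · refine sup_le ?_ ?_
      · intro z hz
        obtain ⟨c, rfl⟩ := HomogeneousLocalization.mk_surjective z
        rw [mem_locIdeal_iff hI] at hz
        rw [mem_locIdeal_iff (isHomogeneous_sup_span hI hr)]
        obtain ⟨j, t, ht, htP, h⟩ := hz
        exact ⟨j, t, ht, htP, Ideal.mem_sup_left h⟩
      · rw [Ideal.span_singleton_le_iff_mem, mem_locIdeal_iff (isHomogeneous_sup_span hI hr)]
        refine ⟨0, 1, SetLike.GradedOne.one_mem, ?_, ?_⟩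
        · exact (Ideal.ne_top_iff_one _).1 P.isPrime.ne_top
        · rw [one_mul]
          exact Ideal.mem_sup_right (Ideal.mul_mem_right _ _ (Ideal.mem_span_singleton_self r))

theorem exists_homog_notMem {I : Ideal A} (hI : I.IsHomogeneous 𝒜) {P : Ideal A}
    (h : ¬ I ≤ P) : ∃ j, ∃ t ∈ 𝒜 j, t ∈ I ∧ t ∉ P := by
  obtain ⟨t, ht, htP⟩ := SetLike.not_le_iff_exists.1 h
  obtain ⟨j, hj⟩ := exists_component_notMem 𝒜 htP
  exact ⟨j, _, SetLike.coe_mem _, hI j ht, hj⟩

theorem locIdeal_eq_top_iff {I : Ideal A} (hI : I.IsHomogeneous 𝒜) (P : ProjectiveSpectrum 𝒜) :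
    locIdeal 𝒜 I P = ⊤ ↔ ¬ I ≤ idl 𝒜 P := by
  have h1 : (1 : LR 𝒜 P) = HomogeneousLocalization.mk 1 := rfl
  rw [Ideal.eq_top_iff_one, h1, mem_locIdeal_iff hI]
  constructor
  · rintro ⟨j, t, ht, htP, h⟩ hle
    rw [NumDenSameDeg.num_one, mul_one] at h
    exact htP (hle h)
  · intro h
    obtain ⟨j, t, ht, htI, htP⟩ := exists_homog_notMem hI h
    exact ⟨j, t, ht, htP, by rwa [NumDenSameDeg.num_one, mul_one]⟩

theorem locIdeal_mono {I J : Ideal A} (h : I ≤ J) (P : ProjectiveSpectrum 𝒜) :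
    locIdeal 𝒜 I P ≤ locIdeal 𝒜 J P :=
  Ideal.comap_mono (Ideal.map_mono h)

theorem len_eq_zero_iff {I : Ideal A} (hI : I.IsHomogeneous 𝒜) (P : ProjectiveSpectrum 𝒜) :
    len 𝒜 I P = 0 ↔ ¬ I ≤ idl 𝒜 P := by
  rw [← locIdeal_eq_top_iff hI P]
  unfold len
  rw [Module.length_eq_zero_iff]
  exact Ideal.Quotient.subsingleton_iff

/-- A bigger ideal has smaller lengths. -/
theorem len_anti {I J : Ideal A} (h : I ≤ J) (P : ProjectiveSpectrum 𝒜) :
    len 𝒜 J P ≤ len 𝒜 I P :=
  Module.length_le_of_surjective (Submodule.factor (locIdeal_mono h P))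
    (Submodule.factor_surjective _)

theorem mem_locIdeal_prime_iff {P Q : ProjectiveSpectrum 𝒜} (h : Q ≤ P)
    (c : NumDenSameDeg 𝒜 (idl 𝒜 P).primeCompl) :
    HomogeneousLocalization.mk c ∈ locIdeal 𝒜 (idl 𝒜 Q) P ↔ (c.num : A) ∈ idl 𝒜 Q := by
  rw [mem_locIdeal_iff Q.asHomogeneousIdeal.isHomogeneous]
  constructor
  · rintro ⟨j, t, ht, htP, h'⟩
    exact (Q.isPrime.mem_or_mem h').resolve_left fun h'' => htP (h h'')
  · intro h'
    exact ⟨0, 1, SetLike.GradedOne.one_mem, (Ideal.ne_top_iff_one _).1 P.isPrime.ne_top,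
      by rwa [one_mul]⟩

theorem locIdeal_isPrime {P Q : ProjectiveSpectrum 𝒜} (h : Q ≤ P) :
    (locIdeal 𝒜 (idl 𝒜 Q) P).IsPrime := by
  refine ⟨?_, ?_⟩
  · rw [Ne, locIdeal_eq_top_iff Q.asHomogeneousIdeal.isHomogeneous, not_not]
    exact h
  · intro x y hxy
    obtain ⟨c, rfl⟩ := HomogeneousLocalization.mk_surjective x
    obtain ⟨c', rfl⟩ := HomogeneousLocalization.mk_surjective y
    rw [← HomogeneousLocalization.mk_mul, mem_locIdeal_prime_iff h, NumDenSameDeg.num_mul] at hxy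
    rw [mem_locIdeal_prime_iff h, mem_locIdeal_prime_iff h]
    exact Q.isPrime.mem_or_mem hxy

theorem locIdeal_self_isMaximal (P : ProjectiveSpectrum 𝒜) :
    (locIdeal 𝒜 (idl 𝒜 P) P).IsMaximal := by
  refine ⟨⟨(locIdeal_isPrime (le_refl P)).ne_top, ?_⟩⟩
  intro J hJ
  obtain ⟨x, hx, hxP⟩ := SetLike.exists_of_lt hJ
  refine Ideal.eq_top_of_isUnit_mem J hx ?_
  obtain ⟨c, rfl⟩ := HomogeneousLocalization.mk_surjective x
  rw [mem_locIdeal_prime_iff le_rfl] at hxP
  rw [← HomogeneousLocalization.isUnit_iff_isUnit_val, HomogeneousLocalization.val_mk,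
    Localization.mk_eq_mk', IsLocalization.AtPrime.isUnit_mk'_iff]
  exact hxP

theorem len_self (P : ProjectiveSpectrum 𝒜) : len 𝒜 (idl 𝒜 P) P = 1 := by
  unfold len
  rw [Module.length_eq_one_iff, isSimpleModule_iff_isCoatom]
  exact (locIdeal_self_isMaximal P).out

/-- The length is infinite at a point which is not minimal. -/
theorem len_eq_top {I : Ideal A} {P Q : ProjectiveSpectrum 𝒜} (hIQ : I ≤ idl 𝒜 Q)
    (hQP : Q < P)
    (hgen : ∃ i, ∃ s ∈ 𝒜 i, ∃ t ∈ 𝒜 (i + 1), s ∉ idl 𝒜 P ∧ t ∉ idl 𝒜 P) :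
    len 𝒜 I P = ⊤ := by
  by_contra hne
  have hfin : len 𝒜 (idl 𝒜 Q) P ≠ ⊤ := ne_top_of_le_ne_top hne (len_anti hIQ P)
  unfold len at hfin
  rw [Module.length_ne_top_iff, isFiniteLength_iff_isNoetherian_isArtinian] at hfin
  have h1 := hfin.2
  have h2 : IsArtinianRing (LR 𝒜 P ⧸ locIdeal 𝒜 (idl 𝒜 Q) P) :=
    isArtinian_of_tower (LR 𝒜 P) h1
  have h3 := locIdeal_isPrime hQP.le
  have h4 : IsField (LR 𝒜 P ⧸ locIdeal 𝒜 (idl 𝒜 Q) P) := IsArtinianRing.isField_of_isDomain _
  have h5 : (locIdeal 𝒜 (idl 𝒜 Q) P).IsMaximal := Ideal.Quotient.maximal_of_isField _ h4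
  have h6 : locIdeal 𝒜 (idl 𝒜 Q) P = locIdeal 𝒜 (idl 𝒜 P) P :=
    h5.eq_of_le (locIdeal_self_isMaximal P).ne_top (locIdeal_mono hQP.le P)
  have h7 : ¬ idl 𝒜 P ≤ idl 𝒜 Q := fun h => (not_le_of_gt hQP) h
  obtain ⟨j, x, hx, hxP, hxQ⟩ := exists_homog_notMem P.asHomogeneousIdeal.isHomogeneous h7
  obtain ⟨m, v, hv, u, hu, hvP, huP⟩ := exists_shift P hgen j
  have hxv : x * v ∈ 𝒜 (m + j) := by
    have := SetLike.mul_mem_graded hx hv
    rwa [add_comm] at this
  let c : NumDenSameDeg 𝒜 (idl 𝒜 P).primeCompl := ⟨m + j, ⟨x * v, hxv⟩, ⟨u, hu⟩, huP⟩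
  have h8 : HomogeneousLocalization.mk c ∈ locIdeal 𝒜 (idl 𝒜 P) P :=
    (mem_locIdeal_prime_iff le_rfl c).2 (Ideal.mul_mem_right _ _ hxP)
  rw [← h6, mem_locIdeal_prime_iff hQP.le] at h8
  rcases Q.isPrime.mem_or_mem h8 with h9 | h9
  · exact hxQ h9
  · exact hvP (hQP.le h9)

/-- A homogeneous ideal which is not prime can be cut by a homogeneous element. -/
theorem exists_cut {I : Ideal A} (hI : I.IsHomogeneous 𝒜) (htop : I ≠ ⊤) (hp : ¬ I.IsPrime) :
    ∃ i, ∃ r ∈ 𝒜 i, I < I.colon (Ideal.span {r} : Set A) ∧ I < I ⊔ Ideal.span {r} := by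
  by_contra hcon
  push Not at hcon
  apply hp
  refine hI.isPrime_of_homogeneous_mem_or_mem htop ?_
  rintro x y ⟨i, hx⟩ ⟨j, hy⟩ hxy
  by_contra hxy'
  push Not at hxy'
  have h1 : I < I.colon (Ideal.span {y} : Set A) := by
    refine lt_of_le_of_ne ?_ ?_
    · intro z hz
      rw [mem_colon_span]
      exact Ideal.mul_mem_right _ _ hz
    · intro h
      apply hxy'.1
      rw [h, mem_colon_span]
      exact hxy
  refine hcon j y hy h1 (lt_of_le_of_ne le_sup_left ?_)
  intro h
  apply hxy'.2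
  rw [h]
  exact Ideal.mem_sup_right (Ideal.mem_span_singleton_self y)

/-- The length is finite at minimal points. -/
theorem len_ne_top [IsNoetherianRing A] (P : ProjectiveSpectrum 𝒜)
    (hgen : ∃ i, ∃ s ∈ 𝒜 i, ∃ t ∈ 𝒜 (i + 1), s ∉ idl 𝒜 P ∧ t ∉ idl 𝒜 P) (I : Ideal A)
    (hI : I.IsHomogeneous 𝒜) (hmin : ∀ Q : ProjectiveSpectrum 𝒜, I ≤ idl 𝒜 Q → Q ≤ P → Q = P) :
    len 𝒜 I P ≠ ⊤ := by
  induction I using IsNoetherian.induction with
  | _ I ih =>
    by_cases htop : I ≤ idl 𝒜 P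
    · by_cases hp : Ideal.IsPrime I
      · have hirr : ¬ HomogeneousIdeal.irrelevant 𝒜 ≤ (⟨I, hI⟩ : HomogeneousIdeal 𝒜) :=
          fun h => P.not_irrelevant_le (h.trans htop)
        have h1 := hmin ⟨⟨I, hI⟩, hp, hirr⟩ le_rfl htop
        have h2 : I = idl 𝒜 P := by rw [← h1]
        rw [h2, len_self]
        simp
      · have hne : I ≠ ⊤ := by
          rintro rfl
          exact P.isPrime.ne_top (top_le_iff.1 htop)
        obtain ⟨i, r, hr, h1, h2⟩ := exists_cut hI hne hp
        rw [len_colon_add hI hr P hgen]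
        have h3 := ih _ h1 (isHomogeneous_colon hI hr) (fun Q hQ hQP => hmin Q (h1.le.trans hQ) hQP)
        have h4 := ih _ h2 (isHomogeneous_sup_span hI hr)
          (fun Q hQ hQP => hmin Q (h2.le.trans hQ) hQP)
        exact WithTop.add_ne_top.2 ⟨h3, h4⟩
    · rw [(len_eq_zero_iff hI P).2 htop]
      simp

theorem mem_minimalPrimes {I : Ideal A} (hI : I.IsHomogeneous 𝒜) {P : ProjectiveSpectrum 𝒜}
    (hIP : I ≤ idl 𝒜 P)
    (hmin : ∀ Q : ProjectiveSpectrum 𝒜, I ≤ idl 𝒜 Q → Q ≤ P → Q = P) :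
    idl 𝒜 P ∈ I.minimalPrimes := by
  refine ⟨⟨P.isPrime, hIP⟩, ?_⟩
  rintro q ⟨hq, hIq⟩ hqP
  have h1 : (q.homogeneousCore 𝒜).toIdeal.IsPrime := hq.homogeneousCore
  have h2 : (q.homogeneousCore 𝒜).toIdeal ≤ q := Ideal.toIdeal_homogeneousCore_le 𝒜 q
  have h3 : I ≤ (q.homogeneousCore 𝒜).toIdeal := by
    rw [← hI.toIdeal_homogeneousCore_eq_self]
    exact Ideal.homogeneousCore_mono 𝒜 hIq
  have h4 := hmin ⟨q.homogeneousCore 𝒜, h1,
    fun h => P.not_irrelevant_le (h.trans (h2.trans hqP))⟩ h3 (h2.trans hqP)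
  rw [← h4]
  exact h2

theorem idl_injective : Function.Injective (idl 𝒜) := by
  intro P Q h
  exact ProjectiveSpectrum.ext (HomogeneousIdeal.ext h)

/-- The points at which the length is finite and not zero are finitely many. -/
theorem finite_support_len [IsNoetherianRing A]
    (hgen : ∀ P : ProjectiveSpectrum 𝒜,
      ∃ i, ∃ s ∈ 𝒜 i, ∃ t ∈ 𝒜 (i + 1), s ∉ idl 𝒜 P ∧ t ∉ idl 𝒜 P)
    {I : Ideal A} (hI : I.IsHomogeneous 𝒜) :
    (Function.support fun P : ProjectiveSpectrum 𝒜 => (len 𝒜 I P).toNat).Finite := by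
  refine ((I.finite_minimalPrimes_of_isNoetherianRing A).preimage
    (idl_injective (𝒜 := 𝒜)).injOn).subset ?_
  intro P hP
  rw [Function.mem_support, Ne, ENat.toNat_eq_zero, not_or] at hP
  have h1 : I ≤ idl 𝒜 P := by
    by_contra h
    exact hP.1 ((len_eq_zero_iff hI P).2 h)
  refine mem_minimalPrimes hI h1 fun Q hIQ hQP => ?_
  by_contra hne
  exact hP.2 (len_eq_top hIQ (lt_of_le_of_ne hQP hne) (hgen P))

theorem DimLE.mono_ideal {I J : Ideal A} {d : ℕ} (h : DimLE 𝒜 I d) (hIJ : I ≤ J) :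
    DimLE 𝒜 J d := fun l hl => h l (hIJ.trans hl)

/-- A point of maximal dimension is minimal. -/
theorem eq_of_dimLE {I : Ideal A} {d : ℕ} (hd : DimLE 𝒜 I (d + 1)) {P : ProjectiveSpectrum 𝒜}
    (hP : ¬ DimLE 𝒜 (idl 𝒜 P) d) (Q : ProjectiveSpectrum 𝒜) (hIQ : I ≤ idl 𝒜 Q) (hQP : Q ≤ P) :
    Q = P := by
  by_contra hne
  apply hP
  intro l hl
  have h1 : Q < l.head := lt_of_lt_of_le (lt_of_le_of_ne hQP hne) hl
  have h2 := hd (l.cons Q h1) (by rw [RelSeries.head_cons]; exact hIQ)
  rw [RelSeries.cons_length] at h2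
  omega

/-- Devissage: a function on homogeneous ideals with the additivity of a multiplicity is
determined by its values on the primes of top dimension. -/
theorem devissage [IsNoetherianRing A] {G : Type*} [CommGroup G]
    (hgen : ∀ P : ProjectiveSpectrum 𝒜,
      ∃ i, ∃ s ∈ 𝒜 i, ∃ t ∈ 𝒜 (i + 1), s ∉ idl 𝒜 P ∧ t ∉ idl 𝒜 P)
    (d : ℕ) (φ : Ideal A → G)
    (hadd : ∀ I : Ideal A, I.IsHomogeneous 𝒜 → DimLE 𝒜 I (d + 1) → ∀ i, ∀ r ∈ 𝒜 i,
      φ I = φ (I.colon (Ideal.span {r})) * φ (I ⊔ Ideal.span {r}))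
    (hlow : ∀ I : Ideal A, I.IsHomogeneous 𝒜 → DimLE 𝒜 I d → φ I = 1)
    (I : Ideal A) (hI : I.IsHomogeneous 𝒜) (hd : DimLE 𝒜 I (d + 1)) :
    (Function.support fun P : ProjectiveSpectrum 𝒜 => (len 𝒜 I P).toNat).Finite ∧
      φ I = ∏ᶠ P : ProjectiveSpectrum 𝒜, φ (idl 𝒜 P) ^ (len 𝒜 I P).toNat := by
  refine ⟨finite_support_len hgen hI, ?_⟩
  induction I using IsNoetherian.induction with
  | _ I ih =>
    by_cases hirr : (HomogeneousIdeal.irrelevant 𝒜).toIdeal ≤ I
    · have h0 : ∀ P : ProjectiveSpectrum 𝒜, ¬ I ≤ idl 𝒜 P := fun P h =>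
        P.not_irrelevant_le (hirr.trans h)
      rw [hlow I hI (fun l hl => (h0 _ hl).elim)]
      have h1 : ∀ P : ProjectiveSpectrum 𝒜, φ (idl 𝒜 P) ^ (len 𝒜 I P).toNat = 1 := by
        intro P
        rw [(len_eq_zero_iff hI P).2 (h0 P)]
        simp
      rw [finprod_congr h1, finprod_one]
    · by_cases hp : Ideal.IsPrime I
      · let P0 : ProjectiveSpectrum 𝒜 := ⟨⟨I, hI⟩, hp, hirr⟩
        have hP0 : idl 𝒜 P0 = I := rfl
        rw [finprod_eq_single _ P0]
        · rw [hP0]
          have := len_self P0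
          rw [hP0] at this
          rw [this]
          simp
        · intro P hP
          by_cases hIP : I ≤ idl 𝒜 P
          · have h1 : P0 < P := lt_of_le_of_ne hIP (Ne.symm hP)
            rw [len_eq_top (Q := P0) hP0.ge h1 (hgen P)]
            simp
          · rw [(len_eq_zero_iff hI P).2 hIP]
            simp
      · have hne : I ≠ ⊤ := by
          rintro rfl
          exact hirr le_top
        obtain ⟨i, r, hr, h1, h2⟩ := exists_cut hI hne hp
        have hI1 := isHomogeneous_colon hI hr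
        have hI2 := isHomogeneous_sup_span hI hr
        rw [hadd I hI hd i r hr, ih _ h1 hI1 (hd.mono_ideal h1.le),
          ih _ h2 hI2 (hd.mono_ideal h2.le), ← finprod_mul_distrib]
        · refine finprod_congr fun P => ?_
          rw [← pow_add]
          by_cases hP : DimLE 𝒜 (idl 𝒜 P) d
          · rw [hlow _ P.asHomogeneousIdeal.isHomogeneous hP, one_pow, one_pow]
          · have h3 := len_colon_add hI hr P (hgen P)
            have h4 := len_ne_top P (hgen P) I hI (eq_of_dimLE hd hP)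
            rw [h3] at h4 ⊢
            have h5 := WithTop.add_ne_top.1 h4
            rw [ENat.toNat_add h5.1 h5.2]
        · refine (finite_support_len hgen hI1).subset ?_
          intro P hP h
          apply hP
          change (len 𝒜 _ P).toNat = 0 at h
          change _ ^ (len 𝒜 _ P).toNat = 1
          rw [h, pow_zero]
        · refine (finite_support_len hgen hI2).subset ?_
          intro P hP h
          apply hP
          change (len 𝒜 _ P).toNat = 0 at h
          change _ ^ (len 𝒜 _ P).toNat = 1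
          rw [h, pow_zero]

end Loc

end Pool.Agent.SSF.Br
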