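import Pool.Agent.SSF.Br.Gr

/-!
The dimension of the local ring of `Proj` at a point is the height of the point.
-/

namespace Pool.Agent.SSF.Br

open AlgebraicGeometry HomogeneousLocalization

variable {σ A : Type} [CommRing A] [SetLike σ A] [AddSubgroupClass σ A] (𝒜 : ℕ → σ)
  [GradedRing 𝒜]

/-- The points of the scheme `Proj 𝒜` with the specialization order. -/
def projOrderIso : (Proj 𝒜 : Scheme) ≃o (ProjectiveSpectrum 𝒜)ᵒᵈ where
  toFun x := OrderDual.toDual x
  invFun x := OrderDual.ofDual x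
  map_rel_iff' {a b} := by
    exact (ProjectiveSpectrum.le_iff_mem_closure (𝒜 := 𝒜) b a).trans
      (specializes_iff_mem_closure (x := (show Proj 𝒜 from b)) (y := (show Proj 𝒜 from a))).symm

theorem ringKrullDim_LR (P : ProjectiveSpectrum 𝒜) :
    ringKrullDim (LR 𝒜 P) = Order.height P := by
  have h1 := ringKrullDim_stalk_eq_coheight (X := Proj 𝒜) P
  have h2 := ringKrullDim_eq_of_ringEquiv (Proj.stalkIso' 𝒜 P)
  have h3 : ringKrullDim (LR 𝒜 P) = ringKrullDim ((Proj 𝒜).presheaf.stalk P) := h2.symm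
  rw [h3, h1]
  congr 1
  rw [← Order.coheight_orderIso (projOrderIso 𝒜) P]
  rfl

/-- A chain of points ending at `P`. -/
theorem exists_chain {n : ℕ} {P : ProjectiveSpectrum 𝒜} (h : (n : WithBot ℕ∞) ≤ ringKrullDim (LR 𝒜 P)) :
    ∃ l : LTSeries (ProjectiveSpectrum 𝒜), l.last = P ∧ l.length = n := by
  rw [ringKrullDim_LR] at h
  have h2 : (n : ℕ∞) ≤ Order.height P := by exact_mod_cast h
  exact Order.exists_series_of_le_height P h2

theorem le_dim_of_chain {l : LTSeries (ProjectiveSpectrum 𝒜)} :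
    (l.length : WithBot ℕ∞) ≤ ringKrullDim (LR 𝒜 l.last) := by
  rw [ringKrullDim_LR]
  have := Order.length_le_height (p := l) le_rfl
  exact_mod_cast this

end Pool.Agent.SSF.Br
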