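import Pool.Agent.SSF.Br.Dat
import Pool.Agent.SSF.Br.Dim
import Pool.Agent.SSF.Br.Dev

/-!
# Rational equivalence and functions on homogeneous ideals with the additivity of a multiplicity
(helper71)
-/

namespace Pool.Agent.SSF.Br

open AlgebraicGeometry TensorProduct HomogeneousLocalization

namespace RatX

variable {σ A : Type*} [CommRing A] [SetLike σ A] [AddSubgroupClass σ A] (𝒜 : ℕ → σ)
  [GradedRing 𝒜]

lemma idl_le_iff (P Q : ProjectiveSpectrum 𝒜) : idl 𝒜 P ≤ idl 𝒜 Q ↔ P ≤ Q := Iff.rfl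

lemma idl_lt_iff (P Q : ProjectiveSpectrum 𝒜) : idl 𝒜 P < idl 𝒜 Q ↔ P < Q := by
  rw [lt_iff_le_not_ge, lt_iff_le_not_ge, idl_le_iff, idl_le_iff]

/-- Dimension drops by one on a divisor. -/
lemma dimLE_sup {y : ProjectiveSpectrum 𝒜} {d : ℕ} (hy : DimLE 𝒜 (idl 𝒜 y) (d + 1)) {a : A}
    (ha : a ∉ idl 𝒜 y) : DimLE 𝒜 (idl 𝒜 y ⊔ Ideal.span {a}) d := by
  intro l hl
  have h1 : y < l.head := by
    rw [← idl_lt_iff]
    refine lt_of_le_of_ne (le_sup_left.trans hl) ?_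
    intro h
    apply ha
    rw [h]
    exact hl (Ideal.mem_sup_right (Ideal.mem_span_singleton_self a))
  have h2 := hy (l.cons y h1) (by
    rw [RelSeries.head_cons])
  rw [RelSeries.cons_length] at h2
  omega

lemma mem_of_components (I : Ideal A) (x : A) (h : ∀ i, (DirectSum.decompose 𝒜 x i : A) ∈ I) :
    x ∈ I := by
  classical
  rw [← DirectSum.sum_support_decompose 𝒜 x]
  exact Submodule.sum_mem _ fun i _ => h i

end RatX

open RatX

section Rat

variable {σ A : Type*} [CommRing A] [SetLike σ A] [AddSubgroupClass σ A] (𝒜 : ℕ → σ)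
  [GradedRing 𝒜]

/-- Rational equivalence: only the coefficients at points of dimension `> d` matter. -/
theorem rat_cycle {G : Type*} [CommGroup G] (d : ℕ) (φ : Ideal A → G)
    (hlow : ∀ I : Ideal A, I.IsHomogeneous 𝒜 → DimLE 𝒜 I d → φ I = 1)
    (hdev : ∀ I : Ideal A, I.IsHomogeneous 𝒜 → DimLE 𝒜 I (d + 1) →
      (Function.support fun P : ProjectiveSpectrum 𝒜 => (len 𝒜 I P).toNat).Finite ∧
        φ I = ∏ᶠ P : ProjectiveSpectrum 𝒜, φ (idl 𝒜 P) ^ (len 𝒜 I P).toNat)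
    (y : ProjectiveSpectrum 𝒜) (hy : DimLE 𝒜 (idl 𝒜 y) (d + 2)) {i : ℕ} {a b : A}
    (ha : a ∈ 𝒜 i) (hb : b ∈ 𝒜 i) (hay : a ∉ idl 𝒜 y) (hby : b ∉ idl 𝒜 y)
    (hrat : φ (idl 𝒜 y ⊔ Ideal.span {a}) = φ (idl 𝒜 y ⊔ Ideal.span {b}))
    (c : ProjectiveSpectrum 𝒜 →₀ ℤ)
    (hc : ∀ P, ¬ DimLE 𝒜 (idl 𝒜 P) d → c P =
      ((len 𝒜 (idl 𝒜 y ⊔ Ideal.span {a}) P).toNat : ℤ) -
        ((len 𝒜 (idl 𝒜 y ⊔ Ideal.span {b}) P).toNat : ℤ)) :
    c.prod (fun P m => φ (idl 𝒜 P) ^ m) = 1 := by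
  have hhom : ∀ x ∈ 𝒜 i, (idl 𝒜 y ⊔ Ideal.span {x}).IsHomogeneous 𝒜 := by
    intro x hx
    refine Ideal.IsHomogeneous.sup y.asHomogeneousIdeal.isHomogeneous ?_
    refine Ideal.homogeneous_span 𝒜 _ ?_
    rintro z hz
    rw [Set.mem_singleton_iff.1 hz]
    exact ⟨i, hx⟩
  obtain ⟨hfa, hpa⟩ := hdev (idl 𝒜 y ⊔ Ideal.span {a}) (hhom a ha) (dimLE_sup 𝒜 hy hay)
  obtain ⟨hfb, hpb⟩ := hdev (idl 𝒜 y ⊔ Ideal.span {b}) (hhom b hb) (dimLE_sup 𝒜 hy hby)
  set la : ProjectiveSpectrum 𝒜 → ℕ := fun P => (len 𝒜 (idl 𝒜 y ⊔ Ideal.span {a}) P).toNat with hla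
  set lb : ProjectiveSpectrum 𝒜 → ℕ := fun P => (len 𝒜 (idl 𝒜 y ⊔ Ideal.span {b}) P).toNat with hlb
  have h1 : ∀ P, φ (idl 𝒜 P) ^ (c P) = φ (idl 𝒜 P) ^ (la P) / φ (idl 𝒜 P) ^ (lb P) := by
    intro P
    by_cases hP : DimLE 𝒜 (idl 𝒜 P) d
    · rw [hlow _ P.asHomogeneousIdeal.isHomogeneous hP, one_zpow, one_pow, one_pow, div_one]
    · rw [hc P hP, zpow_sub, zpow_natCast, zpow_natCast, div_eq_mul_inv]
  have h2 : c.prod (fun P m => φ (idl 𝒜 P) ^ m) = ∏ᶠ P, φ (idl 𝒜 P) ^ (c P) := by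
    rw [Finsupp.prod, finprod_eq_prod_of_mulSupport_subset]
    intro P hP
    rw [Finset.mem_coe, Finsupp.mem_support_iff]
    intro h
    apply hP
    show φ (idl 𝒜 P) ^ (c P) = 1
    rw [h, zpow_zero]
  have h3 : ∀ l : ProjectiveSpectrum 𝒜 → ℕ, (Function.support l).Finite →
      (Function.mulSupport fun P => φ (idl 𝒜 P) ^ l P).Finite := by
    intro l hl
    refine hl.subset ?_
    intro P hP h
    apply hP
    show φ (idl 𝒜 P) ^ l P = 1
    have h' : l P = 0 := h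
    rw [h', pow_zero]
  rw [h2, finprod_congr h1, finprod_div_distrib (h3 la hfa) (h3 lb hfb), ← hpa, ← hpb, hrat,
    div_self']

end Rat

/-! ### The functional of a datum on cycles rationally equivalent to zero -/

section Dat

variable {k A : Type} [Field k] [CommRing A] [Algebra k A] {𝒜 : ℕ → Submodule k A}
  [GradedAlgebra 𝒜]

lemma Geom.finiteType (G : Geom 𝒜) : Algebra.FiniteType k A := by
  obtain ⟨s, -, hs⟩ := G.gen
  exact ⟨⟨s, hs⟩⟩

lemma Geom.isNoetherianRing (G : Geom 𝒜) (B : Type) [CommRing B] [Algebra k B]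
    [IsNoetherianRing B] : IsNoetherianRing (B ⊗[k] A) := by
  have := G.finiteType
  exact Algebra.FiniteType.isNoetherianRing B (B ⊗[k] A)

/-- The elements of positive degree lie in the ideal generated by the generators. -/
lemma Geom.mem_span {s : Finset A} (hs1 : ∀ a ∈ s, a ∈ 𝒜 1)
    (hs : Algebra.adjoin k (s : Set A) = ⊤) {i : ℕ} (hi : 0 < i) {a : A} (ha : a ∈ 𝒜 i) :
    a ∈ Ideal.span (s : Set A) := by
  have hJ : (Ideal.span (s : Set A)).IsHomogeneous 𝒜 :=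
    Ideal.homogeneous_span 𝒜 _ fun x hx => ⟨1, hs1 x hx⟩
  have h1 : ∀ x : A, ∃ c : k, x - algebraMap k A c ∈ Ideal.span (s : Set A) := by
    intro x
    have hx : x ∈ Algebra.adjoin k (s : Set A) := by rw [hs]; trivial
    induction hx using Algebra.adjoin_induction with
    | mem x hx => exact ⟨0, by rw [map_zero, sub_zero]; exact Ideal.subset_span hx⟩
    | algebraMap c => exact ⟨c, by rw [sub_self]; exact Submodule.zero_mem _⟩
    | add x y _ _ hx hy =>
      obtain ⟨c, hc⟩ := hx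
      obtain ⟨c', hc'⟩ := hy
      refine ⟨c + c', ?_⟩
      rw [map_add, show x + y - (algebraMap k A c + algebraMap k A c') =
        (x - algebraMap k A c) + (y - algebraMap k A c') by ring]
      exact Submodule.add_mem _ hc hc'
    | mul x y _ _ hx hy =>
      obtain ⟨c, hc⟩ := hx
      obtain ⟨c', hc'⟩ := hy
      refine ⟨c * c', ?_⟩
      rw [map_mul, show x * y - algebraMap k A c * algebraMap k A c' =
        y * (x - algebraMap k A c) + algebraMap k A c * (y - algebraMap k A c') by ring]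
      exact Submodule.add_mem _ (Ideal.mul_mem_left _ _ hc) (Ideal.mul_mem_left _ _ hc')
  obtain ⟨c, hc⟩ := h1 a
  have h2 := hJ i hc
  rw [DirectSum.decompose_sub, DirectSum.sub_apply] at h2
  have h3 : ((DirectSum.decompose 𝒜 (algebraMap k A c)) i : A) = 0 :=
    DirectSum.decompose_of_mem_ne 𝒜 (SetLike.algebraMap_mem_graded 𝒜 c) hi.ne
  have h4 : ((DirectSum.decompose 𝒜 a) i : A) = a := DirectSum.decompose_of_mem_same 𝒜 ha
  have h5 : (((DirectSum.decompose 𝒜 a) i - (DirectSum.decompose 𝒜 (algebraMap k A c)) i : 𝒜 i) : A)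
      = a := by
    rw [AddSubgroupClass.coe_sub, h3, h4, sub_zero]
  rw [h5] at h2
  exact h2

/-- There is an element of degree one outside a given point. -/
lemma Geom.exists_one (G : Geom 𝒜) (B : Type) [CommRing B] [Algebra k B]
    (x : ProjectiveSpectrum (bc 𝒜 B)) : ∃ t ∈ bc 𝒜 B 1, t ∉ idl (bc 𝒜 B) x := by
  obtain ⟨s, hs1, hs⟩ := G.gen
  by_contra h
  push Not at h
  apply x.not_irrelevant_le
  intro a ha
  refine mem_of_components (bc 𝒜 B) (idl (bc 𝒜 B) x) a fun i => ?_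
  rcases Nat.eq_zero_or_pos i with rfl | hi
  · have h2 : (DirectSum.decompose (bc 𝒜 B) a 0 : B ⊗[k] A) = 0 := ha
    rw [h2]
    exact Submodule.zero_mem _
  · have hincl : Ideal.span (s : Set A) ≤ (idl (bc 𝒜 B) x).comap
        (Algebra.TensorProduct.includeRight : A →ₐ[k] B ⊗[k] A) :=
      Ideal.span_le.2 fun c hc => h _ (Submodule.tmul_mem_baseChange_of_mem _ (hs1 c hc))
    have h3 : ∀ z ∈ bc 𝒜 B i, z ∈ idl (bc 𝒜 B) x := by
      intro z hz
      have hz' : z ∈ (𝒜 i).baseChange B := hz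
      clear hz
      rw [Submodule.baseChange_eq_span] at hz'
      induction hz' using Submodule.span_induction with
      | mem w hw =>
        obtain ⟨c, hc, rfl⟩ := hw
        exact hincl (Geom.mem_span hs1 hs hi hc)
      | zero => exact Submodule.zero_mem _
      | add w w' _ _ h5 h6 => exact Submodule.add_mem _ h5 h6
      | smul e w _ h5 =>
        rw [Algebra.smul_def]
        exact Ideal.mul_mem_left _ _ h5
    exact h3 _ (SetLike.coe_mem _)

/-- The hypothesis on the grading needed for the devissage. -/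
lemma Geom.exists_gen (G : Geom 𝒜) (B : Type) [CommRing B] [Algebra k B]
    (x : ProjectiveSpectrum (bc 𝒜 B)) : ∃ i, ∃ s ∈ bc 𝒜 B i, ∃ t ∈ bc 𝒜 B (i + 1),
      s ∉ idl (bc 𝒜 B) x ∧ t ∉ idl (bc 𝒜 B) x := by
  obtain ⟨t, ht, htx⟩ := G.exists_one B x
  exact ⟨0, 1, SetLike.one_mem_graded _, t, ht,
    fun h => x.isPrime.ne_top ((Ideal.eq_top_iff_one _).2 h), htx⟩

/-- Codimension one means dimension at most three. -/
lemma Geom.dimLE_three (G : Geom 𝒜) {K : Type} [Field K] [Algebra k K]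
    {y : ProjectiveSpectrum (bc 𝒜 K)} (hy : 1 ≤ ringKrullDim (LR (bc 𝒜 K) y)) :
    DimLE (bc 𝒜 K) (idl (bc 𝒜 K) y) 3 := by
  obtain ⟨l, hl, hl1⟩ := exists_chain (bc 𝒜 K) (n := 1) (P := y) (by simpa using hy)
  intro l' hl'
  have h1 : l.last < l'.head ∨ l.last = l'.head := by
    rw [hl]
    exact lt_or_eq_of_le hl'
  have h2 : l.head < l.last := by
    have := l.strictMono (show (0 : Fin (l.length + 1)) < Fin.last _ by
      rw [Fin.lt_def]
      show 0 < l.length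
      omega)
    exact this
  have h3 : l.head < l'.head := by
    rcases h1 with h | h
    · exact h2.trans h
    · rw [← h]; exact h2
  have h4 := G.dim4 K (l'.cons l.head h3) bot_le
  rw [RelSeries.cons_length] at h4
  omega

/-- Module R2: the functional vanishes on the cycles rationally equivalent to zero. -/
theorem Datum.rat_psi {n : kˣ} (D : Datum 𝒜 n) (G : Geom 𝒜) (K : Type) [Field K] [Algebra k K]
    (y : ProjectiveSpectrum (bc 𝒜 K)) (hy : 1 ≤ ringKrullDim (LR (bc 𝒜 K) y)) {i : ℕ}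
    {a b : K ⊗[k] A} (ha : a ∈ bc 𝒜 K i) (hb : b ∈ bc 𝒜 K i) (hay : a ∉ idl (bc 𝒜 K) y)
    (hby : b ∉ idl (bc 𝒜 K) y) (c : ProjectiveSpectrum (bc 𝒜 K) →₀ ℤ)
    (hc : ∀ P, c P =
      ((len (bc 𝒜 K) (idl (bc 𝒜 K) y ⊔ Ideal.span {a}) P).toNat : ℤ) -
        ((len (bc 𝒜 K) (idl (bc 𝒜 K) y ⊔ Ideal.span {b}) P).toNat : ℤ)) :
    D.psi K c = 1 := by
  have := G.isNoetherianRing K
  exact rat_cycle (bc 𝒜 K) 1 (D.φ K) (D.low K)
    (fun I hI hd => devissage (G.exists_gen K) 1 (D.φ K) (D.add K) (D.low K) I hI hd) y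
    (G.dimLE_three hy) ha hb hay hby
    (D.rat K y (G.dimLE_three hy) i a ha b hb hay hby) c fun P _ => hc P

end Dat

end Pool.Agent.SSF.Br
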