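import Pool.Agent.SSF.Br.SchA

/-!
# Divisors of rational functions on `Proj` and homogeneous fractions
-/

namespace Pool.Agent.SSF.Br

open CategoryTheory AlgebraicGeometry HomogeneousLocalization TopologicalSpace Opposite

section Stalks

variable {σ A : Type} [CommRing A] [SetLike σ A] [AddSubgroupClass σ A] (𝒜 : ℕ → σ)
  [GradedRing 𝒜]

/-- The ideal of the local ring for `I + (a)`. -/
theorem locIdeal_sup_span (x : ProjectiveSpectrum 𝒜) {s : A} {I : Ideal A} (hI : I.IsHomogeneous 𝒜) {i : ℕ} {a : A} (ha : a ∈ 𝒜 i)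
    (hsi : s ^ i ∈ 𝒜 i) (hsxi : s ^ i ∉ idl 𝒜 x) :
    locIdeal 𝒜 (I ⊔ Ideal.span {a}) x = locIdeal 𝒜 I x ⊔
      Ideal.span {(HomogeneousLocalization.mk ⟨i, ⟨a, ha⟩, ⟨s ^ i, hsi⟩, hsxi⟩ : LR 𝒜 x)} := by
  apply le_antisymm
  · intro β hβ
    obtain ⟨⟨n, c, d, hd⟩, rfl⟩ := HomogeneousLocalization.mk_surjective β
    rw [mk_mem_locIdeal_iff 𝒜 _ c d hd] at hβ
    obtain ⟨t, ht, htc⟩ := hβ
    obtain ⟨j, hj⟩ : ∃ j, ((DirectSum.decompose 𝒜 t j : 𝒜 j) : A) ∉ idl 𝒜 x := by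
      by_contra hcon
      push Not at hcon
      exact ht ((x.asHomogeneousIdeal.isHomogeneous.mem_iff).2 hcon)
    obtain ⟨u, hu, w, hw, huw⟩ := Submodule.mem_sup.1 htc
    obtain ⟨v, rfl⟩ := Ideal.mem_span_singleton'.1 hw
    have h1 : ((DirectSum.decompose 𝒜 t j : 𝒜 j) : A) * (c : A) =
        ((DirectSum.decompose 𝒜 u (j + n) : 𝒜 (j + n)) : A) +
        ((DirectSum.decompose 𝒜 (v * a) (j + n) : 𝒜 (j + n)) : A) := by
      rw [← DirectSum.coe_decompose_mul_add_of_right_mem 𝒜 c.2, ← huw, DirectSum.decompose_add]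
      simp
    have hu' : ((DirectSum.decompose 𝒜 u (j + n) : 𝒜 (j + n)) : A) ∈ I := hI _ hu
    obtain ⟨v', hv', hva⟩ : ∃ v' : A, v' * s ^ i ∈ 𝒜 (j + n) ∧
        ((DirectSum.decompose 𝒜 (v * a) (j + n) : 𝒜 (j + n)) : A) = v' * a := by
      by_cases hle : i ≤ j + n
      · refine ⟨((DirectSum.decompose 𝒜 v (j + n - i) : 𝒜 (j + n - i)) : A), ?_,
          DirectSum.coe_decompose_mul_of_right_mem_of_le 𝒜 ha hle⟩
        have h2 := SetLike.mul_mem_graded (DirectSum.decompose 𝒜 v (j + n - i)).2 hsi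
        rwa [Nat.sub_add_cancel hle] at h2
      · refine ⟨0, ?_, ?_⟩
        · rw [zero_mul]; exact zero_mem _
        · rw [DirectSum.coe_decompose_mul_of_right_mem_of_not_le 𝒜 ha hle, zero_mul]
    rw [hva] at h1
    have hd' : ((DirectSum.decompose 𝒜 t j : 𝒜 j) : A) * (d : A) ∉ idl 𝒜 x := fun h =>
      (x.isPrime.mem_or_mem h).elim hj hd
    have hdm : ((DirectSum.decompose 𝒜 t j : 𝒜 j) : A) * (d : A) ∈ 𝒜 (j + n) :=
      SetLike.mul_mem_graded (DirectSum.decompose 𝒜 t j).2 d.2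
    have e : (HomogeneousLocalization.mk ⟨n, c, d, hd⟩ : LR 𝒜 x) =
        HomogeneousLocalization.mk ⟨j + n, DirectSum.decompose 𝒜 u (j + n), ⟨_, hdm⟩, hd'⟩ +
        HomogeneousLocalization.mk ⟨j + n, ⟨v' * s ^ i, hv'⟩, ⟨_, hdm⟩, hd'⟩ *
          HomogeneousLocalization.mk ⟨i, ⟨a, ha⟩, ⟨s ^ i, hsi⟩, hsxi⟩ := by
      apply HomogeneousLocalization.val_injective
      rw [HomogeneousLocalization.val_add, HomogeneousLocalization.val_mul,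
        HomogeneousLocalization.val_mk, HomogeneousLocalization.val_mk,
        HomogeneousLocalization.val_mk, HomogeneousLocalization.val_mk,
        Localization.mk_mul, Localization.add_mk, Localization.mk_eq_mk_iff,
        Localization.r_iff_exists]
      refine ⟨1, ?_⟩
      simp only [OneMemClass.coe_one, one_mul, Submonoid.coe_mul]
      linear_combination (((DirectSum.decompose 𝒜 t j : 𝒜 j) : A) * (d : A) * (d : A) * s ^ i) * h1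
    rw [e]
    refine Submodule.add_mem _ (Submodule.mem_sup_left ?_) (Submodule.mem_sup_right ?_)
    · rw [mk_mem_locIdeal_iff 𝒜 _ _ _ hd']
      exact ⟨1, (Ideal.ne_top_iff_one _).1 x.isPrime.ne_top, by rwa [one_mul]⟩
    · exact Ideal.mul_mem_left _ _ (Ideal.mem_span_singleton_self _)
  · apply sup_le
    · exact Ideal.comap_mono (Ideal.map_mono le_sup_left)
    · rw [Ideal.span_singleton_le_iff_mem, mk_mem_locIdeal_iff]
      exact ⟨1, (Ideal.ne_top_iff_one _).1 x.isPrime.ne_top, by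
        rw [one_mul]
        exact Submodule.mem_sup_right (Ideal.mem_span_singleton_self _)⟩

/-- The germ of a fraction at a generization. -/
theorem stalkEq_specializes_mk {x y : Proj 𝒜} (h : y ⤳ x)
    (f : NumDenSameDeg 𝒜 (idl 𝒜 (toPS 𝒜 x)).primeCompl)
    (hy : (f.den : A) ∉ idl 𝒜 (toPS 𝒜 y)) :
    stalkEq 𝒜 y (((Proj 𝒜).presheaf.stalkSpecializes h).hom
      ((stalkEq 𝒜 x).symm (HomogeneousLocalization.mk f))) =
      (HomogeneousLocalization.mk ⟨f.deg, f.num, f.den, hy⟩ : LR 𝒜 (toPS 𝒜 y)) := by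
  have e1 : (stalkEq 𝒜 x).symm (HomogeneousLocalization.mk f) =
      (ProjectiveSpectrum.Proj.structureSheaf 𝒜).presheaf.germ _ x (mem_basicOpen_den _ x f)
        (sectionInBasicOpen _ x f) := rfl
  rw [e1]
  have e2 := TopCat.Presheaf.germ_stalkSpecializes_apply
    (ProjectiveSpectrum.Proj.structureSheaf 𝒜).presheaf
    (mem_basicOpen_den _ x f) h (sectionInBasicOpen _ x f)
  refine (congrArg (stalkEq 𝒜 y) e2).trans ?_
  exact Proj.stalkIso'_germ 𝒜 _ y hy (sectionInBasicOpen _ x f)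

/-- The rational function on the closure of `y` given by an element of the local ring. -/
noncomputable def rho (y : Proj 𝒜) : LR 𝒜 (toPS 𝒜 y) →+* (Proj 𝒜).residueField y :=
  ((Proj 𝒜).residue y).hom.comp (stalkEq 𝒜 y).symm.toRingHom

theorem rho_surjective (y : Proj 𝒜) : Function.Surjective (rho 𝒜 y) :=
  ((Proj 𝒜).residue_surjective y).comp (stalkEq 𝒜 y).symm.surjective

theorem rho_mk_ne_zero {y : Proj 𝒜} {n : ℕ} (a b : 𝒜 n) (hb : (b : A) ∉ idl 𝒜 (toPS 𝒜 y)) :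
    rho 𝒜 y (HomogeneousLocalization.mk ⟨n, a, b, hb⟩) ≠ 0 ↔ (a : A) ∉ idl 𝒜 (toPS 𝒜 y) := by
  rw [← isUnit_mk_iff 𝒜 (w := toPS 𝒜 y) a b hb, ← isUnit_iff_ne_zero]
  exact (isUnit_map_iff (IsLocalRing.residue ((Proj 𝒜).presheaf.stalk y)) _).trans
    (MulEquiv.isUnit_map (stalkEq 𝒜 y).symm)

theorem toRes_toLoc {x y : Proj 𝒜} (h : y ⤳ x)
    (f : NumDenSameDeg 𝒜 (idl 𝒜 (toPS 𝒜 x)).primeCompl)
    (hy : (f.den : A) ∉ idl 𝒜 (toPS 𝒜 y)) :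
    toRes h (toLoc 𝒜 h (HomogeneousLocalization.mk f)) =
      rho 𝒜 y (HomogeneousLocalization.mk ⟨f.deg, f.num, f.den, hy⟩) := by
  have e1 := stalkEq_specializes_mk 𝒜 h f hy
  have e2 : toRes h (toLoc 𝒜 h (HomogeneousLocalization.mk f)) =
      ((Proj 𝒜).residue y).hom (((Proj 𝒜).presheaf.stalkSpecializes h).hom
        ((stalkEq 𝒜 x).symm (HomogeneousLocalization.mk f))) := rfl
  rw [e2]
  have e3 : ((Proj 𝒜).presheaf.stalkSpecializes h).hom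
      ((stalkEq 𝒜 x).symm (HomogeneousLocalization.mk f)) =
      (stalkEq 𝒜 y).symm (HomogeneousLocalization.mk ⟨f.deg, f.num, f.den, hy⟩) := by
    rw [RingEquiv.eq_symm_apply]
    exact e1
  rw [e3]
  rfl

theorem toRes_injective {X : Scheme.{0}} {x y : X} (h : y ⤳ x) :
    Function.Injective (toRes h) := by
  rw [injective_iff_map_eq_zero]
  intro z hz
  obtain ⟨t, rfl⟩ := Ideal.Quotient.mk_surjective z
  rw [Ideal.Quotient.eq_zero_iff_mem]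
  exact (IsLocalRing.residue_eq_zero_iff _).1 hz

theorem locIdeal_eq_top {I : Ideal A} {x : ProjectiveSpectrum 𝒜} (h : ¬ I ≤ idl 𝒜 x) :
    locIdeal 𝒜 I x = ⊤ := by
  obtain ⟨t, ht, htx⟩ := Set.not_subset.1 h
  have h1 : I.map (algebraMap A (Localization.AtPrime (idl 𝒜 x))) = ⊤ := by
    refine Ideal.eq_top_of_isUnit_mem _ (Ideal.mem_map_of_mem _ ht) ?_
    exact IsLocalization.map_units (Localization.AtPrime (idl 𝒜 x))
      (⟨t, htx⟩ : (idl 𝒜 x).primeCompl)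
  rw [locIdeal, h1, Ideal.comap_top]

theorem len_eq_zero {I : Ideal A} {x : ProjectiveSpectrum 𝒜} (h : ¬ I ≤ idl 𝒜 x) :
    len 𝒜 I x = 0 := by
  rw [len, locIdeal_eq_top 𝒜 h]
  have : Subsingleton (LR 𝒜 x ⧸ (⊤ : Ideal (LR 𝒜 x))) :=
    Ideal.Quotient.subsingleton_iff.2 rfl
  exact Module.length_eq_zero

section Frac

variable {x y : Proj 𝒜} {s : A} (hs : s ∈ 𝒜 1) (hsx : s ∉ idl 𝒜 (toPS 𝒜 x))

include hs in
theorem pow_mem_grade (i : ℕ) : s ^ i ∈ 𝒜 i := by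
  have := SetLike.pow_mem_graded i hs
  rwa [smul_eq_mul, mul_one] at this

include hsx in
theorem pow_notMem (i : ℕ) : s ^ i ∉ idl 𝒜 (toPS 𝒜 x) := fun h =>
  hsx ((toPS 𝒜 x).isPrime.mem_of_pow_mem i h)

/-- The fraction `a / s ^ i`. -/
noncomputable def fr {i : ℕ} {a : A} (ha : a ∈ 𝒜 i) : LR 𝒜 (toPS 𝒜 x) :=
  HomogeneousLocalization.mk ⟨i, ⟨a, ha⟩, ⟨s ^ i, pow_mem_grade 𝒜 hs i⟩, pow_notMem 𝒜 hsx i⟩

theorem len_eq_ord (h : y ⤳ x) {i : ℕ} {a : A} (ha : a ∈ 𝒜 i) :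
    len 𝒜 (idl 𝒜 (toPS 𝒜 y) ⊔ Ideal.span {a}) (toPS 𝒜 x) =
      Ring.ord (LocRing h) (toLoc 𝒜 h (fr 𝒜 hs hsx ha)) := by
  rw [ord_toLoc, len, locIdeal_sup_span 𝒜 (toPS 𝒜 x)
    (toPS 𝒜 y).asHomogeneousIdeal.isHomogeneous ha (pow_mem_grade 𝒜 hs i) (pow_notMem 𝒜 hsx i)]
  rfl

theorem toLoc_fr_ne_zero (h : y ⤳ x) {i : ℕ} {a : A} (ha : a ∈ 𝒜 i)
    (hay : a ∉ idl 𝒜 (toPS 𝒜 y)) : toLoc 𝒜 h (fr 𝒜 hs hsx ha) ≠ 0 := by
  intro h0
  rw [← RingHom.mem_ker, ker_toLoc] at h0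
  exact hay ((mk_mem_locIdeal_iff' 𝒜 ((specializes_iff 𝒜 x y).1 h) _ _ _).1 h0)

theorem toRes_fr (h : y ⤳ x) {i : ℕ} {a b : A} (ha : a ∈ 𝒜 i) (hb : b ∈ 𝒜 i)
    (hby : b ∉ idl 𝒜 (toPS 𝒜 y)) :
    toRes h (toLoc 𝒜 h (fr 𝒜 hs hsx ha)) =
      rho 𝒜 y (HomogeneousLocalization.mk ⟨i, ⟨a, ha⟩, ⟨b, hb⟩, hby⟩) *
        toRes h (toLoc 𝒜 h (fr 𝒜 hs hsx hb)) := by
  have hsy : s ^ i ∉ idl 𝒜 (toPS 𝒜 y) := fun hc =>
    pow_notMem 𝒜 hsx i ((specializes_iff 𝒜 x y).1 h hc)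
  rw [fr, fr, toRes_toLoc 𝒜 h _ hsy, toRes_toLoc 𝒜 h _ hsy, ← map_mul]
  congr 1
  apply HomogeneousLocalization.val_injective
  rw [HomogeneousLocalization.val_mul, HomogeneousLocalization.val_mk,
    HomogeneousLocalization.val_mk, HomogeneousLocalization.val_mk, Localization.mk_mul,
    Localization.mk_eq_mk_iff, Localization.r_iff_exists]
  refine ⟨1, ?_⟩
  simp only [OneMemClass.coe_one, one_mul, Submonoid.coe_mul]
  ring

end Frac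

/-- Module B2h: the divisors on subvarieties of `Proj` of a graded ring generated in degree
one are given by homogeneous fractions. -/
theorem exists_frac_of_isDiv (hN : ∀ x : ProjectiveSpectrum 𝒜, IsNoetherianRing (LR 𝒜 x))
    (h1 : ∀ x : ProjectiveSpectrum 𝒜, ∃ s ∈ 𝒜 1, s ∉ idl 𝒜 x)
    (y : Proj 𝒜) (g : (Proj 𝒜).residueField y) (c : (Proj 𝒜 : Scheme.{0}) →₀ ℤ)
    (h : IsDiv y g c) :
    ∃ (i : ℕ) (a b : A), a ∈ 𝒜 i ∧ b ∈ 𝒜 i ∧ a ∉ idl 𝒜 (toPS 𝒜 y) ∧ b ∉ idl 𝒜 (toPS 𝒜 y) ∧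
      ∀ x : Proj 𝒜, c x =
        ((len 𝒜 (idl 𝒜 (toPS 𝒜 y) ⊔ Ideal.span {a}) (toPS 𝒜 x)).toNat : ℤ) -
          (len 𝒜 (idl 𝒜 (toPS 𝒜 y) ⊔ Ideal.span {b}) (toPS 𝒜 x)).toNat := by
  obtain ⟨w, hw⟩ := rho_surjective 𝒜 y g
  obtain ⟨⟨i, ⟨a, ha⟩, ⟨b, hb⟩, hby⟩, rfl⟩ := HomogeneousLocalization.mk_surjective w
  have hay : a ∉ idl 𝒜 (toPS 𝒜 y) := by
    have h2 := h.ne_zero
    rw [← hw] at h2
    exact (rho_mk_ne_zero 𝒜 _ _ _).1 h2
  refine ⟨i, a, b, ha, hb, hay, hby, ?_⟩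
  intro x
  obtain ⟨s, hs, hsx⟩ := h1 (toPS 𝒜 x)
  by_cases hyx : y ⤳ x
  · rw [len_eq_ord 𝒜 hs hsx hyx ha, len_eq_ord 𝒜 hs hsx hyx hb]
    have ha0 := toLoc_fr_ne_zero 𝒜 hs hsx hyx ha hay
    have hb0 := toLoc_fr_ne_zero 𝒜 hs hsx hyx hb hby
    by_cases hd : ringKrullDim (LocRing hyx) = 1
    · refine h.on x hyx hd _ _ ha0 hb0 ?_
      rw [← hw]
      exact toRes_fr 𝒜 hs hsx hyx ha hb hby
    · have : IsNoetherianRing (LocRing hyx) := by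
        have := hN (toPS 𝒜 x)
        exact isNoetherianRing_of_surjective _ _ (toLoc 𝒜 hyx) (toLoc_surjective 𝒜 hyx)
      rw [ord_toNat_eq_zero (LocRing hyx) _ ha0 hd, ord_toNat_eq_zero (LocRing hyx) _ hb0 hd]
      exact h.off x fun ⟨_, hd'⟩ => hd hd'
  · have hle : ¬ idl 𝒜 (toPS 𝒜 y) ≤ idl 𝒜 (toPS 𝒜 x) := fun hc =>
      hyx ((specializes_iff 𝒜 x y).2 hc)
    rw [len_eq_zero 𝒜 fun hc => hle (le_sup_left.trans hc),
      len_eq_zero 𝒜 fun hc => hle (le_sup_left.trans hc)]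
    exact h.off x fun ⟨hs', _⟩ => hyx hs'

/-- Module B2i: the converse. -/
theorem isDiv_of_frac (hN : ∀ x : ProjectiveSpectrum 𝒜, IsNoetherianRing (LR 𝒜 x))
    (h1 : ∀ x : ProjectiveSpectrum 𝒜, ∃ s ∈ 𝒜 1, s ∉ idl 𝒜 x)
    (y : Proj 𝒜) (i : ℕ) (a b : A) (ha : a ∈ 𝒜 i) (hb : b ∈ 𝒜 i)
    (hay : a ∉ idl 𝒜 (toPS 𝒜 y)) (hby : b ∉ idl 𝒜 (toPS 𝒜 y))
    (c : (Proj 𝒜 : Scheme.{0}) →₀ ℤ)
    (hc : ∀ x : Proj 𝒜, c x =
      ((len 𝒜 (idl 𝒜 (toPS 𝒜 y) ⊔ Ideal.span {a}) (toPS 𝒜 x)).toNat : ℤ) -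
        (len 𝒜 (idl 𝒜 (toPS 𝒜 y) ⊔ Ideal.span {b}) (toPS 𝒜 x)).toNat) :
    ∃ g, IsDiv y g c := by
  refine ⟨rho 𝒜 y (HomogeneousLocalization.mk ⟨i, ⟨a, ha⟩, ⟨b, hb⟩, hby⟩),
    (rho_mk_ne_zero 𝒜 _ _ _).2 hay, ?_, ?_⟩
  · intro x hx
    rw [hc]
    obtain ⟨s, hs, hsx⟩ := h1 (toPS 𝒜 x)
    by_cases hyx : y ⤳ x
    · have hd : ringKrullDim (LocRing hyx) ≠ 1 := fun hd => hx ⟨hyx, hd⟩
      have : IsNoetherianRing (LocRing hyx) := by
        have := hN (toPS 𝒜 x)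
        exact isNoetherianRing_of_surjective _ _ (toLoc 𝒜 hyx) (toLoc_surjective 𝒜 hyx)
      rw [len_eq_ord 𝒜 hs hsx hyx ha, len_eq_ord 𝒜 hs hsx hyx hb,
        ord_toNat_eq_zero (LocRing hyx) _ (toLoc_fr_ne_zero 𝒜 hs hsx hyx ha hay) hd,
        ord_toNat_eq_zero (LocRing hyx) _ (toLoc_fr_ne_zero 𝒜 hs hsx hyx hb hby) hd]
      simp
    · have hle : ¬ idl 𝒜 (toPS 𝒜 y) ≤ idl 𝒜 (toPS 𝒜 x) := fun hc =>
        hyx ((specializes_iff 𝒜 x y).2 hc)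
      rw [len_eq_zero 𝒜 fun hc => hle (le_sup_left.trans hc),
        len_eq_zero 𝒜 fun hc => hle (le_sup_left.trans hc)]
      simp
  · intro x hyx hd α β hα hβ hαβ
    rw [hc]
    obtain ⟨s, hs, hsx⟩ := h1 (toPS 𝒜 x)
    rw [len_eq_ord 𝒜 hs hsx hyx ha, len_eq_ord 𝒜 hs hsx hyx hb]
    have ha0 := toLoc_fr_ne_zero 𝒜 hs hsx hyx ha hay
    have hb0 := toLoc_fr_ne_zero 𝒜 hs hsx hyx hb hby
    set α0 := toLoc 𝒜 hyx (fr 𝒜 hs hsx ha) with hα0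
    set β0 := toLoc 𝒜 hyx (fr 𝒜 hs hsx hb) with hβ0
    have : IsNoetherianRing (LocRing hyx) := by
      have := hN (toPS 𝒜 x)
      exact isNoetherianRing_of_surjective _ _ (toLoc 𝒜 hyx) (toLoc_surjective 𝒜 hyx)
    have : IsDomain (LocRing hyx) := inferInstance
    have hk : Ring.KrullDimLE 1 (LocRing hyx) := by
      rw [Ring.krullDimLE_iff]
      exact hd.le
    have e1 : toRes hyx α0 = _ := toRes_fr 𝒜 hs hsx hyx ha hb hby
    have e2 : α * β0 = α0 * β := by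
      apply toRes_injective hyx
      rw [map_mul, map_mul, e1, hαβ]
      ring
    have hnz : ∀ z : LocRing hyx, z ≠ 0 → z ∈ nonZeroDivisors (LocRing hyx) := fun z hz =>
      mem_nonZeroDivisors_of_ne_zero hz
    have e3 : Ring.ord (LocRing hyx) α + Ring.ord (LocRing hyx) β0 =
        Ring.ord (LocRing hyx) α0 + Ring.ord (LocRing hyx) β := by
      rw [← Ring.ord_mul _ (hnz _ hb0), ← Ring.ord_mul _ (hnz _ hβ), e2]
    have f1 := Ring.ord_ne_top (hnz _ hα)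
    have f2 := Ring.ord_ne_top (hnz _ hb0)
    have f3 := Ring.ord_ne_top (hnz _ ha0)
    have f4 := Ring.ord_ne_top (hnz _ hβ)
    have e4 := congrArg ENat.toNat e3
    rw [ENat.toNat_add f1 f2, ENat.toNat_add f3 f4] at e4
    simp only [ordAt]
    omega

end Stalks

end Pool.Agent.SSF.Br
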