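import Pool.Agent.SSF.Br.AsmSq
import Pool.Agent.SSF.Br.SchH
import Pool.Agent.SSF.Br.Rat
import Pool.Agent.SSF.Br.ChainB
import Pool.Agent.SSF.Reg3

/-!
# Gysin fibres in terms of the generic fibre: assembly
-/

namespace Pool.Agent.SSF.Br

open CategoryTheory AlgebraicGeometry MonoidalCategory CartesianMonoidalCategory Limits
open TensorProduct HomogeneousLocalization HomogeneousIdeal Graded

section Fibre

variable {k A : Type} [Field k] [CommRing A] [Algebra k A] {𝒜 : ℕ → Submodule k A}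
  [GradedAlgebra 𝒜] {n : kˣ}

lemma fracLike_stalkSp {T : Sch k} [IsIntegral T.left] (x : T.left) :
    FracLike (stalkSp T (genericPoint_specializes x)) := by
  intro c
  obtain ⟨⟨b, s⟩, hbs⟩ := IsLocalization.surj (nonZeroDivisors (T.left.presheaf.stalk x))
    (show T.left.functionField from c)
  refine ⟨b, s, ?_, hbs⟩
  exact IsLocalization.map_units T.left.functionField s

lemma stalkSp_injective {T : Sch k} [IsIntegral T.left] (x : T.left) :
    Function.Injective (stalkSp T (genericPoint_specializes x)) :=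
  IsFractionRing.injective (T.left.presheaf.stalk x) T.left.functionField

lemma fracLike_evalAt {T : Sch k} (t : pt k ⟶ T) : FracLike (evalAt t) := fun c =>
  ⟨algebraMap k _ c, 1, by rw [map_one]; exact isUnit_one, by
    rw [map_one, mul_one, AlgHom.commutes]; rfl⟩

/-- Module A3: the value at a Gysin fibre. -/
theorem Datum.psiX_fibre (D : Datum 𝒜 n) (G : Geom 𝒜) {T : Sch k} [IsIntegral T.left]
    [IsLocallyNoetherian T.left] (t : pt k ⟶ T) (Z : (projOver 𝒜 ⊗ T).left →₀ ℤ)
    (hZ : Z ∈ Cyc (projOver 𝒜 ⊗ T).left 2) (c : (projOver 𝒜).left →₀ ℤ)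
    (h : IsFibre (projOver 𝒜) t Z c) (e : kˣ)
    (he : D.psi (T.left.presheaf.stalk (genericPoint T.left)) (genCyc 𝒜 T _ Z) =
      sq (Units.map (algebraMap k _).toMonoidHom e)) :
    D.psiX c = sq e := by
  obtain ⟨d, f, C, h1, h2, h3, h4, h5⟩ := exists_graded_fibre 𝒜 G t Z c h
  have hη : genericPoint T.left ⤳ imPt t := genericPoint_specializes _
  have hψ : FracLike (stalkSp T hη) := fracLike_stalkSp (imPt t)
  have hinj : Function.Injective (stalkSp T hη) := stalkSp_injective (imPt t)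
  have hε : Function.Injective (bcPt 𝒜 (evalAt t)) := bcPt_injective (fracLike_evalAt t)
  have hcod : ∀ v : ProjectiveSpectrum (bc 𝒜 (T.left.presheaf.stalk (genericPoint T.left))),
      C 0 (bcPt 𝒜 (stalkSp T hη) v) ≠ 0 →
        2 ≤ ringKrullDim (LR (bc 𝒜 (T.left.presheaf.stalk (genericPoint T.left))) v) := by
    intro v hv
    rw [h3, toXT_bcPt] at hv
    have h6 := hZ _ (Finsupp.mem_support_iff.2 hv)
    rw [ringKrullDim_of_toXT, h6]
    exact le_rfl
  have h7 : D.psi (T.left.presheaf.stalk (genericPoint T.left))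
      ((C 0).comapDomain _ (bcPt_injective hψ).injOn) =
        sq (Units.map (algebraMap k _).toMonoidHom e) := by
    rw [← he]
    congr 1
    ext v
    rw [Finsupp.comapDomain_apply, genCyc, Finsupp.comapDomain_apply, h3, toXT_bcPt]
  have h8 := D.chain G (stalkSp T hη) hψ hinj (evalAt t) f h1 h2 C hcod h4 e h7
  rw [← h8, Datum.psiX]
  congr 1
  ext P
  rw [Finsupp.comapDomain_apply, Finsupp.comapDomain_apply, h5]

end Fibre

/-- A homomorphism on cycles which vanishes on the cycles rationally equivalent to zero and is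
constant in families vanishes on the cycles algebraically equivalent to zero. -/
theorem eq_one_of_algEquivZero {k : Type} [Field k] (X : Sch k) {Q : Type} [CommGroup Q]
    (f : (X.left →₀ ℤ) → Q) (hadd : ∀ a b, f (a + b) = f a * f b)
    (hrat : ∀ c ∈ Rat X.left 2, f c = 1)
    (hfib : ∀ (T : Sch k) (t₀ t₁ : pt k ⟶ T) (Z : (X ⊗ T).left →₀ ℤ) (c₀ c₁ : Cyc X.left 2),
      IsSmoothVar T → Z ∈ Cyc (X ⊗ T).left 2 → IsFibre X t₀ Z c₀ → IsFibre X t₁ Z c₁ →
      f c₁ = f c₀)
    (c : Cyc X.left 2) (h : CH.mk c ∈ AlgEquivZero X 2) : f c = 1 := by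
  let g : CH X.left 2 →+ Additive Q :=
    QuotientAddGroup.lift _
      (AddMonoidHom.mk' (fun c : Cyc X.left 2 => Additive.ofMul (f c))
        (fun a b => by
          rw [AddSubgroup.coe_add, hadd]
          rfl))
      (fun c hc => by
        rw [AddSubgroup.mem_addSubgroupOf] at hc
        exact congrArg Additive.ofMul (hrat c hc))
  have hle : AlgEquivZero X 2 ≤ g.ker := by
    refine (AddSubgroup.closure_le _).2 ?_
    rintro z ⟨T, t₀, t₁, Z, c₀, c₁, hT, hZ, hc₀, hc₁, rfl⟩
    have h2 : g (CH.mk c₁) = g (CH.mk c₀) :=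
      congrArg Additive.ofMul (hfib T t₀ t₁ Z c₀ c₁ hT hZ hc₀ hc₁)
    show g (CH.mk c₁ - CH.mk c₀) = 0
    rw [map_sub, h2, sub_self]
  exact Additive.ofMul.injective (hle h : g (CH.mk c) = 0)

section Fibre

variable {k A : Type} [Field k] [CommRing A] [Algebra k A] {𝒜 : ℕ → Submodule k A}
  [GradedAlgebra 𝒜] {n : kˣ}

/-- The functional vanishes on the cycles algebraically equivalent to zero. -/
theorem Datum.psiX_eq_one (D : Datum 𝒜 n) (G : Geom 𝒜) (hn : ¬ IsSquare (n : k))
    (c : Cyc (projOver 𝒜).left 2) (h : CH.mk c ∈ AlgEquivZero (projOver 𝒜) 2) :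
    D.psiX (c : (projOver 𝒜).left →₀ ℤ) = 1 := by
  refine eq_one_of_algEquivZero (projOver 𝒜) D.psiX D.psiX_add (D.psiX_rat G) ?_ c h
  intro T t₀ t₁ Z c₀ c₁ hT hZ hc₀ hc₁
  have hsm : Smooth T.hom := hT.smooth
  have hcon : ConnectedSpace T.left := hT.connected
  have hint : IsIntegral T.left := Reg.isIntegral_of_smooth T.hom
  have hnoe : IsLocallyNoetherian T.left := LocallyOfFiniteType.isLocallyNoetherian T.hom
  obtain ⟨e, he⟩ := D.psi_mem G (T.left.presheaf.stalk (genericPoint T.left))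
    (not_isSquare_functionField t₀ hsm n hn) (genCyc 𝒜 T _ Z) (by
      intro P hP
      have h6 := hZ _ (Finsupp.mem_support_iff.2 hP)
      rw [ringKrullDim_of_toXT, h6]
      exact le_rfl)
  exact (D.psiX_fibre G t₁ Z hZ c₁ hc₁ e he).trans (D.psiX_fibre G t₀ Z hZ c₀ hc₀ e he).symm

end Fibre

end Pool.Agent.SSF.Br
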