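import Pool.Agent.SSF.StmtScheme

/-!
# Codimension of points and embeddings with a range stable under generization
-/

namespace Pool.Agent.SSF.Br

open CategoryTheory AlgebraicGeometry MonoidalCategory CartesianMonoidalCategory Limits

/-- Module A1a: codimension of points and embeddings with a range stable under
generization. -/
theorem coheight_of_isInducing {W V : Scheme.{0}} (j : W ⟶ V) (hj : Topology.IsInducing j)
    (hr : ∀ (v : V) (w : W), v ⤳ j w → v ∈ Set.range j) (w : W) :
    Order.coheight (j w) = Order.coheight w := by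
  have h1 : ∀ a b : W, j a ≤ j b ↔ a ≤ b := fun a b => hj.specializes_iff
  have hiff : ∀ a b : W, j a < j b ↔ a < b := by
    intro a b
    rw [lt_iff_le_not_ge, lt_iff_le_not_ge, h1, h1]
  refine (Order.coheight_eq_of_strictMono j (fun a b h => (hiff a b).2 h) ?_ w).symm
  intro a b hab
  obtain ⟨a', rfl⟩ := hr b a hab.le
  exact ⟨a', (hiff a a').1 hab, rfl⟩

/-- The canonical morphism of the spectrum of a local ring is flat. -/
theorem flat_fromSpecStalk (X : Scheme.{0}) (x : X) : Flat (X.fromSpecStalk x) := by
  obtain ⟨_, ⟨U, hU, rfl⟩, hxU, -⟩ :=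
    X.isBasis_affineOpens.exists_subset_of_mem_open (Set.mem_univ x) isOpen_univ
  rw [← hU.fromSpecStalk_eq_fromSpecStalk hxU]
  have : Flat (Spec.map (X.presheaf.germ U x hxU)) := by
    rw [Flat.SpecMap_iff]
    let _ : Algebra Γ(X, U) (X.presheaf.stalk x) := (X.presheaf.germ U x hxU).hom.toAlgebra
    have := hU.isLocalization_stalk ⟨x, hxU⟩
    exact IsLocalization.flat (R := Γ(X, U)) (X.presheaf.stalk x)
      (hU.primeIdealOf ⟨x, hxU⟩).asIdeal.primeCompl
  dsimp only [IsAffineOpen.fromSpecStalk]
  infer_instance

section Whisker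

variable {k : Type} [Field k] (X : Sch k) {S T : Sch k} (j : S ⟶ T)

/-- The product of an embedding of the second factor. -/
theorem isPreimmersion_whisker [IsPreimmersion j.left] : IsPreimmersion (X ◁ j).left := by
  rw [Over.whiskerLeft_left]
  exact MorphismProperty.pullbackMap (P := @IsPreimmersion) inferInstance ‹_›
    (Category.id_comp _).symm (Over.w j).symm

theorem flat_whisker [Flat j.left] : Flat (X ◁ j).left := by
  rw [Over.whiskerLeft_left]
  exact MorphismProperty.pullbackMap (P := @Flat) inferInstance ‹_›
    (Category.id_comp _).symm (Over.w j).symm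

theorem coheight_whisker_of [IsPreimmersion j.left] [Flat j.left] (w : (X ⊗ S).left) :
    Order.coheight ((X ◁ j).left w) = Order.coheight w := by
  have h1 := isPreimmersion_whisker X j
  have h2 := flat_whisker X j
  refine coheight_of_isInducing (X ◁ j).left (X ◁ j).left.isEmbedding.isInducing ?_ w
  intro v w h
  obtain ⟨w', -, hw'⟩ := Flat.generalizingMap (X ◁ j).left h
  exact ⟨w', hw'⟩

theorem whisker_injective_of [IsPreimmersion j.left] : Function.Injective (X ◁ j).left := by
  have h1 := isPreimmersion_whisker X j
  exact (X ◁ j).left.isEmbedding.injective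

end Whisker

end Pool.Agent.SSF.Br
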