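import Mathlib

/-!
# Lengths: change of rings, and the dimension of a quotient of finite length
-/

namespace Pool.Agent.SSF.Br

/-- Length over a quotient ring. -/
lemma length_comap {S T : Type*} [CommRing S] [CommRing T] (π : S →+* T)
    (hπ : Function.Surjective π) (J : Ideal T) :
    Module.length S (S ⧸ J.comap π) = Module.length T (T ⧸ J) := by
  let : Algebra S T := π.toAlgebra
  have hle : J.comap π ≤ (J.restrictScalars S).comap (Algebra.linearMap S T) := fun x hx => hx
  rw [← Module.length_eq_of_surjective (R := T) (S := S) (M := T ⧸ J) hπ]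
  refine LinearEquiv.length_eq (LinearEquiv.ofBijective
    (Submodule.mapQ (J.comap π) (J.restrictScalars S) (Algebra.linearMap S T) hle) ?_)
  constructor
  · refine (injective_iff_map_eq_zero _).2 ?_
    intro y
    obtain ⟨s, rfl⟩ := Submodule.Quotient.mk_surjective _ y
    intro hs
    rw [Submodule.mapQ_apply, Submodule.Quotient.mk_eq_zero] at hs
    exact (Submodule.Quotient.mk_eq_zero _).2 hs
  · intro y
    obtain ⟨t, rfl⟩ := Submodule.Quotient.mk_surjective _ y
    obtain ⟨s, rfl⟩ := hπ t
    exact ⟨Submodule.Quotient.mk s, rfl⟩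

/-- Length of a quotient by a principal ideal, over a quotient ring. -/
lemma length_span {S T : Type*} [CommRing S] [CommRing T] (π : S →+* T)
    (hπ : Function.Surjective π) (x : S) :
    Ring.ord T (π x) = Module.length S (S ⧸ (RingHom.ker π ⊔ Ideal.span {x})) := by
  unfold Ring.ord
  rw [← length_comap π hπ]
  have h : (Ideal.span {π x}).comap π = RingHom.ker π ⊔ Ideal.span {x} := by
    have h1 := Ideal.comap_map_of_surjective' π hπ (Ideal.span {x})
    rw [Ideal.map_span, Set.image_singleton] at h1
    rw [h1, sup_comm]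
  rw [h]

/-- In a Noetherian local domain, a nonzero nonunit with a quotient of finite length forces the
dimension to be one. -/
theorem ord_toNat_eq_zero (D : Type) [CommRing D] [IsDomain D] [IsLocalRing D]
    [IsNoetherianRing D] (x : D) (hx : x ≠ 0) (hd : ringKrullDim D ≠ 1) :
    (Ring.ord D x).toNat = 0 := by
  by_cases hu : IsUnit x
  · unfold Ring.ord
    have h : Ideal.span {x} = (⊤ : Ideal D) := Ideal.span_singleton_eq_top.2 hu
    rw [h]
    have : Subsingleton (D ⧸ (⊤ : Ideal D)) := Ideal.Quotient.subsingleton_iff.2 rfl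
    rw [Module.length_eq_zero]
    rfl
  by_cases ht : Ring.ord D x = ⊤
  · rw [ht]
    rfl
  exfalso
  apply hd
  have hfl : IsFiniteLength D (D ⧸ Ideal.span {x}) := Module.length_ne_top_iff.1 ht
  have hart : IsArtinian D (D ⧸ Ideal.span {x}) :=
    (isFiniteLength_iff_isNoetherian_isArtinian.1 hfl).2
  have hart' : IsArtinianRing (D ⧸ Ideal.span {x}) :=
    isArtinian_of_tower D hart
  have hxm : x ∈ IsLocalRing.maximalIdeal D := by
    rw [IsLocalRing.mem_maximalIdeal]
    exact hu
  have hmin : IsLocalRing.maximalIdeal D ∈ (Ideal.span {x}).minimalPrimes := by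
    refine ⟨⟨inferInstance, ?_⟩, ?_⟩
    · rw [Ideal.span_le]
      exact Set.singleton_subset_iff.2 hxm
    · intro q hq hqm
      have hqp : q.IsPrime := hq.1
      have h1 : (q.map (Ideal.Quotient.mk (Ideal.span {x}))).IsPrime :=
        Ideal.map_isPrime_of_surjective Ideal.Quotient.mk_surjective (by
          rw [Ideal.mk_ker]
          exact hq.2)
      have h2 : (q.map (Ideal.Quotient.mk (Ideal.span {x}))).IsMaximal := inferInstance
      have h3 : q.IsMaximal := by
        have := Ideal.comap_isMaximal_of_surjective (Ideal.Quotient.mk (Ideal.span {x}))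
          Ideal.Quotient.mk_surjective (K := q.map (Ideal.Quotient.mk (Ideal.span {x})))
        rwa [Ideal.comap_map_of_surjective' _ Ideal.Quotient.mk_surjective, Ideal.mk_ker,
          sup_eq_left.2 hq.2] at this
      rw [IsLocalRing.eq_maximalIdeal h3]
  have h4 : (IsLocalRing.maximalIdeal D).height ≤ 1 :=
    Ideal.height_le_one_of_isPrincipal_of_mem_minimalPrimes (Ideal.span {x}) _ hmin
  have h5 : 1 ≤ (IsLocalRing.maximalIdeal D).height := by
    rw [Order.one_le_iff_pos, pos_iff_ne_zero]
    intro h0
    rw [Ideal.height_eq_zero_iff_eq_bot.1 h0] at hxm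
    exact hx hxm
  rw [← IsLocalRing.maximalIdeal_height_eq_ringKrullDim, le_antisymm h4 h5]
  rfl

end Pool.Agent.SSF.Br
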