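import Pool.Agent.SSF.Br.Dim
import Pool.Agent.SSF.Br.DictA
import Pool.Agent.SSF.StmtScheme

/-!
# The scheme `Proj`: stalks, prime ideals of generizations, multiplicities
-/

namespace Pool.Agent.SSF.Br

open CategoryTheory AlgebraicGeometry HomogeneousLocalization TopologicalSpace Opposite

section Stalks

variable {σ A : Type} [CommRing A] [SetLike σ A] [AddSubgroupClass σ A] (𝒜 : ℕ → σ)
  [GradedRing 𝒜]

/-- The point of the projective spectrum underlying a point of the scheme `Proj`. -/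
abbrev toPS (x : Proj 𝒜) : ProjectiveSpectrum 𝒜 := x

instance schA_idl_prime (P : ProjectiveSpectrum 𝒜) : (idl 𝒜 P).IsPrime := P.isPrime

/-- The stalk of `Proj` at `w` is the local ring at `w`. -/
noncomputable def stalkEq (w : Proj 𝒜) : (Proj 𝒜).presheaf.stalk w ≃+* LR 𝒜 (toPS 𝒜 w) :=
  Proj.stalkIso' 𝒜 w

lemma stalkEq_eq (w : Proj 𝒜) (z : (Proj 𝒜).presheaf.stalk w) :
    (Proj.stalkIso 𝒜 w).hom z = stalkEq 𝒜 w z := rfl

/-- Module B2d. -/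
theorem specializes_iff (x y : Proj 𝒜) :
    y ⤳ x ↔ idl 𝒜 (toPS 𝒜 y) ≤ idl 𝒜 (toPS 𝒜 x) := by
  rw [specializes_iff_mem_closure]
  exact (ProjectiveSpectrum.le_iff_mem_closure (𝒜 := 𝒜) y x).symm

/-- Module B2e. -/
theorem ringKrullDim_LR_coheight (x : Proj 𝒜) :
    ringKrullDim (LR 𝒜 (toPS 𝒜 x)) = (Order.coheight x : ℕ∞) :=
  (ringKrullDim_eq_of_ringEquiv (stalkEq 𝒜 x)).symm.trans (ringKrullDim_stalk_eq_coheight x)

/-- The codimension of a point of `Proj` is the maximal length of a chain of smaller primes. -/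
theorem coheight_eq_height (x : Proj 𝒜) : Order.coheight x = Order.height (toPS 𝒜 x) := by
  have h := (ringKrullDim_LR_coheight 𝒜 x).symm.trans (ringKrullDim_LR 𝒜 (toPS 𝒜 x))
  exact_mod_cast h

/-- Module B2f. -/
theorem dimLE_of_coheight (x : Proj 𝒜) (c d : ℕ) (h : DimLE 𝒜 ⊥ (c + d))
    (hx : (c : ℕ∞) ≤ Order.coheight x) : DimLE 𝒜 (idl 𝒜 (toPS 𝒜 x)) d := by
  intro l hl
  rw [coheight_eq_height] at hx
  obtain ⟨p, hp, hlen⟩ := Order.exists_series_of_le_height (toPS 𝒜 x) hx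
  have hle : p.last ≤ l.head := by
    rw [hp]
    exact hl
  rcases hle.eq_or_lt with h1 | h1
  · have h2 := h (p.smash l h1) bot_le
    rw [RelSeries.smash_length] at h2
    omega
  · have h2 := h (p.append l h1) bot_le
    rw [RelSeries.append_length] at h2
    omega

/-- The value of a section at a point, as an element of the local ring. -/
noncomputable def valAt {U : (Proj 𝒜).Opens} (s : Γ(Proj 𝒜, U)) (w : Proj 𝒜) (hw : w ∈ U) :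
    LR 𝒜 (toPS 𝒜 w) :=
  (show (ProjectiveSpectrum.Proj.structureSheaf 𝒜).1.obj (op U) from s).1 ⟨w, hw⟩

lemma stalkEq_germ {U : (Proj 𝒜).Opens} (s : Γ(Proj 𝒜, U)) (w : Proj 𝒜) (hw : w ∈ U) :
    stalkEq 𝒜 w (((Proj 𝒜).presheaf.germ U w hw).hom s) = valAt 𝒜 s w hw :=
  Proj.stalkIso'_germ 𝒜 U w hw s

lemma valAt_local {U : (Proj 𝒜).Opens} (s : Γ(Proj 𝒜, U)) (w : Proj 𝒜) (hw : w ∈ U) :
    ∃ V : (Proj 𝒜).Opens, w ∈ V ∧ V ≤ U ∧ ∃ (n : ℕ) (a b : 𝒜 n),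
      ∀ (v : Proj 𝒜) (hU : v ∈ U), v ∈ V → ∃ hb : (b : A) ∉ idl 𝒜 (toPS 𝒜 v),
        valAt 𝒜 s v hU = HomogeneousLocalization.mk ⟨n, a, b, hb⟩ := by
  obtain ⟨V, hwV, i, n, a, b, hb, e⟩ :=
    (show (ProjectiveSpectrum.Proj.structureSheaf 𝒜).1.obj (op U) from s).2 ⟨w, hw⟩
  refine ⟨V, hwV, i.le, n, a, b, ?_⟩
  intro v hU hV
  exact ⟨hb ⟨v, hV⟩, e ⟨v, hV⟩⟩

/-- Every element of the stalk at `w` is a homogeneous fraction `a / b`; its image in the stalk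
at a generization is the same fraction. -/
lemma exists_rep {w : Proj 𝒜} (z : (Proj 𝒜).presheaf.stalk w) :
    ∃ (n : ℕ) (a b : 𝒜 n) (hb : (b : A) ∉ idl 𝒜 (toPS 𝒜 w)),
      stalkEq 𝒜 w z = HomogeneousLocalization.mk ⟨n, a, b, hb⟩ ∧
      ∀ (v : Proj 𝒜) (h : v ⤳ w) , ∃ hb' : (b : A) ∉ idl 𝒜 (toPS 𝒜 v),
        stalkEq 𝒜 v (((Proj 𝒜).presheaf.stalkSpecializes h).hom z) =
          HomogeneousLocalization.mk ⟨n, a, b, hb'⟩ := by
  obtain ⟨U, hwU, s, rfl⟩ := (Proj 𝒜).presheaf.exists_germ_eq z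
  obtain ⟨V, hwV, hVU, n, a, b, H⟩ := valAt_local 𝒜 s w hwU
  obtain ⟨hb, h1⟩ := H w hwU hwV
  refine ⟨n, a, b, hb, (stalkEq_germ 𝒜 s w hwU).trans h1, ?_⟩
  intro v h
  have hvV : v ∈ V := h.mem_open V.2 hwV
  obtain ⟨hb', h2⟩ := H v (hVU hvV) hvV
  refine ⟨hb', ?_⟩
  have h3 : ((Proj 𝒜).presheaf.stalkSpecializes h).hom
      (((Proj 𝒜).presheaf.germ U w hwU).hom s) =
      ((Proj 𝒜).presheaf.germ U v (hVU hvV)).hom s :=
    (Proj 𝒜).presheaf.germ_stalkSpecializes_apply (U := U) hwU h s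
  exact (congrArg (stalkEq 𝒜 v) h3).trans ((stalkEq_germ 𝒜 s v (hVU hvV)).trans h2)

lemma isUnit_mk_iff {w : ProjectiveSpectrum 𝒜} {n : ℕ} (a b : 𝒜 n) (hb : (b : A) ∉ idl 𝒜 w) :
    IsUnit (HomogeneousLocalization.mk ⟨n, a, b, hb⟩ : LR 𝒜 w) ↔ (a : A) ∉ idl 𝒜 w := by
  rw [← HomogeneousLocalization.isUnit_iff_isUnit_val, HomogeneousLocalization.val_mk,
    Localization.mk_eq_mk', IsLocalization.AtPrime.isUnit_mk'_iff _ (idl 𝒜 w)]
  rfl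

lemma mk_mem_locIdeal_iff (I : Ideal A) {w : ProjectiveSpectrum 𝒜} {n : ℕ} (a b : 𝒜 n)
    (hb : (b : A) ∉ idl 𝒜 w) :
    (HomogeneousLocalization.mk ⟨n, a, b, hb⟩ : LR 𝒜 w) ∈ locIdeal 𝒜 I w ↔
      ∃ s, s ∉ idl 𝒜 w ∧ s * (a : A) ∈ I := by
  unfold locIdeal
  rw [Ideal.mem_comap, HomogeneousLocalization.algebraMap_apply, HomogeneousLocalization.val_mk,
    Localization.mk_eq_mk', IsLocalization.mk'_mem_map_algebraMap_iff]
  constructor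
  · rintro ⟨s, hs, h⟩
    exact ⟨s, hs, h⟩
  · rintro ⟨s, hs, h⟩
    exact ⟨s, hs, h⟩

lemma mk_mem_locIdeal_iff' {v w : ProjectiveSpectrum 𝒜} (h : idl 𝒜 v ≤ idl 𝒜 w) {n : ℕ}
    (a b : 𝒜 n) (hb : (b : A) ∉ idl 𝒜 w) :
    (HomogeneousLocalization.mk ⟨n, a, b, hb⟩ : LR 𝒜 w) ∈ locIdeal 𝒜 (idl 𝒜 v) w ↔
      (a : A) ∈ idl 𝒜 v := by
  rw [mk_mem_locIdeal_iff]
  constructor
  · rintro ⟨s, hs, h1⟩
    exact ((inferInstance : (idl 𝒜 v).IsPrime).mem_or_mem h1).resolve_left fun hc => hs (h hc)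
  · intro h1
    exact ⟨1, fun hc => (inferInstance : (idl 𝒜 w).IsPrime).ne_top
      ((Ideal.eq_top_iff_one _).2 hc), by rw [one_mul]; exact h1⟩

/-- The prime ideal of the stalk at `w` given by the generization `v`. -/
theorem mem_primeAt_iff {v w : Proj 𝒜} (h : v ⤳ w) (z : (Proj 𝒜).presheaf.stalk w) :
    z ∈ primeAt h ↔ stalkEq 𝒜 w z ∈ locIdeal 𝒜 (idl 𝒜 (toPS 𝒜 v)) (toPS 𝒜 w) := by
  obtain ⟨n, a, b, hb, h1, h2⟩ := exists_rep 𝒜 z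
  obtain ⟨hb', h3⟩ := h2 v h
  unfold primeAt
  rw [h1, mk_mem_locIdeal_iff' 𝒜 ((specializes_iff 𝒜 w v).1 h), Ideal.mem_comap,
    IsLocalRing.mem_maximalIdeal, mem_nonunits_iff]
  have h4 : IsUnit (((Proj 𝒜).presheaf.stalkSpecializes h).hom z) ↔
      IsUnit (stalkEq 𝒜 v (((Proj 𝒜).presheaf.stalkSpecializes h).hom z)) :=
    (MulEquiv.isUnit_map (stalkEq 𝒜 v)).symm
  rw [h4, h3]
  exact (not_congr (isUnit_mk_iff 𝒜 (w := toPS 𝒜 v) a b hb')).trans not_not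

instance schA_primeAt_prime {X : Scheme.{0}} {x y : X} (h : y ⤳ x) : (primeAt h).IsPrime :=
  inferInstanceAs (Ideal.comap _ _).IsPrime

instance schA_locRing_local {X : Scheme.{0}} {x y : X} (h : y ⤳ x) : IsLocalRing (LocRing h) :=
  have : Nontrivial (LocRing h) := Ideal.Quotient.nontrivial_iff.2 (schA_primeAt_prime h).ne_top
  IsLocalRing.of_surjective' (Ideal.Quotient.mk (primeAt h)) Ideal.Quotient.mk_surjective

/-- The local ring at `w` maps onto the local ring at `w` of the closure of `v`. -/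
noncomputable def toLoc {v w : Proj 𝒜} (h : v ⤳ w) : LR 𝒜 (toPS 𝒜 w) →+* LocRing h :=
  (Ideal.Quotient.mk (primeAt h)).comp (stalkEq 𝒜 w).symm.toRingHom

lemma toLoc_stalkEq {v w : Proj 𝒜} (h : v ⤳ w) (z : (Proj 𝒜).presheaf.stalk w) :
    toLoc 𝒜 h (stalkEq 𝒜 w z) = Ideal.Quotient.mk (primeAt h) z :=
  congrArg (Ideal.Quotient.mk (primeAt h)) ((stalkEq 𝒜 w).symm_apply_apply z)

lemma toLoc_surjective {v w : Proj 𝒜} (h : v ⤳ w) : Function.Surjective (toLoc 𝒜 h) :=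
  Ideal.Quotient.mk_surjective.comp (stalkEq 𝒜 w).symm.surjective

lemma ker_toLoc {v w : Proj 𝒜} (h : v ⤳ w) :
    RingHom.ker (toLoc 𝒜 h) = locIdeal 𝒜 (idl 𝒜 (toPS 𝒜 v)) (toPS 𝒜 w) := by
  ext β
  obtain ⟨z, rfl⟩ := (stalkEq 𝒜 w).surjective β
  rw [RingHom.mem_ker, toLoc_stalkEq, Ideal.Quotient.eq_zero_iff_mem, mem_primeAt_iff]

/-- The order of an element of the local ring of the closure of `v` at `w`, as a length over the
local ring of `Proj` at `w`. -/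
theorem ord_toLoc {v w : Proj 𝒜} (h : v ⤳ w) (β : LR 𝒜 (toPS 𝒜 w)) :
    Ring.ord (LocRing h) (toLoc 𝒜 h β) =
      Module.length (LR 𝒜 (toPS 𝒜 w)) (LR 𝒜 (toPS 𝒜 w) ⧸
        (locIdeal 𝒜 (idl 𝒜 (toPS 𝒜 v)) (toPS 𝒜 w) ⊔ Ideal.span {β})) := by
  rw [length_span (toLoc 𝒜 h) (toLoc_surjective 𝒜 h) β, ker_toLoc]

open Classical in
/-- Module B2g: the multiplicity `mult` on `Proj`. -/
theorem mult_proj (hN : ∀ x : ProjectiveSpectrum 𝒜, IsNoetherianRing (LR 𝒜 x))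
    (g : Γ(Proj 𝒜, ⊤)) (y x : Proj 𝒜) (β : LR 𝒜 (toPS 𝒜 x))
    (hβ : (Proj.stalkIso 𝒜 x).hom ((Proj 𝒜).presheaf.germ ⊤ x trivial g) = β) :
    mult g y x =
      if idl 𝒜 (toPS 𝒜 y) ≤ idl 𝒜 (toPS 𝒜 x) ∧ β ∉ locIdeal 𝒜 (idl 𝒜 (toPS 𝒜 y)) (toPS 𝒜 x)
      then (Module.length (LR 𝒜 (toPS 𝒜 x)) (LR 𝒜 (toPS 𝒜 x) ⧸
        (locIdeal 𝒜 (idl 𝒜 (toPS 𝒜 y)) (toPS 𝒜 x) ⊔ Ideal.span {β}))).toNat
      else 0 := by
  have hβ' : stalkEq 𝒜 x ((Proj 𝒜).presheaf.germ ⊤ x trivial g) = β := hβ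
  have hz : ∀ h : y ⤳ x, toLoc 𝒜 h β =
      Ideal.Quotient.mk (primeAt h) ((Proj 𝒜).presheaf.germ ⊤ x trivial g) := fun h => by
    rw [← hβ', toLoc_stalkEq]
  have hmem : ∀ h : y ⤳ x, (Proj 𝒜).presheaf.germ ⊤ x trivial g ∈ primeAt h ↔
      β ∈ locIdeal 𝒜 (idl 𝒜 (toPS 𝒜 y)) (toPS 𝒜 x) := fun h => by
    rw [mem_primeAt_iff, hβ']
  unfold mult
  by_cases h : y ⤳ x
  · by_cases hb : β ∈ locIdeal 𝒜 (idl 𝒜 (toPS 𝒜 y)) (toPS 𝒜 x)
    · rw [dif_neg, if_neg]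
      · rfl
      · exact fun hc => hc.2 hb
      · rintro ⟨h', -, hc⟩
        exact hc ((hmem h').2 hb)
    · rw [if_pos ⟨(specializes_iff 𝒜 x y).1 h, hb⟩, ← ord_toLoc 𝒜 h β]
      by_cases hd : ringKrullDim (LocRing h) = 1
      · rw [dif_pos ⟨h, hd, fun hc => hb ((hmem h).1 hc)⟩, hz]
      · rw [dif_neg]
        · have : IsNoetherianRing (LocRing h) := by
            have := hN (toPS 𝒜 x)
            exact isNoetherianRing_of_surjective _ _ (toLoc 𝒜 h) (toLoc_surjective 𝒜 h)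
          rw [ord_toNat_eq_zero (LocRing h) (toLoc 𝒜 h β) ?_ hd]
          · rfl
          · intro hc
            rw [← RingHom.mem_ker, ker_toLoc] at hc
            exact hb hc
        · rintro ⟨h', hd', -⟩
          exact hd hd'
  · rw [dif_neg, if_neg]
    · rfl
    · exact fun hc => h ((specializes_iff 𝒜 x y).2 hc.1)
    · rintro ⟨h', -⟩
      exact h h'

end Stalks

end Pool.Agent.SSF.Br
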