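import Pool.Agent.SSF.Br.PI
import Pool.Agent.SSF.Br.SchA
import Pool.Agent.SSF.Br.AsmA1

/-!
# Gysin fibres in terms of the generic fibre: definitions
-/

namespace Pool.Agent.SSF.Br

open CategoryTheory AlgebraicGeometry MonoidalCategory CartesianMonoidalCategory Limits
open TensorProduct HomogeneousLocalization HomogeneousIdeal Graded

section T

variable {k : Type} [Field k]

/-- The local rings of a scheme over `k` are algebras over `k`. -/
noncomputable instance algStalk (T : Sch k) (x : T.left) : Algebra k (T.left.presheaf.stalk x) :=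
  (Spec.preimage (T.left.fromSpecStalk x ≫ T.hom)).hom.toAlgebra

lemma spec_algStalk (T : Sch k) (x : T.left) :
    Spec.map (CommRingCat.ofHom (algebraMap k (T.left.presheaf.stalk x))) =
      T.left.fromSpecStalk x ≫ T.hom :=
  Spec.map_preimage _

/-- The canonical morphism `Spec O_{T,x} → T`. -/
noncomputable def spTo (T : Sch k) (x : T.left) : specOver k (T.left.presheaf.stalk x) ⟶ T :=
  Over.homMk (T.left.fromSpecStalk x) (spec_algStalk T x).symm

/-- The specialization map as a homomorphism of algebras. -/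
noncomputable def stalkSp (T : Sch k) {y x : T.left} (h : y ⤳ x) :
    T.left.presheaf.stalk x →ₐ[k] T.left.presheaf.stalk y where
  toRingHom := (T.left.presheaf.stalkSpecializes h).hom
  commutes' := by
    intro a
    have h1 : CommRingCat.ofHom (algebraMap k (T.left.presheaf.stalk x)) ≫
        T.left.presheaf.stalkSpecializes h =
        CommRingCat.ofHom (algebraMap k (T.left.presheaf.stalk y)) := by
      apply Spec.map_injective
      rw [Spec.map_comp, spec_algStalk, spec_algStalk, ← Category.assoc,
        Scheme.SpecMap_stalkSpecializes_fromSpecStalk]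
    exact congrArg (fun q => q.hom a) h1

lemma specOverMap_spTo (T : Sch k) {y x : T.left} (h : y ⤳ x) :
    specOverMap (stalkSp T h) ≫ spTo T x = spTo T y := by
  apply Over.OverMorphism.ext
  rw [Over.comp_left]
  exact Scheme.SpecMap_stalkSpecializes_fromSpecStalk h

/-- The isomorphism between the two forms of the spectrum of the local ring. -/
noncomputable def specLocIso {T : Sch k} (t : pt k ⟶ T) : specLoc t ≅ specOver k (locAt t) :=
  Over.isoMk (Iso.refl _)
    ((Category.id_comp _).trans (spec_algStalk T (imPt t)))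

lemma specLocIso_spTo {T : Sch k} (t : pt k ⟶ T) :
    (specLocIso t).hom ≫ spTo T (imPt t) = specLocTo t := by
  apply Over.OverMorphism.ext
  rw [Over.comp_left]
  exact Category.id_comp _

/-- The evaluation `O_{T,t} → k` at the rational point. -/
noncomputable def evalAt {T : Sch k} (t : pt k ⟶ T) : locAt t →ₐ[k] k where
  toRingHom := (Scheme.stalkClosedPointTo t.left).hom
  commutes' := by
    intro a
    have h1 : Spec.preimage (T.left.fromSpecStalk (t.left (IsLocalRing.closedPoint _)) ≫ T.hom) ≫
        Scheme.stalkClosedPointTo t.left = 𝟙 (CommRingCat.of k) := by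
      apply Spec.map_injective
      rw [Spec.map_comp, Spec.map_preimage, Spec.map_id]
      refine (Category.assoc _ _ _).symm.trans ?_
      have h2 := Scheme.Spec_stalkClosedPointTo_fromSpecStalk t.left
      refine (congrArg (· ≫ T.hom) h2).trans ?_
      exact Over.w t
    exact congrArg (fun q => q.hom a) h1

/-- Module A0: the closed point of `Spec O_{T,t}`. -/
lemma specOverMap_evalAt {T : Sch k} (t : pt k ⟶ T) :
    specOverMap (evalAt t) ≫ (specLocIso t).inv = toUnit (specOver k k) ≫ ptLoc t := by
  have h1 : (toUnit (specOver k k)).left = 𝟙 (Spec (CommRingCat.of k)) := by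
    have h2 := Over.w (toUnit (specOver k k))
    have h3 : (specOver k k).hom = 𝟙 (Spec (CommRingCat.of k)) := Spec.map_id _
    exact ((Category.comp_id _).symm.trans h2).trans h3
  apply Over.OverMorphism.ext
  have h4 : (specOverMap (evalAt t) ≫ (specLocIso t).inv).left =
      Spec.map (Scheme.stalkClosedPointTo t.left) := Category.comp_id _
  have h5 : (toUnit (specOver k k) ≫ ptLoc t).left =
      (toUnit (specOver k k)).left ≫ Spec.map (Scheme.stalkClosedPointTo t.left) := rfl
  rw [h4, h5, h1]
  exact (Category.id_comp _).symm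

end T

section Coheight

/-- Module A1b: `X × Spec O_{T,x} → X × T`. -/
theorem coheight_whisker {k : Type} [Field k] (X T : Sch k) (x : T.left)
    (w : (X ⊗ specOver k (T.left.presheaf.stalk x)).left) :
    Order.coheight ((X ◁ spTo T x).left w) = Order.coheight w := by
  have h1 : IsPreimmersion (spTo T x).left := inferInstanceAs (IsPreimmersion (T.left.fromSpecStalk x))
  have h2 : Flat (spTo T x).left := flat_fromSpecStalk T.left x
  exact coheight_whisker_of X (spTo T x) w

/-- Module A1c: the same map on points is injective. -/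
theorem whisker_injective {k : Type} [Field k] (X T : Sch k) (x : T.left) :
    Function.Injective (X ◁ spTo T x).left := by
  have h1 : IsPreimmersion (spTo T x).left := inferInstanceAs (IsPreimmersion (T.left.fromSpecStalk x))
  exact whisker_injective_of X (spTo T x)

end Coheight

section Fibre

variable {k A : Type} [Field k] [CommRing A] [Algebra k A] (𝒜 : ℕ → Submodule k A)
  [GradedAlgebra 𝒜]

/-- The isomorphism `Proj (B ⊗ A) = Proj A × Spec B`. -/
noncomputable def projIso (B : Type) [CommRing B] [Algebra k B] :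
    Proj (bc 𝒜 B) ≅ (projOver 𝒜 ⊗ specOver k B).left :=
  (exists_projIso 𝒜).choose B

lemma projIso_fst (B : Type) [CommRing B] [Algebra k B] :
    (projIso 𝒜 B).hom ≫ (fst (projOver 𝒜) (specOver k B)).left =
      Proj.map (inclHom 𝒜 B) (inclHom_irr 𝒜 B) :=
  (exists_projIso 𝒜).choose_spec.1 B

lemma projIso_snd (B : Type) [CommRing B] [Algebra k B] :
    (projIso 𝒜 B).hom ≫ (snd (projOver 𝒜) (specOver k B)).left = projTo 𝒜 B :=
  (exists_projIso 𝒜).choose_spec.2.1 B

lemma projIso_nat (B C : Type) [CommRing B] [Algebra k B] [CommRing C] [Algebra k C]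
    (φ : B →ₐ[k] C) :
    Proj.map (bcHom 𝒜 φ) (bcHom_irr 𝒜 φ) ≫ (projIso 𝒜 B).hom =
      (projIso 𝒜 C).hom ≫ (projOver 𝒜 ◁ specOverMap φ).left :=
  (exists_projIso 𝒜).choose_spec.2.2 B C φ

/-- The map `Proj (B ⊗ A) → Proj A` on points. -/
noncomputable def toX (B : Type) [CommRing B] [Algebra k B] (P : ProjectiveSpectrum (bc 𝒜 B)) :
    (projOver 𝒜).left :=
  Proj.map (inclHom 𝒜 B) (inclHom_irr 𝒜 B) P

/-- The map `Proj (O_{T,x} ⊗ A) → X × T` on points. -/
noncomputable def toXT (T : Sch k) (x : T.left)
    (P : ProjectiveSpectrum (bc 𝒜 (T.left.presheaf.stalk x))) : (projOver 𝒜 ⊗ T).left :=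
  (projOver 𝒜 ◁ spTo T x).left ((projIso 𝒜 _).hom P)

lemma toXT_injective (T : Sch k) (x : T.left) : Function.Injective (toXT 𝒜 T x) :=
  (whisker_injective _ _ _).comp (projIso 𝒜 _).hom.isOpenEmbedding.injective

lemma toXT_bcPt (T : Sch k) {y x : T.left} (h : y ⤳ x)
    (P : ProjectiveSpectrum (bc 𝒜 (T.left.presheaf.stalk y))) :
    toXT 𝒜 T x (bcPt 𝒜 (stalkSp T h) P) = toXT 𝒜 T y P := by
  have h1 := projIso_nat 𝒜 _ _ (stalkSp T h)
  have h2 : (projOver 𝒜 ◁ specOverMap (stalkSp T h)) ≫ (projOver 𝒜 ◁ spTo T x) =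
      projOver 𝒜 ◁ spTo T y := by
    rw [← MonoidalCategory.whiskerLeft_comp, specOverMap_spTo]
  have h3 := congrArg (fun q => q.left ((projIso 𝒜 (T.left.presheaf.stalk y)).hom P)) h2
  have h4 := congrArg (fun q => (projOver 𝒜 ◁ spTo T x).left (q P)) h1
  exact h4.trans h3

/-- Module A2b: the codimension of the points in the generic fibre. -/
theorem ringKrullDim_of_toXT (T : Sch k) (x : T.left)
    (P : ProjectiveSpectrum (bc 𝒜 (T.left.presheaf.stalk x))) :
    ringKrullDim (LR (bc 𝒜 (T.left.presheaf.stalk x)) P) =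
      (Order.coheight (toXT 𝒜 T x P) : ℕ∞) := by
  rw [toXT, coheight_whisker]
  have h1 : Order.coheight ((projIso 𝒜 (T.left.presheaf.stalk x)).hom P) =
      Order.coheight (show Proj (bc 𝒜 (T.left.presheaf.stalk x)) from P) :=
    coheight_of_isInducing (projIso 𝒜 (T.left.presheaf.stalk x)).hom
      (projIso 𝒜 (T.left.presheaf.stalk x)).hom.isOpenEmbedding.isInducing
      (fun v w _ => (projIso 𝒜 (T.left.presheaf.stalk x)).hom.surjective v) P
  rw [h1]
  exact ringKrullDim_LR_coheight _ _

end Fibre

end Pool.Agent.SSF.Br
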