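import Pool.Agent.SSF.StmtScheme

/-!
# Transport of `mult` and `IsDiv` along an isomorphism of schemes (modules B2b, B2c)
-/

namespace Pool.Agent.SSF.Br

open CategoryTheory AlgebraicGeometry

/-- The order of vanishing is invariant under ring isomorphisms. -/
theorem ord_ringEquiv {A B : Type*} [CommRing A] [CommRing B] (Φ : A ≃+* B) (a : A) :
    Ring.ord B (Φ a) = Ring.ord A a := by
  have hJ : Ideal.span {Φ a} = (Ideal.span {a}).map (Φ : A →+* B) := by
    simp [Ideal.map_span]
  let q : (A ⧸ Ideal.span {a}) ≃+* (B ⧸ Ideal.span {Φ a}) := Ideal.quotientEquiv _ _ Φ hJ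
  have : RingHomInvPair (Φ : A →+* B) (Φ.symm : B →+* A) := RingHomInvPair.of_ringEquiv Φ
  have : RingHomInvPair (Φ.symm : B →+* A) (Φ : A →+* B) := this.symm
  let e : (A ⧸ Ideal.span {a}) ≃ₛₗ[(Φ : A →+* B)] (B ⧸ Ideal.span {Φ a}) :=
    { q with
      map_smul' := by
        intro r x
        obtain ⟨x, rfl⟩ := Ideal.Quotient.mk_surjective x
        change q (Ideal.Quotient.mk _ (r * x)) = _
        simp [q]
        rfl }
  have h := Order.krullDim_eq_of_orderIso (Submodule.orderIsoMapComap e)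
  rw [← Module.coe_length, ← Module.coe_length] at h
  exact (WithBot.coe_injective h).symm

section Gen

variable {X Y : Scheme.{0}} (f : X ⟶ Y)

theorem primeAt_comap {y x : X} (h : y ⤳ x) (h' : f y ⤳ f x) :
    primeAt h' = (primeAt h).comap (f.stalkMap x).hom := by
  have h1 := f.stalkSpecializes_stalkMap y x h
  have h2 : (f.stalkMap y).hom.comp (Y.presheaf.stalkSpecializes h').hom =
      (X.presheaf.stalkSpecializes h).hom.comp (f.stalkMap x).hom := by
    rw [← CommRingCat.hom_comp, ← CommRingCat.hom_comp, h1]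
  have h3 := IsLocalRing.maximalIdeal_comap (f.stalkMap y).hom
  unfold primeAt
  rw [Ideal.comap_comap, ← h2, ← Ideal.comap_comap, h3]

variable [IsIso f]

/-- The stalk map of an isomorphism as a ring equivalence. -/
noncomputable def isoStalkEq (x : X) : Y.presheaf.stalk (f x) ≃+* X.presheaf.stalk x :=
  (asIso (f.stalkMap x)).commRingCatIsoToRingEquiv

theorem isoStalkEq_apply (x : X) (a : Y.presheaf.stalk (f x)) :
    isoStalkEq f x a = (f.stalkMap x).hom a := rfl

theorem primeAt_map {y x : X} (h : y ⤳ x) (h' : f y ⤳ f x) :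
    primeAt h = (primeAt h').map (isoStalkEq f x : Y.presheaf.stalk (f x) →+* X.presheaf.stalk x) := by
  rw [primeAt_comap f h h']
  exact (Ideal.map_comap_of_surjective _ (isoStalkEq f x).surjective _).symm

/-- The local rings of closures correspond. -/
noncomputable def locEq {y x : X} (h : y ⤳ x) (h' : f y ⤳ f x) : LocRing h' ≃+* LocRing h :=
  Ideal.quotientEquiv _ _ (isoStalkEq f x) (primeAt_map f h h')

theorem locEq_mk {y x : X} (h : y ⤳ x) (h' : f y ⤳ f x) (a : Y.presheaf.stalk (f x)) :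
    locEq f h h' (Ideal.Quotient.mk _ a) = Ideal.Quotient.mk _ ((f.stalkMap x).hom a) := rfl

theorem toRes_locEq {y x : X} (h : y ⤳ x) (h' : f y ⤳ f x) (a : LocRing h') :
    toRes h (locEq f h h' a) = (f.residueFieldMap y).hom (toRes h' a) := by
  obtain ⟨a, rfl⟩ := Ideal.Quotient.mk_surjective a
  rw [locEq_mk]
  change (X.residue y).hom ((X.presheaf.stalkSpecializes h).hom ((f.stalkMap x).hom a)) =
    (f.residueFieldMap y).hom ((Y.residue (f y)).hom ((Y.presheaf.stalkSpecializes h').hom a))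
  have h1 := f.stalkSpecializes_stalkMap_apply y x h a
  have h2 := Scheme.residue_residueFieldMap f y
  have h3 := DFunLike.congr_fun (CommRingCat.hom_ext_iff.mp h2)
    ((Y.presheaf.stalkSpecializes h').hom a)
  simp only [CommRingCat.hom_comp, RingHom.comp_apply] at h3
  rw [h3]
  exact congrArg _ h1.symm

theorem specializes_iff_of_isIso (y x : X) : f y ⤳ f x ↔ y ⤳ x :=
  f.isOpenEmbedding.isInducing.specializes_iff

theorem residueFieldMap_bijective (y : X) : Function.Bijective (f.residueFieldMap y).hom :=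
  ConcreteCategory.bijective_of_isIso (f.residueFieldMap y)

end Gen

/-- Module B2b. -/
theorem mult_iso {W W' : Scheme.{0}} (e : W ≅ W') (f : Γ(W', ⊤)) (y x : W) :
    mult (e.hom.appTop f) y x = mult f (e.hom y) (e.hom x) := by
  classical
  have hgerm : (e.hom.stalkMap x).hom (W'.presheaf.germ ⊤ (e.hom x) trivial f) =
      W.presheaf.germ ⊤ x trivial (e.hom.appTop f) :=
    e.hom.germ_stalkMap_apply ⊤ x trivial f
  have key : ∀ (h : y ⤳ x) (h' : e.hom y ⤳ e.hom x),
      (ringKrullDim (LocRing h) = 1 ∧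
        W.presheaf.germ ⊤ x trivial (e.hom.appTop f) ∉ primeAt h ↔
      ringKrullDim (LocRing h') = 1 ∧
        W'.presheaf.germ ⊤ (e.hom x) trivial f ∉ primeAt h') := by
    intro h h'
    rw [ringKrullDim_eq_of_ringEquiv (locEq e.hom h h'), primeAt_comap e.hom h h',
      Ideal.mem_comap, hgerm]
  have key2 : ∀ (h : y ⤳ x) (h' : e.hom y ⤳ e.hom x),
      Ring.ord (LocRing h) (Ideal.Quotient.mk (primeAt h)
        (W.presheaf.germ ⊤ x trivial (e.hom.appTop f))) =
      Ring.ord (LocRing h') (Ideal.Quotient.mk (primeAt h')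
        (W'.presheaf.germ ⊤ (e.hom x) trivial f)) := by
    intro h h'
    rw [← hgerm, ← locEq_mk e.hom h h', ord_ringEquiv]
  unfold mult
  by_cases hc : ∃ h : y ⤳ x, ringKrullDim (LocRing h) = 1 ∧
      W.presheaf.germ ⊤ x trivial (e.hom.appTop f) ∉ primeAt h
  · have hc' : ∃ h' : e.hom y ⤳ e.hom x, ringKrullDim (LocRing h') = 1 ∧
        W'.presheaf.germ ⊤ (e.hom x) trivial f ∉ primeAt h' := by
      obtain ⟨h, hh⟩ := hc
      have h' := (specializes_iff_of_isIso e.hom y x).2 h
      exact ⟨h', (key h h').1 hh⟩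
    rw [dif_pos hc, dif_pos hc']
    exact congrArg (fun q : ℕ∞ => (q.toNat : ℤ)) (key2 hc.choose hc'.choose)
  · have hc' : ¬ ∃ h' : e.hom y ⤳ e.hom x, ringKrullDim (LocRing h') = 1 ∧
        W'.presheaf.germ ⊤ (e.hom x) trivial f ∉ primeAt h' := by
      rintro ⟨h', hh⟩
      have h := (specializes_iff_of_isIso e.hom y x).1 h'
      exact hc ⟨h, (key h h').2 hh⟩
    rw [dif_neg hc, dif_neg hc']

/-- Module B2c. -/
theorem isDiv_iso {W W' : Scheme.{0}} (e : W ≅ W') (y : W') (g : W'.residueField y)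
    (c : W' →₀ ℤ) (h : IsDiv y g c) :
    ∃ (g' : W.residueField (e.inv y)),
      IsDiv (e.inv y) g' (c.comapDomain e.hom e.hom.isOpenEmbedding.injective.injOn) := by
  obtain ⟨g', hg'⟩ := (residueFieldMap_bijective e.inv y).2 g
  refine ⟨g', ?_, ?_, ?_⟩
  · rintro rfl
    exact h.ne_zero (by rw [← hg', map_zero])
  · intro x hx
    obtain ⟨x', rfl⟩ : ∃ x', x = e.inv x' := ⟨e.hom x, by simp⟩
    rw [Finsupp.comapDomain_apply, Scheme.inv_hom_apply]
    refine h.off x' fun ⟨h', hd⟩ => hx ?_
    have h1 := (specializes_iff_of_isIso e.inv y x').2 h'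
    exact ⟨h1, by rw [ringKrullDim_eq_of_ringEquiv (locEq e.inv h' h1), hd]⟩
  · intro x hyx hd a b ha hb hab
    obtain ⟨x', rfl⟩ : ∃ x', x = e.inv x' := ⟨e.hom x, by simp⟩
    rw [Finsupp.comapDomain_apply, Scheme.inv_hom_apply]
    have h' := (specializes_iff_of_isIso e.inv y x').1 hyx
    have hd' : ringKrullDim (LocRing h') = 1 := by
      rw [← ringKrullDim_eq_of_ringEquiv (locEq e.inv h' hyx), hd]
    have := h.on x' h' hd' (locEq e.inv h' hyx a) (locEq e.inv h' hyx b)
      (by simpa using ha) (by simpa using hb)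
      (by rw [toRes_locEq, toRes_locEq, hab, map_mul, hg'])
    rw [this, ordAt, ordAt, ordAt, ordAt, ord_ringEquiv, ord_ringEquiv]

end Pool.Agent.SSF.Br
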