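import Pool.Agent.SSF.Br.SchBase
import Pool.Agent.SSF.Br.SchA

/-!
# Multiplicities for functions coming from the base
-/

namespace Pool.Agent.SSF.Br

open CategoryTheory AlgebraicGeometry MonoidalCategory CartesianMonoidalCategory Limits
open TensorProduct HomogeneousLocalization HomogeneousIdeal Graded

theorem top_section {X : Scheme.{0}} {U : X.Opens} (e : U = ⊤) (j : X ⟶ U)
    (hj : j ≫ U.ι = 𝟙 X) :
    U.topIso.inv ≫ j.appTop = X.presheaf.map (homOfLE (by rw [e])).op := by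
  have h1 : U.ι.appTop ≫ j.appTop = 𝟙 _ := by
    rw [← Scheme.Hom.comp_appTop, hj, Scheme.Hom.id_appTop]
  have h2 : U.ι.appTop = X.presheaf.map (homOfLE (le_top : U ≤ ⊤)).op ≫ U.topIso.inv :=
    X.presheaf.map_comp (homOfLE (le_top : U ≤ ⊤)).op (eqToHom U.ι_image_top).op
  have h3 : X.presheaf.map (homOfLE (by rw [e])).op ≫ X.presheaf.map
      (homOfLE (le_top : U ≤ ⊤)).op = 𝟙 (X.presheaf.obj (Opposite.op U)) := by
    rw [← Functor.map_comp, ← X.presheaf.map_id]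
    rfl
  rw [h2, Category.assoc] at h1
  calc U.topIso.inv ≫ j.appTop = 𝟙 _ ≫ U.topIso.inv ≫ j.appTop := by rw [Category.id_comp]
    _ = (X.presheaf.map (homOfLE (by rw [e])).op ≫ X.presheaf.map
      (homOfLE (le_top : U ≤ ⊤)).op) ≫ U.topIso.inv ≫ j.appTop := by rw [h3]
    _ = _ := by rw [Category.assoc, h1, Category.comp_id]

section Zero

variable {σ A : Type} [CommRing A] [SetLike σ A] [AddSubgroupClass σ A] (𝒜 : ℕ → σ)
  [GradedRing 𝒜]

theorem toSpecZero_appTop :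
    (Scheme.ΓSpecIso (CommRingCat.of (𝒜 0))).inv ≫ (Proj.toSpecZero 𝒜).appTop =
      CommRingCat.ofHom (fromZeroRingHom 𝒜 (Submonoid.powers 1)) ≫ Proj.awayToSection 𝒜 1 ≫
        (Proj 𝒜).presheaf.map (homOfLE (by rw [Proj.basicOpen_one])).op := by
  have h0 : Proj.toSpecZero 𝒜 = ((Scheme.topIso _).inv ≫
      (Scheme.isoOfEq _ (Proj.basicOpen_one 𝒜)).inv) ≫
    Proj.basicOpenToSpec 𝒜 1 ≫ Spec.map (CommRingCat.ofHom (fromZeroRingHom 𝒜 _)) := by
    rw [Proj.toSpecZero, Category.assoc]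
  rw [h0, Scheme.Hom.comp_appTop, Scheme.Hom.comp_appTop, Category.assoc,
    ← Scheme.ΓSpecIso_inv_naturality_assoc]
  have h1 : (Proj.basicOpenToSpec 𝒜 1).appTop = (Scheme.ΓSpecIso _).hom ≫
      Proj.awayToSection 𝒜 1 ≫ (Proj.basicOpen 𝒜 1).topIso.inv :=
    Proj.basicOpenToSpec_app_top 𝒜 1
  rw [h1]
  simp only [Category.assoc, Iso.inv_hom_id_assoc]
  congr 2
  apply top_section (Proj.basicOpen_one 𝒜)
  rw [Category.assoc, Scheme.isoOfEq_inv_ι, Scheme.toIso_inv_ι]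

/-- Germs of the functions of degree zero. -/
theorem germ_toSpecZero (c : 𝒜 0) (x : Proj 𝒜) :
    (Proj.stalkIso 𝒜 x).hom ((Proj 𝒜).presheaf.germ ⊤ x trivial
      ((Proj.toSpecZero 𝒜).appTop ((Scheme.ΓSpecIso (CommRingCat.of (𝒜 0))).inv c))) =
      fromZeroRingHom 𝒜 _ c := by
  have hx : x ∈ Proj.basicOpen 𝒜 1 := by rw [Proj.basicOpen_one]; trivial
  have h2 : (Proj 𝒜).presheaf.map (homOfLE (by rw [Proj.basicOpen_one])).op ≫
      (Proj 𝒜).presheaf.germ ⊤ x trivial = (Proj 𝒜).presheaf.germ (Proj.basicOpen 𝒜 1) x hx :=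
    (Proj 𝒜).presheaf.germ_res (homOfLE (by rw [Proj.basicOpen_one]) :
      (⊤ : (Proj 𝒜).Opens) ⟶ Proj.basicOpen 𝒜 1) x (show x ∈ (⊤ : (Proj 𝒜).Opens) from trivial)
  have h3 : Proj.awayToSection 𝒜 1 ≫ (Proj 𝒜).presheaf.germ (Proj.basicOpen 𝒜 1) x hx =
      CommRingCat.ofHom (HomogeneousLocalization.mapId 𝒜 (Submonoid.powers_le.mpr hx)) ≫
        (Proj.stalkIso 𝒜 x).inv :=
    ProjectiveSpectrum.Proj.awayToSection_germ 𝒜 1 x hx
  have h4 : (Scheme.ΓSpecIso (CommRingCat.of (𝒜 0))).inv ≫ (Proj.toSpecZero 𝒜).appTop ≫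
      (Proj 𝒜).presheaf.germ ⊤ x trivial ≫ (Proj.stalkIso 𝒜 x).hom =
      CommRingCat.ofHom (fromZeroRingHom 𝒜 (Submonoid.powers 1)) ≫
      CommRingCat.ofHom (HomogeneousLocalization.mapId 𝒜 (Submonoid.powers_le.mpr hx)) := by
    rw [← Category.assoc, toSpecZero_appTop, Category.assoc, Category.assoc,
      ← Category.assoc _ ((Proj 𝒜).presheaf.germ ⊤ x trivial), h2,
      ← Category.assoc _ _ (Proj.stalkIso 𝒜 x).hom, h3, Category.assoc, Iso.inv_hom_id,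
      Category.comp_id]
  have h5 := congrArg (fun F => F.hom c) h4
  exact h5.trans rfl

end Zero

section Base

variable {k A : Type} [Field k] [CommRing A] [Algebra k A] (𝒜 : ℕ → Submodule k A)
  [GradedAlgebra 𝒜]

/-- Module B2l: germs of the functions coming from the base. -/
theorem germ_projTo (B : Type) [CommRing B] [Algebra k B] (b : B) (x : Proj (bc 𝒜 B)) :
    (Proj.stalkIso (bc 𝒜 B) x).hom ((Proj (bc 𝒜 B)).presheaf.germ ⊤ x trivial
      ((projTo 𝒜 B).appTop ((Scheme.ΓSpecIso (CommRingCat.of B)).inv b))) =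
      baseTo 𝒜 (toPS (bc 𝒜 B) x) b := by
  have h1 : (Scheme.ΓSpecIso (CommRingCat.of B)).inv ≫ (projTo 𝒜 B).appTop =
      CommRingCat.ofHom (algebraMap B (bc 𝒜 B 0)) ≫
        (Scheme.ΓSpecIso (CommRingCat.of (bc 𝒜 B 0))).inv ≫
          (Proj.toSpecZero (bc 𝒜 B)).appTop := by
    rw [projTo, Scheme.Hom.comp_appTop, ← Scheme.ΓSpecIso_inv_naturality_assoc]
  have h2 := congrArg (fun F => F.hom b) h1
  have h3 := germ_toSpecZero (bc 𝒜 B) (algebraMap B (bc 𝒜 B 0) b) x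
  refine Eq.trans ?_ h3
  exact congrArg (fun z => (Proj.stalkIso (bc 𝒜 B) x).hom
    ((Proj (bc 𝒜 B)).presheaf.germ ⊤ x trivial z)) h2

theorem baseTo_mem_locIdeal {B : Type} [CommRing B] [Algebra k B] (f : B)
    (v w : ProjectiveSpectrum (bc 𝒜 B)) (h : idl (bc 𝒜 B) v ≤ idl (bc 𝒜 B) w) :
    baseTo 𝒜 w f ∈ locIdeal (bc 𝒜 B) (idl (bc 𝒜 B) v) w ↔
      algebraMap B (B ⊗[k] A) f ∈ idl (bc 𝒜 B) v := by
  have hval : algebraMap (LR (bc 𝒜 B) w) (Localization.AtPrime (idl (bc 𝒜 B) w))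
      (baseTo 𝒜 w f) = algebraMap (B ⊗[k] A) _ (algebraMap B (B ⊗[k] A) f) := by
    rw [HomogeneousLocalization.algebraMap_apply, ← Localization.mk_one_eq_algebraMap]
    rfl
  have hv : (idl (bc 𝒜 B) v).IsPrime := v.isPrime
  have h2 : (Ideal.map (algebraMap (B ⊗[k] A) (Localization.AtPrime (idl (bc 𝒜 B) w)))
      (idl (bc 𝒜 B) v)).comap
        (algebraMap (B ⊗[k] A) (Localization.AtPrime (idl (bc 𝒜 B) w))) =
      idl (bc 𝒜 B) v := by
    refine IsLocalization.under_map_of_isPrime_disjoint (idl (bc 𝒜 B) w).primeCompl _ hv ?_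
    rw [Set.disjoint_left]
    intro z hz hz'
    exact hz (h hz')
  unfold locIdeal
  rw [Ideal.mem_comap, hval, ← Ideal.mem_comap, h2]

/-- Module B2m: the multiplicity for functions coming from the base. -/
theorem mult_projTo (G : Geom 𝒜) (B : Type) [CommRing B] [Algebra k B] [IsNoetherianRing B]
    (f : B) (y x : Proj (bc 𝒜 B)) :
    mult ((projTo 𝒜 B).appTop ((Scheme.ΓSpecIso (CommRingCat.of B)).inv f)) y x =
      multA 𝒜 f (toPS (bc 𝒜 B) y) (toPS (bc 𝒜 B) x) := by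
  rw [mult_proj (bc 𝒜 B) (noetherian_LR 𝒜 G B) _ y x _ (germ_projTo 𝒜 B f x)]
  unfold multA
  by_cases h : idl (bc 𝒜 B) (toPS (bc 𝒜 B) y) ≤ idl (bc 𝒜 B) (toPS (bc 𝒜 B) x)
  · have h' := baseTo_mem_locIdeal 𝒜 f _ _ h
    by_cases h2 : algebraMap B (B ⊗[k] A) f ∈ idl (bc 𝒜 B) (toPS (bc 𝒜 B) y)
    · rw [if_neg (fun hh => hh.2 (h'.2 h2)), if_neg (fun hh => hh.2 h2)]
      exact Nat.cast_zero
    · rw [if_pos ⟨h, fun hh => h2 (h'.1 hh)⟩, if_pos ⟨h, h2⟩]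
  · rw [if_neg (fun hh => h hh.1), if_neg (fun hh => h hh.1)]
    exact Nat.cast_zero

end Base

end Pool.Agent.SSF.Br
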