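import Pool.Agent.SSF.Br.AsmD
import Pool.Agent.SSF.Br.IsoTr
import Pool.Agent.SSF.Br.SchMult

/-!
# Gysin fibres in terms of graded rings
-/

namespace Pool.Agent.SSF.Br

open CategoryTheory AlgebraicGeometry MonoidalCategory CartesianMonoidalCategory Limits
open TensorProduct HomogeneousLocalization HomogeneousIdeal Graded

namespace AsmF

lemma map_eq_id {A σ : Type} [CommRing A] [SetLike σ A] [AddSubgroupClass σ A]
    {𝒜 : ℕ → σ} [GradedRing 𝒜] (f : 𝒜 →+*ᵍ 𝒜) (h : f = .id 𝒜)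
    (hf : HomogeneousIdeal.irrelevant 𝒜 ≤ (HomogeneousIdeal.irrelevant 𝒜).map f) :
    Proj.map f hf = 𝟙 (Proj 𝒜) := by
  subst h
  exact Proj.map_id

/-- `Proj` of a graded isomorphism is an isomorphism. -/
lemma isIso_map {A B σ τ : Type} [CommRing A] [SetLike σ A] [AddSubgroupClass σ A]
    [CommRing B] [SetLike τ B] [AddSubgroupClass τ B] {𝒜 : ℕ → σ} {ℬ : ℕ → τ} [GradedRing 𝒜]
    [GradedRing ℬ] (f : 𝒜 →+*ᵍ ℬ) (g : ℬ →+*ᵍ 𝒜) (hfg : g.comp f = .id 𝒜)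
    (hgf : f.comp g = .id ℬ) (hf : HomogeneousIdeal.irrelevant ℬ ≤
      (HomogeneousIdeal.irrelevant 𝒜).map f) : IsIso (Proj.map f hf) := by
  have hg : HomogeneousIdeal.irrelevant 𝒜 ≤ (HomogeneousIdeal.irrelevant ℬ).map g := by
    refine (toIdeal_irrelevant_le _).mpr fun i hi x hx => ?_
    have h1 : g (f x) = x := DFunLike.congr_fun hfg x
    rw [← h1]
    exact Ideal.mem_map_of_mem _ (HomogeneousIdeal.mem_irrelevant_of_mem ℬ hi (f.2 hx))
  refine ⟨Proj.map g hg, ?_, ?_⟩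
  · rw [← Proj.map_comp]
    exact map_eq_id _ hgf _
  · rw [← Proj.map_comp]
    exact map_eq_id _ hfg _

/-- The graded homomorphism `k ⊗ A → A`. -/
noncomputable def lidHom {k A : Type} [Field k] [CommRing A] [Algebra k A] (𝒜 : ℕ → Submodule k A)
    [GradedAlgebra 𝒜] : (bc 𝒜 k) →+*ᵍ 𝒜 where
  __ := (Algebra.TensorProduct.lid k A).toAlgHom.toRingHom
  map_mem := by
    intro i x hx
    change (Algebra.TensorProduct.lid k A) x ∈ 𝒜 i
    rw [bc, Submodule.baseChange_eq_span] at hx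
    induction hx using Submodule.span_induction with
    | mem x hx =>
      obtain ⟨y, hy, rfl⟩ := hx
      simpa using hy
    | zero => rw [map_zero]; exact Submodule.zero_mem _
    | add x y _ _ hx hy => rw [map_add]; exact Submodule.add_mem _ hx hy
    | smul b x _ hx => rw [map_smul]; exact Submodule.smul_mem _ _ hx

end AsmF

section

variable {k A : Type} [Field k] [CommRing A] [Algebra k A] (𝒜 : ℕ → Submodule k A)
  [GradedAlgebra 𝒜]

/-- Module A2a. -/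
theorem isIso_proj_incl : IsIso (Proj.map (inclHom 𝒜 k) (inclHom_irr 𝒜 k)) := by
  refine AsmF.isIso_map (inclHom 𝒜 k) (AsmF.lidHom 𝒜) ?_ ?_ _
  · ext x
    change (Algebra.TensorProduct.lid k A) ((1 : k) ⊗ₜ[k] x) = x
    simp
  · refine DFunLike.ext _ _ fun x => ?_
    change (1 : k) ⊗ₜ[k] ((Algebra.TensorProduct.lid k A) x) = x
    induction x with
    | zero => rw [map_zero, TensorProduct.tmul_zero]
    | add x y hx hy => rw [map_add, TensorProduct.tmul_add, hx, hy]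
    | tmul a b => rw [Algebra.TensorProduct.lid_tmul, ← TensorProduct.smul_tmul,
        smul_eq_mul, mul_one]

/-- `Proj (O_{T,t} ⊗ A)` is `X × Spec O_{T,t}`. -/
noncomputable def fibIso {T : Sch k} (t : pt k ⟶ T) :
    Proj (bc 𝒜 (locAt t)) ≅ (projOver 𝒜 ⊗ specLoc t).left :=
  projIso 𝒜 (locAt t) ≪≫
    (Over.forget _).mapIso (whiskerLeftIso (projOver 𝒜) (specLocIso t).symm)

lemma fibIso_hom {T : Sch k} (t : pt k ⟶ T) :
    (fibIso 𝒜 t).hom = (projIso 𝒜 (locAt t)).hom ≫ (projOver 𝒜 ◁ (specLocIso t).inv).left := rfl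

lemma fibIso_specLocTo {T : Sch k} (t : pt k ⟶ T) :
    (fibIso 𝒜 t).hom ≫ (projOver 𝒜 ◁ specLocTo t).left =
      (projIso 𝒜 (locAt t)).hom ≫ (projOver 𝒜 ◁ spTo T (imPt t)).left := by
  have h1 : projOver 𝒜 ◁ (specLocIso t).inv ≫ projOver 𝒜 ◁ specLocTo t =
      projOver 𝒜 ◁ spTo T (imPt t) := by
    rw [← MonoidalCategory.whiskerLeft_comp, ← specLocIso_spTo, Iso.inv_hom_id_assoc]
  rw [fibIso_hom, Category.assoc, ← Over.comp_left, h1]

lemma fibIso_snd {T : Sch k} (t : pt k ⟶ T) :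
    (fibIso 𝒜 t).hom ≫ (snd (projOver 𝒜) (specLoc t)).left = projTo 𝒜 (locAt t) := by
  have h1 : projOver 𝒜 ◁ (specLocIso t).inv ≫ snd (projOver 𝒜) (specLoc t) =
      snd (projOver 𝒜) (specOver k (locAt t)) ≫ (specLocIso t).inv :=
    CartesianMonoidalCategory.whiskerLeft_snd _ _
  rw [fibIso_hom, Category.assoc, ← Over.comp_left, h1, Over.comp_left, ← Category.assoc,
    projIso_snd]
  exact Category.comp_id _

lemma fibIso_funOf {T : Sch k} (t : pt k ⟶ T) (f : locAt t) :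
    (fibIso 𝒜 t).hom.appTop (funOf (projOver 𝒜) t f) =
      (projTo 𝒜 (locAt t)).appTop ((Scheme.ΓSpecIso (locAt t)).inv f) := by
  exact congrArg (fun q : Proj (bc 𝒜 (locAt t)) ⟶ Spec (locAt t) =>
    q.appTop ((Scheme.ΓSpecIso (locAt t)).inv f)) (fibIso_snd 𝒜 t)

lemma evalAt_fibIso {T : Sch k} (t : pt k ⟶ T) :
    Proj.map (bcHom 𝒜 (evalAt t)) (bcHom_irr 𝒜 (evalAt t)) ≫ (fibIso 𝒜 t).hom =
      Proj.map (inclHom 𝒜 k) (inclHom_irr 𝒜 k) ≫ (secLoc (projOver 𝒜) t).left := by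
  have h1 := projIso_nat 𝒜 _ _ (evalAt t)
  have h2 : projOver 𝒜 ◁ specOverMap (evalAt t) ≫ projOver 𝒜 ◁ (specLocIso t).inv =
      fst (projOver 𝒜) (specOver k k) ≫ secLoc (projOver 𝒜) t := by
    rw [← MonoidalCategory.whiskerLeft_comp, specOverMap_evalAt]
    unfold secLoc
    apply CartesianMonoidalCategory.hom_ext
    · simp
    · simp
  have h3 : Proj.map (inclHom 𝒜 k) (inclHom_irr 𝒜 k) =
    (projIso 𝒜 k).hom ≫ (fst (projOver 𝒜) (specOver k k)).left := (projIso_fst 𝒜 k).symm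
  have h4 : (projOver 𝒜 ◁ specOverMap (evalAt t)).left ≫
      (projOver 𝒜 ◁ (specLocIso t).inv).left =
      (fst (projOver 𝒜) (specOver k k)).left ≫ (secLoc (projOver 𝒜) t).left :=
    congrArg (fun q : projOver 𝒜 ⊗ specOver k k ⟶ projOver 𝒜 ⊗ specLoc t => q.left) h2
  refine (Category.assoc _ _ _).symm.trans ?_
  refine (congrArg (· ≫ (projOver 𝒜 ◁ (specLocIso t).inv).left) h1).trans ?_
  refine (Category.assoc _ _ _).trans ?_
  refine (congrArg ((projIso 𝒜 k).hom ≫ ·) h4).trans ?_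
  refine (Category.assoc _ _ _).symm.trans ?_
  exact congrArg (fun q : Proj (bc 𝒜 k) ⟶ (projOver 𝒜).left =>
    q ≫ (secLoc (projOver 𝒜) t).left) h3.symm

/-- The multiplicity on `X × Spec O_{T,t}` in terms of graded rings. -/
lemma mult_fibIso (G : Geom 𝒜) {T : Sch k} (t : pt k ⟶ T) [IsNoetherianRing (locAt t)]
    (f : locAt t) (v w : ProjectiveSpectrum (bc 𝒜 (locAt t))) :
    mult (funOf (projOver 𝒜) t f) ((fibIso 𝒜 t).hom v) ((fibIso 𝒜 t).hom w) =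
      multA 𝒜 f v w := by
  have h1 := mult_iso (fibIso 𝒜 t) (funOf (projOver 𝒜) t f) v w
  have h2 := mult_projTo 𝒜 G (locAt t) f v w
  rw [fibIso_funOf] at h1
  exact h1.symm.trans h2

lemma secLoc_toX {T : Sch k} (t : pt k ⟶ T) (P : ProjectiveSpectrum (bc 𝒜 k)) :
    (fibIso 𝒜 t).hom (bcPt 𝒜 (evalAt t) P) = (secLoc (projOver 𝒜) t).left (toX 𝒜 k P) := by
  have h1 := congrArg (fun q : Proj (bc 𝒜 k) ⟶ (projOver 𝒜 ⊗ specLoc t).left => q P)
    (evalAt_fibIso 𝒜 t)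
  exact h1

lemma specLocTo_fibIso {T : Sch k} (t : pt k ⟶ T)
    (P : ProjectiveSpectrum (bc 𝒜 (locAt t))) :
    (projOver 𝒜 ◁ specLocTo t).left ((fibIso 𝒜 t).hom P) = toXT 𝒜 T (imPt t) P := by
  have h1 := congrArg (fun q : Proj (bc 𝒜 (locAt t)) ⟶ (projOver 𝒜 ⊗ T).left => q P)
    (fibIso_specLocTo 𝒜 t)
  exact h1

/-- Module A2c: a Gysin fibre in terms of graded rings. -/
theorem exists_graded_fibre (G : Geom 𝒜) {T : Sch k} (t : pt k ⟶ T)
    [IsNoetherianRing (locAt t)] (Z : (projOver 𝒜 ⊗ T).left →₀ ℤ)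
    (c : (projOver 𝒜).left →₀ ℤ) (h : IsFibre (projOver 𝒜) t Z c) :
    ∃ (d : ℕ) (f : Fin d → locAt t) (C : ℕ → (ProjectiveSpectrum (bc 𝒜 (locAt t)) →₀ ℤ)),
      Ideal.span (Set.range f) = IsLocalRing.maximalIdeal (locAt t) ∧
      ringKrullDim (locAt t) = d ∧
      (∀ w, C 0 w = Z (toXT 𝒜 T (imPt t) w)) ∧
      (∀ (i : Fin d) w, C (i + 1) w = (C i).sum fun v m => m * multA 𝒜 (f i) v w) ∧
      ∀ P, C d (bcPt 𝒜 (evalAt t) P) = c (toX 𝒜 k P) := by
  obtain ⟨d, f, C, h1, h2, h3, h4, h5⟩ := h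
  have hinj : Function.Injective (fibIso 𝒜 t).hom := (fibIso 𝒜 t).hom.isOpenEmbedding.injective
  have hsurj : Function.Surjective (fibIso 𝒜 t).hom := (fibIso 𝒜 t).hom.surjective
  refine ⟨d, f, fun i => (C i).comapDomain (fibIso 𝒜 t).hom hinj.injOn, h1, h2, ?_, ?_, ?_⟩
  · intro w
    show C 0 ((fibIso 𝒜 t).hom w) = _
    rw [h3]
    exact congrArg Z (specLocTo_fibIso 𝒜 t w)
  · intro i w
    show C (i + 1) ((fibIso 𝒜 t).hom w) = _
    rw [h4]
    have hbij : Set.BijOn (fibIso 𝒜 t).hom ((fibIso 𝒜 t).hom ⁻¹' ((C i).support : Set _))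
        ((C i).support : Set _) :=
      ⟨fun x hx => hx, hinj.injOn, fun y hy => by
        obtain ⟨x, rfl⟩ := hsurj y
        exact ⟨x, hy, rfl⟩⟩
    have h6 := Finsupp.sum_comapDomain (fibIso 𝒜 t).hom (C i)
      (fun y n => n * mult (funOf (projOver 𝒜) t (f i)) y ((fibIso 𝒜 t).hom w)) hbij
    refine h6.symm.trans ?_
    refine Finsupp.sum_congr fun v _ => ?_
    show _ * mult (funOf (projOver 𝒜) t (f i)) ((fibIso 𝒜 t).hom v) ((fibIso 𝒜 t).hom w) = _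
    rw [mult_fibIso 𝒜 G t (f i) v w]
  · intro P
    show C d ((fibIso 𝒜 t).hom (bcPt 𝒜 (evalAt t) P)) = _
    rw [h5]
    exact congrArg (C d) (secLoc_toX 𝒜 t P)

end

end Pool.Agent.SSF.Br
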