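import Pool.Agent.SSF.Br.AsmF
import Pool.Agent.SSF.Br.Dat

/-!
# The value of the functional at a cycle on the scheme: definitions
-/

namespace Pool.Agent.SSF.Br

open CategoryTheory AlgebraicGeometry MonoidalCategory CartesianMonoidalCategory Limits
open TensorProduct HomogeneousLocalization HomogeneousIdeal Graded

section Fibre

variable {k A : Type} [Field k] [CommRing A] [Algebra k A] (𝒜 : ℕ → Submodule k A)
  [GradedAlgebra 𝒜]

lemma toX_injective : Function.Injective (toX 𝒜 k) := by
  have := isIso_proj_incl 𝒜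
  exact (Proj.map (inclHom 𝒜 k) (inclHom_irr 𝒜 k)).isOpenEmbedding.injective

/-- The restriction of a cycle to the generic fibre. -/
noncomputable def genCyc (T : Sch k) (x : T.left) (Z : (projOver 𝒜 ⊗ T).left →₀ ℤ) :
    ProjectiveSpectrum (bc 𝒜 (T.left.presheaf.stalk x)) →₀ ℤ :=
  Z.comapDomain (toXT 𝒜 T x) (toXT_injective 𝒜 T x).injOn

variable {𝒜} {n : kˣ}

/-- The value of the functional at a cycle on `X`. -/
noncomputable def Datum.psiX (D : Datum 𝒜 n) (c : (projOver 𝒜).left →₀ ℤ) : Sq k :=
  D.psi k (c.comapDomain (toX 𝒜 k) (toX_injective 𝒜).injOn)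

end Fibre

end Pool.Agent.SSF.Br
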