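import Pool.Agent.SSF.Br.AsmP
import Pool.Agent.SSF.Br.SchH
import Pool.Agent.SSF.Br.Rat
import Pool.Agent.SSF.Reg3

/-!
# Square classes of constants in function fields; the functional is additive and vanishes on
rational equivalence
-/

namespace Pool.Agent.SSF.Br

open CategoryTheory AlgebraicGeometry MonoidalCategory CartesianMonoidalCategory Limits
open TensorProduct HomogeneousLocalization HomogeneousIdeal Graded

section Psi

variable {k A : Type} [Field k] [CommRing A] [Algebra k A] {𝒜 : ℕ → Submodule k A}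
  [GradedAlgebra 𝒜] {n : kˣ}

/-- Codimension two means dimension at most two. -/
lemma AsmSq.dimLE_two (G : Geom 𝒜) {K : Type} [Field K] [Algebra k K]
    {y : ProjectiveSpectrum (bc 𝒜 K)} (hy : 2 ≤ ringKrullDim (LR (bc 𝒜 K) y)) :
    DimLE (bc 𝒜 K) (idl (bc 𝒜 K) y) 2 := by
  refine dimLE_of_coheight (bc 𝒜 K) y 2 2 (G.dim4 K) ?_
  have h := ringKrullDim_LR_coheight (bc 𝒜 K) y
  rw [h] at hy
  have hy' : (((2 : ℕ) : ℕ∞) : WithBot ℕ∞) ≤ ((Order.coheight (α := Proj (bc 𝒜 K)) y : ℕ∞) : WithBot ℕ∞) := hy
  exact WithBot.coe_le_coe.1 hy'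

/-- Module A5: the value at a cycle of codimension at least two is a power of `n`. -/
theorem Datum.psi_mem (D : Datum 𝒜 n) (G : Geom 𝒜) (K : Type) [Field K] [Algebra k K]
    (hn : ¬ IsSquare (algebraMap k K n)) (c : ProjectiveSpectrum (bc 𝒜 K) →₀ ℤ)
    (hc : ∀ P, c P ≠ 0 → 2 ≤ ringKrullDim (LR (bc 𝒜 K) P)) :
    ∃ e : kˣ, D.psi K c = sq (Units.map (algebraMap k K).toMonoidHom e) := by
  let f : kˣ →* Sq K := (QuotientGroup.mk' (powMonoidHom 2 : Kˣ →* Kˣ).range).comp
    (Units.map (algebraMap k K).toMonoidHom)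
  have key : D.psi K c ∈ f.range := by
    unfold Datum.psi Finsupp.prod
    refine Subgroup.prod_mem (G := Sq K) f.range ?_
    intro P hP
    refine Subgroup.zpow_mem f.range ?_ (c P)
    rcases D.van K hn (idl (bc 𝒜 K) P) P.asHomogeneousIdeal.isHomogeneous
      (AsmSq.dimLE_two G (hc P (Finsupp.mem_support_iff.1 hP))) with h | h
    · rw [h]
      exact Subgroup.one_mem _
    · rw [h]
      exact ⟨n, rfl⟩
  obtain ⟨e, he⟩ := key
  exact ⟨e, he.symm⟩

lemma Datum.psi_add (D : Datum 𝒜 n) (K : Type) [Field K] [Algebra k K]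
    (c c' : ProjectiveSpectrum (bc 𝒜 K) →₀ ℤ) :
    D.psi K (c + c') = D.psi K c * D.psi K c' := by
  classical
  unfold Datum.psi
  exact Finsupp.prod_add_index' (fun P => zpow_zero _) (fun P m m' => zpow_add _ _ _)

lemma Datum.psi_zero (D : Datum 𝒜 n) (K : Type) [Field K] [Algebra k K] : D.psi K 0 = 1 :=
  Finsupp.prod_zero_index

lemma Datum.psiX_add (D : Datum 𝒜 n) (c c' : (projOver 𝒜).left →₀ ℤ) :
    D.psiX (c + c') = D.psiX c * D.psiX c' := by
  unfold Datum.psiX
  rw [Finsupp.comapDomain_add_of_injective (toX_injective 𝒜), Datum.psi_add]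

lemma Datum.psiX_zero (D : Datum 𝒜 n) : D.psiX 0 = 1 := by
  unfold Datum.psiX
  rw [Finsupp.comapDomain_zero, Datum.psi_zero]

lemma Datum.psiX_neg (D : Datum 𝒜 n) (c : (projOver 𝒜).left →₀ ℤ) :
    D.psiX (-c) = (D.psiX c)⁻¹ := by
  rw [eq_inv_iff_mul_eq_one, ← Datum.psiX_add, neg_add_cancel, Datum.psiX_zero]

/-- Module A6: rational equivalence. -/
theorem Datum.psiX_rat (D : Datum 𝒜 n) (G : Geom 𝒜) (c : (projOver 𝒜).left →₀ ℤ)
    (hc : c ∈ Rat (projOver 𝒜).left 2) : D.psiX c = 1 := by
  unfold Rat at hc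
  induction hc using AddSubgroup.closure_induction with
  | zero => exact D.psiX_zero
  | add x y _ _ hx hy =>
    rw [Datum.psiX_add, hx, hy]
    exact mul_one (1 : Sq k)
  | neg x _ hx => rw [Datum.psiX_neg, hx, inv_one]
  | mem c hc =>
    obtain ⟨y, g, hy, hdiv⟩ := hc
    have hiso := isIso_proj_incl 𝒜
    let e : Proj (bc 𝒜 k) ≅ Proj 𝒜 := asIso (Proj.map (inclHom 𝒜 k) (inclHom_irr 𝒜 k))
    obtain ⟨g', hg'⟩ := isDiv_iso e y g c hdiv
    obtain ⟨i, a, b, ha, hb, hay, hby, H⟩ := exists_frac_of_isDiv (bc 𝒜 k)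
      (noetherian_LR 𝒜 G k) (exists_deg_one 𝒜 G k) _ g' _ hg'
    have hco : Order.coheight (e.inv y) = 1 := by
      have h1 := coheight_of_isInducing e.hom e.hom.isOpenEmbedding.isInducing
        (fun v w _ => ⟨e.inv v, Scheme.inv_hom_apply e v⟩) (e.inv y)
      have h2 : e.hom (e.inv y) = y := Scheme.inv_hom_apply e y
      rw [h2] at h1
      rw [← h1]
      have h3 : Order.coheight y + 1 = 1 + 1 := hy
      exact ENat.add_left_injective_of_ne_top (n := 1) (by simp) h3
    have h1 : 1 ≤ ringKrullDim (LR (bc 𝒜 k) (toPS (bc 𝒜 k) (e.inv y))) := by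
      rw [ringKrullDim_LR_coheight, hco]
      exact le_rfl
    exact D.rat_psi G k _ h1 ha hb hay hby _ H

end Psi

section Sq

open IsLocalRing

/-- An element of a regular local ring which is a square in the fraction field is a square in the
residue field. -/
theorem AsmSq.isSquare_of_rsp : ∀ (d : ℕ) {B : Type} [CommRing B] (f : Fin d → B),
    Reg.RSP d B f → ∀ (K : Type) [Field K] [Algebra B K] [IsFractionRing B K] (b : B),
    IsSquare (algebraMap B K b) → ∀ (κ : Type) [Field κ] (ε : B →+* κ) [IsLocalRing B],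
    (∀ x ∈ maximalIdeal B, ε x = 0) → IsSquare (ε b) := by
  intro d
  induction d with
  | zero =>
    intro B _ f hf K _ _ _ b hb κ _ ε _ hε
    have hdom := hf.isDomain
    have hm : maximalIdeal B = ⊥ := by
      rw [← hf.span_eq, Set.range_eq_empty, Ideal.span_empty]
    have hfield : IsField B := isField_iff_maximalIdeal_eq.2 hm
    obtain ⟨c, hc⟩ := hb
    obtain ⟨x, y, hy, rfl⟩ := IsFractionRing.div_surjective (A := B) c
    have hy0 : y ≠ 0 := nonZeroDivisors.ne_zero hy
    obtain ⟨z, hz⟩ := hfield.mul_inv_cancel hy0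
    refine ⟨ε (x * z), ?_⟩
    rw [← map_mul]
    congr 1
    apply IsFractionRing.injective B K
    have hzK : algebraMap B K z = (algebraMap B K y)⁻¹ := by
      refine eq_inv_of_mul_eq_one_left ?_
      rw [← map_mul, mul_comm z y, hz, map_one]
    rw [hc, map_mul, map_mul, hzK, div_eq_mul_inv]
  | succ d ih =>
    intro B _ f hf K _ _ _ b hb κ _ ε _ hε
    have hdom := hf.isDomain
    have hp := hf.isPrime
    have hN := hf.isNoeth
    obtain ⟨hO, hdvr, -⟩ := hf.dvr (Localization.AtPrime (Ideal.span {f 0}))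
    have hunit : ∀ y : (Ideal.span {f 0}).primeCompl, IsUnit (algebraMap B K y) := by
      intro y
      rw [isUnit_iff_ne_zero]
      intro h
      apply y.2
      have h0 : (y : B) = 0 := IsFractionRing.injective B K (h.trans (map_zero _).symm)
      rw [h0]
      exact Ideal.zero_mem _
    let _ : Algebra (Localization.AtPrime (Ideal.span {f 0})) K :=
      (IsLocalization.lift (M := (Ideal.span {f 0}).primeCompl) hunit).toAlgebra
    have htower : IsScalarTower B (Localization.AtPrime (Ideal.span {f 0})) K :=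
      IsScalarTower.of_algebraMap_eq fun x => (IsLocalization.lift_eq hunit x).symm
    have hfrac : IsFractionRing (Localization.AtPrime (Ideal.span {f 0})) K :=
      IsFractionRing.isFractionRing_of_isDomain_of_isLocalization
        (Ideal.span {f 0}).primeCompl _ K
    obtain ⟨c, hc⟩ := hb
    obtain ⟨o, ho⟩ := IsIntegrallyClosed.exists_algebraMap_eq_of_isIntegral_pow
      (R := Localization.AtPrime (Ideal.span {f 0})) (x := c) (n := 2) (by norm_num) (by
        rw [pow_two, ← hc, IsScalarTower.algebraMap_apply B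
          (Localization.AtPrime (Ideal.span {f 0})) K]
        exact isIntegral_algebraMap)
    have ho2 : algebraMap B (Localization.AtPrime (Ideal.span {f 0})) b = o * o := by
      apply IsFractionRing.injective (Localization.AtPrime (Ideal.span {f 0})) K
      rw [← IsScalarTower.algebraMap_apply, hc, map_mul, ho]
    have hsq : IsSquare (algebraMap (B ⧸ Ideal.span {f 0}) (Ideal.span {f 0}).ResidueField
        (Ideal.Quotient.mk _ b)) := by
      refine ⟨residue _ o, ?_⟩
      rw [← map_mul, ← ho2]
      rfl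
    have h1 := Reg.isLocalRing_quot (hf.mem 0)
    have hε0 : ∀ x ∈ Ideal.span {f 0}, ε x = 0 := by
      intro x hx
      obtain ⟨y, rfl⟩ := Ideal.mem_span_singleton'.1 hx
      rw [map_mul, hε _ (hf.mem 0), mul_zero]
    have h2 := ih _ hf.tail _ (Ideal.Quotient.mk _ b) hsq κ (Ideal.Quotient.lift _ ε hε0) (by
      intro x hx
      obtain ⟨y, rfl⟩ := Ideal.Quotient.mk_surjective x
      rw [Ideal.Quotient.lift_mk]
      apply hε
      by_contra hy
      have hu : IsUnit y := by
        rwa [mem_maximalIdeal, mem_nonunits_iff, not_not] at hy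
      exact hx (hu.map _))
    rwa [Ideal.Quotient.lift_mk] at h2

end Sq

section Func

open IsLocalRing

variable {k : Type} [Field k]

/-- The function field is the fraction field of every local ring. -/
lemma AsmSq.fracLike_stalkSp {T : Sch k} [IsIntegral T.left] {x : T.left}
    (h : genericPoint T.left ⤳ x) : FracLike (stalkSp T h) := by
  intro c
  obtain ⟨b, s, hs, e⟩ := IsFractionRing.div_surjective (A := T.left.presheaf.stalk x)
    (K := T.left.functionField) c
  have hs0 : algebraMap (T.left.presheaf.stalk x) T.left.functionField s ≠ 0 := by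
    intro h0
    exact nonZeroDivisors.ne_zero hs (IsFractionRing.injective (T.left.presheaf.stalk x)
      T.left.functionField (h0.trans (map_zero _).symm))
  refine ⟨b, s, ?_, ?_⟩
  · exact isUnit_iff_ne_zero.2 hs0
  · rw [← e]
    exact div_mul_cancel₀ _ hs0

lemma AsmSq.stalkSp_injective {T : Sch k} [IsIntegral T.left] {x : T.left}
    (h : genericPoint T.left ⤳ x) : Function.Injective (stalkSp T h) :=
  IsFractionRing.injective (T.left.presheaf.stalk x) T.left.functionField

/-- Module A4: a non-square stays a non-square in the function field. -/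
theorem not_isSquare_functionField {T : Sch k} [IsIntegral T.left]
    [IsLocallyNoetherian T.left] (t : pt k ⟶ T) (hT : Smooth T.hom) (a : k)
    (ha : ¬ IsSquare a) :
    ¬ IsSquare (algebraMap k (T.left.presheaf.stalk (genericPoint T.left)) a) := by
  intro hsq
  have hreg : IsRegularLocalRing (T.left.presheaf.stalk (imPt t)) :=
    Reg.isRegularLocalRing_stalk T.hom (imPt t)
  obtain ⟨d, f, hf⟩ := Reg.exists_rsp (A := T.left.presheaf.stalk (imPt t))
  apply ha
  have hgen : genericPoint T.left ⤳ imPt t := (genericPoint_spec T.left).specializes trivial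
  have h1 : algebraMap k (T.left.presheaf.stalk (genericPoint T.left)) a =
      algebraMap (T.left.presheaf.stalk (imPt t)) T.left.functionField
        (algebraMap k (T.left.presheaf.stalk (imPt t)) a) :=
    ((stalkSp T hgen).commutes a).symm
  rw [h1] at hsq
  have h2 := AsmSq.isSquare_of_rsp d f hf T.left.functionField _ hsq k (evalAt t).toRingHom (by
    intro x hx
    by_contra hne
    have hloc : IsLocalHom (evalAt t).toRingHom :=
      inferInstanceAs (IsLocalHom (Scheme.stalkClosedPointTo t.left).hom)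
    have hu : IsUnit ((evalAt t).toRingHom x) := isUnit_iff_ne_zero.2 hne
    exact hx (isUnit_of_map_unit _ x hu))
  have h3 : (evalAt t).toRingHom (algebraMap k (T.left.presheaf.stalk (imPt t)) a) = a :=
    (evalAt t).commutes a
  rwa [h3] at h2

end Func

end Pool.Agent.SSF.Br
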