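import Pool.Agent.SSF.Br.BcX

/-!
# Base change of graded rings and points of `Proj`
-/

namespace Pool.Agent.SSF.Br

open AlgebraicGeometry TensorProduct HomogeneousLocalization HomogeneousIdeal Graded

section BaseChange

variable {k A : Type} [CommRing k] [CommRing A] [Algebra k A] (𝒜 : ℕ → Submodule k A)
  [GradedAlgebra 𝒜]

/-- The grading of `B ⊗ A`. -/
abbrev bc (B : Type) [CommRing B] [Algebra k B] : ℕ → Submodule B (B ⊗[k] A) :=
  fun i => (𝒜 i).baseChange B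

variable {B C D : Type} [CommRing B] [Algebra k B] [CommRing C] [Algebra k C] [CommRing D]
  [Algebra k D]

/-- The ring homomorphism `B ⊗ A → C ⊗ A`. -/
noncomputable abbrev bcMap (A : Type) [CommRing A] [Algebra k A] (φ : B →ₐ[k] C) :
    B ⊗[k] A →+* C ⊗[k] A :=
  (Algebra.TensorProduct.map φ (AlgHom.id k A)).toRingHom

lemma bcMap_mem (φ : B →ₐ[k] C) {i : ℕ} {x : B ⊗[k] A} (hx : x ∈ bc 𝒜 B i) :
    bcMap A φ x ∈ bc 𝒜 C i := by
  have hx' : x ∈ (𝒜 i).baseChange B := hx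
  rw [Submodule.baseChange_eq_span] at hx'
  clear hx
  induction hx' using Submodule.span_induction with
  | mem x h =>
    obtain ⟨a, ha, rfl⟩ := h
    exact Submodule.tmul_mem_baseChange_of_mem (φ 1) ha
  | zero => rw [map_zero]; exact Submodule.zero_mem _
  | add x y _ _ h1 h2 =>
    rw [map_add]
    exact Submodule.add_mem _ h1 h2
  | smul b x _ h1 =>
    have h2 : bcMap A φ (b • x) = φ b • bcMap A φ x := BcX.g_smul φ b x
    rw [h2]
    exact Submodule.smul_mem _ _ h1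

/-- The graded ring homomorphism `B ⊗ A → C ⊗ A`. -/
noncomputable def bcHom (φ : B →ₐ[k] C) : (bc 𝒜 B) →+*ᵍ (bc 𝒜 C) where
  __ := bcMap A φ
  map_mem := bcMap_mem 𝒜 φ

lemma bcHom_irr (φ : B →ₐ[k] C) :
    HomogeneousIdeal.irrelevant (bc 𝒜 C) ≤
      (HomogeneousIdeal.irrelevant (bc 𝒜 B)).map (bcHom 𝒜 φ) := by
  rw [HomogeneousIdeal.irrelevant_le]
  intro i hi x hx
  change x ∈ ((HomogeneousIdeal.irrelevant (bc 𝒜 B)).map (bcHom 𝒜 φ)).toIdeal
  have hx' : x ∈ (𝒜 i).baseChange C := hx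
  rw [Submodule.baseChange_eq_span] at hx'
  clear hx
  induction hx' using Submodule.span_induction with
  | mem x h =>
    obtain ⟨a, ha, rfl⟩ := h
    have h1 : (1 : B) ⊗ₜ[k] a ∈ (HomogeneousIdeal.irrelevant (bc 𝒜 B)).toIdeal :=
      HomogeneousIdeal.mem_irrelevant_of_mem (bc 𝒜 B) hi
        (Submodule.tmul_mem_baseChange_of_mem (1 : B) ha)
    have h2 : bcMap A φ ((1 : B) ⊗ₜ[k] a) ∈
        ((HomogeneousIdeal.irrelevant (bc 𝒜 B)).toIdeal).map (bcMap A φ) :=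
      Ideal.mem_map_of_mem _ h1
    have h3 : bcMap A φ ((1 : B) ⊗ₜ[k] a) = (1 : C) ⊗ₜ[k] a := by
      have h4 : φ (1 : B) = 1 := map_one φ
      change φ (1 : B) ⊗ₜ[k] a = _
      rw [h4]
    rw [h3] at h2
    exact h2
  | zero => exact Ideal.zero_mem _
  | add x y _ _ h1 h2 => exact Ideal.add_mem _ h1 h2
  | smul c x _ h1 =>
    rw [Algebra.smul_def]
    exact Ideal.mul_mem_left _ _ h1

/-- The map on points `Proj (C ⊗ A) → Proj (B ⊗ A)`. -/
noncomputable def bcPt (φ : B →ₐ[k] C) (P : ProjectiveSpectrum (bc 𝒜 C)) :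
    ProjectiveSpectrum (bc 𝒜 B) :=
  ProjectiveSpectrum.comap (bcHom 𝒜 φ) (bcHom_irr 𝒜 φ) P

/-- The homomorphism of local rings. -/
noncomputable def bcLoc (φ : B →ₐ[k] C) (P : ProjectiveSpectrum (bc 𝒜 C)) :
    LR (bc 𝒜 B) (bcPt 𝒜 φ P) →+* LR (bc 𝒜 C) P :=
  localRingHom (bcHom 𝒜 φ) _ _ rfl

/-- The image in the local ring at `P` of an element of the base ring. -/
noncomputable def baseTo (P : ProjectiveSpectrum (bc 𝒜 B)) : B →+* LR (bc 𝒜 B) P :=
  (HomogeneousLocalization.fromZeroRingHom (bc 𝒜 B) _).comp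
    (algebraMap B (bc 𝒜 B 0))

/-- `C` is a localization of a quotient of `B`. -/
def FracLike (φ : B →ₐ[k] C) : Prop := ∀ c : C, ∃ b s : B, IsUnit (φ s) ∧ c * φ s = φ b

variable {𝒜}

lemma isUnit_algebraMap_tensor {c : C} (hc : IsUnit c) :
    IsUnit (algebraMap C (C ⊗[k] A) c) := hc.map _

lemma smul_mem_iff {c : C} (hc : IsUnit c) (P : Ideal (C ⊗[k] A)) (x : C ⊗[k] A) :
    c • x ∈ P ↔ x ∈ P := by
  rw [Algebra.smul_def]
  exact Ideal.unit_mul_mem_iff_mem P (isUnit_algebraMap_tensor hc)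

lemma mem_bcPt {φ : B →ₐ[k] C} (P : ProjectiveSpectrum (bc 𝒜 C)) (y : B ⊗[k] A) :
    y ∈ idl (bc 𝒜 B) (bcPt 𝒜 φ P) ↔ bcMap A φ y ∈ idl (bc 𝒜 C) P := Iff.rfl

/-- Module B5a. -/
theorem bcPt_injective {φ : B →ₐ[k] C} (h : FracLike φ) : Function.Injective (bcPt 𝒜 φ) := by
  have key : ∀ P Q : ProjectiveSpectrum (bc 𝒜 C), bcPt 𝒜 φ P = bcPt 𝒜 φ Q →
      idl (bc 𝒜 C) P ≤ idl (bc 𝒜 C) Q := by
    intro P Q hPQ x hx
    obtain ⟨y, s, hs, e⟩ := BcX.fl_all (φ := φ) h x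
    have e' : φ s • x = bcMap A φ y := e
    rw [← smul_mem_iff hs, e', ← mem_bcPt, ← hPQ, mem_bcPt, ← e', smul_mem_iff hs]
    exact hx
  intro P Q hPQ
  apply ProjectiveSpectrum.ext
  apply HomogeneousIdeal.toIdeal_injective
  exact le_antisymm (key P Q hPQ) (key Q P hPQ.symm)

/-- Module B5b: the points of `Proj (B ⊗ A)` lying over `Spec C → Spec B`. -/
theorem exists_bcPt {K : Type} [Field K] [Algebra k K] {φ : B →ₐ[k] K} (h : FracLike φ)
    (Q : ProjectiveSpectrum (bc 𝒜 B))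
    (hQ : ∀ b : B, algebraMap B (B ⊗[k] A) b ∈ idl (bc 𝒜 B) Q ↔ φ b = 0) :
    ∃ P, bcPt 𝒜 φ P = Q := by
  have hQp : (idl (bc 𝒜 B) Q).IsPrime := Q.isPrime
  -- elements of the base which become units can be cancelled
  have hcan : ∀ (s : B) (y : B ⊗[k] A), IsUnit (φ s) → s • y ∈ idl (bc 𝒜 B) Q →
      y ∈ idl (bc 𝒜 B) Q := by
    intro s y hs hy
    rw [Algebra.smul_def] at hy
    refine (hQp.mem_or_mem hy).resolve_left ?_
    rw [hQ]
    exact hs.ne_zero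
  have hker : ∀ y : B ⊗[k] A, bcMap A φ y = 0 → y ∈ idl (bc 𝒜 B) Q := by
    intro y hy
    obtain ⟨s, hs, hmem⟩ := BcX.kl (φ := φ) h (y := y) hy
    refine hcan s y hs ?_
    have hle : (RingHom.ker φ).map (algebraMap B (B ⊗[k] A)) ≤ idl (bc 𝒜 B) Q := by
      rw [Ideal.map_le_iff_le_comap]
      intro b hb
      exact (hQ b).2 hb
    exact hle hmem
  let J : HomogeneousIdeal (bc 𝒜 K) := Q.asHomogeneousIdeal.map (bcHom 𝒜 φ)
  -- membership in the extended ideal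
  have hJ : ∀ y : B ⊗[k] A, bcMap A φ y ∈ J.toIdeal → y ∈ idl (bc 𝒜 B) Q := by
    have hspan : ∀ x : K ⊗[k] A, x ∈ J.toIdeal →
        ∃ (z : B ⊗[k] A) (s : B), z ∈ idl (bc 𝒜 B) Q ∧ IsUnit (φ s) ∧
          φ s • x = bcMap A φ z := by
      intro x hx
      have hx' : x ∈ Ideal.span ((bcMap A φ) '' (idl (bc 𝒜 B) Q : Set (B ⊗[k] A))) := hx
      refine Submodule.span_induction (p := fun x _ => ∃ (z : B ⊗[k] A) (s : B),
        z ∈ idl (bc 𝒜 B) Q ∧ IsUnit (φ s) ∧ φ s • x = bcMap A φ z) ?_ ?_ ?_ ?_ hx'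
      · rintro _ ⟨z, hz, rfl⟩
        refine ⟨z, 1, hz, by rw [map_one]; exact isUnit_one, ?_⟩
        have h1 : φ (1 : B) = 1 := map_one φ
        rw [h1, one_smul]
      · exact ⟨0, 1, Ideal.zero_mem _, by rw [map_one]; exact isUnit_one, by simp⟩
      · rintro x1 x2 _ _ ⟨z1, s1, hz1, hs1, e1⟩ ⟨z2, s2, hz2, hs2, e2⟩
        refine ⟨s2 • z1 + s1 • z2, s1 * s2, ?_, by rw [map_mul]; exact hs1.mul hs2, ?_⟩
        · rw [Algebra.smul_def, Algebra.smul_def]
          exact Ideal.add_mem _ (Ideal.mul_mem_left _ _ hz1) (Ideal.mul_mem_left _ _ hz2)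
        · have g1 : bcMap A φ (s2 • z1) = φ s2 • bcMap A φ z1 := BcX.g_smul φ s2 z1
          have g2 : bcMap A φ (s1 • z2) = φ s1 • bcMap A φ z2 := BcX.g_smul φ s1 z2
          rw [map_add, g1, g2, ← e1, ← e2, smul_add, map_mul, smul_smul, smul_smul,
            mul_comm (φ s1) (φ s2)]
      · rintro c x _ ⟨z, s, hz, hs, e⟩
        obtain ⟨w, t, ht, e2⟩ := BcX.fl_all (φ := φ) h c
        have e2' : φ t • c = bcMap A φ w := e2
        refine ⟨w * z, t * s, Ideal.mul_mem_left _ _ hz, by rw [map_mul]; exact ht.mul hs, ?_⟩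
        rw [map_mul (bcMap A φ), ← e, ← e2', smul_eq_mul, map_mul, mul_smul_mul_comm]
    intro y hy
    obtain ⟨z, s, hz, hs, e⟩ := hspan _ hy
    have h1 : bcMap A φ (s • y - z) = 0 := by
      have g1 : bcMap A φ (s • y) = φ s • bcMap A φ y := BcX.g_smul φ s y
      rw [map_sub, g1, e, sub_self]
    have h2 := hker _ h1
    have h3 : s • y ∈ idl (bc 𝒜 B) Q := by
      have := Ideal.add_mem _ h2 hz
      rwa [sub_add_cancel] at this
    exact hcan s y hs h3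
  have hJ' : ∀ y : B ⊗[k] A, bcMap A φ y ∈ J.toIdeal ↔ y ∈ idl (bc 𝒜 B) Q := fun y =>
    ⟨hJ y, fun hy => Ideal.mem_map_of_mem (bcMap A φ) hy⟩
  have hprime : J.toIdeal.IsPrime := by
    constructor
    · intro htop
      have h1 : (1 : B ⊗[k] A) ∈ idl (bc 𝒜 B) Q := by
        rw [← hJ', htop]
        trivial
      exact hQp.ne_top ((Ideal.eq_top_iff_one _).2 h1)
    · intro x y hxy
      obtain ⟨x', s, hs, e1⟩ := BcX.fl_all (φ := φ) h x
      obtain ⟨y', t, ht, e2⟩ := BcX.fl_all (φ := φ) h y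
      have e1' : φ s • x = bcMap A φ x' := e1
      have e2' : φ t • y = bcMap A φ y' := e2
      have h1 : bcMap A φ (x' * y') ∈ J.toIdeal := by
        rw [map_mul, ← e1', ← e2', smul_mul_smul_comm, smul_mem_iff (hs.mul ht)]
        exact hxy
      rw [hJ'] at h1
      rcases hQp.mem_or_mem h1 with h2 | h2
      · left
        rw [← hJ', ← e1', smul_mem_iff hs] at h2
        exact h2
      · right
        rw [← hJ', ← e2', smul_mem_iff ht] at h2
        exact h2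
  have hirr : ¬ HomogeneousIdeal.irrelevant (bc 𝒜 K) ≤ J := by
    intro hle
    apply Q.not_irrelevant_le
    intro x hx
    have h1 : bcMap A φ x ∈ (HomogeneousIdeal.irrelevant (bc 𝒜 K)).toIdeal := by
      have h2 : x ∈ (HomogeneousIdeal.irrelevant (bc 𝒜 B)).toIdeal := hx
      rw [HomogeneousIdeal.irrelevant_eq_span] at h2
      refine Submodule.span_induction (p := fun x _ => bcMap A φ x ∈
          (HomogeneousIdeal.irrelevant (bc 𝒜 K)).toIdeal) ?_ ?_ ?_ ?_ h2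
      · intro z hz
        rw [Set.mem_iUnion₂] at hz
        obtain ⟨i, hi, hz⟩ := hz
        exact HomogeneousIdeal.mem_irrelevant_of_mem (bc 𝒜 K) hi (bcMap_mem 𝒜 φ hz)
      · rw [map_zero]; exact Ideal.zero_mem _
      · intro a b _ _ ha hb
        rw [map_add]
        exact Ideal.add_mem _ ha hb
      · intro c a _ ha
        rw [smul_eq_mul, map_mul]
        exact Ideal.mul_mem_left _ _ ha
    exact (hJ' x).1 (hle h1)
  refine ⟨⟨J, hprime, hirr⟩, ?_⟩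
  apply ProjectiveSpectrum.ext
  apply HomogeneousIdeal.toIdeal_injective
  ext y
  exact hJ' y

lemma bcMap_smul (φ : B →ₐ[k] C) (b : B) (z : B ⊗[k] A) :
    bcMap A φ (b • z) = φ b • bcMap A φ z := BcX.g_smul φ b z

omit [GradedAlgebra 𝒜] in
/-- Common denominators in a given degree. -/
lemma exists_num {φ : B →ₐ[k] C} (h : FracLike φ) {i : ℕ} {z : C ⊗[k] A}
    (hz : z ∈ bc 𝒜 C i) :
    ∃ s : B, IsUnit (φ s) ∧ ∃ w ∈ bc 𝒜 B i, φ s • z = bcMap A φ w := by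
  obtain ⟨w, hw, s, hs, e⟩ := BcX.fl_span h (𝒜 i) hz
  exact ⟨s, hs, w, hw, e⟩

/-- Elements of the image ideal come from the ideal up to a unit. -/
lemma exists_num_ideal {φ : B →ₐ[k] C} (h : FracLike φ) (I : Ideal (B ⊗[k] A)) {z : C ⊗[k] A}
    (hz : z ∈ I.map (bcMap A φ)) :
    ∃ s : B, IsUnit (φ s) ∧ ∃ w ∈ I, φ s • z = bcMap A φ w := by
  induction hz using Submodule.span_induction with
  | mem x hx =>
    obtain ⟨a, ha, rfl⟩ := hx
    exact ⟨1, by simp, a, ha, by simp⟩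
  | zero => exact ⟨1, by simp, 0, zero_mem _, by simp⟩
  | add x y _ _ hx hy =>
    obtain ⟨s, hs, w, hw, e⟩ := hx
    obtain ⟨t, ht, v, hv, e'⟩ := hy
    refine ⟨s * t, by rw [map_mul]; exact hs.mul ht, t • w + s • v,
      add_mem (by rw [Algebra.smul_def]; exact I.mul_mem_left _ hw)
        (by rw [Algebra.smul_def]; exact I.mul_mem_left _ hv), ?_⟩
    rw [map_add, bcMap_smul, bcMap_smul, ← e, ← e', map_mul, smul_add, smul_smul, smul_smul,
      mul_comm (φ t)]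
  | smul c x _ hx =>
    obtain ⟨s, hs, w, hw, e⟩ := hx
    obtain ⟨d, t, ht, e'⟩ := BcX.fl_all h c
    refine ⟨s * t, by rw [map_mul]; exact hs.mul ht, d * w, I.mul_mem_left _ hw, ?_⟩
    have e'' : φ t • c = bcMap A φ d := e'
    rw [map_mul (bcMap A φ), ← e, ← e'', smul_eq_mul, map_mul φ, smul_mul_smul_comm,
      mul_comm (φ t)]

/-- Multiplication by a unit of the base does not change membership in a prime. -/
lemma smul_notMem {φ : B →ₐ[k] C} (P : Ideal (C ⊗[k] A)) {s : B} (hs : IsUnit (φ s))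
    {z : C ⊗[k] A} (hz : z ∉ P) : φ s • z ∉ P := by
  intro hc
  obtain ⟨u, hu⟩ := hs
  apply hz
  have : ((u⁻¹ : Cˣ) : C) • (φ s • z) = z := by
    rw [smul_smul, ← hu, Units.inv_mul, one_smul]
  rw [← this, Algebra.smul_def]
  exact P.mul_mem_left _ hc

/-- In a localization at a homogeneous prime, an equation `u * x = 0` with `x` homogeneous may be
checked with a homogeneous `u`. -/
lemma exists_homogeneous_notMem {R : Type} [CommRing R] {S : Type} [CommRing S] [Algebra S R]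
    (𝒢 : ℕ → Submodule S R) [GradedAlgebra 𝒢] (P : Ideal R) (J : Ideal R)
    (hJ : J.IsHomogeneous 𝒢) {u x : R} (hu : u ∉ P) {i : ℕ} (hx : x ∈ 𝒢 i) (hux : u * x ∈ J) :
    ∃ j, ∃ v ∈ 𝒢 j, v ∉ P ∧ v * x ∈ J := by
  classical
  have h1 : ∃ j, (DirectSum.decompose 𝒢 u j : R) ∉ P := by
    by_contra hc
    push Not at hc
    apply hu
    rw [← DirectSum.sum_support_decompose 𝒢 u]
    exact Ideal.sum_mem _ fun j _ => hc j
  obtain ⟨j, hj⟩ := h1
  refine ⟨j, _, SetLike.coe_mem _, hj, ?_⟩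
  have h2 := hJ (j + i) hux
  rwa [DirectSum.coe_decompose_mul_add_of_right_mem 𝒢 hx] at h2

theorem bcLoc_mk (φ : B →ₐ[k] C) (P : ProjectiveSpectrum (bc 𝒜 C)) {i : ℕ}
    (num den : B ⊗[k] A) (hn : num ∈ bc 𝒜 B i) (hd : den ∈ bc 𝒜 B i)
    (hm : den ∈ (idl (bc 𝒜 B) (bcPt 𝒜 φ P)).primeCompl) :
    (bcLoc 𝒜 φ P (HomogeneousLocalization.mk ⟨i, ⟨num, hn⟩, ⟨den, hd⟩, hm⟩)).val =
      Localization.mk (bcMap A φ num) ⟨bcMap A φ den, hm⟩ := rfl

/-- Module B5c. -/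
theorem bcLoc_surjective {φ : B →ₐ[k] C} (h : FracLike φ)
    (P : ProjectiveSpectrum (bc 𝒜 C)) : Function.Surjective (bcLoc 𝒜 φ P) := by
  intro y
  obtain ⟨⟨i, ⟨num, hn⟩, ⟨den, hd⟩, hm⟩, rfl⟩ := HomogeneousLocalization.mk_surjective y
  obtain ⟨s, hs, w, hw, e⟩ := exists_num h hn
  obtain ⟨t, ht, v, hv, e'⟩ := exists_num h hd
  have hm' : bcMap A φ (s • v) ∉ idl (bc 𝒜 C) P := by
    rw [bcMap_smul, ← e']
    exact smul_notMem _ hs (smul_notMem _ ht hm)
  refine ⟨HomogeneousLocalization.mk ⟨i, ⟨t • w, Submodule.smul_mem _ _ hw⟩,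
    ⟨s • v, Submodule.smul_mem _ _ hv⟩, hm'⟩, ?_⟩
  apply HomogeneousLocalization.val_injective
  rw [bcLoc_mk, HomogeneousLocalization.val_mk, Localization.mk_eq_mk_iff,
    Localization.r_iff_exists]
  refine ⟨1, ?_⟩
  change 1 * (den * bcMap A φ (t • w)) = 1 * (bcMap A φ (s • v) * num)
  rw [bcMap_smul, bcMap_smul, ← e, ← e', one_mul, one_mul, mul_smul_comm, mul_smul_comm,
    smul_mul_assoc, smul_mul_assoc, smul_comm]

/-- Fractions with numerator in the ideal generated by an ideal of the base. -/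
lemma mk_mem_map_baseTo (Q : ProjectiveSpectrum (bc 𝒜 B)) (I : Ideal B) {y : B ⊗[k] A}
    (hy : y ∈ I.map (algebraMap B (B ⊗[k] A))) (n : ℕ) (d : B ⊗[k] A) (hd : d ∈ bc 𝒜 B n)
    (hm : d ∈ (idl (bc 𝒜 B) Q).primeCompl) :
    (HomogeneousLocalization.mk ⟨n, DirectSum.decompose (bc 𝒜 B) y n, ⟨d, hd⟩, hm⟩ :
      LR (bc 𝒜 B) Q) ∈ I.map (baseTo 𝒜 Q) := by
  have hy' : y ∈ (I • ⊤ : Submodule B (B ⊗[k] A)) := by
    rw [Ideal.smul_top_eq_map]
    exact hy
  clear hy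
  induction hy' using Submodule.smul_induction_on' with
  | smul r hr m _ =>
    have e : (HomogeneousLocalization.mk ⟨n, DirectSum.decompose (bc 𝒜 B) (r • m) n, ⟨d, hd⟩,
        hm⟩ : LR (bc 𝒜 B) Q) = baseTo 𝒜 Q r *
          HomogeneousLocalization.mk ⟨n, DirectSum.decompose (bc 𝒜 B) m n, ⟨d, hd⟩, hm⟩ := by
      apply HomogeneousLocalization.val_injective
      rw [HomogeneousLocalization.val_mul, HomogeneousLocalization.val_mk,
        HomogeneousLocalization.val_mk]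
      change _ = Localization.mk (algebraMap B (B ⊗[k] A) r) 1 * _
      rw [Localization.mk_mul, one_mul, DirectSum.decompose_smul, DirectSum.smul_apply]
      change Localization.mk (r • (DirectSum.decompose (bc 𝒜 B) m n : B ⊗[k] A)) _ = _
      rw [Algebra.smul_def]
    rw [e]
    exact Ideal.mul_mem_right _ _ (Ideal.mem_map_of_mem _ hr)
  | add x hx y hy hx' hy' =>
    have e : (HomogeneousLocalization.mk ⟨n, DirectSum.decompose (bc 𝒜 B) (x + y) n, ⟨d, hd⟩,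
        hm⟩ : LR (bc 𝒜 B) Q) =
          HomogeneousLocalization.mk ⟨n, DirectSum.decompose (bc 𝒜 B) x n, ⟨d, hd⟩, hm⟩ +
          HomogeneousLocalization.mk ⟨n, DirectSum.decompose (bc 𝒜 B) y n, ⟨d, hd⟩, hm⟩ := by
      apply HomogeneousLocalization.val_injective
      rw [HomogeneousLocalization.val_add, HomogeneousLocalization.val_mk,
        HomogeneousLocalization.val_mk, HomogeneousLocalization.val_mk, Localization.add_mk_self,
        DirectSum.decompose_add, DirectSum.add_apply]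
      rfl
    rw [e]
    exact Ideal.add_mem _ hx' hy'

/-- Module B5d. -/
theorem bcLoc_ker {φ : B →ₐ[k] C} (h : FracLike φ) (P : ProjectiveSpectrum (bc 𝒜 C)) :
    RingHom.ker (bcLoc 𝒜 φ P) =
      (RingHom.ker φ).map (baseTo 𝒜 (bcPt 𝒜 φ P)) := by
  apply le_antisymm
  · intro x hx
    obtain ⟨⟨i, ⟨num, hn⟩, ⟨den, hd⟩, hm⟩, rfl⟩ := HomogeneousLocalization.mk_surjective x
    have h1 := congrArg HomogeneousLocalization.val (RingHom.mem_ker.1 hx)
    rw [bcLoc_mk, HomogeneousLocalization.val_zero, Localization.mk_eq_mk',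
      IsLocalization.mk'_eq_zero_iff] at h1
    obtain ⟨⟨u, hu⟩, hu'⟩ := h1
    obtain ⟨j, v, hv, hvP, hv0⟩ := exists_homogeneous_notMem (bc 𝒜 C) (idl (bc 𝒜 C) P) ⊥
      (Ideal.IsHomogeneous.bot _) hu (bcMap_mem 𝒜 φ hn) (by rw [Ideal.mem_bot]; exact hu')
    rw [Ideal.mem_bot] at hv0
    obtain ⟨s, hs, w, hw, e⟩ := exists_num h hv
    have h2 : bcMap A φ (w * num) = 0 := by
      rw [map_mul, ← e, smul_mul_assoc, hv0, smul_zero]
    obtain ⟨t, ht, hJ⟩ := BcX.kl h (y := w * num) h2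
    have hm' : (t • w) * den ∈ (idl (bc 𝒜 B) (bcPt 𝒜 φ P)).primeCompl := by
      change bcMap A φ ((t • w) * den) ∉ idl (bc 𝒜 C) P
      rw [map_mul, bcMap_smul, ← e]
      intro hc
      rcases (P.isPrime).mem_or_mem hc with hc | hc
      · exact smul_notMem _ ht (smul_notMem _ hs hvP) hc
      · exact hm hc
    have hd' : (t • w) * den ∈ bc 𝒜 B (j + i) :=
      SetLike.mul_mem_graded (Submodule.smul_mem _ _ hw) hd
    have hn' : t • (w * num) ∈ bc 𝒜 B (j + i) := by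
      rw [← smul_mul_assoc]
      exact SetLike.mul_mem_graded (Submodule.smul_mem _ _ hw) hn
    have key := mk_mem_map_baseTo (bcPt 𝒜 φ P) (RingHom.ker φ) hJ (j + i) _ hd' hm'
    have hxe : (HomogeneousLocalization.mk ⟨i, ⟨num, hn⟩, ⟨den, hd⟩, hm⟩ :
        LR (bc 𝒜 B) (bcPt 𝒜 φ P)) = HomogeneousLocalization.mk
          ⟨j + i, DirectSum.decompose (bc 𝒜 B) (t • (w * num)) (j + i),
            ⟨(t • w) * den, hd'⟩, hm'⟩ := by
      apply HomogeneousLocalization.val_injective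
      rw [HomogeneousLocalization.val_mk, HomogeneousLocalization.val_mk,
        Localization.mk_eq_mk_iff, Localization.r_iff_exists]
      refine ⟨1, ?_⟩
      change 1 * ((t • w) * den * num) =
        1 * (den * (DirectSum.decompose (bc 𝒜 B) (t • (w * num)) (j + i) : B ⊗[k] A))
      rw [DirectSum.decompose_of_mem_same _ hn', one_mul, one_mul, smul_mul_assoc,
        smul_mul_assoc, mul_smul_comm]
      congr 1
      ring
    rw [hxe]
    exact key
  · rw [Ideal.map_le_iff_le_comap]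
    intro b hb
    rw [Ideal.mem_comap, RingHom.mem_ker]
    apply HomogeneousLocalization.val_injective
    have e : (bcLoc 𝒜 φ P (baseTo 𝒜 (bcPt 𝒜 φ P) b)).val =
        Localization.mk (bcMap A φ (algebraMap B (B ⊗[k] A) b)) ⟨bcMap A φ 1, by
          rw [map_one]; exact one_mem _⟩ := rfl
    rw [e, HomogeneousLocalization.val_zero]
    have e' : bcMap A φ (algebraMap B (B ⊗[k] A) b) = 0 := by
      change φ b ⊗ₜ[k] (1 : A) = 0
      rw [RingHom.mem_ker.1 hb, TensorProduct.zero_tmul]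
    rw [e', Localization.mk_zero]

/-- Membership in the local ideal. -/
lemma mk_mem_locIdeal {R S : Type} [CommRing R] [CommRing S] [Algebra S R]
    (𝒢 : ℕ → Submodule S R) [GradedAlgebra 𝒢] (I : Ideal R) (P : ProjectiveSpectrum 𝒢)
    (c : NumDenSameDeg 𝒢 (idl 𝒢 P).primeCompl) :
    (HomogeneousLocalization.mk c : LR 𝒢 P) ∈ locIdeal 𝒢 I P ↔ ∃ u ∉ idl 𝒢 P, u * c.num ∈ I := by
  rw [locIdeal, Ideal.mem_comap, HomogeneousLocalization.algebraMap_apply,
    HomogeneousLocalization.val_mk, Localization.mk_eq_mk',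
    IsLocalization.mk'_mem_map_algebraMap_iff]
  exact Iff.rfl

/-- Module B5e. -/
theorem bcLoc_map_locIdeal {φ : B →ₐ[k] C} (h : FracLike φ) (P : ProjectiveSpectrum (bc 𝒜 C))
    (I : Ideal (B ⊗[k] A)) (hI : I.IsHomogeneous (bc 𝒜 B)) :
    (locIdeal (bc 𝒜 B) I (bcPt 𝒜 φ P)).map (bcLoc 𝒜 φ P) =
      locIdeal (bc 𝒜 C) (I.map (bcMap A φ)) P := by
  apply le_antisymm
  · rw [Ideal.map_le_iff_le_comap]
    intro x hx
    obtain ⟨c, rfl⟩ := HomogeneousLocalization.mk_surjective x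
    obtain ⟨u, hu, hu'⟩ := (mk_mem_locIdeal _ _ _ _).1 hx
    rw [Ideal.mem_comap]
    refine (mk_mem_locIdeal (bc 𝒜 C) (I.map (bcMap A φ)) P
      ⟨c.deg, ⟨bcMap A φ c.num, bcMap_mem 𝒜 φ c.num.2⟩, ⟨bcMap A φ c.den,
        bcMap_mem 𝒜 φ c.den.2⟩, c.den_mem⟩).2 ⟨bcMap A φ u, hu, ?_⟩
    change bcMap A φ u * bcMap A φ c.num ∈ _
    rw [← map_mul]
    exact Ideal.mem_map_of_mem _ hu'
  · intro y hy
    obtain ⟨⟨i, ⟨num, hn⟩, ⟨den, hd⟩, hm⟩, rfl⟩ := HomogeneousLocalization.mk_surjective y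
    obtain ⟨u, hu, hu'⟩ := (mk_mem_locIdeal _ _ _ _).1 hy
    have hIC : (I.map (bcMap A φ)).IsHomogeneous (bc 𝒜 C) :=
      (HomogeneousIdeal.map (bcHom 𝒜 φ) ⟨I, hI⟩).isHomogeneous
    obtain ⟨j, v, hv, hvP, hv0⟩ := exists_homogeneous_notMem (bc 𝒜 C) (idl (bc 𝒜 C) P)
      (I.map (bcMap A φ)) hIC hu hn hu'
    obtain ⟨s, hs, w, hw, e⟩ := exists_num_ideal h I hv0
    obtain ⟨t, ht, z, hz, e'⟩ := exists_num h (SetLike.mul_mem_graded hv hd)
    -- the numerator in the right degree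
    have hw' : (DirectSum.decompose (bc 𝒜 B) w (j + i) : B ⊗[k] A) ∈ I := hI (j + i) hw
    have e2 : bcMap A φ (DirectSum.decompose (bc 𝒜 B) w (j + i) : B ⊗[k] A) =
        φ s • (v * num) := by
      have e3 : (bcHom 𝒜 φ) (DirectSum.decompose (bc 𝒜 B) w (j + i) : B ⊗[k] A) =
          (DirectSum.decompose (bc 𝒜 C) (bcHom 𝒜 φ w) (j + i) : C ⊗[k] A) :=
        (bcHom 𝒜 φ).map_directSumDecompose
      have e4 : bcHom 𝒜 φ w = φ s • (v * num) := e.symm
      have hvn : v * num ∈ bc 𝒜 C (j + i) := SetLike.mul_mem_graded hv hn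
      rw [e4, DirectSum.decompose_of_mem_same _ (Submodule.smul_mem _ _ hvn)] at e3
      exact e3
    have hm' : bcMap A φ (s • z) ∉ idl (bc 𝒜 C) P := by
      rw [bcMap_smul, ← e']
      refine smul_notMem _ hs (smul_notMem _ ht ?_)
      intro hc
      rcases (P.isPrime).mem_or_mem hc with hc | hc
      · exact hvP hc
      · exact hm hc
    let x : LR (bc 𝒜 B) (bcPt 𝒜 φ P) := HomogeneousLocalization.mk
      ⟨j + i, ⟨t • (DirectSum.decompose (bc 𝒜 B) w (j + i) : B ⊗[k] A),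
        Submodule.smul_mem _ _ (SetLike.coe_mem _)⟩, ⟨s • z, Submodule.smul_mem _ _ hz⟩, hm'⟩
    have hx : x ∈ locIdeal (bc 𝒜 B) I (bcPt 𝒜 φ P) := by
      refine (mk_mem_locIdeal _ _ _ _).2 ⟨1, ?_, ?_⟩
      · intro hc
        exact (bcPt 𝒜 φ P).isPrime.ne_top ((Ideal.eq_top_iff_one _).2 hc)
      · rw [one_mul]
        change t • (DirectSum.decompose (bc 𝒜 B) w (j + i) : B ⊗[k] A) ∈ I
        rw [Algebra.smul_def]
        exact I.mul_mem_left _ hw'
    have hxy : bcLoc 𝒜 φ P x = HomogeneousLocalization.mk ⟨i, ⟨num, hn⟩, ⟨den, hd⟩, hm⟩ := by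
      apply HomogeneousLocalization.val_injective
      rw [bcLoc_mk, HomogeneousLocalization.val_mk, Localization.mk_eq_mk_iff,
        Localization.r_iff_exists]
      refine ⟨1, ?_⟩
      change 1 * (den * bcMap A φ (t • (DirectSum.decompose (bc 𝒜 B) w (j + i) : B ⊗[k] A))) =
        1 * (bcMap A φ (s • z) * num)
      rw [bcMap_smul, bcMap_smul, e2, ← e', one_mul, one_mul]
      simp only [mul_smul_comm, smul_mul_assoc, smul_smul]
      rw [mul_comm (φ t)]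
      congr 1
      ring
    rw [← hxy]
    exact Ideal.mem_map_of_mem _ hx

/-- Module B6a: the length at a point of a fibre. -/
theorem length_fibre {φ : B →ₐ[k] C} (h : FracLike φ) (P : ProjectiveSpectrum (bc 𝒜 C))
    (I : Ideal (B ⊗[k] A)) (hI : I.IsHomogeneous (bc 𝒜 B)) (f : B)
    (hf : (RingHom.ker φ).map (baseTo 𝒜 (bcPt 𝒜 φ P)) ≤
      locIdeal (bc 𝒜 B) I (bcPt 𝒜 φ P) ⊔ Ideal.span {baseTo 𝒜 (bcPt 𝒜 φ P) f})
    (hf0 : φ f = 0) :
    Module.length (LR (bc 𝒜 B) (bcPt 𝒜 φ P)) (LR (bc 𝒜 B) (bcPt 𝒜 φ P) ⧸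
      (locIdeal (bc 𝒜 B) I (bcPt 𝒜 φ P) ⊔ Ideal.span {baseTo 𝒜 (bcPt 𝒜 φ P) f})) =
      len (bc 𝒜 C) (I.map (bcMap A φ)) P := by
  set J := locIdeal (bc 𝒜 B) I (bcPt 𝒜 φ P) ⊔ Ideal.span {baseTo 𝒜 (bcPt 𝒜 φ P) f} with hJ
  have hsurj := bcLoc_surjective h P
  have hker := bcLoc_ker h P
  have h0 : bcLoc 𝒜 φ P (baseTo 𝒜 (bcPt 𝒜 φ P) f) = 0 := by
    rw [← RingHom.mem_ker, hker]
    exact Ideal.mem_map_of_mem _ hf0
  have hmap : J.map (bcLoc 𝒜 φ P) = locIdeal (bc 𝒜 C) (I.map (bcMap A φ)) P := by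
    rw [hJ, Ideal.map_sup, Ideal.map_span, Set.image_singleton, h0, Ideal.span_singleton_eq_bot.2 rfl,
      sup_bot_eq, bcLoc_map_locIdeal h P I hI]
  have hcomap : (J.map (bcLoc 𝒜 φ P)).comap (bcLoc 𝒜 φ P) = J := by
    rw [Ideal.comap_map_of_surjective _ hsurj]
    refine sup_eq_left.2 ?_
    rw [← RingHom.ker_eq_comap_bot, hker]
    exact hf
  rw [len, ← hmap]
  letI : Algebra (LR (bc 𝒜 B) (bcPt 𝒜 φ P)) (LR (bc 𝒜 C) P) := (bcLoc 𝒜 φ P).toAlgebra
  have h1 : Module.length (LR (bc 𝒜 C) P) (LR (bc 𝒜 C) P ⧸ J.map (bcLoc 𝒜 φ P)) =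
      Module.length (LR (bc 𝒜 B) (bcPt 𝒜 φ P)) (LR (bc 𝒜 C) P ⧸ J.map (bcLoc 𝒜 φ P)) :=
    (Module.length_eq_of_surjective hsurj).symm
  rw [h1]
  refine LinearEquiv.length_eq ?_
  let g : LR (bc 𝒜 B) (bcPt 𝒜 φ P) →ₗ[LR (bc 𝒜 B) (bcPt 𝒜 φ P)]
      (LR (bc 𝒜 C) P ⧸ J.map (bcLoc 𝒜 φ P)) :=
    (Submodule.mkQ (J.map (bcLoc 𝒜 φ P))).restrictScalars _ ∘ₗ
      (Algebra.linearMap (LR (bc 𝒜 B) (bcPt 𝒜 φ P)) (LR (bc 𝒜 C) P))
  have hg : LinearMap.ker g = J := by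
    ext x
    rw [LinearMap.mem_ker]
    change Submodule.Quotient.mk (bcLoc 𝒜 φ P x) = 0 ↔ _
    rw [Submodule.Quotient.mk_eq_zero, ← Ideal.mem_comap, hcomap]
  have hgs : Function.Surjective g :=
    (Submodule.mkQ_surjective _).comp hsurj
  exact (Submodule.quotEquivOfEq _ _ hg.symm).trans (g.quotKerEquivOfSurjective hgs)

/-- Module B6b: for `B → O → C` and `O → K`, `C` localizations of quotients of `B`. -/
theorem map_comap_eq {O K κ : Type} [CommRing O] [Algebra k O] [CommRing K] [Algebra k K]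
    [CommRing κ] [Algebra k κ] (ψ : B →ₐ[k] O) (ι : O →ₐ[k] K) (π : O →ₐ[k] κ)
    (h : FracLike ψ) (J : Ideal (K ⊗[k] A)) :
    (J.comap (bcMap A ι)).map (bcMap A π) =
      (J.comap (bcMap A (ι.comp ψ))).map (bcMap A (π.comp ψ)) := by
  have hι : ∀ y, bcMap A (ι.comp ψ) y = bcMap A ι (bcMap A ψ y) := by
    intro y
    induction y using TensorProduct.induction_on with
    | zero => simp
    | tmul b a => rfl
    | add y1 y2 h1 h2 => rw [map_add, h1, h2, map_add, map_add]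
  have hπ : ∀ y, bcMap A (π.comp ψ) y = bcMap A π (bcMap A ψ y) := by
    intro y
    induction y using TensorProduct.induction_on with
    | zero => simp
    | tmul b a => rfl
    | add y1 y2 h1 h2 => rw [map_add, h1, h2, map_add, map_add]
  apply le_antisymm
  · rw [Ideal.map_le_iff_le_comap]
    intro x hx
    rw [Ideal.mem_comap] at hx ⊢
    obtain ⟨y, s, hs, e⟩ := BcX.fl_all (φ := ψ) h x
    have e' : ψ s • x = bcMap A ψ y := e
    have h1 : y ∈ J.comap (bcMap A (ι.comp ψ)) := by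
      rw [Ideal.mem_comap, hι, ← e', Algebra.smul_def, map_mul]
      exact Ideal.mul_mem_left _ _ hx
    have h2 := Ideal.mem_map_of_mem (bcMap A (π.comp ψ)) h1
    rw [hπ, ← e', Algebra.smul_def, map_mul] at h2
    refine (Ideal.unit_mul_mem_iff_mem _ ?_).1 h2
    exact (hs.map (algebraMap O (O ⊗[k] A))).map (bcMap A π)
  · rw [Ideal.map_le_iff_le_comap]
    intro y hy
    rw [Ideal.mem_comap] at hy ⊢
    rw [hπ]
    refine Ideal.mem_map_of_mem _ ?_
    rw [Ideal.mem_comap, ← hι]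
    exact hy

end BaseChange

end Pool.Agent.SSF.Br
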