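import Pool.Agent.SSF.Br.Gr

/-!
Base change of graded rings along localizations of quotients: elements and kernels.
-/

namespace Pool.Agent.SSF.Br

open AlgebraicGeometry TensorProduct HomogeneousLocalization HomogeneousIdeal Graded

namespace BcX

variable {k A : Type} [CommRing k] [CommRing A] [Algebra k A]
variable {B C : Type} [CommRing B] [Algebra k B] [CommRing C] [Algebra k C]

/-- The ring homomorphism `B ⊗ A → C ⊗ A`. -/
noncomputable abbrev g (A : Type) [CommRing A] [Algebra k A] (φ : B →ₐ[k] C) :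
    B ⊗[k] A →+* C ⊗[k] A :=
  (Algebra.TensorProduct.map φ (AlgHom.id k A)).toRingHom

theorem g_tmul (φ : B →ₐ[k] C) (b : B) (a : A) : g A φ (b ⊗ₜ a) = φ b ⊗ₜ a := rfl

theorem g_smul (φ : B →ₐ[k] C) (b : B) (y : B ⊗[k] A) : g A φ (b • y) = φ b • g A φ y := by
  rw [Algebra.smul_def, map_mul, Algebra.smul_def]
  rfl

theorem g_algebraMap (φ : B →ₐ[k] C) (b : B) :
    g A φ (algebraMap B (B ⊗[k] A) b) = algebraMap C (C ⊗[k] A) (φ b) := rfl

/-- `C` is a localization of a quotient of `B`. -/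
def FL (φ : B →ₐ[k] C) : Prop := ∀ c : C, ∃ b s : B, IsUnit (φ s) ∧ c * φ s = φ b

theorem fl_span {φ : B →ₐ[k] C} (h : FL φ) (N : Submodule k A) {x : C ⊗[k] A}
    (hx : x ∈ N.baseChange C) :
    ∃ y ∈ N.baseChange B, ∃ s : B, IsUnit (φ s) ∧ φ s • x = g A φ y := by
  rw [Submodule.baseChange_eq_span] at hx
  induction hx using Submodule.span_induction with
  | mem x hx =>
    obtain ⟨a, ha, rfl⟩ := hx
    refine ⟨1 ⊗ₜ a, Submodule.tmul_mem_baseChange_of_mem 1 ha, 1, by simp, ?_⟩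
    have h1 : φ (1 : B) = 1 := map_one φ
    rw [g_tmul, h1, one_smul]
    rfl
  | zero => exact ⟨0, Submodule.zero_mem _, 1, by simp, by simp⟩
  | add x1 x2 _ _ h1 h2 =>
    obtain ⟨y1, hy1, s1, hs1, e1⟩ := h1
    obtain ⟨y2, hy2, s2, hs2, e2⟩ := h2
    refine ⟨s2 • y1 + s1 • y2, Submodule.add_mem _ (Submodule.smul_mem _ _ hy1)
      (Submodule.smul_mem _ _ hy2), s1 * s2, by rw [map_mul]; exact hs1.mul hs2, ?_⟩
    rw [map_add, g_smul, g_smul, ← e1, ← e2, smul_add, map_mul, smul_smul, smul_smul,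
      mul_comm (φ s1) (φ s2)]
  | smul c x _ h1 =>
    obtain ⟨y, hy, s, hs, e⟩ := h1
    obtain ⟨b, t, ht, hc⟩ := h c
    refine ⟨b • y, Submodule.smul_mem _ _ hy, t * s, by rw [map_mul]; exact ht.mul hs, ?_⟩
    rw [g_smul, ← e, ← hc, map_mul, smul_smul, smul_smul]
    congr 1
    ring

theorem fl_all {φ : B →ₐ[k] C} (h : FL φ) (x : C ⊗[k] A) :
    ∃ y : B ⊗[k] A, ∃ s : B, IsUnit (φ s) ∧ φ s • x = g A φ y := by
  obtain ⟨y, -, s, hs, e⟩ := fl_span h (⊤ : Submodule k A) (x := x) (by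
    rw [Submodule.baseChange_top]; trivial)
  exact ⟨y, s, hs, e⟩

theorem kl_inj {φ : B →ₐ[k] C} (h : FL φ) (hinj : Function.Injective φ) {y : B ⊗[k] A}
    (hy : g A φ y = 0) : ∃ s : B, IsUnit (φ s) ∧ s • y = 0 := by
  let _ : Algebra B C := φ.toRingHom.toAlgebra
  have hsc : IsScalarTower k B C := IsScalarTower.of_algebraMap_eq' (φ.comp_algebraMap).symm
  let S : Submonoid B := (IsUnit.submonoid C).comap φ
  have hloc : IsLocalization S C := by
    refine ⟨fun s => s.2, fun c => ?_, fun {x y} hxy => ?_⟩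
    · obtain ⟨b, s, hs, e⟩ := h c
      exact ⟨(b, ⟨s, hs⟩), e⟩
    · exact ⟨1, by rw [hinj hxy]⟩
  let f : B ⊗[k] A →ₗ[B] C ⊗[k] A :=
    { toFun := g A φ
      map_add' := map_add _
      map_smul' := fun b y => by
        rw [g_smul]
        exact (algebraMap_smul C b (g A φ y)) }
  have hbc : IsBaseChange C f := by
    refine IsBaseChange.of_equiv (TensorProduct.AlgebraTensorModule.cancelBaseChange k B C C A) ?_
    intro y
    induction y using TensorProduct.induction_on with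
    | zero => simp
    | tmul b a =>
      rw [TensorProduct.AlgebraTensorModule.cancelBaseChange_tmul]
      change (b • (1 : C)) ⊗ₜ[k] a = φ b ⊗ₜ[k] a
      rw [Algebra.smul_def, mul_one]
      rfl
    | add y1 y2 h1 h2 => rw [TensorProduct.tmul_add, map_add, h1, h2, map_add]
  have hlm : IsLocalizedModule S f := (isLocalizedModule_iff_isBaseChange S C f).2 hbc
  obtain ⟨s, hs⟩ := (IsLocalizedModule.eq_zero_iff S f).1 (show f y = 0 from hy)
  exact ⟨s, s.2, hs⟩

/-- The kernel of the base change map. -/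
theorem kl {φ : B →ₐ[k] C} (h : FL φ) {y : B ⊗[k] A} (hy : g A φ y = 0) :
    ∃ s : B, IsUnit (φ s) ∧ s • y ∈ (RingHom.ker φ).map (algebraMap B (B ⊗[k] A)) := by
  let π : B →ₐ[k] B ⧸ RingHom.ker φ := Ideal.Quotient.mkₐ k (RingHom.ker φ)
  let ι : (B ⧸ RingHom.ker φ) →ₐ[k] C := Ideal.kerLiftAlg φ
  have hcomp : ι.comp π = φ := by
    ext b
    rfl
  have hιπ : ∀ b, ι (π b) = φ b := fun b => rfl
  have hι : FL ι := by
    intro c
    obtain ⟨b, s, hs, e⟩ := h c
    exact ⟨π b, π s, hs, e⟩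
  have hinj : Function.Injective ι := Ideal.kerLiftAlg_injective φ
  have hg : ∀ y, g A ι (g A π y) = g A φ y := by
    intro y
    induction y using TensorProduct.induction_on with
    | zero => simp
    | tmul b a => rfl
    | add y1 y2 h1 h2 => rw [map_add, map_add, h1, h2, map_add]
  obtain ⟨s', hs', e⟩ := kl_inj hι hinj (y := g A π y) (by rw [hg, hy])
  obtain ⟨s, rfl⟩ := Ideal.Quotient.mk_surjective s'
  refine ⟨s, hs', ?_⟩
  have h1 : g A π (s • y) = 0 := by
    rw [g_smul]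
    exact e
  have hker := Algebra.TensorProduct.rTensor_ker (R := k) (C := A) π
    Ideal.Quotient.mk_surjective
  have h2 : s • y ∈ RingHom.ker (Algebra.TensorProduct.map π (AlgHom.id k A)) := h1
  rw [hker] at h2
  have h3 : RingHom.ker π = RingHom.ker φ := by
    ext b
    exact Ideal.Quotient.eq_zero_iff_mem
  rw [h3] at h2
  exact h2

end BcX

end Pool.Agent.SSF.Br
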