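import Pool.Agent.SSF.Defs

/-!
# Contraction to `A` of an ideal of the Cox ring: definition
-/

namespace Pool.Agent.SSF.Br

/-- The contraction to `A` of the ideal of `R` generated by a set. -/
def contr {k : Type} [CommRing k] (D : Cox k) (s : Set D.R) : Ideal D.A :=
  (Ideal.span s).comap D.φ

end Pool.Agent.SSF.Br
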