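import Pool.Agent.SSF.Br.PI
import Pool.Agent.SSF.Br.Dat

/-!
# Cycles of ideals and pullback to an extension field: definitions
-/

namespace Pool.Agent.SSF.Br

open CategoryTheory AlgebraicGeometry MonoidalCategory CartesianMonoidalCategory Limits
open TensorProduct HomogeneousLocalization HomogeneousIdeal Graded

section Cyc2

variable {σ A : Type} [CommRing A] [SetLike σ A] [AddSubgroupClass σ A] (𝒜 : ℕ → σ)
  [GradedRing 𝒜]

open Classical in
/-- The coefficients of the cycle of codimension two of an ideal. -/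
noncomputable def coef2 (I : Ideal A) (P : ProjectiveSpectrum 𝒜) : ℤ :=
  if Order.height P = 2 then ((len 𝒜 I P).toNat : ℤ) else 0

open Classical in
/-- The cycle of codimension two of an ideal. -/
noncomputable def cyc2 (I : Ideal A) : ProjectiveSpectrum 𝒜 →₀ ℤ :=
  if h : (Function.support (coef2 𝒜 I)).Finite then Finsupp.ofSupportFinite _ h else 0

/-- The cycles of codimension two rationally equivalent to zero, in terms of homogeneous
fractions. -/
noncomputable def RatA : AddSubgroup (ProjectiveSpectrum 𝒜 →₀ ℤ) :=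
  AddSubgroup.closure {c | ∃ (y : ProjectiveSpectrum 𝒜) (i : ℕ) (a b : A),
    Order.height y = 1 ∧ a ∈ 𝒜 i ∧ b ∈ 𝒜 i ∧ a ∉ idl 𝒜 y ∧ b ∉ idl 𝒜 y ∧
    ∀ P, c P = ((len 𝒜 (idl 𝒜 y ⊔ Ideal.span {a}) P).toNat : ℤ) -
      (len 𝒜 (idl 𝒜 y ⊔ Ideal.span {b}) P).toNat}

end Cyc2

section Incl

variable {k A : Type} [Field k] [CommRing A] [Algebra k A] (𝒜 : ℕ → Submodule k A)
  [GradedAlgebra 𝒜]

/-- The extension of an ideal of `A` to `B ⊗ A`. -/
noncomputable abbrev inclI (k : Type) {A : Type} [Field k] [CommRing A] [Algebra k A] (B : Type)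
    [CommRing B] [Algebra k B] (I : Ideal A) : Ideal (B ⊗[k] A) :=
  I.map (Algebra.TensorProduct.includeRight : A →ₐ[k] B ⊗[k] A)

/-- The map `Proj (B ⊗ A) → Proj A` on points. -/
noncomputable def inclPt (B : Type) [CommRing B] [Algebra k B]
    (P : ProjectiveSpectrum (bc 𝒜 B)) : ProjectiveSpectrum 𝒜 :=
  ProjectiveSpectrum.comap (inclHom 𝒜 B) (inclHom_irr 𝒜 B) P

/-- A point of the projective spectrum as a point of the scheme. -/
abbrev ptX (P : ProjectiveSpectrum 𝒜) : (projOver 𝒜).left := P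

/-- A cycle on the projective spectrum as a cycle on the scheme. -/
noncomputable abbrev cycX (c : ProjectiveSpectrum 𝒜 →₀ ℤ) : (projOver 𝒜).left →₀ ℤ := c

end Incl

end Pool.Agent.SSF.Br
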