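import Pool.Agent.SSF.Emb
import Pool.Agent.SSF.Br.ExtD
import Pool.Agent.SSF.Br.CxD

/-!
# Contractions from a Cox ring to the homogeneous coordinate ring
-/

namespace Pool.Agent.SSF.Br

open TensorProduct

section Contr

variable {k : Type} [Field k] (D : Cox k)

theorem contr_coe_decompose {k : Type} [CommRing k] (D : Cox k) (a : D.A) (n : ℕ) :
    D.φ (DirectSum.decompose D.gA a n : D.A) =
      (DirectSum.decompose D.gR (D.φ a) (n • D.h) : D.R) := by
  classical
  have h1 : D.φ a = ∑ i ∈ (DirectSum.decompose D.gA a).support,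
      D.φ (DirectSum.decompose D.gA a i : D.A) := by
    rw [← map_sum, DirectSum.sum_support_decompose]
  have h2 : ∀ i j : ℕ, i • D.h = j • D.h → i = j := by
    intro i j hij
    have := D.h_inj i j (by rw [natCast_zsmul, natCast_zsmul]; exact hij)
    exact_mod_cast this
  have h3 : ∀ i : ℕ, (DirectSum.decompose D.gR (D.φ (DirectSum.decompose D.gA a i : D.A))
      (n • D.h) : D.R) = if i = n then D.φ (DirectSum.decompose D.gA a i : D.A) else 0 := by
    intro i
    have hm := D.φ_mem i _ (SetLike.coe_mem (DirectSum.decompose D.gA a i))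
    split_ifs with h
    · subst h
      exact DirectSum.decompose_of_mem_same _ hm
    · exact DirectSum.decompose_of_mem_ne _ hm (fun h' => h (h2 _ _ h'))
  conv_rhs => rw [h1]
  rw [DirectSum.decompose_sum, DFinsupp.finsetSum_apply, AddSubmonoidClass.coe_finsetSum]
  simp_rw [h3]
  rw [Finset.sum_ite_eq']
  split_ifs with h
  · rfl
  · rw [DFinsupp.notMem_support_iff] at h
    rw [h]
    simp

theorem emb_decompose {k : Type} [CommRing k] {D D' : Cox k} (E : Cox.Emb D D') (x : D.R)
    (g : D.Γ) : (DirectSum.decompose D'.gR (E.ψ x) (E.γ g) : D'.R) =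
      E.ψ (DirectSum.decompose D.gR x g : D.R) := by
  classical
  have h3 : ∀ i : D.Γ, (DirectSum.decompose D'.gR (E.ψ (DirectSum.decompose D.gR x i : D.R))
      (E.γ g) : D'.R) = if i = g then E.ψ (DirectSum.decompose D.gR x i : D.R) else 0 := by
    intro i
    have hm := E.ψ_mem i _ (SetLike.coe_mem (DirectSum.decompose D.gR x i))
    split_ifs with h
    · subst h
      exact DirectSum.decompose_of_mem_same _ hm
    · exact DirectSum.decompose_of_mem_ne _ hm (fun h' => h (E.γ_inj h'))
  conv_lhs => rw [← DirectSum.sum_support_decompose D.gR x]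
  rw [map_sum, DirectSum.decompose_sum, DFinsupp.finsetSum_apply,
    AddSubmonoidClass.coe_finsetSum]
  simp_rw [h3]
  rw [Finset.sum_ite_eq']
  split_ifs with h
  · rfl
  · rw [DFinsupp.notMem_support_iff] at h
    rw [h]
    simp

/-- Module X0. -/
theorem contr_homogeneous (s : Set D.R) (hs : ∀ x ∈ s, ∃ γ, x ∈ D.gR γ) :
    (contr D s).IsHomogeneous D.gA := by
  intro n a ha
  have h1 : (Ideal.span s).IsHomogeneous D.gR :=
    Ideal.homogeneous_span D.gR s hs
  change D.φ _ ∈ Ideal.span s
  rw [contr_coe_decompose]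
  exact h1 _ ha

/-- Contraction commutes with flat base change. -/
theorem map_includeRight_comap {k : Type} [CommRing k] (B : Type) [CommRing B] [Algebra k B]
    [Module.Flat k B] {A R : Type} [CommRing A] [Algebra k A] [CommRing R] [Algebra k R]
    (φ : A →ₐ[k] R) (J : Ideal R) :
    (J.comap φ).map (Algebra.TensorProduct.includeRight : A →ₐ[k] B ⊗[k] A) =
      (J.map (Algebra.TensorProduct.includeRight : R →ₐ[k] B ⊗[k] R)).comap
        (Algebra.TensorProduct.map (AlgHom.id B B) φ) := by
  have h1 : Function.Exact (((J.comap φ).restrictScalars k).subtype)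
      ((((J.restrictScalars k)).mkQ) ∘ₗ φ.toLinearMap) := by
    intro a
    constructor
    · intro ha
      have ha' : φ a ∈ J := by
        rw [LinearMap.comp_apply, Submodule.mkQ_apply, Submodule.Quotient.mk_eq_zero] at ha
        exact ha
      exact ⟨⟨a, ha'⟩, rfl⟩
    · rintro ⟨b, rfl⟩
      rw [LinearMap.comp_apply, Submodule.mkQ_apply, Submodule.Quotient.mk_eq_zero]
      exact b.2
  have h2 := Module.Flat.lTensor_exact B h1
  have h3 : Function.Exact ((J.restrictScalars k).subtype) ((J.restrictScalars k).mkQ) := by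
    rw [LinearMap.exact_iff]
    simp
  have h4 := Module.Flat.lTensor_exact B h3
  ext x
  have e1 : x ∈ (J.comap φ).map (Algebra.TensorProduct.includeRight : A →ₐ[k] B ⊗[k] A) ↔
      x ∈ LinearMap.range (LinearMap.lTensor B ((J.comap φ).restrictScalars k).subtype) := by
    rw [← Ideal.map_includeRight_eq]
    rfl
  have e2 : (Algebra.TensorProduct.map (AlgHom.id B B) φ) x ∈
      (J.map (Algebra.TensorProduct.includeRight : R →ₐ[k] B ⊗[k] R)) ↔
      (Algebra.TensorProduct.map (AlgHom.id B B) φ) x ∈
        LinearMap.range (LinearMap.lTensor B (J.restrictScalars k).subtype) := by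
    rw [← Ideal.map_includeRight_eq]
    rfl
  rw [Ideal.mem_comap, e1, e2]
  have e3 : (Algebra.TensorProduct.map (AlgHom.id B B) φ) x =
      LinearMap.lTensor B φ.toLinearMap x := by
    clear e1 e2
    induction x using TensorProduct.induction_on with
    | zero => simp
    | tmul b a => simp
    | add x y hx hy => rw [map_add, map_add, hx, hy]
  rw [e3, LinearMap.mem_range, LinearMap.mem_range]
  rw [← Set.mem_range, ← Set.mem_range, ← h2 x, ← h4 _, LinearMap.lTensor_comp,
    LinearMap.comp_apply]

/-- Module X1: contraction and base change. -/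
theorem inclI_contr (B : Type) [Field B] [Algebra k B] (s : Set D.R) :
    inclI k B (contr D s) =
      contr (D.bc B) ((Algebra.TensorProduct.includeRight : D.R →ₐ[k] B ⊗[k] D.R) '' s) := by
  have h1 : Ideal.span ((Algebra.TensorProduct.includeRight : D.R →ₐ[k] B ⊗[k] D.R) '' s) =
      (Ideal.span s).map (Algebra.TensorProduct.includeRight : D.R →ₐ[k] B ⊗[k] D.R) :=
    (Ideal.map_span _ _).symm
  change _ = Ideal.comap _ (Ideal.span _)
  rw [h1]
  exact map_includeRight_comap B D.φ (Ideal.span s)

/-- Module X2: contraction and enlarging the group of degrees. -/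
theorem contr_emb {D D' : Cox k} (E : Cox.Emb D D') (s : Set D.R)
    (hs : ∀ x ∈ s, ∃ γ, x ∈ D.gR γ) :
    (contr D s).map (E.α : D.A →+* D'.A) = contr D' (E.ψ '' s) := by
  classical
  have key : ∀ y ∈ Ideal.span (E.ψ '' s), ∀ (r : D'.R) (g : D.Γ), ∃ x ∈ Ideal.span s,
      (DirectSum.decompose D'.gR (r * y) (E.γ g) : D'.R) = E.ψ x := by
    intro y hy
    induction hy using Submodule.span_induction with
    | mem y hy =>
      obtain ⟨x, hx, rfl⟩ := hy
      intro r g
      obtain ⟨g0, hg0⟩ := hs x hx
      have h1 : (DirectSum.decompose D'.gR (r * E.ψ x) (E.γ g) : D'.R) =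
          (DirectSum.decompose D'.gR r (E.γ (g - g0)) : D'.R) * E.ψ x := by
        have h2 : E.γ g = E.γ (g - g0) + E.γ g0 := by rw [← map_add, sub_add_cancel]
        rw [h2, DirectSum.coe_decompose_mul_add_of_right_mem D'.gR (E.ψ_mem g0 x hg0)]
      obtain ⟨x', hx', e⟩ := E.ψ_surj (g - g0) _
        (SetLike.coe_mem (DirectSum.decompose D'.gR r (E.γ (g - g0))))
      refine ⟨x' * x, Ideal.mul_mem_left _ _ (Ideal.subset_span hx), ?_⟩
      rw [h1, ← e, map_mul]
    | zero =>
      intro r g
      exact ⟨0, Ideal.zero_mem _, by simp⟩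
    | add y z _ _ hy hz =>
      intro r g
      obtain ⟨x1, h1, e1⟩ := hy r g
      obtain ⟨x2, h2, e2⟩ := hz r g
      refine ⟨x1 + x2, Ideal.add_mem _ h1 h2, ?_⟩
      rw [mul_add, DirectSum.decompose_add, DirectSum.add_apply, Submodule.coe_add, e1, e2,
        map_add]
    | smul b y _ hy =>
      intro r g
      obtain ⟨x1, h1, e1⟩ := hy (r * b) g
      refine ⟨x1, h1, ?_⟩
      rw [smul_eq_mul, ← mul_assoc, e1]
  have hD : (contr D s).IsHomogeneous D.gA := contr_homogeneous D s hs
  apply le_antisymm
  · rw [Ideal.map_le_iff_le_comap]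
    intro a ha
    change D'.φ (E.α a) ∈ Ideal.span (E.ψ '' s)
    rw [← E.comm]
    have h1 : E.ψ (D.φ a) ∈ (Ideal.span s).map (E.ψ : D.R →+* D'.R) :=
      Ideal.mem_map_of_mem (E.ψ : D.R →+* D'.R) ha
    rw [Ideal.map_span] at h1
    exact h1
  · intro b hb
    have hb' : D'.φ b ∈ Ideal.span (E.ψ '' s) := hb
    obtain ⟨a, rfl⟩ := E.α.surjective b
    refine Ideal.mem_map_of_mem (E.α : D.A →+* D'.A) ?_
    rw [← E.comm] at hb'
    -- every component lies in the ideal
    have h2 : ∀ n : ℕ, (DirectSum.decompose D.gA a n : D.A) ∈ contr D s := by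
      intro n
      change D.φ _ ∈ Ideal.span s
      obtain ⟨x, hx, e⟩ := key _ hb' 1 (n • D.h)
      rw [one_mul] at e
      have h3 : (DirectSum.decompose D'.gR (E.ψ (D.φ a)) (E.γ (n • D.h)) : D'.R) =
          E.ψ (D.φ (DirectSum.decompose D.gA a n : D.A)) := by
        rw [contr_coe_decompose]
        exact emb_decompose E _ _
      rw [h3] at e
      rw [E.ψ_inj e]
      exact hx
    rw [← DirectSum.sum_support_decompose D.gA a]
    exact Ideal.sum_mem _ fun n _ => h2 n

/-- Module X4: the points over a complete intersection of two divisors have codimension at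
least two. -/
theorem height_contr [IsDomain D.A] (y : D.Pt) (g l : D.R) (hy : idl D.gA y = contr D {g})
    (hg : contr D {g} ≠ ⊥) (a : D.A) (m : D.R) (ha : D.φ a = l * m) (hay : a ∉ idl D.gA y)
    (P : D.Pt) (hP : contr D {g, l} ≤ idl D.gA P) : 2 ≤ Order.height P := by
  let z : D.Pt := ⟨⊥, by
    change (⊥ : Ideal D.A).IsPrime
    exact Ideal.isPrime_bot, fun h => y.not_irrelevant_le (h.trans bot_le)⟩
  have h1 : z < y := by
    refine lt_of_le_of_ne ?_ ?_
    · rw [← ProjectiveSpectrum.as_ideal_le_as_ideal]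
      exact bot_le
    · intro h
      apply hg
      rw [← hy, ← h]
      rfl
  have h2 : y < P := by
    refine lt_of_le_of_ne ?_ ?_
    · rw [← ProjectiveSpectrum.as_ideal_le_as_ideal]
      change idl D.gA y ≤ idl D.gA P
      rw [hy]
      refine le_trans ?_ hP
      exact Ideal.comap_mono (Ideal.span_mono (by simp))
    · rintro rfl
      apply hay
      apply hP
      change D.φ a ∈ Ideal.span {g, l}
      rw [ha]
      exact Ideal.mul_mem_right _ _ (Ideal.subset_span (by simp))
  have h3 := Order.height_add_one_le h1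
  have h4 := Order.height_add_one_le h2
  calc (2 : ℕ∞) = 0 + 1 + 1 := by norm_num
    _ ≤ Order.height z + 1 + 1 := by gcongr; exact zero_le
    _ ≤ Order.height y + 1 := by gcongr
    _ ≤ Order.height P := h4

end Contr

end Pool.Agent.SSF.Br
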