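import Pool.Agent.SSF.Br.ExtD

/-!
# Transport of the cycles of ideals along an isomorphism of graded algebras
-/

namespace Pool.Agent.SSF.Br

open AlgebraicGeometry HomogeneousLocalization Graded

namespace CxEq

/-- Lengths of quotients and surjective ring homomorphisms. -/
theorem length_comap {R R' : Type*} [CommRing R] [CommRing R'] (f : R →+* R')
    (hf : Function.Surjective f) (J : Ideal R') :
    Module.length R (R ⧸ J.comap f) = Module.length R' (R' ⧸ J) := by
  letI : Algebra R R' := f.toAlgebra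
  have h1 : Module.length R' (R' ⧸ J) = Module.length R (R' ⧸ J) :=
    (Module.length_eq_of_surjective hf).symm
  rw [h1]
  refine LinearEquiv.length_eq ?_
  let g : R →ₗ[R] (R' ⧸ J) :=
    (Submodule.mkQ J).restrictScalars R ∘ₗ (Algebra.linearMap R R')
  have hg : LinearMap.ker g = J.comap f := by
    ext x
    rw [LinearMap.mem_ker]
    change Submodule.Quotient.mk (f x) = 0 ↔ _
    rw [Submodule.Quotient.mk_eq_zero, Ideal.mem_comap]
  have hgs : Function.Surjective g := (Submodule.mkQ_surjective _).comp hf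
  exact (Submodule.quotEquivOfEq _ _ hg.symm).trans (g.quotKerEquivOfSurjective hgs)

variable {k A A' : Type} [Field k] [CommRing A] [Algebra k A] [CommRing A'] [Algebra k A']
    {𝒜 : ℕ → Submodule k A} [GradedAlgebra 𝒜] {𝒜' : ℕ → Submodule k A'} [GradedAlgebra 𝒜']
    (α : A ≃ₐ[k] A') (hα : ∀ n a, a ∈ 𝒜 n ↔ α a ∈ 𝒜' n)

/-- The graded ring homomorphism. -/
def hom : 𝒜 →+*ᵍ 𝒜' where
  __ := (α : A →+* A')
  map_mem := fun {_} {_} h => (hα _ _).1 h

lemma hom_apply (a : A) : hom α hα a = α a := rfl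

include hα in
lemma symm_mem (n : ℕ) (a : A') : a ∈ 𝒜' n ↔ α.symm a ∈ 𝒜 n := by
  rw [hα, AlgEquiv.apply_symm_apply]

lemma irr : HomogeneousIdeal.irrelevant 𝒜' ≤
    (HomogeneousIdeal.irrelevant 𝒜).map (hom α hα) := by
  rw [HomogeneousIdeal.irrelevant_le]
  intro i hi x hx
  change x ∈ ((HomogeneousIdeal.irrelevant 𝒜).toIdeal).map (α : A →+* A')
  have h1 : α.symm x ∈ (HomogeneousIdeal.irrelevant 𝒜).toIdeal :=
    HomogeneousIdeal.mem_irrelevant_of_mem 𝒜 hi ((symm_mem α hα i x).1 hx)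
  have h2 := Ideal.mem_map_of_mem (α : A →+* A') h1
  have h3 : (α : A →+* A') (α.symm x) = x := α.apply_symm_apply x
  rwa [h3] at h2

/-- The map on points. -/
noncomputable def pt (P : ProjectiveSpectrum 𝒜') : ProjectiveSpectrum 𝒜 :=
  ProjectiveSpectrum.comap (hom α hα) (irr α hα) P

lemma mem_pt (P : ProjectiveSpectrum 𝒜') (a : A) :
    a ∈ idl 𝒜 (pt α hα P) ↔ α a ∈ idl 𝒜' P := Iff.rfl

/-- The order isomorphism on points. -/
noncomputable def ptE : ProjectiveSpectrum 𝒜' ≃o ProjectiveSpectrum 𝒜 where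
  toFun := pt α hα
  invFun := pt α.symm (symm_mem α hα)
  left_inv := by
    intro P
    apply ProjectiveSpectrum.ext
    apply HomogeneousIdeal.toIdeal_injective
    ext a
    change a ∈ idl 𝒜' (pt α.symm (symm_mem α hα) (pt α hα P)) ↔ a ∈ idl 𝒜' P
    rw [mem_pt, mem_pt, AlgEquiv.apply_symm_apply]
  right_inv := by
    intro P
    apply ProjectiveSpectrum.ext
    apply HomogeneousIdeal.toIdeal_injective
    ext a
    change a ∈ idl 𝒜 (pt α hα (pt α.symm (symm_mem α hα) P)) ↔ a ∈ idl 𝒜 P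
    rw [mem_pt, mem_pt, AlgEquiv.symm_apply_apply]
  map_rel_iff' := by
    intro P Q
    constructor
    · intro h a ha
      have h1 : α.symm a ∈ idl 𝒜 (pt α hα P) := by
        rw [mem_pt, AlgEquiv.apply_symm_apply]
        exact ha
      have h2 : α.symm a ∈ idl 𝒜 (pt α hα Q) := h h1
      rw [mem_pt, AlgEquiv.apply_symm_apply] at h2
      exact h2
    · intro h a ha
      exact h ha

lemma ptE_apply (P : ProjectiveSpectrum 𝒜') : ptE α hα P = pt α hα P := rfl

/-- The homomorphism of local rings. -/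
noncomputable def loc (P : ProjectiveSpectrum 𝒜') : LR 𝒜 (pt α hα P) →+* LR 𝒜' P :=
  localRingHom (hom α hα) _ _ rfl

theorem loc_mk (P : ProjectiveSpectrum 𝒜') {i : ℕ} (num den : A) (hn : num ∈ 𝒜 i)
    (hd : den ∈ 𝒜 i) (hm : den ∈ (idl 𝒜 (pt α hα P)).primeCompl) :
    loc α hα P (HomogeneousLocalization.mk ⟨i, ⟨num, hn⟩, ⟨den, hd⟩, hm⟩) =
      HomogeneousLocalization.mk ⟨i, ⟨α num, (hα _ _).1 hn⟩, ⟨α den, (hα _ _).1 hd⟩, hm⟩ := rfl

theorem loc_surjective (P : ProjectiveSpectrum 𝒜') : Function.Surjective (loc α hα P) := by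
  intro y
  obtain ⟨⟨i, ⟨num, hn⟩, ⟨den, hd⟩, hm⟩, rfl⟩ := HomogeneousLocalization.mk_surjective y
  have hm' : α.symm den ∈ (idl 𝒜 (pt α hα P)).primeCompl := by
    intro hc
    apply hm
    have hc' : α.symm den ∈ idl 𝒜 (pt α hα P) := hc
    rw [mem_pt, AlgEquiv.apply_symm_apply] at hc'
    exact hc'
  refine ⟨HomogeneousLocalization.mk ⟨i, ⟨α.symm num, (symm_mem α hα i num).1 hn⟩,
    ⟨α.symm den, (symm_mem α hα i den).1 hd⟩, hm'⟩, ?_⟩
  rw [loc_mk]
  apply HomogeneousLocalization.val_injective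
  rw [HomogeneousLocalization.val_mk, HomogeneousLocalization.val_mk]
  simp only [AlgEquiv.apply_symm_apply]

theorem loc_comap (P : ProjectiveSpectrum 𝒜') (I : Ideal A) :
    (locIdeal 𝒜' (I.map (α : A →+* A')) P).comap (loc α hα P) = locIdeal 𝒜 I (pt α hα P) := by
  have hI : ∀ x, x ∈ I.map (α : A →+* A') ↔ α.symm x ∈ I := by
    intro x
    rw [Ideal.mem_map_iff_of_surjective (α : A →+* A') α.surjective]
    constructor
    · rintro ⟨a, ha, rfl⟩
      change α.symm (α a) ∈ I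
      rwa [AlgEquiv.symm_apply_apply]
    · intro h
      exact ⟨_, h, α.apply_symm_apply x⟩
  ext x
  obtain ⟨⟨i, ⟨num, hn⟩, ⟨den, hd⟩, hm⟩, rfl⟩ := HomogeneousLocalization.mk_surjective x
  rw [Ideal.mem_comap, loc_mk, mk_mem_locIdeal, mk_mem_locIdeal]
  constructor
  · rintro ⟨u, hu, h⟩
    refine ⟨α.symm u, ?_, ?_⟩
    · rw [mem_pt, AlgEquiv.apply_symm_apply]
      exact hu
    · rw [hI, map_mul] at h
      have h' : α.symm u * α.symm (α num) ∈ I := h
      rwa [AlgEquiv.symm_apply_apply] at h'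
  · rintro ⟨u, hu, h⟩
    refine ⟨α u, ?_, ?_⟩
    · rw [← mem_pt α hα]
      exact hu
    · rw [hI, map_mul]
      change α.symm (α u) * α.symm (α num) ∈ I
      rw [AlgEquiv.symm_apply_apply, AlgEquiv.symm_apply_apply]
      exact h

theorem len_map (P : ProjectiveSpectrum 𝒜') (I : Ideal A) :
    len 𝒜' (I.map (α : A →+* A')) P = len 𝒜 I (pt α hα P) := by
  rw [len, len, ← length_comap _ (loc_surjective α hα P), loc_comap]

theorem height_pt (P : ProjectiveSpectrum 𝒜') : Order.height (pt α hα P) = Order.height P :=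
  Order.height_orderIso (ptE α hα) P

theorem coef2_pt (P : ProjectiveSpectrum 𝒜') (I : Ideal A) :
    coef2 𝒜 I (pt α hα P) = coef2 𝒜' (I.map (α : A →+* A')) P := by
  rw [coef2, coef2, height_pt, len_map α hα]

theorem cyc2_pt (I : Ideal A) :
    cyc2 𝒜 I = Finsupp.domCongr (ptE α hα).toEquiv (cyc2 𝒜' (I.map (α : A →+* A'))) := by
  have h1 : (coef2 𝒜 I) ∘ (ptE α hα) = coef2 𝒜' (I.map (α : A →+* A')) := by
    funext P
    exact coef2_pt α hα P I
  have h2 : (Function.support (coef2 𝒜 I)).Finite ↔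
      (Function.support (coef2 𝒜' (I.map (α : A →+* A')))).Finite := by
    rw [← h1, Function.support_comp_eq_preimage]
    constructor
    · intro h
      exact h.preimage (ptE α hα).injective.injOn
    · intro h
      have := h.image (ptE α hα)
      rwa [Set.image_preimage_eq _ (ptE α hα).surjective] at this
  ext Q
  obtain ⟨P, rfl⟩ := (ptE α hα).surjective Q
  have h3 : (Finsupp.domCongr (ptE α hα).toEquiv (cyc2 𝒜' (I.map (α : A →+* A'))))
      (ptE α hα P) = cyc2 𝒜' (I.map (α : A →+* A')) P := by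
    rw [Finsupp.domCongr_apply, Finsupp.equivMapDomain_apply]
    congr 1
    exact (ptE α hα).symm_apply_apply P
  rw [h3, cyc2, cyc2]
  by_cases h : (Function.support (coef2 𝒜 I)).Finite
  · rw [dif_pos h, dif_pos (h2.1 h)]
    exact coef2_pt α hα P I
  · rw [dif_neg h, dif_neg (fun h' => h (h2.2 h'))]
    rfl

theorem ratA_pt (c : ProjectiveSpectrum 𝒜' →₀ ℤ) (hc : c ∈ RatA 𝒜') :
    Finsupp.domCongr (ptE α hα).toEquiv c ∈ RatA 𝒜 := by
  have h3 : ∀ (c : ProjectiveSpectrum 𝒜' →₀ ℤ) (P : ProjectiveSpectrum 𝒜'),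
      (Finsupp.domCongr (ptE α hα).toEquiv c) (ptE α hα P) = c P := by
    intro c P
    rw [Finsupp.domCongr_apply, Finsupp.equivMapDomain_apply]
    congr 1
    exact (ptE α hα).symm_apply_apply P
  have h4 : ∀ (y : ProjectiveSpectrum 𝒜') (a : A'),
      (idl 𝒜 (pt α hα y) ⊔ Ideal.span {α.symm a}).map (α : A →+* A') =
        idl 𝒜' y ⊔ Ideal.span {a} := by
    intro y a
    rw [Ideal.map_sup, Ideal.map_span, Set.image_singleton]
    congr 1
    · change ((idl 𝒜' y).comap (α : A →+* A')).map (α : A →+* A') = _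
      exact Ideal.map_comap_of_surjective _ α.surjective _
    · change Ideal.span {α (α.symm a)} = _
      rw [AlgEquiv.apply_symm_apply]
  unfold RatA at hc
  induction hc using AddSubgroup.closure_induction with
  | mem c hc =>
    obtain ⟨y, i, a, b, hy, ha, hb, hay, hby, hc⟩ := hc
    refine AddSubgroup.subset_closure ⟨pt α hα y, i, α.symm a, α.symm b, ?_, ?_, ?_, ?_, ?_, ?_⟩
    · rw [height_pt]
      exact hy
    · exact (symm_mem α hα i a).1 ha
    · exact (symm_mem α hα i b).1 hb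
    · rw [mem_pt, AlgEquiv.apply_symm_apply]
      exact hay
    · rw [mem_pt, AlgEquiv.apply_symm_apply]
      exact hby
    · intro Q
      obtain ⟨P, rfl⟩ := (ptE α hα).surjective Q
      rw [h3, hc, ptE_apply, ← len_map α hα, ← len_map α hα, h4, h4]
  | zero => rw [map_zero]; exact AddSubgroup.zero_mem _
  | add x y _ _ hx hy => rw [map_add]; exact AddSubgroup.add_mem _ hx hy
  | neg x _ hx => rw [map_neg]; exact AddSubgroup.neg_mem _ hx

end CxEq

/-- Module X3: transport of rational equivalence. -/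
theorem ratA_equiv {k : Type} [Field k] {A A' : Type} [CommRing A] [Algebra k A] [CommRing A']
    [Algebra k A'] (𝒜 : ℕ → Submodule k A) [GradedAlgebra 𝒜] (𝒜' : ℕ → Submodule k A')
    [GradedAlgebra 𝒜'] (α : A ≃ₐ[k] A') (hα : ∀ n a, a ∈ 𝒜 n ↔ α a ∈ 𝒜' n) (I₁ I₂ : Ideal A)
    (h : cyc2 𝒜' (I₁.map (α : A →+* A')) - cyc2 𝒜' (I₂.map (α : A →+* A')) ∈ RatA 𝒜') :
    cyc2 𝒜 I₁ - cyc2 𝒜 I₂ ∈ RatA 𝒜 := by
  rw [CxEq.cyc2_pt α hα I₁, CxEq.cyc2_pt α hα I₂, ← map_sub]
  exact CxEq.ratA_pt α hα _ h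

end Pool.Agent.SSF.Br
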