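import Pool.Agent.SSF.Br.Dat

/-!
The discrete valuation ring between two consecutive fields of the chain.
-/

namespace Pool.Agent.SSF.Br

open IsLocalRing

variable {k : Type} [Field k]

/-- The discrete valuation ring belonging to one step. -/
theorem exists_dvr {B K κ : Type} [CommRing B] [IsNoetherianRing B]
    [Algebra k B] [Field K] [Algebra k K] [Field κ] [Algebra k κ]
    (ψ : B →ₐ[k] K) (ψ' : B →ₐ[k] κ) (hψ : FracLike ψ) (hψ' : FracLike ψ') (f : B)
    (hf : ψ f ≠ 0) (hker : RingHom.ker ψ' = RingHom.ker ψ ⊔ Ideal.span {f}) :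
    ∃ (O : Type) (_ : CommRing O) (_ : IsDomain O) (_ : IsDiscreteValuationRing O)
      (_ : Algebra k O) (χ : B →ₐ[k] O) (ι : O →ₐ[k] K) (π : O →ₐ[k] κ),
      ι.comp χ = ψ ∧ π.comp χ = ψ' ∧ FracLike χ ∧ Function.Injective ι ∧ FracLike ι ∧
      Function.Surjective π ∧ RingHom.ker π = Ideal.span {χ f} := by
  have hle : RingHom.ker ψ ≤ RingHom.ker ψ' := by
    rw [hker]
    exact le_sup_left
  have hff : ψ' f = 0 := by
    have : f ∈ RingHom.ker ψ' := by
      rw [hker]
      exact Ideal.mem_sup_right (Ideal.mem_span_singleton_self f)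
    exact this
  let m : B →ₐ[k] B ⧸ RingHom.ker ψ := Ideal.Quotient.mkₐ k (RingHom.ker ψ)
  have hm : Function.Surjective m := Ideal.Quotient.mk_surjective
  let ψ₁ : (B ⧸ RingHom.ker ψ) →ₐ[k] K := Ideal.kerLiftAlg ψ
  have hψ₁ : Function.Injective ψ₁ := Ideal.kerLiftAlg_injective ψ
  have e1 : ∀ b, ψ₁ (m b) = ψ b := fun b => rfl
  let ψ₂ : (B ⧸ RingHom.ker ψ) →ₐ[k] κ := Ideal.Quotient.liftₐ (RingHom.ker ψ) ψ'
    (fun a ha => hle ha)
  have e2 : ∀ b, ψ₂ (m b) = ψ' b := fun b => rfl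
  have hdomB : IsDomain (B ⧸ RingHom.ker ψ) := hψ₁.isDomain ψ₁.toRingHom
  let p : Ideal (B ⧸ RingHom.ker ψ) := RingHom.ker ψ₂
  have hp : p.IsPrime := RingHom.ker_isPrime ψ₂
  have hpspan : p = Ideal.span {m f} := by
    apply le_antisymm
    · intro x hx
      obtain ⟨b, rfl⟩ := hm x
      have hb : b ∈ RingHom.ker ψ' := hx
      rw [hker] at hb
      obtain ⟨y, hy, z, hz, rfl⟩ := Submodule.mem_sup.1 hb
      obtain ⟨c, rfl⟩ := Ideal.mem_span_singleton'.1 hz
      have h0 : m y = 0 := Ideal.Quotient.eq_zero_iff_mem.2 hy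
      rw [map_add, h0, zero_add, map_mul]
      exact Ideal.mul_mem_left _ _ (Ideal.mem_span_singleton_self _)
    · rw [Ideal.span_singleton_le_iff_mem]
      exact hff
  let O := Localization.AtPrime p
  have hnO : IsNoetherianRing O := IsLocalization.isNoetherianRing p.primeCompl O inferInstance
  have hdO : IsDomain O := IsLocalization.isDomain_of_le_nonZeroDivisors O
    (Ideal.primeCompl_le_nonZeroDivisors p)
  let χ : B →ₐ[k] O := (IsScalarTower.toAlgHom k (B ⧸ RingHom.ker ψ) O).comp m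
  have hunit1 : ∀ y : p.primeCompl, IsUnit (ψ₁ y) := by
    intro y
    apply IsUnit.mk0
    intro h0
    have h1 : (y : B ⧸ RingHom.ker ψ) = 0 := hψ₁ (by rw [h0, map_zero])
    exact y.2 (by rw [h1]; exact Ideal.zero_mem p)
  have hunit2 : ∀ y : p.primeCompl, IsUnit (ψ₂ y) := fun y => IsUnit.mk0 _ fun h0 => y.2 h0
  let ι : O →ₐ[k] K := IsLocalization.liftAlgHom (M := p.primeCompl) (f := ψ₁) hunit1
  let π : O →ₐ[k] κ := IsLocalization.liftAlgHom (M := p.primeCompl) (f := ψ₂) hunit2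
  have hι : ∀ x, ι (algebraMap (B ⧸ RingHom.ker ψ) O x) = ψ₁ x := fun x =>
    IsLocalization.lift_eq hunit1 x
  have hπ : ∀ x, π (algebraMap (B ⧸ RingHom.ker ψ) O x) = ψ₂ x := fun x =>
    IsLocalization.lift_eq hunit2 x
  have hχ : ∀ b, χ b = algebraMap (B ⧸ RingHom.ker ψ) O (m b) := fun b => rfl
  have hιχ : ∀ b, ι (χ b) = ψ b := fun b => by rw [hχ, hι, e1]
  have hπχ : ∀ b, π (χ b) = ψ' b := fun b => by rw [hχ, hπ, e2]
  have hιinj : Function.Injective ι := by
    rw [injective_iff_map_eq_zero]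
    intro x hx
    obtain ⟨a, s, rfl⟩ := IsLocalization.exists_mk'_eq p.primeCompl x
    have h1 : ι (algebraMap (B ⧸ RingHom.ker ψ) O a) = 0 := by
      rw [← IsLocalization.mk'_spec O a s, map_mul, hx, zero_mul]
    rw [hι] at h1
    have h2 : a = 0 := hψ₁ (by rw [h1, map_zero])
    rw [h2, IsLocalization.mk'_zero]
  have hflχ : FracLike χ := by
    intro c
    obtain ⟨a, s, rfl⟩ := IsLocalization.exists_mk'_eq p.primeCompl c
    obtain ⟨b, rfl⟩ := hm a
    obtain ⟨t, ht⟩ := hm (s : B ⧸ RingHom.ker ψ)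
    refine ⟨b, t, ?_, ?_⟩
    · rw [hχ, ht]
      exact IsLocalization.map_units O s
    · rw [hχ, hχ, ht, IsLocalization.mk'_spec]
  have hflι : FracLike ι := by
    intro c
    obtain ⟨b, s, hs, e⟩ := hψ c
    exact ⟨χ b, χ s, by rw [hιχ]; exact hs, by rw [hιχ, hιχ]; exact e⟩
  have hπs : Function.Surjective π := by
    intro c
    obtain ⟨b, s, hs, e⟩ := hψ' c
    have hsp : m s ∈ p.primeCompl := by
      intro h0
      have h1 : ψ' s = 0 := h0
      rw [h1] at hs
      exact not_isUnit_zero hs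
    refine ⟨IsLocalization.mk' O (m b) ⟨m s, hsp⟩, ?_⟩
    have h1 := congrArg π (IsLocalization.mk'_spec O (m b) ⟨m s, hsp⟩)
    rw [map_mul, hπ, hπ, e2] at h1
    have h2 : ψ₂ (m s) = ψ' s := e2 s
    change π (IsLocalization.mk' O (m b) ⟨m s, hsp⟩) * ψ₂ (m s) = ψ' b at h1
    rw [h2, ← e] at h1
    exact hs.mul_right_cancel h1
  have hmax : maximalIdeal O = Ideal.span {χ f} := by
    have g1 := IsLocalization.AtPrime.map_eq_maximalIdeal p O
    have g2 : p.map (algebraMap (B ⧸ RingHom.ker ψ) O) =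
        (Ideal.span {m f}).map (algebraMap (B ⧸ RingHom.ker ψ) O) :=
      congrArg (Ideal.map (algebraMap (B ⧸ RingHom.ker ψ) O)) hpspan
    rw [Ideal.map_span, Set.image_singleton, ← hχ] at g2
    exact g1.symm.trans g2
  have hkerπ : RingHom.ker π = Ideal.span {χ f} := by
    rw [← hmax]
    apply le_antisymm
    · exact le_maximalIdeal (RingHom.ker_isPrime π).ne_top
    · rw [hmax, Ideal.span_singleton_le_iff_mem, RingHom.mem_ker]
      change π (χ f) = 0
      rw [hπχ, hff]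
  have hχf : χ f ≠ 0 := by
    intro h0
    apply hf
    rw [← hιχ, h0, map_zero]
  have hnf : ¬ IsField O := by
    rw [isField_iff_maximalIdeal_eq, hmax]
    intro h0
    exact hχf (Ideal.span_singleton_eq_bot.1 h0)
  have hpr : (maximalIdeal O).IsPrincipal := ⟨χ f, hmax⟩
  have hdvr : IsDiscreteValuationRing O :=
    ((IsDiscreteValuationRing.TFAE O hnf).out 0 4).2 hpr
  exact ⟨O, inferInstance, hdO, hdvr, inferInstance, χ, ι, π, AlgHom.ext hιχ, AlgHom.ext hπχ,
    hflχ, hιinj, hflι, hπs, hkerπ⟩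

/-- A root in the fraction field of a discrete valuation ring of a square up to a unit. -/
theorem exists_root {O K : Type} [CommRing O] [IsDomain O] [IsDiscreteValuationRing O]
    [Algebra k O] [Field K] [Algebra k K] {ι : O →ₐ[k] K} (hinj : Function.Injective ι)
    (hfl : FracLike ι) {u : O} {c : K} (h : c ^ 2 = ι u) : ∃ c' : O, ι c' = c ∧ c' ^ 2 = u := by
  let _ : Algebra O K := ι.toRingHom.toAlgebra
  have hfr : IsFractionRing O K := by
    refine ⟨fun s => ?_, fun c => ?_, fun {x y} hxy => ?_⟩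
    · apply IsUnit.mk0
      intro h0
      exact nonZeroDivisors.ne_zero s.2 (hinj (h0.trans (map_zero ι).symm))
    · obtain ⟨b, s, hs, e⟩ := hfl c
      refine ⟨(b, ⟨s, mem_nonZeroDivisors_of_ne_zero ?_⟩), e⟩
      rintro rfl
      rw [map_zero] at hs
      exact not_isUnit_zero hs
    · exact ⟨1, by rw [hinj hxy]⟩
  have hint : IsIntegral O c := by
    refine ⟨Polynomial.X ^ 2 - Polynomial.C u, Polynomial.monic_X_pow_sub_C u (by norm_num), ?_⟩
    rw [Polynomial.eval₂_sub, Polynomial.eval₂_X_pow, Polynomial.eval₂_C, h]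
    exact sub_self _
  obtain ⟨c', hc'⟩ := IsIntegrallyClosed.isIntegral_iff.1 hint
  refine ⟨c', hc', hinj ?_⟩
  rw [map_pow, ← h, ← hc']
  rfl

end Pool.Agent.SSF.Br
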