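import Pool.Agent.SSF.Br.IsoTr
import Pool.Agent.SSF.Br.DictA

/-!
# Isomorphisms of schemes: ramification numbers and rational equivalence
-/

namespace Pool.Agent.SSF.Br

open CategoryTheory AlgebraicGeometry

lemma length_map_comp {R S T : Type*} [CommRing R] [CommRing S] [CommRing T] (α : R →+* S)
    (β : S →+* T) (hβ : Function.Bijective β) (m : Ideal R) :
    Module.length T (T ⧸ m.map (β.comp α)) = Module.length S (S ⧸ m.map α) := by
  rw [← length_comap β hβ.2, ← Ideal.map_map, Ideal.comap_map_of_bijective _ hβ]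

/-- Module E3a. -/
theorem ramification_iso {Y Y' X : Scheme.{0}} (e : Y ≅ Y') (f : Y' ⟶ X) (y : Y) :
    ramification (e.hom ≫ f) y = ramification f (e.hom y) := by
  have h1 : ((e.hom ≫ f).stalkMap y).hom =
      (e.hom.stalkMap y).hom.comp (f.stalkMap (e.hom y)).hom :=
    congrArg (fun q : X.presheaf.stalk (f (e.hom y)) ⟶ Y.presheaf.stalk y => q.hom)
      (Scheme.Hom.stalkMap_comp e.hom f y)
  have hbij : Function.Bijective (e.hom.stalkMap y).hom :=
    ConcreteCategory.bijective_of_isIso (e.hom.stalkMap y)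
  have h2 := length_map_comp (f.stalkMap (e.hom y)).hom (e.hom.stalkMap y).hom hbij
    (IsLocalRing.maximalIdeal (X.presheaf.stalk (f (e.hom y))))
  refine (congrArg (fun φ : X.presheaf.stalk (f (e.hom y)) →+* Y.presheaf.stalk y =>
    ((Module.length (Y.presheaf.stalk y) (Y.presheaf.stalk y ⧸
      (IsLocalRing.maximalIdeal (X.presheaf.stalk (f (e.hom y)))).map φ)).toNat : ℤ)) h1).trans ?_
  exact congrArg (fun n : ℕ∞ => (n.toNat : ℤ)) h2

/-- Module E3b. -/
theorem rat_iso {W W' : Scheme.{0}} (e : W ≅ W') (p : ℕ) (c : W' →₀ ℤ) (h : c ∈ Rat W' p) :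
    c.comapDomain e.hom e.hom.isOpenEmbedding.injective.injOn ∈ Rat W p := by
  have hinj : Function.Injective e.hom := e.hom.isOpenEmbedding.injective
  unfold Rat at h
  induction h using AddSubgroup.closure_induction with
  | mem c hc =>
    obtain ⟨y, g, hy, hd⟩ := hc
    obtain ⟨g', hg'⟩ := isDiv_iso e y g c hd
    refine AddSubgroup.subset_closure ⟨e.inv y, g', ?_, hg'⟩
    rw [← hy]
    congr 1
    exact coheight_eq_of_isOpenImmersion e.inv
  | zero =>
    have h0 : (0 : W' →₀ ℤ).comapDomain e.hom e.hom.isOpenEmbedding.injective.injOn = 0 := by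
      ext x
      rfl
    rw [h0]
    exact AddSubgroup.zero_mem _
  | add a b _ _ ha hb =>
    have h0 : (a + b).comapDomain e.hom e.hom.isOpenEmbedding.injective.injOn =
        a.comapDomain e.hom e.hom.isOpenEmbedding.injective.injOn +
          b.comapDomain e.hom e.hom.isOpenEmbedding.injective.injOn := by
      ext x
      rfl
    rw [h0]
    exact AddSubgroup.add_mem _ ha hb
  | neg a _ ha =>
    have h0 : (-a).comapDomain e.hom e.hom.isOpenEmbedding.injective.injOn =
        -a.comapDomain e.hom e.hom.isOpenEmbedding.injective.injOn := by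
      ext x
      rfl
    rw [h0]
    exact AddSubgroup.neg_mem _ ha

end Pool.Agent.SSF.Br
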