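import Pool.Agent.SSF.Br.PI

/-!
# `Proj (L ⊗ A)` is the base change of `Proj A`
-/

namespace Pool.Agent.SSF.Br

open CategoryTheory AlgebraicGeometry MonoidalCategory CartesianMonoidalCategory Limits
open TensorProduct HomogeneousLocalization HomogeneousIdeal Graded

/-- Module E3d: `Proj (L ⊗ A)` is the base change of `Proj A`. -/
theorem exists_baseChangeIso {k A : Type} [Field k] [CommRing A] [Algebra k A]
    (𝒜 : ℕ → Submodule k A) [GradedAlgebra 𝒜] (L : Type) [Field L] [Algebra k L] :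
    ∃ E : Proj (bc 𝒜 L) ≅ (baseChange L (projOver 𝒜)).left,
      E.hom ≫ baseProj L (projOver 𝒜) = Proj.map (inclHom 𝒜 L) (inclHom_irr 𝒜 L) :=
  ⟨(exists_projIso 𝒜).choose L, (exists_projIso 𝒜).choose_spec.1 L⟩

end Pool.Agent.SSF.Br
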