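import Pool.Agent.SSF.Br.ExtD
import Pool.Agent.SSF.Br.Dev
import Pool.Agent.SSF.Br.SchA

/-!
# Lengths and extensions of the base field
-/

namespace Pool.Agent.SSF.Br

open CategoryTheory AlgebraicGeometry MonoidalCategory CartesianMonoidalCategory Limits
open TensorProduct HomogeneousLocalization HomogeneousIdeal Graded

namespace ExtA

section Ring

/-- Length of a quotient, for isomorphic rings. -/
lemma length_map_equiv {R S : Type*} [CommRing R] [CommRing S] (e : R ≃+* S) (I : Ideal R) :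
    Module.length S (S ⧸ I.map (e : R →+* S)) = Module.length R (R ⧸ I) := by
  rw [← length_comap (e : R →+* S) e.surjective,
    Ideal.comap_map_of_bijective (e : R →+* S) e.bijective]

/-- Lengths and flat local homomorphisms. -/
lemma length_flat {R S : Type*} [CommRing R] [CommRing S] [IsLocalRing R] [IsLocalRing S]
    (f : R →+* S) (hl : IsLocalHom f) (hf : f.Flat) (I : Ideal R) :
    Module.length S (S ⧸ I.map f) = Module.length R (R ⧸ I) *
      Module.length S (S ⧸ (IsLocalRing.maximalIdeal R).map f) := by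
  let : Algebra R S := f.toAlgebra
  have : Module.Flat R S := hf
  have : IsLocalHom (algebraMap R S) := hl
  have h1 := (Algebra.TensorProduct.quotIdealMapEquivTensorQuot S I).toLinearEquiv.length_eq
  exact h1.trans (IsLocalRing.length_baseChange R S (R ⧸ I))

end Ring

section Graded

variable {A B σ τ : Type} [CommRing A] [SetLike σ A] [AddSubgroupClass σ A]
  [CommRing B] [SetLike τ B] [AddSubgroupClass τ B] {𝒜 : ℕ → σ} {ℬ : ℕ → τ}
  [GradedRing 𝒜] [GradedRing ℬ] (φ : 𝒜 →+*ᵍ ℬ)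
  (hφ : HomogeneousIdeal.irrelevant ℬ ≤ (HomogeneousIdeal.irrelevant 𝒜).map φ)

/-- The homomorphism of the local rings. -/
noncomputable abbrev locHom (y : ProjectiveSpectrum ℬ) :
    LR 𝒜 (ProjectiveSpectrum.comap φ hφ y) →+* LR ℬ y :=
  localRingHom φ (idl 𝒜 (ProjectiveSpectrum.comap φ hφ y)) (idl ℬ y) rfl

lemma locHom_mk (y : ProjectiveSpectrum ℬ) {n : ℕ} (a b : 𝒜 n)
    (hb : (b : A) ∈ (idl 𝒜 (ProjectiveSpectrum.comap φ hφ y)).primeCompl) :
    locHom φ hφ y (HomogeneousLocalization.mk ⟨n, a, b, hb⟩) =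
      HomogeneousLocalization.mk ⟨n, ⟨φ a, map_mem φ a.2⟩, ⟨φ b, map_mem φ b.2⟩, hb⟩ := rfl

omit hφ in
lemma isLocalHom_aux (I : Ideal A) [I.IsPrime] (J : Ideal B) [J.IsPrime] (h : I = J.comap φ) :
    IsLocalHom (localRingHom φ I J h) := inferInstance

lemma isLocalHom_locHom (y : ProjectiveSpectrum ℬ) : IsLocalHom (locHom φ hφ y) :=
  isLocalHom_aux φ _ _ rfl

omit hφ in
lemma isHomogeneous_map {I : Ideal A} (hI : I.IsHomogeneous 𝒜) : (I.map φ).IsHomogeneous ℬ :=
  (HomogeneousIdeal.map φ ⟨I, hI⟩).isHomogeneous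

lemma locIdeal_self (x : ProjectiveSpectrum 𝒜) :
    locIdeal 𝒜 (idl 𝒜 x) x = IsLocalRing.maximalIdeal (LR 𝒜 x) :=
  IsLocalRing.eq_maximalIdeal (locIdeal_self_isMaximal x)

/-- The stalk maps of `Proj.map`. -/
theorem stalkEq_stalkMap (y : Proj ℬ) (z : (Proj 𝒜).presheaf.stalk (Proj.map φ hφ y)) :
    stalkEq ℬ y ((Proj.map φ hφ).stalkMap y z) =
      locHom φ hφ (toPS ℬ y) (stalkEq 𝒜 (Proj.map φ hφ y) z) := by
  have h1 := Proj.localRingHom_comp_stalkIso φ hφ y
  have h2 : (Proj.map φ hφ).stalkMap y = (Proj.stalkIso 𝒜 (Proj.map φ hφ y)).hom ≫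
      CommRingCat.ofHom (locHom φ hφ (toPS ℬ y)) ≫ (Proj.stalkIso ℬ y).inv := h1.symm
  rw [h2]
  change (Proj.stalkIso ℬ y).hom ((Proj.stalkIso ℬ y).inv (locHom φ hφ (toPS ℬ y)
    ((Proj.stalkIso 𝒜 (Proj.map φ hφ y)).hom z))) = _
  rw [← CommRingCat.comp_apply]
  simp
  rfl

/-- The stalk of the target. -/
noncomputable def tgtEq (y : Proj ℬ) : (Proj 𝒜).presheaf.stalk (Proj.map φ hφ y) ≃+*
    LR 𝒜 (ProjectiveSpectrum.comap φ hφ (toPS ℬ y)) := stalkEq 𝒜 (Proj.map φ hφ y)

lemma stalkMap_comp (y : Proj ℬ) :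
    ((stalkEq ℬ y : _ ≃+* _) : _ →+* _).comp ((Proj.map φ hφ).stalkMap y).hom =
      (locHom φ hφ (toPS ℬ y)).comp (tgtEq φ hφ y : _ →+* _) := by
  refine RingHom.ext fun z => ?_
  exact stalkEq_stalkMap φ hφ y z

/-- The flatness of the homomorphisms of local rings. -/
theorem flat_locHom [Flat (Proj.map φ hφ)] (y : Proj ℬ) : (locHom φ hφ (toPS ℬ y)).Flat := by
  have h1 := Flat.stalkMap (Proj.map φ hφ) y
  have h2 : locHom φ hφ (toPS ℬ y) = (((stalkEq ℬ y : _ ≃+* _) : _ →+* _).comp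
      ((Proj.map φ hφ).stalkMap y).hom).comp ((tgtEq φ hφ y).symm : _ →+* _) := by
    rw [stalkMap_comp]
    ext z
    simp
  rw [h2]
  exact RingHom.Flat.comp (RingHom.Flat.of_bijective (tgtEq φ hφ y).symm.bijective)
    (RingHom.Flat.comp h1 (RingHom.Flat.of_bijective (stalkEq ℬ y).bijective))

/-- The ramification of `Proj.map`. -/
theorem ramification_map (y : Proj ℬ) :
    ramification (Proj.map φ hφ) y = ((Module.length (LR ℬ (toPS ℬ y)) (LR ℬ (toPS ℬ y) ⧸
      (IsLocalRing.maximalIdeal (LR 𝒜 (ProjectiveSpectrum.comap φ hφ (toPS ℬ y)))).map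
        (locHom φ hφ (toPS ℬ y)))).toNat : ℤ) := by
  unfold ramification
  rw [← length_map_equiv (stalkEq ℬ y), Ideal.map_map, stalkMap_comp, ← Ideal.map_map]
  have h1 : (IsLocalRing.maximalIdeal ((Proj 𝒜).presheaf.stalk (Proj.map φ hφ y))).map
      (tgtEq φ hφ y : _ →+* _) =
      IsLocalRing.maximalIdeal (LR 𝒜 (ProjectiveSpectrum.comap φ hφ (toPS ℬ y))) := by
    refine IsLocalRing.eq_maximalIdeal ?_
    exact Ideal.map_isMaximal_of_equiv (tgtEq φ hφ y)
  rw [h1]

end Graded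

section Base

variable {k A : Type} [Field k] [CommRing A] [Algebra k A] (𝒜 : ℕ → Submodule k A)
  [GradedAlgebra 𝒜] (B : Type) [CommRing B] [Algebra k B]

omit [GradedAlgebra 𝒜] in
/-- Elements of an extended ideal. -/
lemma mem_span_of_mem_inclI (I : Ideal A) {w : B ⊗[k] A} (hw : w ∈ inclI k B I) :
    w ∈ Submodule.span B ((Algebra.TensorProduct.includeRight : A →ₐ[k] B ⊗[k] A) ''
      (I : Set A)) := by
  set N := Submodule.span B ((Algebra.TensorProduct.includeRight : A →ₐ[k] B ⊗[k] A) ''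
      (I : Set A)) with hN
  have hmul : ∀ (c : B ⊗[k] A), ∀ x ∈ N, c * x ∈ N := by
    intro c x hx
    induction hx using Submodule.span_induction with
    | mem x hx =>
      obtain ⟨q, hq, rfl⟩ := hx
      induction c using TensorProduct.induction_on with
      | zero => rw [zero_mul]; exact N.zero_mem
      | add u v hu hv => rw [add_mul]; exact N.add_mem hu hv
      | tmul b a =>
        have e : b ⊗ₜ[k] a * (Algebra.TensorProduct.includeRight : A →ₐ[k] B ⊗[k] A) q =
            b • (Algebra.TensorProduct.includeRight : A →ₐ[k] B ⊗[k] A) (a * q) := by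
          rw [Algebra.TensorProduct.includeRight_apply, Algebra.TensorProduct.tmul_mul_tmul,
            mul_one, Algebra.TensorProduct.includeRight_apply, TensorProduct.smul_tmul',
            smul_eq_mul, mul_one]
        rw [e]
        exact N.smul_mem _ (Submodule.subset_span ⟨_, I.mul_mem_left _ hq, rfl⟩)
    | zero => rw [mul_zero]; exact N.zero_mem
    | add u v _ _ hu hv => rw [mul_add]; exact N.add_mem hu hv
    | smul b x _ hx =>
      rw [mul_smul_comm]
      exact N.smul_mem _ hx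
  induction hw using Submodule.span_induction with
  | mem x hx => exact Submodule.subset_span hx
  | zero => exact N.zero_mem
  | add u v _ _ hu hv => exact N.add_mem hu hv
  | smul c x _ hx => exact hmul c x hx

/-- Components of elements of an extended ideal. -/
lemma decompose_mem_span {I : Ideal A} (hI : I.IsHomogeneous 𝒜) {w : B ⊗[k] A}
    (hw : w ∈ inclI k B I) (n : ℕ) :
    (DirectSum.decompose (bc 𝒜 B) w n : B ⊗[k] A) ∈
      Submodule.span B ((Algebra.TensorProduct.includeRight : A →ₐ[k] B ⊗[k] A) ''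
        {q | q ∈ I ∧ q ∈ 𝒜 n}) := by
  have h1 := mem_span_of_mem_inclI B I hw
  clear hw
  induction h1 using Submodule.span_induction with
  | mem x hx =>
    obtain ⟨q, hq, rfl⟩ := hx
    have h2 : ((inclHom 𝒜 B) (DirectSum.decompose 𝒜 q n : A)) =
        (DirectSum.decompose (bc 𝒜 B) ((inclHom 𝒜 B) q) n : B ⊗[k] A) :=
      (inclHom 𝒜 B).map_directSumDecompose ..
    refine Submodule.subset_span ⟨(DirectSum.decompose 𝒜 q n : A), ⟨hI n hq,
      SetLike.coe_mem _⟩, h2⟩
  | zero =>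
    rw [DirectSum.decompose_zero]
    exact Submodule.zero_mem _
  | add u v _ _ hu hv =>
    rw [DirectSum.decompose_add]
    exact Submodule.add_mem _ hu hv
  | smul b x _ hx =>
    rw [DirectSum.decompose_smul]
    exact Submodule.smul_mem _ b hx

variable {𝒜} in
/-- A homogeneous element of positive degree outside a point of `Proj`. -/
lemma exists_pos (x : ProjectiveSpectrum 𝒜) : ∃ e, 0 < e ∧ ∃ s ∈ 𝒜 e, s ∉ idl 𝒜 x := by
  by_contra hcon
  push Not at hcon
  apply x.not_irrelevant_le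
  rw [HomogeneousIdeal.irrelevant_le]
  intro i hi z hz
  exact hcon i hi z hz

variable {B}

/-- The homomorphism of the local rings. -/
noncomputable def inclLoc (y : ProjectiveSpectrum (bc 𝒜 B)) :
    LR 𝒜 (inclPt 𝒜 B y) →+* LR (bc 𝒜 B) y := locHom (inclHom 𝒜 B) (inclHom_irr 𝒜 B) y

lemma inclLoc_mk (y : ProjectiveSpectrum (bc 𝒜 B)) {n : ℕ} (a b : 𝒜 n)
    (hb : (b : A) ∈ (idl 𝒜 (inclPt 𝒜 B y)).primeCompl) :
    inclLoc 𝒜 y (HomogeneousLocalization.mk ⟨n, a, b, hb⟩) =
      HomogeneousLocalization.mk ⟨n, ⟨inclHom 𝒜 B a, map_mem _ a.2⟩,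
        ⟨inclHom 𝒜 B b, map_mem _ b.2⟩, hb⟩ := rfl

/-- The localization of an extended ideal. -/
theorem locIdeal_inclI (y : ProjectiveSpectrum (bc 𝒜 B)) {I : Ideal A}
    (hI : I.IsHomogeneous 𝒜) :
    locIdeal (bc 𝒜 B) (inclI k B I) y = (locIdeal 𝒜 I (inclPt 𝒜 B y)).map (inclLoc 𝒜 y) := by
  classical
  have hIB : (inclI k B I).IsHomogeneous (bc 𝒜 B) := isHomogeneous_map (inclHom 𝒜 B) hI
  apply le_antisymm
  · set J := (locIdeal 𝒜 I (inclPt 𝒜 B y)).map (inclLoc 𝒜 y) with hJ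
    intro z hz
    obtain ⟨⟨n, ⟨c, hc⟩, ⟨d, hd⟩, hm⟩, rfl⟩ := HomogeneousLocalization.mk_surjective z
    obtain ⟨j, u, hu, huy, huc⟩ := (mem_locIdeal_iff hIB y _).1 hz
    obtain ⟨e, he, s, hs, hsx⟩ := exists_pos (inclPt 𝒜 B y)
    obtain ⟨e, rfl⟩ : ∃ e', e = e' + 1 := ⟨e - 1, by omega⟩
    set M := (e + 1) * (j + n) with hM
    have hud : u * d ∉ idl (bc 𝒜 B) y := fun h => (y.isPrime.mem_or_mem h).elim huy hm
    have hW : u * c * (u * d) ^ e ∈ bc 𝒜 B M := by
      have h1 := SetLike.mul_mem_graded (SetLike.mul_mem_graded hu hc)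
        (SetLike.pow_mem_graded e (SetLike.mul_mem_graded hu hd))
      have h2 : j + n + e • (j + n) = M := by rw [hM, smul_eq_mul]; ring
      rwa [h2] at h1
    have hS : (u * d) ^ (e + 1) ∈ bc 𝒜 B M := by
      have h1 := SetLike.pow_mem_graded (e + 1) (SetLike.mul_mem_graded hu hd)
      rwa [smul_eq_mul] at h1
    have hSy : (u * d) ^ (e + 1) ∈ (idl (bc 𝒜 B) y).primeCompl :=
      fun h => hud (y.isPrime.mem_of_pow_mem _ h)
    have hT : s ^ (j + n) ∈ 𝒜 M := by
      have h1 := SetLike.pow_mem_graded (j + n) hs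
      rwa [smul_eq_mul, mul_comm] at h1
    have hTx : s ^ (j + n) ∈ (idl 𝒜 (inclPt 𝒜 B y)).primeCompl :=
      fun h => hsx ((inclPt 𝒜 B y).isPrime.mem_of_pow_mem _ h)
    have hWI : u * c * (u * d) ^ e ∈ inclI k B I := Ideal.mul_mem_right _ _ huc
    have e1 : (HomogeneousLocalization.mk ⟨n, ⟨c, hc⟩, ⟨d, hd⟩, hm⟩ : LR (bc 𝒜 B) y) =
        HomogeneousLocalization.mk ⟨M, ⟨_, hW⟩, ⟨_, hS⟩, hSy⟩ := by
      apply HomogeneousLocalization.val_injective
      rw [HomogeneousLocalization.val_mk, HomogeneousLocalization.val_mk,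
        Localization.mk_eq_mk_iff, Localization.r_iff_exists]
      refine ⟨1, ?_⟩
      simp only [OneMemClass.coe_one, one_mul]
      ring
    rw [e1]
    have h2 := decompose_mem_span 𝒜 B hI hWI M
    rw [DirectSum.decompose_of_mem_same _ hW] at h2
    have hle : Submodule.span B ((Algebra.TensorProduct.includeRight : A →ₐ[k] B ⊗[k] A) ''
        {q | q ∈ I ∧ q ∈ 𝒜 M}) ≤ bc 𝒜 B M := by
      rw [Submodule.span_le]
      rintro _ ⟨q, hq, rfl⟩
      exact Submodule.tmul_mem_baseChange_of_mem _ hq.2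
    have key : ∀ (w : B ⊗[k] A) (hw : w ∈ Submodule.span B
        ((Algebra.TensorProduct.includeRight : A →ₐ[k] B ⊗[k] A) '' {q | q ∈ I ∧ q ∈ 𝒜 M})),
        (HomogeneousLocalization.mk ⟨M, ⟨w, hle hw⟩, ⟨_, hS⟩, hSy⟩ : LR (bc 𝒜 B) y) ∈ J := by
      intro w hw
      refine Submodule.span_induction (p := fun w hw =>
        (HomogeneousLocalization.mk ⟨M, ⟨w, hle hw⟩, ⟨_, hS⟩, hSy⟩ : LR (bc 𝒜 B) y) ∈ J)
        ?_ ?_ ?_ ?_ hw
      · rintro _ ⟨q, ⟨hqI, hq⟩, rfl⟩
        have hx : (HomogeneousLocalization.mk ⟨M, ⟨q, hq⟩, ⟨_, hT⟩, hTx⟩ :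
            LR 𝒜 (inclPt 𝒜 B y)) ∈ locIdeal 𝒜 I (inclPt 𝒜 B y) := by
          rw [mem_locIdeal_iff hI]
          refine ⟨0, 1, SetLike.one_mem_graded 𝒜, ?_, by simpa using hqI⟩
          exact (Ideal.ne_top_iff_one _).1 (inclPt 𝒜 B y).isPrime.ne_top
        have hx' := Ideal.mem_map_of_mem (inclLoc 𝒜 y) hx
        have e2 : (HomogeneousLocalization.mk ⟨M,
            ⟨(Algebra.TensorProduct.includeRight : A →ₐ[k] B ⊗[k] A) q,
              hle (Submodule.subset_span ⟨q, ⟨hqI, hq⟩, rfl⟩)⟩, ⟨_, hS⟩, hSy⟩ :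
              LR (bc 𝒜 B) y) =
            HomogeneousLocalization.mk ⟨M, ⟨inclHom 𝒜 B (s ^ (j + n)), map_mem _ hT⟩,
              ⟨_, hS⟩, hSy⟩ *
            inclLoc 𝒜 y (HomogeneousLocalization.mk ⟨M, ⟨q, hq⟩, ⟨_, hT⟩, hTx⟩) := by
          apply HomogeneousLocalization.val_injective
          rw [HomogeneousLocalization.val_mul]
          change Localization.mk _ _ = Localization.mk _ _ * Localization.mk (inclHom 𝒜 B q)
            ⟨inclHom 𝒜 B (s ^ (j + n)), hTx⟩
          rw [Localization.mk_mul, Localization.mk_eq_mk_iff, Localization.r_iff_exists]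
          refine ⟨1, ?_⟩
          simp only [OneMemClass.coe_one, one_mul, Submonoid.coe_mul]
          change ((u * d) ^ (e + 1) * inclHom 𝒜 B (s ^ (j + n))) * inclHom 𝒜 B q =
            (u * d) ^ (e + 1) * (inclHom 𝒜 B (s ^ (j + n)) * inclHom 𝒜 B q)
          ring
        rw [e2]
        exact J.mul_mem_left _ hx'
      · have e2 : (HomogeneousLocalization.mk ⟨M, ⟨0, hle (Submodule.zero_mem _)⟩, ⟨_, hS⟩,
            hSy⟩ : LR (bc 𝒜 B) y) = 0 := by
          apply HomogeneousLocalization.val_injective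
          rw [HomogeneousLocalization.val_mk, HomogeneousLocalization.val_zero,
            Localization.mk_zero]
        rw [e2]
        exact J.zero_mem
      · intro a b ha hb ha' hb'
        have e2 : (HomogeneousLocalization.mk ⟨M, ⟨a + b, hle (Submodule.add_mem _ ha hb)⟩,
            ⟨_, hS⟩, hSy⟩ : LR (bc 𝒜 B) y) =
            HomogeneousLocalization.mk ⟨M, ⟨a, hle ha⟩, ⟨_, hS⟩, hSy⟩ +
            HomogeneousLocalization.mk ⟨M, ⟨b, hle hb⟩, ⟨_, hS⟩, hSy⟩ := by
          apply HomogeneousLocalization.val_injective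
          rw [HomogeneousLocalization.val_add, HomogeneousLocalization.val_mk,
            HomogeneousLocalization.val_mk, HomogeneousLocalization.val_mk,
            Localization.add_mk_self]
        rw [e2]
        exact J.add_mem ha' hb'
      · intro b x hx hx'
        have e2 : (HomogeneousLocalization.mk ⟨M, ⟨b • x, hle (Submodule.smul_mem _ b hx)⟩,
            ⟨_, hS⟩, hSy⟩ : LR (bc 𝒜 B) y) = baseTo 𝒜 y b *
            HomogeneousLocalization.mk ⟨M, ⟨x, hle hx⟩, ⟨_, hS⟩, hSy⟩ := by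
          apply HomogeneousLocalization.val_injective
          rw [HomogeneousLocalization.val_mul, HomogeneousLocalization.val_mk,
            HomogeneousLocalization.val_mk]
          change _ = Localization.mk (algebraMap B (B ⊗[k] A) b) 1 * _
          rw [Localization.mk_mul, one_mul]
          exact congrArg (fun w => Localization.mk w (⟨_, hSy⟩ : (idl (bc 𝒜 B) y).primeCompl))
            (Algebra.smul_def b x)
        rw [e2]
        exact J.mul_mem_left _ hx'
    exact key _ h2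
  · rw [Ideal.map_le_iff_le_comap]
    intro z hz
    obtain ⟨⟨n, a, b, hb⟩, rfl⟩ := HomogeneousLocalization.mk_surjective z
    obtain ⟨j, u, hu, huy, hua⟩ := (mem_locIdeal_iff hI _ _).1 hz
    rw [Ideal.mem_comap, inclLoc_mk, mem_locIdeal_iff hIB]
    refine ⟨j, inclHom 𝒜 B u, map_mem _ hu, huy, ?_⟩
    have := Ideal.mem_map_of_mem (inclHom 𝒜 B) hua
    rwa [map_mul] at this

end Base

section Field

variable {k A : Type} [Field k] [CommRing A] [Algebra k A] (𝒜 : ℕ → Submodule k A)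
  [GradedAlgebra 𝒜]

/-- The projection of a base change is flat. -/
theorem flat_incl (B : Type) [CommRing B] [Algebra k B] :
    Flat (Proj.map (inclHom 𝒜 B) (inclHom_irr 𝒜 B)) := by
  obtain ⟨e, h1, -, -⟩ := exists_projIso 𝒜
  rw [← h1 B]
  have h2 : Flat (Spec.map (CommRingCat.ofHom (algebraMap k B))) := by
    rw [Flat.SpecMap_iff, CommRingCat.hom_ofHom, RingHom.flat_algebraMap_iff]
    infer_instance
  have h3 : Flat (fst (projOver 𝒜) (specOver k B)).left := by
    have h4 : (fst (projOver 𝒜) (specOver k B)).left =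
      pullback.fst (projOver 𝒜).hom (specOver k B).hom := rfl
    rw [h4]
    have : Flat (specOver k B).hom := h2
    infer_instance
  have h5 : Flat (e B).hom := inferInstance
  exact @Flat.comp _ _ _ _ _ h5 h3

end Field

end ExtA

section Main

variable {k A : Type} [Field k] [CommRing A] [Algebra k A] (𝒜 : ℕ → Submodule k A)
  [GradedAlgebra 𝒜]

/-- Module E2d: lengths and extensions of the base field. -/
theorem len_inclI' (L : Type) [Field L] [Algebra k L]
    (P : ProjectiveSpectrum (bc 𝒜 L)) (I : Ideal A) (hI : I.IsHomogeneous 𝒜) :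
    len (bc 𝒜 L) (inclI k L I) P =
      len (bc 𝒜 L) (inclI k L (idl 𝒜 (inclPt 𝒜 L P))) P * len 𝒜 I (inclPt 𝒜 L P) := by
  have h1 := ExtA.flat_incl 𝒜 L
  have h2 := ExtA.flat_locHom (inclHom 𝒜 L) (inclHom_irr 𝒜 L) P
  unfold len
  rw [ExtA.locIdeal_inclI 𝒜 P hI, ExtA.locIdeal_inclI 𝒜 P
    (inclPt 𝒜 L P).asHomogeneousIdeal.isHomogeneous, ExtA.locIdeal_self, mul_comm]
  exact ExtA.length_flat _ (ExtA.isLocalHom_locHom _ _ _) h2 _

/-- Module E2d: lengths and extensions of the base field. -/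
theorem len_inclI (_ : Geom 𝒜) (L : Type) [Field L] [Algebra k L]
    (P : ProjectiveSpectrum (bc 𝒜 L)) (I : Ideal A) (hI : I.IsHomogeneous 𝒜) :
    len (bc 𝒜 L) (inclI k L I) P =
      len (bc 𝒜 L) (inclI k L (idl 𝒜 (inclPt 𝒜 L P))) P * len 𝒜 I (inclPt 𝒜 L P) :=
  len_inclI' 𝒜 L P I hI

/-- Module E2e: the ramification number in terms of lengths. -/
theorem ramification_incl (L : Type) [Field L] [Algebra k L] (P : ProjectiveSpectrum (bc 𝒜 L)) :
    ramification (Proj.map (inclHom 𝒜 L) (inclHom_irr 𝒜 L)) P =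
      ((len (bc 𝒜 L) (inclI k L (idl 𝒜 (inclPt 𝒜 L P))) P).toNat : ℤ) := by
  refine (ExtA.ramification_map (inclHom 𝒜 L) (inclHom_irr 𝒜 L) P).trans ?_
  unfold len
  rw [ExtA.locIdeal_inclI 𝒜 P (inclPt 𝒜 L P).asHomogeneousIdeal.isHomogeneous,
    ExtA.locIdeal_self]
  rfl

end Main

end Pool.Agent.SSF.Br
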