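import Pool.Agent.SSF.Br.ExtD

/-!
# Heights of points of `Proj` and algebraic extensions of the base field
-/

namespace Pool.Agent.SSF.Br

open TensorProduct HomogeneousLocalization HomogeneousIdeal Graded

namespace ExtH

variable {k A : Type} [Field k] [CommRing A] [Algebra k A] (𝒜 : ℕ → Submodule k A)
  [GradedAlgebra 𝒜] (L : Type) [Field L] [Algebra k L]

/-- The isomorphism exchanging the factors. -/
noncomputable def sw (k A L : Type) [Field k] [CommRing A] [Algebra k A] [Field L]
    [Algebra k L] : A ⊗[k] L ≃+* L ⊗[k] A :=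
  (Algebra.TensorProduct.comm k A L).toRingEquiv

lemma sw_algebraMap (k : Type) {A : Type} (L : Type) [Field k] [CommRing A] [Algebra k A]
    [Field L] [Algebra k L] (a : A) :
    sw k A L (algebraMap A (A ⊗[k] L) a) =
      (Algebra.TensorProduct.includeRight : A →ₐ[k] L ⊗[k] A) a := rfl

lemma comap_sw (I : Ideal (L ⊗[k] A)) :
    (I.comap (sw k A L)).comap (algebraMap A (A ⊗[k] L)) =
      I.comap (Algebra.TensorProduct.includeRight : A →ₐ[k] L ⊗[k] A) := rfl

lemma idl_inclPt' (P : ProjectiveSpectrum (bc 𝒜 L)) :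
    idl 𝒜 (inclPt 𝒜 L P) = (idl (bc 𝒜 L) P).comap
      (Algebra.TensorProduct.includeRight : A →ₐ[k] L ⊗[k] A) := rfl

theorem inclPt_strictMono [Algebra.IsAlgebraic k L] : StrictMono (inclPt 𝒜 L) := by
  intro P' P h
  have h1 : (idl (bc 𝒜 L) P').comap (sw k A L) < (idl (bc 𝒜 L) P).comap (sw k A L) := by
    have h2 : idl (bc 𝒜 L) P' < idl (bc 𝒜 L) P := h
    refine lt_of_le_of_ne (Ideal.comap_mono h2.le) ?_
    intro h3
    apply h2.ne
    have h4 := congrArg (Ideal.map (sw k A L)) h3
    rwa [Ideal.map_comap_of_surjective _ (sw k A L).surjective,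
      Ideal.map_comap_of_surjective _ (sw k A L).surjective] at h4
  have hp : ((idl (bc 𝒜 L) P').comap (sw k A L)).IsPrime := by
    have := P'.isPrime
    exact Ideal.comap_isPrime (sw k A L) _
  have h5 := Ideal.IsIntegral.comap_lt_comap (R := A) h1
  exact h5

/-- Going down in `Proj`. -/
theorem exists_lt (P : ProjectiveSpectrum (bc 𝒜 L)) (x : ProjectiveSpectrum 𝒜)
    (hx : x < inclPt 𝒜 L P) : ∃ P', P' < P ∧ inclPt 𝒜 L P' = x := by
  classical
  have hp : ((idl (bc 𝒜 L) P).comap (sw k A L)).IsPrime := by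
    have := P.isPrime
    exact Ideal.comap_isPrime (sw k A L) _
  have hxp : (idl 𝒜 x).IsPrime := x.isPrime
  have h1 : idl 𝒜 x < ((idl (bc 𝒜 L) P).comap (sw k A L)).under A := hx
  obtain ⟨Q, hQP, hQ, hQx⟩ := Algebra.HasGoingDown.exists_ideal_le_liesOver_of_lt _ h1
  have hQ' : (Q.comap (sw k A L).symm).IsPrime := Ideal.comap_isPrime _ _
  have hle : Q.comap (sw k A L).symm ≤ idl (bc 𝒜 L) P := by
    intro z hz
    have h2 : (sw k A L).symm z ∈ (idl (bc 𝒜 L) P).comap (sw k A L) := hQP hz
    rw [Ideal.mem_comap] at h2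
    rwa [RingEquiv.apply_symm_apply] at h2
  set C := (Q.comap (sw k A L).symm).homogeneousCore (bc 𝒜 L) with hC
  have hCle : C.toIdeal ≤ Q.comap (sw k A L).symm := Ideal.toIdeal_homogeneousCore_le _ _
  have hCp : C.toIdeal.IsPrime := hQ'.homogeneousCore
  have hirr : ¬ HomogeneousIdeal.irrelevant (bc 𝒜 L) ≤ C := by
    intro h
    apply P.not_irrelevant_le
    intro z hz
    exact hle (hCle (h hz))
  have hmem : ∀ a : A, a ∈ idl 𝒜 x ↔ algebraMap A (A ⊗[k] L) a ∈ Q := by
    intro a
    rw [hQx.over, Ideal.mem_comap]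
  have hincl : ∀ a : A, (Algebra.TensorProduct.includeRight : A →ₐ[k] L ⊗[k] A) a ∈
      Q.comap (sw k A L).symm ↔ a ∈ idl 𝒜 x := by
    intro a
    rw [hmem, Ideal.mem_comap, ← sw_algebraMap, RingEquiv.symm_apply_apply]
  have hfx : inclPt 𝒜 L ⟨C, hCp, hirr⟩ = x := by
    apply ProjectiveSpectrum.ext
    apply HomogeneousIdeal.toIdeal_injective
    ext a
    change (Algebra.TensorProduct.includeRight : A →ₐ[k] L ⊗[k] A) a ∈ C.toIdeal ↔ a ∈ idl 𝒜 x
    constructor
    · intro h
      exact (hincl a).1 (hCle h)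
    · intro h
      rw [← DirectSum.sum_support_decompose 𝒜 a, map_sum]
      refine Ideal.sum_mem _ fun i _ => ?_
      refine Ideal.mem_homogeneousCore_of_homogeneous_of_mem
        ⟨i, Submodule.tmul_mem_baseChange_of_mem _ (SetLike.coe_mem _)⟩ ?_
      exact (hincl _).2 (x.asHomogeneousIdeal.isHomogeneous i h)
  refine ⟨⟨C, hCp, hirr⟩, ?_, hfx⟩
  have hle' : (⟨C, hCp, hirr⟩ : ProjectiveSpectrum (bc 𝒜 L)) ≤ P := hCle.trans hle
  refine lt_of_le_of_ne hle' ?_
  intro h
  rw [h] at hfx
  exact hx.ne hfx.symm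

end ExtH

variable {k A : Type} [Field k] [CommRing A] [Algebra k A] (𝒜 : ℕ → Submodule k A)
  [GradedAlgebra 𝒜]

/-- Module E2c: heights and algebraic extensions of the base field. -/
theorem height_inclPt (L : Type) [Field L] [Algebra k L] [Algebra.IsAlgebraic k L]
    (P : ProjectiveSpectrum (bc 𝒜 L)) :
    Order.height (inclPt 𝒜 L P) = Order.height P := by
  apply le_antisymm
  · have key : ∀ (n : ℕ) (P : ProjectiveSpectrum (bc 𝒜 L)),
        (n : ℕ∞) ≤ Order.height (inclPt 𝒜 L P) → (n : ℕ∞) ≤ Order.height P := by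
      intro n
      induction n with
      | zero => intro P _; simp
      | succ n ih =>
        intro P hP
        obtain ⟨p, hp, hlen⟩ := Order.exists_series_of_le_height (inclPt 𝒜 L P) hP
        have h0 : p.length ≠ 0 := by omega
        have h1 : p.eraseLast.last < inclPt 𝒜 L P := by
          rw [← hp]
          exact p.eraseLast_last_rel_last h0
        obtain ⟨P', hP', e⟩ := ExtH.exists_lt 𝒜 L P _ h1
        have h2 : (n : ℕ∞) ≤ Order.height (inclPt 𝒜 L P') := by
          rw [e]
          have h3 := Order.length_le_height_last (p := p.eraseLast)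
          have h4 : p.eraseLast.length = n := by
            rw [RelSeries.eraseLast_length, hlen]
            rfl
          rwa [h4] at h3
        obtain ⟨q, hq, hqlen⟩ := Order.exists_series_of_le_height P' (ih P' h2)
        have h5 : q.last < P := by rw [hq]; exact hP'
        have h6 := Order.length_le_height_last (p := q.snoc P h5)
        rw [RelSeries.last_snoc, RelSeries.snoc_length, hqlen] at h6
        exact_mod_cast h6
    refine ENat.forall_natCast_le_iff_le.1 fun n hn => key n P hn
  · exact Order.height_le_height_apply_of_strictMono _ (ExtH.inclPt_strictMono 𝒜 L) P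

end Pool.Agent.SSF.Br
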