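import Pool.Agent.SSF.Br.PI
import Pool.Agent.SSF.Br.Dat

/-!
# Local rings of `Proj (B ⊗ A)`: Noetherian, degree one elements, functions from the base
-/

namespace Pool.Agent.SSF.Br

open CategoryTheory AlgebraicGeometry MonoidalCategory CartesianMonoidalCategory Limits
open TensorProduct HomogeneousLocalization HomogeneousIdeal Graded

section Noeth

variable {σ A : Type} [CommRing A] [SetLike σ A] [AddSubgroupClass σ A] (𝒜 : ℕ → σ)
  [GradedRing 𝒜]

/-- The fraction `a / s ^ i`. -/
noncomputable def sfrac (P : ProjectiveSpectrum 𝒜) {s : A} (hs : s ∈ 𝒜 1)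
    (hsP : s ∉ idl 𝒜 P) (i : ℕ) (a : A) (ha : a ∈ 𝒜 i) : LR 𝒜 P :=
  HomogeneousLocalization.mk ⟨i, ⟨a, ha⟩, ⟨s ^ i, by
    simpa using SetLike.pow_mem_graded i hs⟩,
    (idl 𝒜 P).primeCompl.pow_mem hsP i⟩

theorem isNoetherianRing_LR [IsNoetherianRing A] (P : ProjectiveSpectrum 𝒜) {s : A}
    (hs : s ∈ 𝒜 1) (hsP : s ∉ idl 𝒜 P) : IsNoetherianRing (LR 𝒜 P) := by
  classical
  refine (isNoetherianRing_iff_ideal_fg _).2 fun I => ?_
  set T : Set A := {a | ∃ (i : ℕ) (ha : a ∈ 𝒜 i), sfrac 𝒜 P hs hsP i a ha ∈ I} with hT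
  obtain ⟨F, hF, hspan⟩ := (Submodule.fg_span_iff_fg_span_finset_subset T).1
    (IsNoetherian.noetherian (Ideal.span T))
  have hF' : ∀ a : F, ∃ (i : ℕ) (ha : (a : A) ∈ 𝒜 i), sfrac 𝒜 P hs hsP i a ha ∈ I :=
    fun a => hF a.2
  choose d hd hI using hF'
  refine ⟨Finset.univ.image fun a : F => sfrac 𝒜 P hs hsP (d a) a (hd a), ?_⟩
  apply le_antisymm
  · refine Ideal.span_le.2 ?_
    intro z hz
    simp only [Finset.coe_image, Finset.coe_univ, Set.image_univ, Set.mem_range] at hz
    obtain ⟨a, rfl⟩ := hz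
    exact hI a
  · intro z hz
    obtain ⟨⟨i, ⟨u, hu⟩, ⟨v, hv⟩, hvP⟩, rfl⟩ := HomogeneousLocalization.mk_surjective z
    have hw : sfrac 𝒜 P hs hsP i u hu ∈ I := by
      have : sfrac 𝒜 P hs hsP i u hu = HomogeneousLocalization.mk ⟨i, ⟨u, hu⟩, ⟨v, hv⟩, hvP⟩ *
          sfrac 𝒜 P hs hsP i v hv := by
        apply HomogeneousLocalization.val_injective
        rw [HomogeneousLocalization.val_mul]
        simp only [sfrac, HomogeneousLocalization.val_mk]
        rw [Localization.mk_mul, Localization.mk_eq_mk_iff, Localization.r_iff_exists]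
        refine ⟨1, ?_⟩
        simp only [OneMemClass.coe_one, Submonoid.coe_mul, one_mul]
        ring
      rw [this]
      exact I.mul_mem_right _ hz
    have huT : u ∈ Ideal.span (F : Set A) := by
      have : u ∈ T := ⟨i, hu, hw⟩
      have h2 : u ∈ Submodule.span A T := Submodule.subset_span this
      rw [hspan] at h2
      exact h2
    rw [Ideal.span, Submodule.mem_span_finset] at huT
    obtain ⟨c, -, hc⟩ := huT
    -- homogeneous coefficients
    set c' : F → A := fun a => if d a ≤ i then (DirectSum.decompose 𝒜 (c a) (i - d a) : A) else 0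
      with hc'
    have hc'm : ∀ a : F, c' a * s ^ (d a) ∈ 𝒜 i := by
      intro a
      by_cases h : d a ≤ i
      · have h1 : c' a ∈ 𝒜 (i - d a) := by
          simp only [hc', if_pos h]
          exact SetLike.coe_mem _
        have h2 := SetLike.mul_mem_graded h1 (SetLike.pow_mem_graded (d a) hs)
        have e : i - d a + d a • 1 = i := by simp [Nat.sub_add_cancel h]
        rwa [e] at h2
      · have h1 : c' a = 0 := by simp only [hc', if_neg h]
        rw [h1, zero_mul]
        exact zero_mem _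
    have hsum : u = ∑ a : F, c' a * a := by
      have h1 : (DirectSum.decompose 𝒜 u i : A) = u := DirectSum.decompose_of_mem_same 𝒜 hu
      rw [← h1, ← hc, DirectSum.decompose_sum, DFinsupp.finsetSum_apply,
        AddSubmonoidClass.coe_finsetSum, ← Finset.sum_coe_sort]
      refine Finset.sum_congr rfl fun a _ => ?_
      rw [smul_eq_mul]
      by_cases h : d a ≤ i
      · simp only [hc', if_pos h]
        have h2 := DirectSum.coe_decompose_mul_of_right_mem_of_le 𝒜 (a := c a) (hd a) h
        exact h2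
      · simp only [hc', if_neg h, zero_mul]
        exact DirectSum.coe_decompose_mul_of_right_mem_of_not_le 𝒜 (hd a) h
    have key : (HomogeneousLocalization.mk ⟨i, ⟨u, hu⟩, ⟨v, hv⟩, hvP⟩ : LR 𝒜 P) =
        ∑ a : F, HomogeneousLocalization.mk ⟨i, ⟨c' a * s ^ (d a), hc'm a⟩, ⟨v, hv⟩, hvP⟩ *
          sfrac 𝒜 P hs hsP (d a) a (hd a) := by
      apply HomogeneousLocalization.val_injective
      rw [← HomogeneousLocalization.algebraMap_apply, ← HomogeneousLocalization.algebraMap_apply,
        map_sum]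
      have e1 : ∀ a : F, algebraMap (LR 𝒜 P) (Localization.AtPrime (idl 𝒜 P))
          (HomogeneousLocalization.mk ⟨i, ⟨c' a * s ^ (d a), hc'm a⟩, ⟨v, hv⟩, hvP⟩ *
            sfrac 𝒜 P hs hsP (d a) a (hd a)) =
          Localization.mk (c' a * a) ⟨v, hvP⟩ := by
        intro a
        rw [map_mul]
        simp only [HomogeneousLocalization.algebraMap_apply, sfrac,
          HomogeneousLocalization.val_mk]
        rw [Localization.mk_mul, Localization.mk_eq_mk_iff, Localization.r_iff_exists]
        refine ⟨1, ?_⟩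
        simp only [OneMemClass.coe_one, Submonoid.coe_mul, one_mul]
        ring
      refine Eq.trans ?_ (Finset.sum_congr rfl fun a _ => (e1 a).symm)
      rw [HomogeneousLocalization.algebraMap_apply, HomogeneousLocalization.val_mk]
      have e2 : ∀ w : A, (Localization.mk w ⟨v, hvP⟩ : Localization.AtPrime (idl 𝒜 P)) =
          algebraMap A _ w * Localization.mk 1 ⟨v, hvP⟩ := by
        intro w
        rw [← Localization.mk_one_eq_algebraMap, Localization.mk_mul]
        simp
      rw [e2]
      simp only [e2 (c' _ * _)]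
      rw [← Finset.sum_mul, ← map_sum, ← hsum]
    rw [key]
    refine Ideal.sum_mem _ fun a _ => Ideal.mul_mem_left _ _ (Ideal.subset_span ?_)
    simp

end Noeth

section Base

variable {k A : Type} [Field k] [CommRing A] [Algebra k A] (𝒜 : ℕ → Submodule k A)
  [GradedAlgebra 𝒜]

variable {𝒜} in
/-- The homogeneous elements of positive degree are in the ideal generated by the generators. -/
theorem mem_span_gen {s : Finset A} (hs : ∀ a ∈ s, a ∈ 𝒜 1)
    (hgen : Algebra.adjoin k (s : Set A) = ⊤) {i : ℕ} (hi : 0 < i) {a : A} (ha : a ∈ 𝒜 i) :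
    a ∈ Ideal.span (s : Set A) := by
  have h1 : ∀ a : A, ∃ c : k, a - algebraMap k A c ∈ Ideal.span (s : Set A) := by
    intro a
    have ha : a ∈ Algebra.adjoin k (s : Set A) := by rw [hgen]; trivial
    induction ha using Algebra.adjoin_induction with
    | mem x hx => exact ⟨0, by rw [map_zero, sub_zero]; exact Ideal.subset_span hx⟩
    | algebraMap c => exact ⟨c, by rw [sub_self]; exact Ideal.zero_mem _⟩
    | add x y _ _ hx hy =>
      obtain ⟨c, hc⟩ := hx
      obtain ⟨d, hd⟩ := hy
      refine ⟨c + d, ?_⟩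
      have e : x + y - algebraMap k A (c + d) = (x - algebraMap k A c) +
          (y - algebraMap k A d) := by rw [map_add]; ring
      rw [e]
      exact Ideal.add_mem _ hc hd
    | mul x y _ _ hx hy =>
      obtain ⟨c, hc⟩ := hx
      obtain ⟨d, hd⟩ := hy
      refine ⟨c * d, ?_⟩
      have e : x * y - algebraMap k A (c * d) = (x - algebraMap k A c) * y +
          algebraMap k A c * (y - algebraMap k A d) := by rw [map_mul]; ring
      rw [e]
      exact Ideal.add_mem _ (Ideal.mul_mem_right _ _ hc) (Ideal.mul_mem_left _ _ hd)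
  have hom : (Ideal.span (s : Set A)).IsHomogeneous 𝒜 :=
    Ideal.homogeneous_span _ _ fun x hx => ⟨1, hs x hx⟩
  obtain ⟨c, hc⟩ := h1 a
  have h2 := hom i hc
  have h3 : (DirectSum.decompose 𝒜 (a - algebraMap k A c) i : A) = a := by
    rw [DirectSum.decompose_sub, DirectSum.sub_apply, AddSubgroupClass.coe_sub,
      DirectSum.decompose_of_mem_same 𝒜 ha,
      DirectSum.decompose_of_mem_ne 𝒜 (SetLike.algebraMap_mem_graded 𝒜 c) hi.ne, sub_zero]
  rwa [h3] at h2

/-- The generators, after base change. -/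
theorem hgen_bc (G : Geom 𝒜) (B : Type) [CommRing B] [Algebra k B] :
    ∃ s : Finset (B ⊗[k] A), (∀ a ∈ s, a ∈ bc 𝒜 B 1) ∧
      Algebra.adjoin B (s : Set (B ⊗[k] A)) = ⊤ := by
  classical
  obtain ⟨s, hs, hgen⟩ := G.gen
  refine ⟨s.image fun a => 1 ⊗ₜ a, ?_, ?_⟩
  · intro a ha
    rw [Finset.mem_image] at ha
    obtain ⟨b, hb, rfl⟩ := ha
    exact Submodule.tmul_mem_baseChange_of_mem _ (hs b hb)
  · refine _root_.eq_top_iff.2 fun x hxt => ?_
    clear hxt
    induction x using TensorProduct.induction_on with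
    | zero => exact Subalgebra.zero_mem _
    | add x y hx hy => exact Subalgebra.add_mem _ hx hy
    | tmul b a =>
      have h1 : b ⊗ₜ[k] a = b • ((1 : B) ⊗ₜ[k] a) := by
        rw [TensorProduct.smul_tmul', smul_eq_mul, mul_one]
      rw [h1]
      refine Subalgebra.smul_mem _ ?_ b
      clear h1
      have ha : a ∈ Algebra.adjoin k (s : Set A) := by rw [hgen]; trivial
      induction ha using Algebra.adjoin_induction with
      | mem x hx =>
        refine Algebra.subset_adjoin ?_
        rw [Finset.coe_image]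
        exact ⟨x, hx, rfl⟩
      | algebraMap c =>
        have : (1 : B) ⊗ₜ[k] (algebraMap k A c) = algebraMap B (B ⊗[k] A) (algebraMap k B c) := by
          rw [Algebra.TensorProduct.algebraMap_apply, Algebra.algebraMap_self_apply,
            Algebra.algebraMap_eq_smul_one, Algebra.algebraMap_eq_smul_one,
            ← TensorProduct.smul_tmul]
        rw [this]
        exact Subalgebra.algebraMap_mem _ _
      | add x y _ _ hx hy =>
        rw [TensorProduct.tmul_add]
        exact Subalgebra.add_mem _ hx hy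
      | mul x y _ _ hx hy =>
        have : (1 : B) ⊗ₜ[k] (x * y) = ((1 : B) ⊗ₜ[k] x) * ((1 : B) ⊗ₜ[k] y) := by
          rw [Algebra.TensorProduct.tmul_mul_tmul, one_mul]
        rw [this]
        exact Subalgebra.mul_mem _ hx hy

theorem isNoetherianRing_bc (G : Geom 𝒜) (B : Type) [CommRing B] [Algebra k B]
    [IsNoetherianRing B] : IsNoetherianRing (B ⊗[k] A) := by
  obtain ⟨s, -, hs⟩ := hgen_bc 𝒜 G B
  have : Algebra.FiniteType B (B ⊗[k] A) := ⟨⟨s, hs⟩⟩
  exact Algebra.FiniteType.isNoetherianRing B _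

/-- Module B2k. -/
theorem exists_deg_one (G : Geom 𝒜) (B : Type) [CommRing B] [Algebra k B]
    (x : ProjectiveSpectrum (bc 𝒜 B)) : ∃ s ∈ bc 𝒜 B 1, s ∉ idl (bc 𝒜 B) x := by
  by_contra hcon
  push Not at hcon
  obtain ⟨s, hs, hgen⟩ := G.gen
  apply x.not_irrelevant_le
  rw [HomogeneousIdeal.irrelevant_le]
  intro i hi z hz
  have hz' : z ∈ (𝒜 i).baseChange B := hz
  change z ∈ idl (bc 𝒜 B) x
  clear hz
  rw [Submodule.baseChange_eq_span] at hz'
  induction hz' using Submodule.span_induction with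
  | mem y hy =>
    obtain ⟨a, ha, rfl⟩ := hy
    have h1 := mem_span_gen hs hgen hi ha
    have h2 : (Algebra.TensorProduct.includeRight : A →ₐ[k] B ⊗[k] A) a ∈
        (Ideal.span (s : Set A)).map (Algebra.TensorProduct.includeRight : A →ₐ[k] B ⊗[k] A) :=
      Ideal.mem_map_of_mem _ h1
    rw [Ideal.map_span] at h2
    refine (Ideal.span_le.2 ?_) h2
    rintro _ ⟨b, hb, rfl⟩
    exact hcon _ (Submodule.tmul_mem_baseChange_of_mem _ (hs b hb))
  | zero => exact Ideal.zero_mem _
  | add x y _ _ hx hy => exact Ideal.add_mem _ hx hy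
  | smul b x _ hx =>
    rw [Algebra.smul_def]
    exact Ideal.mul_mem_left _ _ hx

/-- Module B2j: the local rings are Noetherian. -/
theorem noetherian_LR (G : Geom 𝒜) (B : Type) [CommRing B] [Algebra k B] [IsNoetherianRing B]
    (x : ProjectiveSpectrum (bc 𝒜 B)) : IsNoetherianRing (LR (bc 𝒜 B) x) := by
  have := isNoetherianRing_bc 𝒜 G B
  obtain ⟨s, hs, hsx⟩ := exists_deg_one 𝒜 G B x
  exact isNoetherianRing_LR (bc 𝒜 B) x hs hsx

end Base

end Pool.Agent.SSF.Br
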