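import Pool.Agent.SSF.Br.ExtD
import Pool.Agent.SSF.Br.SchBase
import Pool.Agent.SSF.Br.SchH

/-!
# Graded rational equivalence and rational equivalence on the scheme
-/

namespace Pool.Agent.SSF.Br

open CategoryTheory AlgebraicGeometry TensorProduct

variable {k A : Type} [Field k] [CommRing A] [Algebra k A] (𝒜 : ℕ → Submodule k A)
  [GradedAlgebra 𝒜]

/-- Rational equivalence on `Proj` in terms of homogeneous fractions. -/
theorem rat_of_ratA_proj {A : Type} [CommRing A] {σ : Type} [SetLike σ A]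
    [AddSubgroupClass σ A] (𝒜 : ℕ → σ) [GradedRing 𝒜]
    (hN : ∀ x : ProjectiveSpectrum 𝒜, IsNoetherianRing (LR 𝒜 x))
    (h1 : ∀ x : ProjectiveSpectrum 𝒜, ∃ s ∈ 𝒜 1, s ∉ idl 𝒜 x)
    (c : ProjectiveSpectrum 𝒜 →₀ ℤ) (h : c ∈ RatA 𝒜) :
    (show (Proj 𝒜 : Scheme.{0}) →₀ ℤ from c) ∈ Rat (Proj 𝒜) 2 := by
  have key : RatA 𝒜 ≤ Rat (Proj 𝒜) 2 := by
    refine (AddSubgroup.closure_le _).2 ?_
    rintro c ⟨y, i, a, b, hy, ha, hb, hay, hby, hc⟩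
    obtain ⟨g, hg⟩ := isDiv_of_frac 𝒜 hN h1 y i a b ha hb hay hby c hc
    refine AddSubgroup.subset_closure ⟨y, g, ?_, hg⟩
    have h2 : Order.coheight (show (Proj 𝒜 : Scheme.{0}) from y) = 1 :=
      (coheight_eq_height 𝒜 y).trans hy
    rw [h2]
    rfl
  exact key h

/-- Module E3c. -/
theorem rat_of_ratA (G : Geom 𝒜) (L : Type) [Field L] [Algebra k L]
    (c : ProjectiveSpectrum (bc 𝒜 L) →₀ ℤ) (h : c ∈ RatA (bc 𝒜 L)) :
    cycX (bc 𝒜 L) c ∈ Rat (projOver (bc 𝒜 L)).left 2 :=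
  rat_of_ratA_proj (bc 𝒜 L) (noetherian_LR 𝒜 G L) (exists_deg_one 𝒜 G L) c h

end Pool.Agent.SSF.Br
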