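import Pool.Agent.SSF.Br.ExtE
import Pool.Agent.SSF.Br.ExtA
import Pool.Agent.SSF.Br.ExtH
import Pool.Agent.SSF.Br.ExtR
import Pool.Agent.SSF.Br.E3A
import Pool.Agent.SSF.Br.E3D
import Pool.Agent.SSF.Br.Rat

/-!
# Cycles on `Proj A` which become rationally trivial over the algebraic closure
-/

namespace Pool.Agent.SSF.Br

open CategoryTheory AlgebraicGeometry MonoidalCategory CartesianMonoidalCategory Limits
open TensorProduct HomogeneousLocalization HomogeneousIdeal Graded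

namespace E3E

variable {k A : Type} [Field k] [CommRing A] [Algebra k A] (𝒜 : ℕ → Submodule k A)
  [GradedAlgebra 𝒜]

variable {𝒜} in
lemma exists_gen (G : Geom 𝒜) (P : ProjectiveSpectrum 𝒜) :
    ∃ i, ∃ s ∈ 𝒜 i, ∃ t ∈ 𝒜 (i + 1), s ∉ idl 𝒜 P ∧ t ∉ idl 𝒜 P := by
  obtain ⟨s, hs1, hs⟩ := G.gen
  by_contra h
  push Not at h
  apply P.not_irrelevant_le
  refine (toIdeal_irrelevant_le _).mpr fun i hi a ha => ?_
  have h1 : Ideal.span (s : Set A) ≤ idl 𝒜 P := by
    rw [Ideal.span_le]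
    intro t ht
    exact h 0 1 (SetLike.one_mem_graded _) t (hs1 t ht)
      (fun h => P.isPrime.ne_top ((Ideal.eq_top_iff_one _).2 h))
  exact h1 (Geom.mem_span hs1 hs hi ha)

lemma homogeneous_incl (L : Type) [Field L] [Algebra k L] {I : Ideal A} (hI : I.IsHomogeneous 𝒜) :
    (inclI k L I).IsHomogeneous (bc 𝒜 L) := by
  obtain ⟨S, hS⟩ := (Ideal.IsHomogeneous.iff_exists 𝒜 I).1 hI
  have h1 : inclI k L I = Ideal.span ((Algebra.TensorProduct.includeRight : A →ₐ[k] L ⊗[k] A) ''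
      ((↑) '' S : Set A)) := by
    rw [hS]
    exact Ideal.map_span _ _
  rw [h1]
  refine Ideal.homogeneous_span _ _ ?_
  rintro x ⟨y, ⟨y', -, rfl⟩, rfl⟩
  obtain ⟨i, hi⟩ := y'.2
  exact ⟨i, Submodule.tmul_mem_baseChange_of_mem _ hi⟩

lemma mem_cyc (c : ProjectiveSpectrum 𝒜 →₀ ℤ) (h : ∀ P, c P ≠ 0 → Order.height P = 2) :
    cycX 𝒜 c ∈ Cyc (projOver 𝒜).left 2 := by
  intro x hx
  have h1 : c (toPS 𝒜 x) ≠ 0 := Finsupp.mem_support_iff.1 hx
  have h2 := coheight_eq_height 𝒜 x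
  have h3 : Order.coheight (show (projOver 𝒜).left from x) = Order.height (toPS 𝒜 x) := h2
  rw [h3, h _ h1]
  rfl

end E3E

variable {k A : Type} [Field k] [CommRing A] [Algebra k A] (𝒜 : ℕ → Submodule k A)
  [GradedAlgebra 𝒜]

/-- Module E3e: a cycle on `Proj A` which becomes rationally trivial over the algebraic
closure. -/
theorem mem_geomAlgEquivZero (G : Geom 𝒜) (I₁ I₂ : Ideal A) (h₁ : I₁.IsHomogeneous 𝒜)
    (h₂ : I₂.IsHomogeneous 𝒜)
    (hrat : cyc2 (bc 𝒜 (AlgebraicClosure k)) (inclI k (AlgebraicClosure k) I₁) -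
      cyc2 (bc 𝒜 (AlgebraicClosure k)) (inclI k (AlgebraicClosure k) I₂) ∈
        RatA (bc 𝒜 (AlgebraicClosure k))) :
    ∃ z : Cyc (projOver 𝒜).left 2,
      (z : (projOver 𝒜).left →₀ ℤ) = cycX 𝒜 (cyc2 𝒜 I₁ - cyc2 𝒜 I₂) ∧
      CH.mk z ∈ GeomAlgEquivZero (projOver 𝒜) 2 := by
  have hft := G.finiteType
  have hnA : IsNoetherianRing A := Algebra.FiniteType.isNoetherianRing k A
  have hnB : IsNoetherianRing (AlgebraicClosure k ⊗[k] A) := G.isNoetherianRing _
  -- coefficients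
  have hc : ∀ I : Ideal A, I.IsHomogeneous 𝒜 → ∀ P, cyc2 𝒜 I P = coef2 𝒜 I P :=
    fun I hI P => cyc2_apply 𝒜 (E3E.exists_gen G) I hI P
  have hc' : ∀ I : Ideal A, I.IsHomogeneous 𝒜 → ∀ P,
      cyc2 (bc 𝒜 (AlgebraicClosure k)) (inclI k (AlgebraicClosure k) I) P =
        coef2 (bc 𝒜 (AlgebraicClosure k)) (inclI k (AlgebraicClosure k) I) P :=
    fun I hI P => cyc2_apply _ (G.exists_gen _) _ (E3E.homogeneous_incl 𝒜 _ hI) P
  have hht : ∀ {σ A : Type} [CommRing A] [SetLike σ A] [AddSubgroupClass σ A] (𝒜 : ℕ → σ)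
      [GradedRing 𝒜] (I : Ideal A) (P : ProjectiveSpectrum 𝒜), coef2 𝒜 I P ≠ 0 →
      Order.height P = 2 := by
    intro σ A _ _ _ 𝒜 _ I P h
    by_contra hh
    exact h (if_neg hh)
  obtain ⟨E, hE⟩ := exists_baseChangeIso 𝒜 (AlgebraicClosure k)
  have hinv : Function.Injective E.inv := E.inv.isOpenEmbedding.injective
  have hEE : ∀ y : (baseChange (AlgebraicClosure k) (projOver 𝒜)).left, E.hom (E.inv y) = y := by
    intro y
    have h := congrArg (fun q : (baseChange (AlgebraicClosure k) (projOver 𝒜)).left ⟶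
      (baseChange (AlgebraicClosure k) (projOver 𝒜)).left => q y) E.inv_hom_id
    exact h
  have hcoh : ∀ y : (baseChange (AlgebraicClosure k) (projOver 𝒜)).left,
      Order.height (toPS (bc 𝒜 (AlgebraicClosure k)) (E.inv y)) = Order.coheight y := by
    intro y
    rw [← coheight_eq_height]
    exact coheight_eq_of_isOpenImmersion E.inv
  -- the cycle over the base field
  have hz : cycX 𝒜 (cyc2 𝒜 I₁ - cyc2 𝒜 I₂) ∈ Cyc (projOver 𝒜).left 2 := by
    refine E3E.mem_cyc 𝒜 _ fun P hP => ?_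
    rw [Finsupp.sub_apply, hc I₁ h₁, hc I₂ h₂] at hP
    by_cases h : coef2 𝒜 I₁ P = 0
    · refine hht 𝒜 I₂ P fun h' => hP ?_
      rw [h, h', sub_zero]
    · exact hht 𝒜 I₁ P h
  -- the cycle over the algebraic closure
  let C : ProjectiveSpectrum (bc 𝒜 (AlgebraicClosure k)) →₀ ℤ :=
    cyc2 (bc 𝒜 (AlgebraicClosure k)) (inclI k (AlgebraicClosure k) I₁) -
      cyc2 (bc 𝒜 (AlgebraicClosure k)) (inclI k (AlgebraicClosure k) I₂)
  have hCP : ∀ P, C P =
      coef2 (bc 𝒜 (AlgebraicClosure k)) (inclI k (AlgebraicClosure k) I₁) P -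
      coef2 (bc 𝒜 (AlgebraicClosure k)) (inclI k (AlgebraicClosure k) I₂) P := by
    intro P
    show cyc2 _ _ P - cyc2 _ _ P = _
    rw [hc' I₁ h₁, hc' I₂ h₂]
  have hcy : (cycX (bc 𝒜 (AlgebraicClosure k)) C).comapDomain E.inv hinv.injOn ∈
      Cyc (baseChange (AlgebraicClosure k) (projOver 𝒜)).left 2 := by
    intro y hy
    have h0 := Finsupp.mem_support_iff.1 hy
    have h1 : C (toPS (bc 𝒜 (AlgebraicClosure k)) (E.inv y)) ≠ 0 := h0
    rw [hCP] at h1
    rw [← hcoh y]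
    by_cases h : coef2 (bc 𝒜 (AlgebraicClosure k)) (inclI k (AlgebraicClosure k) I₁)
        (toPS (bc 𝒜 (AlgebraicClosure k)) (E.inv y)) = 0
    · refine hht _ (inclI k (AlgebraicClosure k) I₂) _ fun h' => h1 ?_
      rw [h, h', sub_zero]
    · exact hht _ (inclI k (AlgebraicClosure k) I₁) _ h
  refine ⟨⟨_, hz⟩, rfl, ⟨⟨_, hz⟩, ⟨_, hcy⟩, rfl, ?_, ?_⟩⟩
  · intro y hy
    have hP : Order.height (toPS (bc 𝒜 (AlgebraicClosure k)) (E.inv y)) = 2 := by
      rw [hcoh y, hy]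
      rfl
    have hpt : (baseProj (AlgebraicClosure k) (projOver 𝒜)) y =
        ptX 𝒜 (inclPt 𝒜 (AlgebraicClosure k)
          (toPS (bc 𝒜 (AlgebraicClosure k)) (E.inv y))) := by
      rw [← toX_eq_inclPt]
      have h1 := congrArg (fun q : Proj (bc 𝒜 (AlgebraicClosure k)) ⟶ (projOver 𝒜).left =>
        q (E.inv y)) hE
      refine Eq.trans ?_ h1
      show _ = (baseProj (AlgebraicClosure k) (projOver 𝒜)) (E.hom (E.inv y))
      rw [hEE]
    have hram : ramification (baseProj (AlgebraicClosure k) (projOver 𝒜)) y =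
        ((len (bc 𝒜 (AlgebraicClosure k)) (inclI k (AlgebraicClosure k)
          (idl 𝒜 (inclPt 𝒜 (AlgebraicClosure k)
            (toPS (bc 𝒜 (AlgebraicClosure k)) (E.inv y)))))
          (toPS (bc 𝒜 (AlgebraicClosure k)) (E.inv y))).toNat : ℤ) := by
      have h1 := ramification_iso E (baseProj (AlgebraicClosure k) (projOver 𝒜)) (E.inv y)
      rw [hEE] at h1
      refine h1.symm.trans ?_
      rw [hE]
      exact ramification_incl 𝒜 (AlgebraicClosure k)
        (toPS (bc 𝒜 (AlgebraicClosure k)) (E.inv y))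
    have key : ∀ I : Ideal A, I.IsHomogeneous 𝒜 →
        coef2 (bc 𝒜 (AlgebraicClosure k)) (inclI k (AlgebraicClosure k) I)
          (toPS (bc 𝒜 (AlgebraicClosure k)) (E.inv y)) =
        ramification (baseProj (AlgebraicClosure k) (projOver 𝒜)) y *
          coef2 𝒜 I (inclPt 𝒜 (AlgebraicClosure k)
            (toPS (bc 𝒜 (AlgebraicClosure k)) (E.inv y))) := by
      intro I hI
      have hP' : Order.height (inclPt 𝒜 (AlgebraicClosure k)
          (toPS (bc 𝒜 (AlgebraicClosure k)) (E.inv y))) = 2 := by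
        rw [height_inclPt, hP]
      unfold coef2
      rw [if_pos hP, if_pos hP', hram, len_inclI 𝒜 G _ _ I hI, ENat.toNat_mul]
      push_cast
      rfl
    show C (toPS (bc 𝒜 (AlgebraicClosure k)) (E.inv y)) = _ * cycX 𝒜 (cyc2 𝒜 I₁ - cyc2 𝒜 I₂) _
    rw [hCP, key I₁ h₁, key I₂ h₂, mapPt, hpt, ← mul_sub]
    congr 1
    show _ = cyc2 𝒜 I₁ _ - cyc2 𝒜 I₂ _
    rw [hc I₁ h₁, hc I₂ h₂]
  · have h1 : (cycX (bc 𝒜 (AlgebraicClosure k)) C).comapDomain E.inv hinv.injOn ∈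
        Rat (baseChange (AlgebraicClosure k) (projOver 𝒜)).left 2 :=
      rat_iso E.symm 2 _ (rat_of_ratA 𝒜 G (AlgebraicClosure k) C hrat)
    have h2 : CH.mk (⟨_, hcy⟩ : Cyc (baseChange (AlgebraicClosure k) (projOver 𝒜)).left 2) = 0 :=
      (QuotientAddGroup.eq_zero_iff _).2 h1
    rw [h2]
    exact AddSubgroup.zero_mem _

end Pool.Agent.SSF.Br
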