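import Pool.Agent.SSF.Br.ExtE
import Pool.Agent.SSF.Br.ExtA
import Pool.Agent.SSF.Br.AsmP
import Pool.Agent.SSF.Br.Rat

/-!
# The value of the functional at the cycle of an ideal (module E1b)
-/

namespace Pool.Agent.SSF.Br

open CategoryTheory AlgebraicGeometry MonoidalCategory CartesianMonoidalCategory Limits
open TensorProduct HomogeneousLocalization HomogeneousIdeal Graded

namespace ExtP

variable {k A : Type} [Field k] [CommRing A] [Algebra k A] (𝒜 : ℕ → Submodule k A)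
  [GradedAlgebra 𝒜]

omit [GradedAlgebra 𝒜] in
theorem incl_bijective : Function.Bijective
    (Algebra.TensorProduct.includeRight : A →ₐ[k] k ⊗[k] A) := by
  have h1 : ∀ a : A, (Algebra.TensorProduct.lid k A).symm a =
      (Algebra.TensorProduct.includeRight : A →ₐ[k] k ⊗[k] A) a := fun a => by simp
  have h2 : (fun a : A => (Algebra.TensorProduct.lid k A).symm a) =
      (Algebra.TensorProduct.includeRight : A →ₐ[k] k ⊗[k] A) := funext h1
  rw [← h2]
  exact (Algebra.TensorProduct.lid k A).symm.bijective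

/-- For `B = k` the map on points is an order isomorphism. -/
noncomputable def ptIso : ProjectiveSpectrum (bc 𝒜 k) ≃o ProjectiveSpectrum 𝒜 where
  toEquiv := Equiv.ofBijective (inclPt 𝒜 k) ⟨by
    intro P Q h
    apply ProjectiveSpectrum.ext
    apply HomogeneousIdeal.toIdeal_injective
    have h1 : idl 𝒜 (inclPt 𝒜 k P) = idl 𝒜 (inclPt 𝒜 k Q) := by rw [h]
    rw [idl_inclPt, idl_inclPt] at h1
    exact Ideal.comap_injective_of_surjective _ incl_bijective.2 h1, inclPt_surjective 𝒜 k⟩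
  map_rel_iff' := by
    intro P Q
    change (idl (bc 𝒜 k) P).comap _ ≤ (idl (bc 𝒜 k) Q).comap _ ↔ idl (bc 𝒜 k) P ≤ idl (bc 𝒜 k) Q
    exact Ideal.comap_le_comap_iff_of_surjective _ incl_bijective.2 _ _

theorem height_pt (P : ProjectiveSpectrum (bc 𝒜 k)) :
    Order.height (inclPt 𝒜 k P) = Order.height P :=
  Order.height_orderIso (ptIso 𝒜) P

theorem inclI_idl (P : ProjectiveSpectrum (bc 𝒜 k)) :
    inclI k k (idl 𝒜 (inclPt 𝒜 k P)) = idl (bc 𝒜 k) P := by
  rw [idl_inclPt]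
  exact Ideal.map_comap_of_surjective _ incl_bijective.2 _

theorem len_pt (P : ProjectiveSpectrum (bc 𝒜 k)) (I : Ideal A) (hI : I.IsHomogeneous 𝒜) :
    len (bc 𝒜 k) (inclI k k I) P = len 𝒜 I (inclPt 𝒜 k P) := by
  rw [len_inclI' 𝒜 k P I hI, inclI_idl, len_self, one_mul]

variable {𝒜} in
/-- The hypothesis on the grading needed for the devissage. -/
theorem exists_gen (G : Geom 𝒜) (P : ProjectiveSpectrum 𝒜) :
    ∃ i, ∃ s ∈ 𝒜 i, ∃ t ∈ 𝒜 (i + 1), s ∉ idl 𝒜 P ∧ t ∉ idl 𝒜 P := by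
  obtain ⟨s, hs1, hs⟩ := G.gen
  by_contra h
  push Not at h
  apply P.not_irrelevant_le
  refine (toIdeal_irrelevant_le _).mpr fun i hi a ha => ?_
  have h1 : Ideal.span (s : Set A) ≤ idl 𝒜 P := by
    rw [Ideal.span_le]
    intro t ht
    exact h 0 1 (SetLike.one_mem_graded _) t (hs1 t ht)
      (fun h => P.isPrime.ne_top ((Ideal.eq_top_iff_one _).2 h))
  exact h1 (Geom.mem_span hs1 hs hi ha)

omit [GradedAlgebra 𝒜] in
/-- Heights and chains. -/
theorem length_le {α : Type} [Preorder α] (N n : ℕ) (h : ∀ l : LTSeries α, l.length ≤ n + N)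
    (l : LTSeries α) (hl : (n : ℕ∞) ≤ Order.height l.head) : l.length ≤ N := by
  obtain ⟨p, hp, hpn⟩ := Order.exists_series_of_le_height l.head hl
  have h1 := h (p.smash l hp)
  rw [RelSeries.smash_length] at h1
  omega

end ExtP

/-- Module E1b: the value of the functional at the cycle of an ideal. -/
theorem Datum.psiX_cyc2 {k A : Type} [Field k] [CommRing A] [Algebra k A]
    {𝒜 : ℕ → Submodule k A} [GradedAlgebra 𝒜] {n : kˣ} (D : Datum 𝒜 n)
    (G : Geom 𝒜) (I : Ideal A) (hI : I.IsHomogeneous 𝒜)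
    (hcod : ∀ P : ProjectiveSpectrum 𝒜, I ≤ idl 𝒜 P → 2 ≤ Order.height P) :
    D.psiX (cycX 𝒜 (cyc2 𝒜 I)) = D.φ k (inclI k k I) := by
  have hft := G.finiteType
  have hnA : IsNoetherianRing A := Algebra.FiniteType.isNoetherianRing k A
  have hnB : IsNoetherianRing (k ⊗[k] A) := G.isNoetherianRing k
  have hJ : (inclI k k I).IsHomogeneous (bc 𝒜 k) := ExtA.isHomogeneous_map (inclHom 𝒜 k) hI
  have hh : ∀ P : ProjectiveSpectrum (bc 𝒜 k), inclI k k I ≤ idl (bc 𝒜 k) P →
      2 ≤ Order.height P := by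
    intro P hP
    rw [← ExtP.height_pt]
    exact hcod _ (Ideal.map_le_iff_le_comap.1 hP)
  have h4 : ∀ l : LTSeries (ProjectiveSpectrum (bc 𝒜 k)), l.length ≤ 4 := fun l =>
    G.dim4 k l bot_le
  have hdim : DimLE (bc 𝒜 k) (inclI k k I) 2 := fun l hl =>
    ExtP.length_le 2 2 h4 l (hh _ hl)
  have hdev := devissage (G.exists_gen k) 1 (D.φ k) (D.add k) (D.low k) _ hJ hdim
  set c := (cycX 𝒜 (cyc2 𝒜 I)).comapDomain (toX 𝒜 k) (toX_injective 𝒜).injOn with hc
  have hcP : ∀ P, c P = coef2 𝒜 I (inclPt 𝒜 k P) := by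
    intro P
    rw [hc, Finsupp.comapDomain_apply]
    exact cyc2_apply 𝒜 (ExtP.exists_gen G) I hI _
  have hpow : ∀ P : ProjectiveSpectrum (bc 𝒜 k), D.φ k (idl (bc 𝒜 k) P) ^ c P =
      D.φ k (idl (bc 𝒜 k) P) ^ (len (bc 𝒜 k) (inclI k k I) P).toNat := by
    intro P
    rw [hcP, coef2]
    split_ifs with h1
    · rw [ExtP.len_pt 𝒜 P I hI, zpow_natCast]
    · rw [zpow_zero]
      by_cases h2 : inclI k k I ≤ idl (bc 𝒜 k) P
      · have h3 : (3 : ℕ∞) ≤ Order.height P := by
          rw [ExtP.height_pt] at h1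
          have h5 := lt_of_le_of_ne (hh P h2) (Ne.symm h1)
          have h6 := Order.add_one_le_of_lt h5
          have h7 : (2 : ℕ∞) + 1 = 3 := by norm_num
          rwa [h7] at h6
        rw [D.low k _ P.asHomogeneousIdeal.isHomogeneous, one_pow]
        intro l hl
        exact ExtP.length_le 1 3 h4 l (h3.trans (Order.height_mono hl))
      · rw [(len_eq_zero_iff hJ P).2 h2]
        simp
  change c.prod (fun P m => D.φ k (idl (bc 𝒜 k) P) ^ m) = _
  rw [hdev.2, Finsupp.prod, ← finprod_congr hpow]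
  refine (finprod_eq_prod_of_mulSupport_subset _ ?_).symm
  intro P hP
  rw [Finset.mem_coe, Finsupp.mem_support_iff]
  intro h0
  apply hP
  change _ ^ c P = 1
  rw [h0, zpow_zero]

end Pool.Agent.SSF.Br
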