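import Pool.Agent.SSF.Br.Asm
import Pool.Agent.SSF.Br.E3E
import Pool.Agent.SSF.Br.ExtP

/-!
# The final criterion
-/

namespace Pool.Agent.SSF.Br

open CategoryTheory AlgebraicGeometry MonoidalCategory CartesianMonoidalCategory Limits
open TensorProduct HomogeneousLocalization HomogeneousIdeal Graded

section Final

/-- The final criterion. -/
theorem answer_of {F A : Type} [Field F] [Finite F] [CommRing A] [Algebra F A]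
    (𝒜 : ℕ → Submodule F A) [GradedAlgebra 𝒜] (hX : IsNice (projOver 𝒜)) (G : Geom 𝒜) (n : Fˣ)
    (hn : ¬ IsSquare (n : F)) (D : Datum 𝒜 n) (I₁ I₂ : Ideal A) (h₁ : I₁.IsHomogeneous 𝒜)
    (h₂ : I₂.IsHomogeneous 𝒜)
    (hcod₁ : ∀ P : ProjectiveSpectrum 𝒜, I₁ ≤ idl 𝒜 P → 2 ≤ Order.height P)
    (hcod₂ : ∀ P : ProjectiveSpectrum 𝒜, I₂ ≤ idl 𝒜 P → 2 ≤ Order.height P)
    (hrat : cyc2 (bc 𝒜 (AlgebraicClosure F)) (inclI F (AlgebraicClosure F) I₁) -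
      cyc2 (bc 𝒜 (AlgebraicClosure F)) (inclI F (AlgebraicClosure F) I₂) ∈
        RatA (bc 𝒜 (AlgebraicClosure F)))
    (hI₁ : D.φ F (inclI F F I₁) = sq n) (hI₂ : D.φ F (inclI F F I₂) = 1) : Answer := by
  obtain ⟨z, hz, hz'⟩ := mem_geomAlgEquivZero 𝒜 G I₁ I₂ h₁ h₂ hrat
  refine ⟨F, inferInstance, inferInstance, projOver 𝒜, hX, CH.mk z, hz', ?_⟩
  intro hcon
  have h1 := D.psiX_eq_one G hn z hcon
  have h2 : D.psiX (z : (projOver 𝒜).left →₀ ℤ) = sq n := by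
    rw [hz, show cycX 𝒜 (cyc2 𝒜 I₁ - cyc2 𝒜 I₂) = cycX 𝒜 (cyc2 𝒜 I₁) + -cycX 𝒜 (cyc2 𝒜 I₂) from
      sub_eq_add_neg _ _, D.psiX_add, D.psiX_neg, D.psiX_cyc2 G I₁ h₁ hcod₁, D.psiX_cyc2 G I₂ h₂ hcod₂, hI₁, hI₂,
      inv_one, mul_one]
  rw [h1] at h2
  have h3 := (QuotientGroup.eq_one_iff n).1 h2.symm
  obtain ⟨u, hu⟩ := h3
  exact hn ⟨(u : F), by rw [← hu]; simp [pow_two]⟩

end Final

end Pool.Agent.SSF.Br
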