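import Pool.Agent.SSF.Br.ExtD
import Pool.Agent.SSF.Br.Dev
import Pool.Agent.SSF.Br.AsmD

/-!
# Cycles of ideals and points of base changes (modules E1a, E2a, E2b, E2f)
-/

namespace Pool.Agent.SSF.Br

open CategoryTheory AlgebraicGeometry MonoidalCategory CartesianMonoidalCategory Limits
open TensorProduct HomogeneousLocalization HomogeneousIdeal Graded

section Cyc2

variable {σ A : Type} [CommRing A] [SetLike σ A] [AddSubgroupClass σ A] (𝒜 : ℕ → σ)
  [GradedRing 𝒜]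

/-- Module E1a. -/
theorem cyc2_apply [IsNoetherianRing A]
    (hgen : ∀ P : ProjectiveSpectrum 𝒜, ∃ i, ∃ s ∈ 𝒜 i, ∃ t ∈ 𝒜 (i + 1),
      s ∉ idl 𝒜 P ∧ t ∉ idl 𝒜 P)
    (I : Ideal A) (hI : I.IsHomogeneous 𝒜) (P : ProjectiveSpectrum 𝒜) :
    cyc2 𝒜 I P = coef2 𝒜 I P := by
  have h : (Function.support (coef2 𝒜 I)).Finite := by
    refine (finite_support_len hgen hI).subset ?_
    intro Q hQ h0
    apply hQ
    unfold coef2
    split_ifs with h1
    · have h2 : (len 𝒜 I Q).toNat = 0 := h0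
      rw [h2, Nat.cast_zero]
    · rfl
  unfold cyc2
  rw [dif_pos h]
  rfl

end Cyc2

section Incl

variable {k A : Type} [Field k] [CommRing A] [Algebra k A] (𝒜 : ℕ → Submodule k A)
  [GradedAlgebra 𝒜]

/-- Module E2a. -/
theorem idl_inclPt (B : Type) [CommRing B] [Algebra k B] (P : ProjectiveSpectrum (bc 𝒜 B)) :
    idl 𝒜 (inclPt 𝒜 B P) = (idl (bc 𝒜 B) P).comap
      (Algebra.TensorProduct.includeRight : A →ₐ[k] B ⊗[k] A) := rfl

/-- Module E2b. -/
theorem toX_eq_inclPt (B : Type) [CommRing B] [Algebra k B] (P : ProjectiveSpectrum (bc 𝒜 B)) :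
    toX 𝒜 B P = ptX 𝒜 (inclPt 𝒜 B P) := rfl

namespace ExtE

omit [GradedAlgebra 𝒜] in
/-- Primes of `A` are contracted from `L ⊗ A`. -/
theorem exists_prime (L : Type) [Field L] [Algebra k L] (Q : Ideal A) (hQ : Q.IsPrime) :
    ∃ q : Ideal (L ⊗[k] A), q.IsPrime ∧
      q.comap (Algebra.TensorProduct.includeRight : A →ₐ[k] L ⊗[k] A) = Q := by
  obtain ⟨q, hq⟩ := PrimeSpectrum.comap_surjective_of_faithfullyFlat (A := A) (B := A ⊗[k] L)
    ⟨Q, hQ⟩
  refine ⟨q.asIdeal.comap (Algebra.TensorProduct.comm k L A), q.isPrime.comap _, ?_⟩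
  have h1 : q.asIdeal.comap (algebraMap A (A ⊗[k] L)) = Q := congrArg PrimeSpectrum.asIdeal hq
  ext a
  rw [← h1, Ideal.mem_comap, Ideal.mem_comap, Ideal.mem_comap]
  have h2 : Algebra.TensorProduct.comm k L A
      ((Algebra.TensorProduct.includeRight : A →ₐ[k] L ⊗[k] A) a) =
      algebraMap A (A ⊗[k] L) a := by simp
  rw [h2]

end ExtE

/-- Module E2f: every point of `Proj A` is the image of a point of `Proj (L ⊗ A)`. -/
theorem inclPt_surjective (L : Type) [Field L] [Algebra k L] :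
    Function.Surjective (inclPt 𝒜 L) := by
  classical
  intro Q
  obtain ⟨q, hq, hqQ⟩ := ExtE.exists_prime (k := k) L (idl 𝒜 Q) Q.isPrime
  have h1 : (q.homogeneousCore (bc 𝒜 L)).toIdeal.IsPrime := hq.homogeneousCore
  have h2 : (q.homogeneousCore (bc 𝒜 L)).toIdeal ≤ q := Ideal.toIdeal_homogeneousCore_le _ q
  have h3 : ∀ a : A, (Algebra.TensorProduct.includeRight : A →ₐ[k] L ⊗[k] A) a ∈ q ↔
      a ∈ idl 𝒜 Q := by
    intro a
    rw [← hqQ]
    exact Iff.rfl
  have h4 : ∀ a : A, (Algebra.TensorProduct.includeRight : A →ₐ[k] L ⊗[k] A) a ∈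
      (q.homogeneousCore (bc 𝒜 L)).toIdeal ↔ a ∈ idl 𝒜 Q := by
    intro a
    constructor
    · intro h
      exact (h3 a).1 (h2 h)
    · intro h
      rw [← DirectSum.sum_support_decompose 𝒜 a, map_sum]
      refine Ideal.sum_mem _ fun n _ => ?_
      refine Ideal.mem_homogeneousCore_of_homogeneous_of_mem
        ⟨n, Submodule.tmul_mem_baseChange_of_mem _ (SetLike.coe_mem _)⟩ ?_
      exact (h3 _).2 (Q.asHomogeneousIdeal.isHomogeneous n h)
  have h5 : ¬ HomogeneousIdeal.irrelevant (bc 𝒜 L) ≤ q.homogeneousCore (bc 𝒜 L) := by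
    intro hle
    apply Q.not_irrelevant_le
    rw [HomogeneousIdeal.irrelevant_le]
    intro i hi a ha
    change a ∈ idl 𝒜 Q
    rw [← h4]
    exact hle (HomogeneousIdeal.mem_irrelevant_of_mem (bc 𝒜 L) hi
      (Submodule.tmul_mem_baseChange_of_mem (1 : L) ha))
  refine ⟨⟨q.homogeneousCore (bc 𝒜 L), h1, h5⟩, ?_⟩
  apply ProjectiveSpectrum.ext
  apply HomogeneousIdeal.toIdeal_injective
  ext a
  exact h4 a

end Incl

end Pool.Agent.SSF.Br
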