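import Mathlib

/-!
# Graded rings: lengths at the points of `Proj`, dimension, base change
-/

namespace Pool.Agent.SSF.Br

open AlgebraicGeometry TensorProduct HomogeneousLocalization

section Loc

variable {σ A : Type*} [CommRing A] [SetLike σ A] [AddSubgroupClass σ A] (𝒜 : ℕ → σ)
  [GradedRing 𝒜]

/-- The homogeneous prime ideal of a point of `Proj`. -/
abbrev idl (P : ProjectiveSpectrum 𝒜) : Ideal A := P.asHomogeneousIdeal.toIdeal

/-- The local ring of `Proj` at `P`. -/
abbrev LR (P : ProjectiveSpectrum 𝒜) : Type _ := HomogeneousLocalization.AtPrime 𝒜 (idl 𝒜 P)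

/-- The ideal of the local ring at `P` generated by the fractions `a / s` with `a ∈ I`. -/
def locIdeal (I : Ideal A) (P : ProjectiveSpectrum 𝒜) : Ideal (LR 𝒜 P) :=
  (I.map (algebraMap A (Localization.AtPrime (idl 𝒜 P)))).comap
    (algebraMap (LR 𝒜 P) (Localization.AtPrime (idl 𝒜 P)))

/-- The length at `P` of the closed subscheme of `Proj` defined by `I`. -/
noncomputable def len (I : Ideal A) (P : ProjectiveSpectrum 𝒜) : ℕ∞ :=
  Module.length (LR 𝒜 P) (LR 𝒜 P ⧸ locIdeal 𝒜 I P)

/-- The closed subset of `Proj` defined by `I` has dimension at most `d`. -/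
def DimLE (I : Ideal A) (d : ℕ) : Prop :=
  ∀ l : LTSeries (ProjectiveSpectrum 𝒜), I ≤ idl 𝒜 l.head → l.length ≤ d

end Loc

end Pool.Agent.SSF.Br
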