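import Pool.Agent.SSF.Br.Dev
import Pool.Agent.SSF.Br.Dim

/-!
# Localised ideals: comparison, cuts by an element, Krull's height theorem at a point of `Proj`
-/

set_option autoImplicit false

namespace Pool.Agent.SSF.Br

open AlgebraicGeometry TensorProduct HomogeneousLocalization

namespace LocCut

section Loc

variable {σ A : Type*} [CommRing A] [SetLike σ A] [AddSubgroupClass σ A] {𝒜 : ℕ → σ}
  [GradedRing 𝒜]

/-- Comparison of localised ideals. -/
theorem locIdeal_le_of {I J : Ideal A} (hI : I.IsHomogeneous 𝒜) (hJ : J.IsHomogeneous 𝒜)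
    (P : ProjectiveSpectrum 𝒜)
    (h : ∀ n, ∀ x ∈ 𝒜 n, x ∈ I → ∃ j, ∃ t ∈ 𝒜 j, t ∉ idl 𝒜 P ∧ t * x ∈ J) :
    locIdeal 𝒜 I P ≤ locIdeal 𝒜 J P := by
  intro z hz
  obtain ⟨c, rfl⟩ := HomogeneousLocalization.mk_surjective z
  rw [mem_locIdeal_iff hI] at hz
  obtain ⟨j, t, ht, htP, h'⟩ := hz
  obtain ⟨j', t', ht', htP', h''⟩ := h _ _ (SetLike.mul_mem_graded ht c.num.2) h'
  rw [mem_locIdeal_iff hJ]
  refine ⟨j' + j, t' * t, SetLike.mul_mem_graded ht' ht, ?_, ?_⟩
  · intro h1
    rcases P.isPrime.mem_or_mem h1 with h1 | h1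
    · exact htP' h1
    · exact htP h1
  · rw [mul_assoc]
    exact h''

theorem len_congr {I J : Ideal A} {P : ProjectiveSpectrum 𝒜}
    (h : locIdeal 𝒜 I P = locIdeal 𝒜 J P) : len 𝒜 I P = len 𝒜 J P := by
  unfold len
  rw [h]

/-- The length of a product cut on a prime. -/
theorem len_mul_span {y P : ProjectiveSpectrum 𝒜}
    (hgen : ∃ i, ∃ s ∈ 𝒜 i, ∃ t ∈ 𝒜 (i + 1), s ∉ idl 𝒜 P ∧ t ∉ idl 𝒜 P) {p q : ℕ} {l m : A}
    (hl : l ∈ 𝒜 p) (hm : m ∈ 𝒜 q) (hly : l ∉ idl 𝒜 y) :
    len 𝒜 (idl 𝒜 y ⊔ Ideal.span {l * m}) P =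
      len 𝒜 (idl 𝒜 y ⊔ Ideal.span {l}) P + len 𝒜 (idl 𝒜 y ⊔ Ideal.span {m}) P := by
  have hI := isHomogeneous_sup_span y.asHomogeneousIdeal.isHomogeneous
    (SetLike.mul_mem_graded hl hm)
  rw [len_colon_add hI hl P hgen]
  have e1 : (idl 𝒜 y ⊔ Ideal.span {l * m}).colon (Ideal.span {l} : Set A) =
      idl 𝒜 y ⊔ Ideal.span {m} := by
    ext x
    rw [mem_colon_span]
    constructor
    · intro h
      obtain ⟨b, hb, c, hc, hbc⟩ := Submodule.mem_sup.1 h
      obtain ⟨c, rfl⟩ := Ideal.mem_span_singleton'.1 hc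
      have h1 : (x - c * m) * l ∈ idl 𝒜 y := by
        have : (x - c * m) * l = b := by linear_combination -hbc
        rw [this]
        exact hb
      have h2 := (y.isPrime.mem_or_mem h1).resolve_right hly
      have h3 : x = (x - c * m) + c * m := by ring
      rw [h3]
      exact add_mem (Ideal.mem_sup_left h2)
        (Ideal.mem_sup_right (Ideal.mul_mem_left _ _ (Ideal.mem_span_singleton_self m)))
    · intro h
      obtain ⟨b, hb, c, hc, rfl⟩ := Submodule.mem_sup.1 h
      obtain ⟨c, rfl⟩ := Ideal.mem_span_singleton'.1 hc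
      have h3 : (b + c * m) * l = b * l + c * (l * m) := by ring
      rw [h3]
      exact add_mem (Ideal.mem_sup_left (Ideal.mul_mem_right _ _ hb))
        (Ideal.mem_sup_right (Ideal.mul_mem_left _ _ (Ideal.mem_span_singleton_self _)))
  have e2 : idl 𝒜 y ⊔ Ideal.span {l * m} ⊔ Ideal.span {l} = idl 𝒜 y ⊔ Ideal.span {l} := by
    rw [sup_assoc]
    congr 1
    rw [sup_eq_right, Ideal.span_singleton_le_iff_mem]
    exact Ideal.mul_mem_right _ _ (Ideal.mem_span_singleton_self l)
  rw [e1, e2, add_comm]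

theorem locIdeal_bot (P : ProjectiveSpectrum 𝒜) : locIdeal 𝒜 ⊥ P = ⊥ := by
  unfold locIdeal
  rw [Ideal.map_bot]
  rw [eq_bot_iff]
  intro z hz
  rw [Ideal.mem_comap, Ideal.mem_bot, HomogeneousLocalization.algebraMap_apply] at hz
  rw [Ideal.mem_bot]
  apply HomogeneousLocalization.val_injective
  rw [hz, HomogeneousLocalization.val_zero]

/-- The localised ideal of a sum with a principal ideal. -/
theorem locIdeal_sup_span {I : Ideal A} (hI : I.IsHomogeneous 𝒜) {i : ℕ} {r : A} (hr : r ∈ 𝒜 i)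
    (P : ProjectiveSpectrum 𝒜)
    (hgen : ∃ i, ∃ s ∈ 𝒜 i, ∃ t ∈ 𝒜 (i + 1), s ∉ idl 𝒜 P ∧ t ∉ idl 𝒜 P) :
    ∃ w : LR 𝒜 P, locIdeal 𝒜 (I ⊔ Ideal.span {r}) P = locIdeal 𝒜 I P ⊔ Ideal.span {w} := by
  obtain ⟨m, v, hv, u, hu, hvP, huP⟩ := exists_shift P hgen i
  have hrv : r * v ∈ 𝒜 (m + i) := by
    have := SetLike.mul_mem_graded hr hv
    rwa [add_comm] at this
  let c0 : NumDenSameDeg 𝒜 (idl 𝒜 P).primeCompl := ⟨m + i, ⟨r * v, hrv⟩, ⟨u, hu⟩, huP⟩
  let w : LR 𝒜 P := HomogeneousLocalization.mk c0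
  refine ⟨w, ?_⟩
  apply le_antisymm
  · intro z hz
    obtain ⟨c, rfl⟩ := HomogeneousLocalization.mk_surjective z
    rw [mem_locIdeal_iff (isHomogeneous_sup_span hI hr)] at hz
    obtain ⟨j, t, ht, htP, h⟩ := hz
    obtain ⟨b, hb, b₂, hb₂, hsum⟩ := Submodule.mem_sup.1 h
    obtain ⟨c', rfl⟩ := Ideal.mem_span_singleton'.1 hb₂
    have hta : t * (c.num : A) ∈ 𝒜 (j + c.deg) := SetLike.mul_mem_graded ht c.num.2
    have hcomp : (DirectSum.decompose 𝒜 b (j + c.deg) : A) +
        (DirectSum.decompose 𝒜 (c' * r) (j + c.deg) : A) = t * (c.num : A) := by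
      rw [← DirectSum.decompose_of_mem_same 𝒜 hta, ← hsum, DirectSum.decompose_add]
      rfl
    have hbI : (DirectSum.decompose 𝒜 b (j + c.deg) : A) ∈ I := hI _ hb
    by_cases hle : i ≤ j + c.deg
    · rw [DirectSum.coe_decompose_mul_of_right_mem_of_le 𝒜 hr hle] at hcomp
      set b' : A := (DirectSum.decompose 𝒜 b (j + c.deg) : A) with hb'
      obtain ⟨c'', hc''⟩ : ∃ c'' : 𝒜 (j + c.deg - i), DirectSum.decompose 𝒜 c' (j + c.deg - i) =
        c'' := ⟨_, rfl⟩
      rw [hc''] at hcomp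
      have hn : u * (c'' : A) ∈ 𝒜 (m + (j + c.deg)) := by
        have := SetLike.mul_mem_graded hu c''.2
        have e : m + i + (j + c.deg - i) = m + (j + c.deg) := by omega
        rwa [e] at this
      have hdd : v * (t * (c.den : A)) ∈ 𝒜 (m + (j + c.deg)) :=
        SetLike.mul_mem_graded hv (SetLike.mul_mem_graded ht c.den.2)
      have hdP : v * (t * (c.den : A)) ∈ (idl 𝒜 P).primeCompl :=
        Submonoid.mul_mem _ hvP (Submonoid.mul_mem _ htP c.den_mem)
      let c1 : NumDenSameDeg 𝒜 (idl 𝒜 P).primeCompl :=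
        ⟨m + (j + c.deg), ⟨u * (c'' : A), hn⟩, ⟨v * (t * (c.den : A)), hdd⟩, hdP⟩
      have key : HomogeneousLocalization.mk c - w * HomogeneousLocalization.mk c1 ∈
          locIdeal 𝒜 I P := by
        unfold locIdeal
        rw [Ideal.mem_comap, HomogeneousLocalization.algebraMap_apply,
          HomogeneousLocalization.val_sub, HomogeneousLocalization.val_mul]
        simp only [w, HomogeneousLocalization.val_mk, Localization.mk_eq_mk']
        set α := algebraMap A (Localization.AtPrime (idl 𝒜 P)) with hα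
        have hu1 : IsUnit (α (t * (c.den : A))) :=
          IsLocalization.map_units (Localization.AtPrime (idl 𝒜 P))
            (⟨t * (c.den : A), Submonoid.mul_mem _ htP c.den_mem⟩ : (idl 𝒜 P).primeCompl)
        have hu2 : IsUnit (α (v * u)) :=
          IsLocalization.map_units (Localization.AtPrime (idl 𝒜 P))
            (⟨v * u, Submonoid.mul_mem _ hvP huP⟩ : (idl 𝒜 P).primeCompl)
        rw [← Ideal.mul_unit_mem_iff_mem _ hu1]
        have e1 := IsLocalization.mk'_spec (Localization.AtPrime (idl 𝒜 P)) (c.num : A)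
          (⟨(c.den : A), c.den_mem⟩ : (idl 𝒜 P).primeCompl)
        have e2 := IsLocalization.mk'_spec (Localization.AtPrime (idl 𝒜 P)) (c0.num : A)
          (⟨(c0.den : A), c0.den_mem⟩ : (idl 𝒜 P).primeCompl)
        have e3 := IsLocalization.mk'_spec (Localization.AtPrime (idl 𝒜 P)) (c1.num : A)
          (⟨(c1.den : A), c1.den_mem⟩ : (idl 𝒜 P).primeCompl)
        have e4 : b' ∈ I := hbI
        have e5 := Ideal.mem_map_of_mem α e4
        have e6 : b' = t * (c.num : A) - c'' * r := by rw [← hcomp]; ring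
        rw [e6] at e5
        change _ * α (c.den : A) = α (c.num : A) at e1
        change _ * α u = α (r * v) at e2
        change _ * α (v * (t * (c.den : A))) = α (u * (c'' : A)) at e3
        set x1 := IsLocalization.mk' (Localization.AtPrime (idl 𝒜 P)) (c.num : A)
          (⟨(c.den : A), c.den_mem⟩ : (idl 𝒜 P).primeCompl) with hx1
        set x2 := IsLocalization.mk' (Localization.AtPrime (idl 𝒜 P)) (c0.num : A)
          (⟨(c0.den : A), c0.den_mem⟩ : (idl 𝒜 P).primeCompl) with hx2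
        set x3 := IsLocalization.mk' (Localization.AtPrime (idl 𝒜 P)) (c1.num : A)
          (⟨(c1.den : A), c1.den_mem⟩ : (idl 𝒜 P).primeCompl) with hx3
        have e7 : (x1 - x2 * x3) * α (t * (c.den : A)) =
            α (t * (c.num : A) - c'' * r) := by
          apply hu2.mul_right_cancel
          simp only [map_mul, map_sub] at e1 e2 e3 ⊢
          linear_combination (α t * α v * α u) * e1 -
            (α (c'' : A) * α u) * e2 - (x2 * α u) * e3
        rw [e7]
        exact e5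
      have e : HomogeneousLocalization.mk c =
          (HomogeneousLocalization.mk c - w * HomogeneousLocalization.mk c1) +
            HomogeneousLocalization.mk c1 * w := by ring
      rw [e]
      exact add_mem (Ideal.mem_sup_left key)
        (Ideal.mem_sup_right (Ideal.mul_mem_left _ _ (Ideal.mem_span_singleton_self w)))
    · rw [DirectSum.coe_decompose_mul_of_right_mem_of_not_le 𝒜 hr hle, add_zero] at hcomp
      refine Ideal.mem_sup_left ?_
      rw [mem_locIdeal_iff hI]
      exact ⟨j, t, ht, htP, hcomp ▸ hbI⟩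
  · refine sup_le ?_ ?_
    · exact locIdeal_mono le_sup_left P
    · rw [Ideal.span_singleton_le_iff_mem, mem_locIdeal_iff (isHomogeneous_sup_span hI hr)]
      refine ⟨0, 1, SetLike.GradedOne.one_mem, ?_, ?_⟩
      · exact (Ideal.ne_top_iff_one _).1 P.isPrime.ne_top
      · rw [one_mul]
        exact Ideal.mem_sup_right (Ideal.mul_mem_right _ _ (Ideal.mem_span_singleton_self r))

end Loc

section Noeth

variable {σ A : Type} [CommRing A] [SetLike σ A] [AddSubgroupClass σ A] (𝒜 : ℕ → σ)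
  [GradedRing 𝒜]

/-- The fraction `a / s ^ i`. -/
noncomputable def sfrac (P : ProjectiveSpectrum 𝒜) {s : A} (hs : s ∈ 𝒜 1)
    (hsP : s ∉ idl 𝒜 P) (i : ℕ) (a : A) (ha : a ∈ 𝒜 i) : LR 𝒜 P :=
  HomogeneousLocalization.mk ⟨i, ⟨a, ha⟩, ⟨s ^ i, by
    simpa using SetLike.pow_mem_graded i hs⟩,
    (idl 𝒜 P).primeCompl.pow_mem hsP i⟩

theorem isNoetherianRing_LR [IsNoetherianRing A] (P : ProjectiveSpectrum 𝒜) {s : A}
    (hs : s ∈ 𝒜 1) (hsP : s ∉ idl 𝒜 P) : IsNoetherianRing (LR 𝒜 P) := by
  classical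
  refine (isNoetherianRing_iff_ideal_fg _).2 fun I => ?_
  set T : Set A := {a | ∃ (i : ℕ) (ha : a ∈ 𝒜 i), sfrac 𝒜 P hs hsP i a ha ∈ I} with hT
  obtain ⟨F, hF, hspan⟩ := (Submodule.fg_span_iff_fg_span_finset_subset T).1
    (IsNoetherian.noetherian (Ideal.span T))
  have hF' : ∀ a : F, ∃ (i : ℕ) (ha : (a : A) ∈ 𝒜 i), sfrac 𝒜 P hs hsP i a ha ∈ I :=
    fun a => hF a.2
  choose d hd hI using hF'
  refine ⟨Finset.univ.image fun a : F => sfrac 𝒜 P hs hsP (d a) a (hd a), ?_⟩
  apply le_antisymm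
  · refine Ideal.span_le.2 ?_
    intro z hz
    simp only [Finset.coe_image, Finset.coe_univ, Set.image_univ, Set.mem_range] at hz
    obtain ⟨a, rfl⟩ := hz
    exact hI a
  · intro z hz
    obtain ⟨⟨i, ⟨u, hu⟩, ⟨v, hv⟩, hvP⟩, rfl⟩ := HomogeneousLocalization.mk_surjective z
    have hw : sfrac 𝒜 P hs hsP i u hu ∈ I := by
      have : sfrac 𝒜 P hs hsP i u hu = HomogeneousLocalization.mk ⟨i, ⟨u, hu⟩, ⟨v, hv⟩, hvP⟩ *
          sfrac 𝒜 P hs hsP i v hv := by
        apply HomogeneousLocalization.val_injective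
        rw [HomogeneousLocalization.val_mul]
        simp only [sfrac, HomogeneousLocalization.val_mk]
        rw [Localization.mk_mul, Localization.mk_eq_mk_iff, Localization.r_iff_exists]
        refine ⟨1, ?_⟩
        simp only [OneMemClass.coe_one, Submonoid.coe_mul, one_mul]
        ring
      rw [this]
      exact I.mul_mem_right _ hz
    have huT : u ∈ Ideal.span (F : Set A) := by
      have : u ∈ T := ⟨i, hu, hw⟩
      have h2 : u ∈ Submodule.span A T := Submodule.subset_span this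
      rw [hspan] at h2
      exact h2
    rw [Ideal.span, Submodule.mem_span_finset] at huT
    obtain ⟨c, -, hc⟩ := huT
    -- homogeneous coefficients
    set c' : F → A := fun a => if d a ≤ i then (DirectSum.decompose 𝒜 (c a) (i - d a) : A) else 0
      with hc'
    have hc'm : ∀ a : F, c' a * s ^ (d a) ∈ 𝒜 i := by
      intro a
      by_cases h : d a ≤ i
      · have h1 : c' a ∈ 𝒜 (i - d a) := by
          simp only [hc', if_pos h]
          exact SetLike.coe_mem _
        have h2 := SetLike.mul_mem_graded h1 (SetLike.pow_mem_graded (d a) hs)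
        have e : i - d a + d a • 1 = i := by simp [Nat.sub_add_cancel h]
        rwa [e] at h2
      · have h1 : c' a = 0 := by simp only [hc', if_neg h]
        rw [h1, zero_mul]
        exact zero_mem _
    have hsum : u = ∑ a : F, c' a * a := by
      have h1 : (DirectSum.decompose 𝒜 u i : A) = u := DirectSum.decompose_of_mem_same 𝒜 hu
      rw [← h1, ← hc, DirectSum.decompose_sum, DFinsupp.finsetSum_apply,
        AddSubmonoidClass.coe_finsetSum, ← Finset.sum_coe_sort]
      refine Finset.sum_congr rfl fun a _ => ?_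
      rw [smul_eq_mul]
      by_cases h : d a ≤ i
      · simp only [hc', if_pos h]
        have h2 := DirectSum.coe_decompose_mul_of_right_mem_of_le 𝒜 (a := c a) (hd a) h
        exact h2
      · simp only [hc', if_neg h, zero_mul]
        exact DirectSum.coe_decompose_mul_of_right_mem_of_not_le 𝒜 (hd a) h
    have key : (HomogeneousLocalization.mk ⟨i, ⟨u, hu⟩, ⟨v, hv⟩, hvP⟩ : LR 𝒜 P) =
        ∑ a : F, HomogeneousLocalization.mk ⟨i, ⟨c' a * s ^ (d a), hc'm a⟩, ⟨v, hv⟩, hvP⟩ *
          sfrac 𝒜 P hs hsP (d a) a (hd a) := by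
      apply HomogeneousLocalization.val_injective
      rw [← HomogeneousLocalization.algebraMap_apply, ← HomogeneousLocalization.algebraMap_apply,
        map_sum]
      have e1 : ∀ a : F, algebraMap (LR 𝒜 P) (Localization.AtPrime (idl 𝒜 P))
          (HomogeneousLocalization.mk ⟨i, ⟨c' a * s ^ (d a), hc'm a⟩, ⟨v, hv⟩, hvP⟩ *
            sfrac 𝒜 P hs hsP (d a) a (hd a)) =
          Localization.mk (c' a * a) ⟨v, hvP⟩ := by
        intro a
        rw [map_mul]
        simp only [HomogeneousLocalization.algebraMap_apply, sfrac,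
          HomogeneousLocalization.val_mk]
        rw [Localization.mk_mul, Localization.mk_eq_mk_iff, Localization.r_iff_exists]
        refine ⟨1, ?_⟩
        simp only [OneMemClass.coe_one, Submonoid.coe_mul, one_mul]
        ring
      refine Eq.trans ?_ (Finset.sum_congr rfl fun a _ => (e1 a).symm)
      rw [HomogeneousLocalization.algebraMap_apply, HomogeneousLocalization.val_mk]
      have e2 : ∀ w : A, (Localization.mk w ⟨v, hvP⟩ : Localization.AtPrime (idl 𝒜 P)) =
          algebraMap A _ w * Localization.mk 1 ⟨v, hvP⟩ := by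
        intro w
        rw [← Localization.mk_one_eq_algebraMap, Localization.mk_mul]
        simp
      rw [e2]
      simp only [e2 (c' _ * _)]
      rw [← Finset.sum_mul, ← map_sum, ← hsum]
    rw [key]
    refine Ideal.sum_mem _ fun a _ => Ideal.mul_mem_left _ _ (Ideal.subset_span ?_)
    simp

end Noeth

section Height

variable {σ A : Type} [CommRing A] [SetLike σ A] [AddSubgroupClass σ A] {𝒜 : ℕ → σ}
  [GradedRing 𝒜]

/-- Krull's height theorem at a point of `Proj`. -/
theorem height_le_card {I : Ideal A} (hI : I.IsHomogeneous 𝒜) (P : ProjectiveSpectrum 𝒜)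
    [IsNoetherianRing (LR 𝒜 P)] (T : Finset (LR 𝒜 P))
    (hT : locIdeal 𝒜 I P = Ideal.span (T : Set (LR 𝒜 P))) (hIP : I ≤ idl 𝒜 P)
    (hfin : len 𝒜 I P ≠ ⊤) : Order.height P ≤ (T.card : ℕ∞) := by
  have h0 : locIdeal 𝒜 I P ≠ ⊤ := by
    rw [Ne, locIdeal_eq_top_iff hI, not_not]
    exact hIP
  have hmin : IsLocalRing.maximalIdeal (LR 𝒜 P) ∈ (locIdeal 𝒜 I P).minimalPrimes := by
    refine ⟨⟨inferInstance, IsLocalRing.le_maximalIdeal h0⟩, ?_⟩
    rintro q ⟨hq, hle⟩ hqm
    have h1 : Module.length (LR 𝒜 P) (LR 𝒜 P ⧸ q) ≠ ⊤ :=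
      ne_top_of_le_ne_top hfin (Module.length_le_of_surjective (Submodule.factor hle)
        (Submodule.factor_surjective _))
    rw [Module.length_ne_top_iff, isFiniteLength_iff_isNoetherian_isArtinian] at h1
    have h2 : IsArtinianRing (LR 𝒜 P ⧸ q) := isArtinian_of_tower (LR 𝒜 P) h1.2
    have h4 : IsField (LR 𝒜 P ⧸ q) := IsArtinianRing.isField_of_isDomain _
    have h5 : q.IsMaximal := Ideal.Quotient.maximal_of_isField _ h4
    rw [IsLocalRing.eq_maximalIdeal h5]
  rw [hT] at hmin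
  have h1 := Ideal.height_le_card_of_mem_minimalPrimes_span_finset hmin
  have h2 := ringKrullDim_LR 𝒜 P
  rw [← IsLocalRing.maximalIdeal_height_eq_ringKrullDim] at h2
  have h3 : (IsLocalRing.maximalIdeal (LR 𝒜 P)).height = Order.height P := by
    exact_mod_cast h2
  rw [← h3]
  exact h1

end Height

end LocCut

end Pool.Agent.SSF.Br
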