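import Pool.Agent.SSF.Br.Bc
import Pool.Agent.SSF.Br.SchA

/-!
# The map on points of `Proj` (module B2n)
-/

namespace Pool.Agent.SSF.Br

open CategoryTheory AlgebraicGeometry
open TensorProduct HomogeneousLocalization HomogeneousIdeal Graded

variable {k A : Type} [Field k] [CommRing A] [Algebra k A] (𝒜 : ℕ → Submodule k A)
  [GradedAlgebra 𝒜]

/-- Module B2n: the map on points is the map on points. -/
theorem projMap_base {B C : Type} [CommRing B] [Algebra k B] [CommRing C] [Algebra k C]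
    (φ : B →ₐ[k] C) (x : Proj (bc 𝒜 C)) :
    toPS (bc 𝒜 B) (Proj.map (bcHom 𝒜 φ) (bcHom_irr 𝒜 φ) x) = bcPt 𝒜 φ (toPS (bc 𝒜 C) x) := rfl

end Pool.Agent.SSF.Br
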