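import Pool.Agent.SSF.Br.ExtD
import Pool.Agent.SSF.Br.CxD
import Pool.Agent.SSF.Br.LocCut
import Pool.Agent.SSF.G2

/-!
# The rational equivalence of two complete intersections in a Cox ring
-/

set_option autoImplicit false

namespace Pool.Agent.SSF.Br

open AlgebraicGeometry TensorProduct HomogeneousLocalization

namespace RatC

open LocCut

section Contr

variable {k : Type} [CommRing k] {D : Cox k}

theorem contr_hom (s : Set D.R) (hs : ∀ x ∈ s, ∃ γ, x ∈ D.gR γ) :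
    (contr D s).IsHomogeneous D.gA := by
  intro n a ha
  have h1 : (Ideal.span s).IsHomogeneous D.gR := Ideal.homogeneous_span _ _ (by
    intro x hx
    exact hs x hx)
  have h2 : D.φ a ∈ Ideal.span s := ha
  change D.φ (DirectSum.decompose D.gA a n : D.A) ∈ Ideal.span s
  rw [← D.decompose_φ a n]
  exact h1 _ h2

theorem contr_mono {s t : Set D.R} (h : s ⊆ t) : contr D s ≤ contr D t :=
  Ideal.comap_mono (Ideal.span_mono h)

theorem contr_empty : contr D ∅ = ⊥ := by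
  rw [eq_bot_iff]
  intro a ha
  have h1 : D.φ a ∈ Ideal.span (∅ : Set D.R) := ha
  rw [Ideal.span_empty, Ideal.mem_bot] at h1
  rw [Ideal.mem_bot]
  exact D.φ_inj (by rw [h1, map_zero])

/-- A unit of degree `γ` at the point `P`. -/
structure UnitAt (P : D.Pt) (γ : D.Γ) where
  m : ℕ
  c : ℕ
  x : D.R
  ε : D.R
  e : D.A
  hx : x ∈ D.gR (γ + m • D.h)
  hε : ε ∈ D.gR (c • D.h - γ)
  he : e ∈ D.gA (m + c)
  heP : e ∉ idl D.gA P
  hφ : D.φ e = x * ε

theorem unitAt_nonempty (hD : D.Good) (P : D.Pt) (h1 : ∃ s ∈ D.gA 1, s ∉ idl D.gA P) (γ : D.Γ) :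
    Nonempty (UnitAt P γ) := by
  obtain ⟨m, -, x, hx, hxP⟩ := D.pt_ne_top hD P γ 0
  obtain ⟨n, z, a, hz, ha, haP, hax⟩ := Cox.G2.partner D hD P hx hxP
  obtain ⟨s, hs, hsP⟩ := h1
  have hsm : s ^ m ∈ D.gA m := by
    have := SetLike.pow_mem_graded m hs
    rwa [smul_eq_mul, mul_one] at this
  refine ⟨⟨m, n, x, z * D.φ (s ^ m), s ^ m * a, hx, ?_, SetLike.mul_mem_graded hsm ha, ?_, ?_⟩⟩
  · have h2 := SetLike.mul_mem_graded hz (D.φ_mem _ _ hsm)
    have e : n • D.h - (γ + m • D.h) + m • D.h = n • D.h - γ := by abel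
    rwa [e] at h2
  · intro h
    rcases P.isPrime.mem_or_mem h with h | h
    · exact hsP (P.isPrime.mem_of_pow_mem _ h)
    · exact haP h
  · rw [map_mul, hax]
    ring

/-- The element of `A` attached to a homogeneous element of `R` and a unit at `P`. -/
theorem exists_tilde {P : D.Pt} {γ : D.Γ} (U : UnitAt P γ) {l : D.R} (hl : l ∈ D.gR γ) :
    ∃ b ∈ D.gA U.c, D.φ b = l * U.ε := by
  apply D.φ_surj
  have := SetLike.mul_mem_graded hl U.hε
  rwa [add_sub_cancel] at this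

/-- Locally at `P` the contraction of `s ∪ {l}` is generated by the contraction of `s` and one
more element. -/
theorem locIdeal_contr_insert {P : D.Pt} {γ : D.Γ} (U : UnitAt P γ) {l : D.R}
    (hl : l ∈ D.gR γ) {s : Set D.R} (hs : ∀ x ∈ s, ∃ γ, x ∈ D.gR γ) {b : D.A}
    (hb : b ∈ D.gA U.c) (hbl : D.φ b = l * U.ε) :
    locIdeal D.gA (contr D (insert l s)) P = locIdeal D.gA (contr D s ⊔ Ideal.span {b}) P := by
  have hs' : ∀ x ∈ insert l s, ∃ γ, x ∈ D.gR γ := by
    rintro x (rfl | hx)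
    · exact ⟨γ, hl⟩
    · exact hs x hx
  have h1 := contr_hom (D := D) (insert l s) hs'
  have h2 := isHomogeneous_sup_span (contr_hom (D := D) s hs) hb
  apply le_antisymm
  · refine locIdeal_le_of h1 h2 P fun n a ha haI => ⟨_, U.e, U.he, U.heP, ?_⟩
    have h3 : D.φ a ∈ Ideal.span (insert l s) := haI
    rw [Ideal.mem_span_insert] at h3
    obtain ⟨x', r, hr, hx'⟩ := h3
    have hsh : (Ideal.span s).IsHomogeneous D.gR := Ideal.homogeneous_span _ _ hs
    have h4 : D.φ a = (DirectSum.decompose D.gR x' (n • D.h - γ) : D.R) * l +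
        (DirectSum.decompose D.gR r (n • D.h) : D.R) := by
      have e1 := DirectSum.decompose_of_mem_same D.gR (D.φ_mem n a ha)
      rw [hx', DirectSum.decompose_add] at e1
      have e2 := DirectSum.coe_decompose_mul_add_of_right_mem D.gR (i := n • D.h - γ) (a := x') hl
      rw [sub_add_cancel] at e2
      rw [← e2, hx']
      exact e1.symm
    set x'' : D.R := (DirectSum.decompose D.gR x' (n • D.h - γ) : D.R) with hx''
    have hx''m : x'' ∈ D.gR (n • D.h - γ) := SetLike.coe_mem _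
    have hr' : (DirectSum.decompose D.gR r (n • D.h) : D.R) ∈ Ideal.span s := hsh _ hr
    set r' : D.R := (DirectSum.decompose D.gR r (n • D.h) : D.R) with hr'def
    have hxx : U.x * x'' ∈ D.gR ((U.m + n) • D.h) := by
      have := SetLike.mul_mem_graded U.hx hx''m
      have e : γ + U.m • D.h + (n • D.h - γ) = (U.m + n) • D.h := by
        rw [add_smul]; abel
      rwa [e] at this
    obtain ⟨c, hc, hcx⟩ := D.φ_surj _ _ hxx
    have h5 : D.φ (U.e * a - c * b) = D.φ U.e * r' := by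
      rw [map_sub, map_mul, map_mul, hcx, hbl, h4, U.hφ]
      ring
    have h6 : U.e * a - c * b ∈ contr D s := by
      change D.φ (U.e * a - c * b) ∈ Ideal.span s
      rw [h5]
      exact Ideal.mul_mem_left _ _ hr'
    have h7 : U.e * a = (U.e * a - c * b) + c * b := by ring
    rw [h7]
    exact add_mem (Ideal.mem_sup_left h6)
      (Ideal.mem_sup_right (Ideal.mul_mem_left _ _ (Ideal.mem_span_singleton_self b)))
  · refine locIdeal_mono (sup_le (contr_mono (Set.subset_insert l s)) ?_) P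
    rw [Ideal.span_singleton_le_iff_mem]
    change D.φ b ∈ Ideal.span (insert l s)
    rw [hbl]
    exact Ideal.mul_mem_right _ _ (Ideal.subset_span (Set.mem_insert l s))

/-- The product of two units at `P`. -/
noncomputable def UnitAt.mul {P : D.Pt} {α β : D.Γ} (U : UnitAt P α) (V : UnitAt P β) :
    UnitAt P (α + β) where
  m := U.m + V.m
  c := U.c + V.c
  x := U.x * V.x
  ε := U.ε * V.ε
  e := U.e * V.e
  hx := by
    have := SetLike.mul_mem_graded U.hx V.hx
    have e : α + U.m • D.h + (β + V.m • D.h) = α + β + (U.m + V.m) • D.h := by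
      rw [add_smul]; abel
    rwa [e] at this
  hε := by
    have := SetLike.mul_mem_graded U.hε V.hε
    have e : U.c • D.h - α + (V.c • D.h - β) = (U.c + V.c) • D.h - (α + β) := by
      rw [add_smul]; abel
    rwa [e] at this
  he := by
    have := SetLike.mul_mem_graded U.he V.he
    have e : U.m + U.c + (V.m + V.c) = U.m + V.m + (U.c + V.c) := by ring
    rwa [e] at this
  heP := by
    intro h
    rcases P.isPrime.mem_or_mem h with h | h
    · exact U.heP h
    · exact V.heP h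
  hφ := by
    rw [map_mul, U.hφ, V.hφ]
    ring

/-- The trivial unit of degree `i h` at `P`. -/
noncomputable def unitTriv (P : D.Pt) {s : D.A} (hs : s ∈ D.gA 1) (hsP : s ∉ idl D.gA P)
    (i : ℕ) : UnitAt P (i • D.h) where
  m := 0
  c := i
  x := D.φ (s ^ i)
  ε := 1
  e := s ^ i
  hx := by
    have := SetLike.pow_mem_graded i hs
    rw [smul_eq_mul, mul_one] at this
    have h2 := D.φ_mem _ _ this
    rwa [zero_smul, add_zero]
  hε := by
    rw [sub_self]
    exact SetLike.one_mem_graded D.gR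
  he := by
    have := SetLike.pow_mem_graded i hs
    rw [smul_eq_mul, mul_one] at this
    rwa [zero_add]
  heP := fun h => hsP (P.isPrime.mem_of_pow_mem _ h)
  hφ := by rw [mul_one]

theorem gen_of {P : D.Pt} (h1 : ∃ s ∈ D.gA 1, s ∉ idl D.gA P) :
    ∃ i, ∃ s ∈ D.gA i, ∃ t ∈ D.gA (i + 1), s ∉ idl D.gA P ∧ t ∉ idl D.gA P := by
  obtain ⟨s, hs, hsP⟩ := h1
  exact ⟨0, 1, SetLike.GradedOne.one_mem, s, hs, (Ideal.ne_top_iff_one _).1 P.isPrime.ne_top, hsP⟩

theorem hom_pair {α β : D.Γ} {w g : D.R} (hw : w ∈ D.gR α) (hg : g ∈ D.gR β) :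
    ∀ x ∈ ({w, g} : Set D.R), ∃ γ, x ∈ D.gR γ := by
  rintro x (rfl | rfl)
  · exact ⟨_, hw⟩
  · exact ⟨_, hg⟩

theorem hom_single {β : D.Γ} {g : D.R} (hg : g ∈ D.gR β) :
    ∀ x ∈ ({g} : Set D.R), ∃ γ, x ∈ D.gR γ := by
  rintro x rfl
  exact ⟨_, hg⟩

/-- Multiplicativity of the length of the cut of `y = V(g)`. -/
theorem len_mul (hD : D.Good) (P : D.Pt) (h1 : ∃ s ∈ D.gA 1, s ∉ idl D.gA P) {y : D.Pt}
    {χ α β ζ : D.Γ} {g w w' z : D.R} (hg : g ∈ D.gR χ) (hy : idl D.gA y = contr D {g})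
    (hw : w ∈ D.gR α) (hw' : w' ∈ D.gR β) (hz : z ∈ D.gR ζ) {i : ℕ} {a : D.A}
    (ha : a ∈ D.gA i) (hay : a ∉ idl D.gA y) (ea : D.φ a = w * w' * z) :
    len D.gA (contr D {w * w', g}) P =
      len D.gA (contr D {w, g}) P + len D.gA (contr D {w', g}) P := by
  have hww : w * w' ∈ D.gR (α + β) := SetLike.mul_mem_graded hw hw'
  by_cases hyP : idl D.gA y ≤ idl D.gA P
  · obtain ⟨U⟩ := unitAt_nonempty hD P h1 α
    obtain ⟨V⟩ := unitAt_nonempty hD P h1 β
    obtain ⟨b, hb, hbw⟩ := exists_tilde U hw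
    obtain ⟨b', hb', hbw'⟩ := exists_tilde V hw'
    have e1 := locIdeal_contr_insert U hw (hom_single hg) hb hbw
    have e2 := locIdeal_contr_insert V hw' (hom_single hg) hb' hbw'
    have e3 := locIdeal_contr_insert (U.mul V) hww (hom_single hg)
      (b := b * b') (SetLike.mul_mem_graded hb hb') (by
        rw [map_mul, hbw, hbw']
        change _ = w * w' * (U.ε * V.ε)
        ring)
    rw [← hy] at e1 e2 e3
    rw [len_congr e1, len_congr e2, len_congr e3]
    refine len_mul_span (gen_of h1) hb hb' ?_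
    intro hby
    have hne : D.φ a ≠ 0 := by
      intro h
      apply hay
      have : a = 0 := D.φ_inj (by rw [h, map_zero])
      rw [this]
      exact Ideal.zero_mem _
    have hdeg : α + β + ζ = i • D.h := by
      have h3 : D.φ a ∈ D.gR (α + β + ζ) := by
        rw [ea]
        exact SetLike.mul_mem_graded hww hz
      exact DirectSum.degree_eq_of_mem_mem D.gR h3 (D.φ_mem _ _ ha) hne
    have hX : U.x * V.x * z ∈ D.gR ((i + U.m + V.m) • D.h) := by
      have := SetLike.mul_mem_graded (SetLike.mul_mem_graded U.hx V.hx) hz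
      have e : α + U.m • D.h + (β + V.m • D.h) + ζ = (i + U.m + V.m) • D.h := by
        rw [add_smul, add_smul, ← hdeg]; abel
      rwa [e] at this
    obtain ⟨X, hXm, hXe⟩ := D.φ_surj _ _ hX
    have h4 : U.e * V.e * a = b * b' * X := by
      apply D.φ_inj
      rw [map_mul, map_mul, map_mul, map_mul, U.hφ, V.hφ, ea, hbw, hbw', hXe]
      ring
    have h5 : U.e * V.e * a ∈ idl D.gA y := by
      rw [h4, mul_assoc]
      exact Ideal.mul_mem_right _ _ hby
    rcases y.isPrime.mem_or_mem h5 with h5 | h5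
    · rcases y.isPrime.mem_or_mem h5 with h5 | h5
      · exact U.heP (hyP h5)
      · exact V.heP (hyP h5)
    · exact hay h5
  · have hle : ∀ w : D.R, ¬ contr D {w, g} ≤ idl D.gA P := by
      intro w h
      apply hyP
      rw [hy]
      exact (contr_mono (by simp)).trans h
    rw [(len_eq_zero_iff (contr_hom _ (hom_pair hww hg)) P).2 (hle _),
      (len_eq_zero_iff (contr_hom _ (hom_pair hw hg)) P).2 (hle _),
      (len_eq_zero_iff (contr_hom _ (hom_pair hw' hg)) P).2 (hle _), add_zero]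

/-- The cut by an element of `A`. -/
theorem len_phi (P : D.Pt) (h1 : ∃ s ∈ D.gA 1, s ∉ idl D.gA P) {y : D.Pt}
    {χ : D.Γ} {g : D.R} (hg : g ∈ D.gR χ) (hy : idl D.gA y = contr D {g}) {i : ℕ} {a : D.A}
    (ha : a ∈ D.gA i) :
    len D.gA (idl D.gA y ⊔ Ideal.span {a}) P = len D.gA (contr D {D.φ a, g}) P := by
  obtain ⟨s, hs, hsP⟩ := h1
  have e1 := locIdeal_contr_insert (unitTriv P hs hsP i) (D.φ_mem _ _ ha) (hom_single hg)
    (b := a) ha (by change D.φ a = D.φ a * 1; rw [mul_one])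
  rw [← hy] at e1
  rw [len_congr e1]

/-- The generic point. -/
def generic [IsDomain D.A] (P : D.Pt) : D.Pt where
  asHomogeneousIdeal := ⟨⊥, Ideal.IsHomogeneous.bot D.gA⟩
  isPrime := Ideal.isPrime_bot
  not_irrelevant_le := fun h => P.not_irrelevant_le
    (h.trans (fun _ hx => by
      have h1 : _ = (0 : D.A) := hx
      rw [h1]
      exact P.asHomogeneousIdeal.toIdeal.zero_mem))

theorem idl_generic [IsDomain D.A] (P : D.Pt) : idl D.gA (generic P) = ⊥ := rfl

theorem generic_lt [IsDomain D.A] {P : D.Pt} (h : ∃ x ∈ idl D.gA P, x ≠ 0) :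
    generic P < P := by
  obtain ⟨x, hx, hx0⟩ := h
  refine lt_of_le_of_ne ?_ ?_
  · intro z hz
    have h1 : z = (0 : D.A) := hz
    rw [h1]
    exact (idl D.gA P).zero_mem
  · intro h
    have h1 : idl D.gA (generic P) = idl D.gA P := by rw [h]
    rw [← h1, idl_generic, Ideal.mem_bot] at hx
    exact hx0 hx

end Contr

section Height

variable {k : Type} [CommRing k] {D : Cox k}

theorem two_le_height [IsDomain D.A] {y P : D.Pt} (h0 : ∃ x ∈ idl D.gA y, x ≠ 0) (h : y < P) :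
    2 ≤ Order.height P := by
  have h1 : generic y < y := generic_lt h0
  have h2 : Order.height (generic y) + 1 ≤ Order.height y := Order.height_add_one_le h1
  have h3 : Order.height y + 1 ≤ Order.height P := Order.height_add_one_le h
  calc (2 : ℕ∞) = 0 + 1 + 1 := by norm_num
    _ ≤ Order.height (generic y) + 1 + 1 := by gcongr; exact bot_le
    _ ≤ Order.height y + 1 := by gcongr
    _ ≤ Order.height P := h3

theorem one_le_height [IsDomain D.A] {y : D.Pt} (h0 : ∃ x ∈ idl D.gA y, x ≠ 0) :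
    1 ≤ Order.height y := by
  have h1 : generic y < y := generic_lt h0
  have h2 : Order.height (generic y) + 1 ≤ Order.height y := Order.height_add_one_le h1
  exact le_trans (by simp) h2

theorem locIdeal_principal (hD : D.Good) {y : D.Pt} {χ : D.Γ} {g : D.R} (hg : g ∈ D.gR χ)
    (hy : idl D.gA y = contr D {g}) (P : D.Pt) (h1 : ∃ s ∈ D.gA 1, s ∉ idl D.gA P) :
    ∃ w : LR D.gA P, locIdeal D.gA (idl D.gA y) P = Ideal.span {w} := by
  obtain ⟨U⟩ := unitAt_nonempty hD P h1 χ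
  obtain ⟨b, hb, hbg⟩ := exists_tilde U hg
  have e1 := locIdeal_contr_insert U hg (s := ∅) (by simp) hb hbg
  rw [contr_empty, insert_empty_eq, ← hy] at e1
  obtain ⟨w, hw⟩ := locIdeal_sup_span (Ideal.IsHomogeneous.bot D.gA) hb P (gen_of h1)
  exact ⟨w, by rw [e1, hw, locIdeal_bot, bot_sup_eq]⟩

theorem height_eq_one [IsDomain D.A] [IsNoetherianRing D.A] (hD : D.Good) {y : D.Pt} {χ : D.Γ}
    {g : D.R} (hg : g ∈ D.gR χ) (hy : idl D.gA y = contr D {g})
    (h0 : ∃ x ∈ idl D.gA y, x ≠ 0) (h1 : ∃ s ∈ D.gA 1, s ∉ idl D.gA y) :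
    Order.height y = 1 := by
  apply le_antisymm ?_ (one_le_height h0)
  obtain ⟨w, hw⟩ := locIdeal_principal hD hg hy y h1
  obtain ⟨s, hs, hsP⟩ := h1
  have := LocCut.isNoetherianRing_LR D.gA y hs hsP
  have h2 := height_le_card y.asHomogeneousIdeal.isHomogeneous y {w} (by
    rw [Finset.coe_singleton]; exact hw) le_rfl (by
      change len D.gA (idl D.gA y) y ≠ ⊤
      rw [len_self]; simp)
  rw [Finset.card_singleton] at h2
  exact_mod_cast h2

theorem cut_ne_top [IsDomain D.A] [IsNoetherianRing D.A] {y P : D.Pt}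
    (h0 : ∃ x ∈ idl D.gA y, x ≠ 0) (h1 : ∃ s ∈ D.gA 1, s ∉ idl D.gA P) {i : ℕ} {a : D.A}
    (ha : a ∈ D.gA i) (hay : a ∉ idl D.gA y) (hP : Order.height P = 2) :
    len D.gA (idl D.gA y ⊔ Ideal.span {a}) P ≠ ⊤ := by
  refine len_ne_top P (gen_of h1) _
    (isHomogeneous_sup_span y.asHomogeneousIdeal.isHomogeneous ha) fun Q hQ hQP => ?_
  have hyQ : y < Q := by
    refine lt_of_le_of_ne (le_sup_left.trans hQ) ?_
    rintro rfl
    exact hay (hQ (Ideal.mem_sup_right (Ideal.mem_span_singleton_self a)))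
  by_contra hne
  have h2 := two_le_height h0 hyQ
  have h3 := Order.height_add_one_le (lt_of_le_of_ne hQP hne)
  rw [hP] at h3
  have h4 : (2 : ℕ∞) + 1 ≤ 2 := le_trans (by gcongr) h3
  exact absurd h4 (by decide)

theorem cut_toNat [IsDomain D.A] [IsNoetherianRing D.A] (hD : D.Good) {y P : D.Pt} {χ : D.Γ}
    {g : D.R} (hg : g ∈ D.gR χ) (hy : idl D.gA y = contr D {g})
    (h0 : ∃ x ∈ idl D.gA y, x ≠ 0) (h1 : ∃ s ∈ D.gA 1, s ∉ idl D.gA P) {i : ℕ} {a : D.A}
    (ha : a ∈ D.gA i) (hay : a ∉ idl D.gA y) (hP : Order.height P ≠ 2) :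
    (len D.gA (idl D.gA y ⊔ Ideal.span {a}) P).toNat = 0 := by
  classical
  by_contra hne
  rw [ENat.toNat_eq_zero, not_or] at hne
  have hhom := isHomogeneous_sup_span y.asHomogeneousIdeal.isHomogeneous ha
  have hle : idl D.gA y ⊔ Ideal.span {a} ≤ idl D.gA P := by
    by_contra h
    exact hne.1 ((len_eq_zero_iff hhom P).2 h)
  have hyP : y < P := by
    refine lt_of_le_of_ne (le_sup_left.trans hle) ?_
    rintro rfl
    exact hay (hle (Ideal.mem_sup_right (Ideal.mem_span_singleton_self a)))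
  apply hP
  apply le_antisymm ?_ (two_le_height h0 hyP)
  obtain ⟨w, hw⟩ := locIdeal_principal hD hg hy P h1
  obtain ⟨w', hw'⟩ := locIdeal_sup_span y.asHomogeneousIdeal.isHomogeneous ha P (gen_of h1)
  obtain ⟨s, hs, hsP⟩ := h1
  have := LocCut.isNoetherianRing_LR D.gA P hs hsP
  have h2 := height_le_card hhom P {w, w'} (by
    rw [Finset.coe_insert, Finset.coe_singleton, Ideal.span_insert]
    have h3 : locIdeal D.gA (idl D.gA y ⊔ Ideal.span {a}) P =
      locIdeal D.gA (idl D.gA y) P ⊔ Ideal.span {w'} := hw'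
    rw [h3, hw]) hle hne.2
  refine h2.trans ?_
  have h4 : ({w, w'} : Finset (LR D.gA P)).card ≤ 2 := Finset.card_le_two
  exact_mod_cast h4

theorem exists_cyc [IsNoetherianRing D.A] (h1 : ∀ P : D.Pt, ∃ s ∈ D.gA 1, s ∉ idl D.gA P)
    (y : D.Pt) {i j : ℕ} {a b : D.A} (ha : a ∈ D.gA i) (hb : b ∈ D.gA j) :
    ∃ c : D.Pt →₀ ℤ, ∀ P, c P = ((len D.gA (idl D.gA y ⊔ Ideal.span {a}) P).toNat : ℤ) -
      (len D.gA (idl D.gA y ⊔ Ideal.span {b}) P).toNat := by
  have hgen := fun P => gen_of (h1 P)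
  have f1 := finite_support_len hgen
    (isHomogeneous_sup_span y.asHomogeneousIdeal.isHomogeneous ha)
  have f2 := finite_support_len hgen
    (isHomogeneous_sup_span y.asHomogeneousIdeal.isHomogeneous hb)
  refine ⟨Finsupp.ofSupportFinite (fun P => ((len D.gA (idl D.gA y ⊔ Ideal.span {a}) P).toNat : ℤ) -
      (len D.gA (idl D.gA y ⊔ Ideal.span {b}) P).toNat) ((f1.union f2).subset ?_), fun P => rfl⟩
  intro P hP
  by_contra hcon
  rw [Set.mem_union, not_or, Function.mem_support, Function.mem_support, not_not, not_not] at hcon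
  apply hP
  have e1 : (len D.gA (idl D.gA y ⊔ Ideal.span {a}) P).toNat = 0 := hcon.1
  have e2 : (len D.gA (idl D.gA y ⊔ Ideal.span {b}) P).toNat = 0 := hcon.2
  simp only [e1, e2, sub_self, Nat.cast_zero]

theorem cyc2_val {σ A : Type} [CommRing A] [SetLike σ A] [AddSubgroupClass σ A] (𝒜 : ℕ → σ)
    [GradedRing 𝒜] [IsNoetherianRing A]
    (hgen : ∀ P : ProjectiveSpectrum 𝒜, ∃ i, ∃ s ∈ 𝒜 i, ∃ t ∈ 𝒜 (i + 1),
      s ∉ idl 𝒜 P ∧ t ∉ idl 𝒜 P)
    (I : Ideal A) (hI : I.IsHomogeneous 𝒜) (P : ProjectiveSpectrum 𝒜) :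
    cyc2 𝒜 I P = coef2 𝒜 I P := by
  have hfin : (Function.support (coef2 𝒜 I)).Finite := by
    refine (finite_support_len hgen hI).subset ?_
    intro Q hQ hcon
    apply hQ
    have e : (len 𝒜 I Q).toNat = 0 := hcon
    unfold coef2
    rw [e]
    simp
  unfold cyc2
  rw [dif_pos hfin]
  rfl

/-- The cut by an element of `A` which factors as `w * w'` in `R`. -/
theorem cut_two (hD : D.Good) (P : D.Pt) (h1 : ∃ s ∈ D.gA 1, s ∉ idl D.gA P) {y : D.Pt}
    {χ α β : D.Γ} {g w w' : D.R} (hg : g ∈ D.gR χ) (hy : idl D.gA y = contr D {g})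
    (hw : w ∈ D.gR α) (hw' : w' ∈ D.gR β) {i : ℕ} {a : D.A}
    (ha : a ∈ D.gA i) (hay : a ∉ idl D.gA y) (ea : D.φ a = w * w') :
    len D.gA (idl D.gA y ⊔ Ideal.span {a}) P =
      len D.gA (contr D {w, g}) P + len D.gA (contr D {w', g}) P := by
  rw [len_phi P h1 hg hy ha, ea]
  exact len_mul hD P h1 hg hy hw hw' (SetLike.one_mem_graded D.gR) ha hay (by rw [ea, mul_one])

/-- The cut by an element of `A` which factors as `w ^ 2 * w'` in `R`. -/
theorem cut_three (hD : D.Good) (P : D.Pt) (h1 : ∃ s ∈ D.gA 1, s ∉ idl D.gA P) {y : D.Pt}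
    {χ α β : D.Γ} {g w w' : D.R} (hg : g ∈ D.gR χ) (hy : idl D.gA y = contr D {g})
    (hw : w ∈ D.gR α) (hw' : w' ∈ D.gR β) {i : ℕ} {a : D.A}
    (ha : a ∈ D.gA i) (hay : a ∉ idl D.gA y) (ea : D.φ a = w ^ 2 * w') :
    len D.gA (idl D.gA y ⊔ Ideal.span {a}) P =
      len D.gA (contr D {w, g}) P + len D.gA (contr D {w, g}) P +
        len D.gA (contr D {w', g}) P := by
  rw [cut_two hD P h1 hg hy (SetLike.mul_mem_graded hw hw) hw' ha hay (by rw [ea, pow_two]),
    len_mul hD P h1 hg hy hw hw hw' ha hay (by rw [ea, pow_two])]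

end Height

end RatC

open RatC in
/-- Module X5: the rational equivalence `z = (div_{V₁} - div_{V₂})(l / u²) + div_U(g₁² / g₂²)`. -/
theorem rat_contr {k : Type} [Field k] (D : Cox k) (hD : D.Good) [IsDomain D.A]
    (h1 : ∀ P : D.Pt, ∃ s ∈ D.gA 1, s ∉ idl D.gA P)
    {χ₁ χ₂ χu χl μ μ' : D.Γ} {g₁ g₂ u l m m' : D.R} (hg₁ : g₁ ∈ D.gR χ₁) (hg₂ : g₂ ∈ D.gR χ₂)
    (hu : u ∈ D.gR χu) (hl : l ∈ D.gR χl) (hm : m ∈ D.gR μ) (hm' : m' ∈ D.gR μ')
    {i j : ℕ} {a b a' b' : D.A} (ha : a ∈ D.gA i) (hb : b ∈ D.gA i) (ha' : a' ∈ D.gA j)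
    (hb' : b' ∈ D.gA j) (ea : D.φ a = l * m) (eb : D.φ b = u ^ 2 * m)
    (ea' : D.φ a' = g₁ ^ 2 * m') (eb' : D.φ b' = g₂ ^ 2 * m')
    (y₁ y₂ yu : D.Pt) (hy₁ : idl D.gA y₁ = contr D {g₁}) (hy₂ : idl D.gA y₂ = contr D {g₂})
    (hyu : idl D.gA yu = contr D {u})
    (ha₁ : a ∉ idl D.gA y₁) (hb₁ : b ∉ idl D.gA y₁) (ha₂ : a ∉ idl D.gA y₂)
    (hb₂ : b ∉ idl D.gA y₂) (hau : a' ∉ idl D.gA yu) (hbu : b' ∉ idl D.gA yu) :
    cyc2 D.gA (contr D {g₁, l}) - cyc2 D.gA (contr D {g₂, l}) ∈ RatA D.gA := by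
  classical
  have hft := hD.ftA
  have hNoe : IsNoetherianRing D.A := Algebra.FiniteType.isNoetherianRing k D.A
  have hgen := fun P => gen_of (h1 P)
  have nz : ∀ {y : D.Pt} {x : D.A}, x ∉ idl D.gA y → x ≠ 0 := by
    rintro y x hx rfl
    exact hx (Ideal.zero_mem _)
  have hn₁ : ∃ x ∈ idl D.gA y₁, x ≠ 0 := by
    refine ⟨a', ?_, nz hau⟩
    rw [hy₁]
    change D.φ a' ∈ Ideal.span {g₁}
    rw [ea', pow_two, mul_assoc]
    exact Ideal.mul_mem_right _ _ (Ideal.mem_span_singleton_self _)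
  have hn₂ : ∃ x ∈ idl D.gA y₂, x ≠ 0 := by
    refine ⟨b', ?_, nz hbu⟩
    rw [hy₂]
    change D.φ b' ∈ Ideal.span {g₂}
    rw [eb', pow_two, mul_assoc]
    exact Ideal.mul_mem_right _ _ (Ideal.mem_span_singleton_self _)
  have hnu : ∃ x ∈ idl D.gA yu, x ≠ 0 := by
    refine ⟨b, ?_, nz hb₁⟩
    rw [hyu]
    change D.φ b ∈ Ideal.span {u}
    rw [eb, pow_two, mul_assoc]
    exact Ideal.mul_mem_right _ _ (Ideal.mem_span_singleton_self _)
  obtain ⟨c₁, hc₁⟩ := exists_cyc h1 y₁ ha hb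
  obtain ⟨c₂, hc₂⟩ := exists_cyc h1 y₂ ha hb
  obtain ⟨cu, hcu⟩ := exists_cyc h1 yu ha' hb'
  have m₁ : c₁ ∈ RatA D.gA := AddSubgroup.subset_closure
    ⟨y₁, i, a, b, height_eq_one hD hg₁ hy₁ hn₁ (h1 y₁), ha, hb, ha₁, hb₁, hc₁⟩
  have m₂ : c₂ ∈ RatA D.gA := AddSubgroup.subset_closure
    ⟨y₂, i, a, b, height_eq_one hD hg₂ hy₂ hn₂ (h1 y₂), ha, hb, ha₂, hb₂, hc₂⟩
  have mu : cu ∈ RatA D.gA := AddSubgroup.subset_closure
    ⟨yu, j, a', b', height_eq_one hD hu hyu hnu (h1 yu), ha', hb', hau, hbu, hcu⟩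
  have key : cyc2 D.gA (contr D {g₁, l}) - cyc2 D.gA (contr D {g₂, l}) = c₁ - c₂ + cu := by
    ext P
    rw [Finsupp.sub_apply, Finsupp.add_apply, Finsupp.sub_apply, hc₁, hc₂, hcu,
      cyc2_val D.gA hgen _ (contr_hom _ (hom_pair hg₁ hl)),
      cyc2_val D.gA hgen _ (contr_hom _ (hom_pair hg₂ hl))]
    unfold coef2
    by_cases hP : Order.height P = 2
    · rw [if_pos hP, if_pos hP]
      have t1 := cut_ne_top hn₁ (h1 P) ha ha₁ hP
      have t2 := cut_ne_top hn₁ (h1 P) hb hb₁ hP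
      have t3 := cut_ne_top hn₂ (h1 P) ha ha₂ hP
      have t4 := cut_ne_top hn₂ (h1 P) hb hb₂ hP
      have t5 := cut_ne_top hnu (h1 P) ha' hau hP
      have t6 := cut_ne_top hnu (h1 P) hb' hbu hP
      rw [cut_two hD P (h1 P) hg₁ hy₁ hl hm ha ha₁ ea] at t1 ⊢
      rw [cut_three hD P (h1 P) hg₁ hy₁ hu hm hb hb₁ eb] at t2 ⊢
      rw [cut_two hD P (h1 P) hg₂ hy₂ hl hm ha ha₂ ea] at t3 ⊢
      rw [cut_three hD P (h1 P) hg₂ hy₂ hu hm hb hb₂ eb] at t4 ⊢
      rw [cut_three hD P (h1 P) hu hyu hg₁ hm' ha' hau ea'] at t5 ⊢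
      rw [cut_three hD P (h1 P) hu hyu hg₂ hm' hb' hbu eb'] at t6 ⊢
      rw [Set.pair_comm g₁ l, Set.pair_comm g₂ l, Set.pair_comm g₁ u, Set.pair_comm g₂ u]
      rw [Set.pair_comm g₁ u] at t5
      rw [Set.pair_comm g₂ u] at t6
      generalize len D.gA (contr D {l, g₁}) P = x1 at *
      generalize len D.gA (contr D {m, g₁}) P = x2 at *
      generalize len D.gA (contr D {u, g₁}) P = x3 at *
      generalize len D.gA (contr D {l, g₂}) P = x4 at *
      generalize len D.gA (contr D {m, g₂}) P = x5 at *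
      generalize len D.gA (contr D {u, g₂}) P = x6 at *
      generalize len D.gA (contr D {m', u}) P = x7 at *
      have s1 := WithTop.add_ne_top.1 t1
      have s2 := WithTop.add_ne_top.1 t2
      have s3 := WithTop.add_ne_top.1 t3
      have s4 := WithTop.add_ne_top.1 t4
      have s5 := WithTop.add_ne_top.1 t5
      have s6 := WithTop.add_ne_top.1 t6
      have s2' := WithTop.add_ne_top.1 s2.1
      have s4' := WithTop.add_ne_top.1 s4.1
      have r1 := s1.1
      have r2 := s1.2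
      have r3 := s2'.1
      have r4 := s3.1
      have r5 := s3.2
      have r6 := s4'.1
      have r7 := s5.2
      clear s1 s2 s3 s4 s5 s6 s2' s4' t1 t2 t3 t4 t5 t6
      lift x1 to ℕ using r1
      lift x2 to ℕ using r2
      lift x3 to ℕ using r3
      lift x4 to ℕ using r4
      lift x5 to ℕ using r5
      lift x6 to ℕ using r6
      lift x7 to ℕ using r7
      have q1 : ((x1 : ℕ∞) + x2).toNat = x1 + x2 := by exact_mod_cast ENat.toNat_natCast _
      have q2 : ((x3 : ℕ∞) + x3 + x2).toNat = x3 + x3 + x2 := by exact_mod_cast ENat.toNat_natCast _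
      have q3 : ((x4 : ℕ∞) + x5).toNat = x4 + x5 := by exact_mod_cast ENat.toNat_natCast _
      have q4 : ((x6 : ℕ∞) + x6 + x5).toNat = x6 + x6 + x5 := by exact_mod_cast ENat.toNat_natCast _
      have q5 : ((x3 : ℕ∞) + x3 + x7).toNat = x3 + x3 + x7 := by exact_mod_cast ENat.toNat_natCast _
      have q6 : ((x6 : ℕ∞) + x6 + x7).toNat = x6 + x6 + x7 := by exact_mod_cast ENat.toNat_natCast _
      rw [q1, q2, q3, q4, q5, q6, ENat.toNat_natCast, ENat.toNat_natCast]
      push_cast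
      ring
    · rw [if_neg hP, if_neg hP, cut_toNat hD hg₁ hy₁ hn₁ (h1 P) ha ha₁ hP,
        cut_toNat hD hg₁ hy₁ hn₁ (h1 P) hb hb₁ hP, cut_toNat hD hg₂ hy₂ hn₂ (h1 P) ha ha₂ hP,
        cut_toNat hD hg₂ hy₂ hn₂ (h1 P) hb hb₂ hP, cut_toNat hD hu hyu hnu (h1 P) ha' hau hP,
        cut_toNat hD hu hyu hnu (h1 P) hb' hbu hP]
      simp
  rw [key]
  exact AddSubgroup.add_mem _ (AddSubgroup.sub_mem _ m₁ m₂) mu

end Pool.Agent.SSF.Br
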