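import Pool.Agent.SSF.Br.Ext
import Pool.Agent.SSF.Br.CxA
import Pool.Agent.SSF.Br.CxEq
import Pool.Agent.SSF.Br.RatC

/-!
# The final criterion in terms of Cox data
-/

namespace Pool.Agent.SSF.Br

open TensorProduct

section OfCox

/-- The contraction in the big Cox ring. -/
theorem map_inclI_contr {F : Type} [Field F] (D : Cox F) (D' : Cox (AlgebraicClosure F))
    (E : Cox.Emb (D.bc (AlgebraicClosure F)) D') {g l : D.R} (hg : ∃ γ, g ∈ D.gR γ)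
    (hl : ∃ γ, l ∈ D.gR γ) :
    (inclI F (AlgebraicClosure F) (contr D {g, l})).map (E.α : _ →+* D'.A) =
      contr D' {E.ψ (1 ⊗ₜ g), E.ψ (1 ⊗ₜ l)} := by
  rw [inclI_contr]
  have h1 : ∀ x ∈ ((Algebra.TensorProduct.includeRight :
      D.R →ₐ[F] AlgebraicClosure F ⊗[F] D.R) '' ({g, l} : Set D.R)),
      ∃ γ, x ∈ (D.bc (AlgebraicClosure F)).gR γ := by
    rintro x ⟨y, hy, rfl⟩
    rcases hy with rfl | hy
    · obtain ⟨γ, h⟩ := hg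
      exact ⟨γ, Submodule.tmul_mem_baseChange_of_mem _ h⟩
    · rw [Set.mem_singleton_iff] at hy
      subst hy
      obtain ⟨γ, h⟩ := hl
      exact ⟨γ, Submodule.tmul_mem_baseChange_of_mem _ h⟩
  refine (contr_emb E _ h1).trans ?_
  rw [Set.image_pair, Set.image_pair]
  rfl

/-- The final criterion in terms of Cox data. -/
theorem answer_of_cox {F : Type} [Field F] [Finite F] (D : Cox F) (hX : IsNice (projOver D.gA))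
    (G : Geom D.gA) (n : Fˣ) (hn : ¬ IsSquare (n : F)) (Φ : Datum D.gA n)
    (D' : Cox (AlgebraicClosure F)) (E : Cox.Emb (D.bc (AlgebraicClosure F)) D')
    (hD' : D'.Good) [IsDomain D'.A] (h1 : ∀ P : D'.Pt, ∃ s ∈ D'.gA 1, s ∉ idl D'.gA P)
    {g₁ g₂ l : D.R} (hg₁ : ∃ γ, g₁ ∈ D.gR γ) (hg₂ : ∃ γ, g₂ ∈ D.gR γ) (hl : ∃ γ, l ∈ D.gR γ)
    {u m m' : D'.R} (hu : ∃ γ, u ∈ D'.gR γ) (hm : ∃ γ, m ∈ D'.gR γ) (hm' : ∃ γ, m' ∈ D'.gR γ)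
    {i j : ℕ} {a b a' b' : D'.A} (ha : a ∈ D'.gA i) (hb : b ∈ D'.gA i) (ha' : a' ∈ D'.gA j)
    (hb' : b' ∈ D'.gA j) (ea : D'.φ a = E.ψ (1 ⊗ₜ l) * m) (eb : D'.φ b = u ^ 2 * m)
    (ea' : D'.φ a' = E.ψ (1 ⊗ₜ g₁) ^ 2 * m') (eb' : D'.φ b' = E.ψ (1 ⊗ₜ g₂) ^ 2 * m')
    (y₁ y₂ yu : D'.Pt) (hy₁ : idl D'.gA y₁ = contr D' {E.ψ (1 ⊗ₜ g₁)})
    (hy₂ : idl D'.gA y₂ = contr D' {E.ψ (1 ⊗ₜ g₂)}) (hyu : idl D'.gA yu = contr D' {u})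
    (ha₁ : a ∉ idl D'.gA y₁) (hb₁ : b ∉ idl D'.gA y₁) (ha₂ : a ∉ idl D'.gA y₂)
    (hb₂ : b ∉ idl D'.gA y₂) (hau : a' ∉ idl D'.gA yu) (hbu : b' ∉ idl D'.gA yu)
    (hI₁ : Φ.φ F (inclI F F (contr D {g₁, l})) = sq n)
    (hI₂ : Φ.φ F (inclI F F (contr D {g₂, l})) = 1) : Answer := by
  have key : ∀ (g : D.R), (∃ γ, g ∈ D.gR γ) → ∀ (y : D'.Pt),
      idl D'.gA y = contr D' {E.ψ (1 ⊗ₜ g)} → a ∉ idl D'.gA y →
      contr D' {E.ψ (1 ⊗ₜ g)} ≠ ⊥ →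
      ∀ P : ProjectiveSpectrum D.gA, contr D {g, l} ≤ idl D.gA P → 2 ≤ Order.height P := by
    intro g hg y hy hay hne P hP
    obtain ⟨P', rfl⟩ := inclPt_surjective D.gA (AlgebraicClosure F) P
    rw [height_inclPt]
    obtain ⟨Q, hQ⟩ := (CxEq.ptE E.α E.α_mem).surjective P'
    have hQ' : CxEq.pt E.α E.α_mem Q = P' := hQ
    rw [← hQ', CxEq.height_pt E.α E.α_mem Q]
    refine height_contr D' y _ (E.ψ (1 ⊗ₜ l)) hy hne a m ea hay Q ?_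
    rw [← map_inclI_contr D D' E hg hl, Ideal.map_le_iff_le_comap, Ideal.map_le_iff_le_comap]
    intro x hx
    have h2 := hP hx
    rw [← hQ'] at h2
    exact h2
  have ne₁ : contr D' {E.ψ (1 ⊗ₜ g₁)} ≠ ⊥ := by
    intro h
    have h2 : a' ∈ contr D' {E.ψ (1 ⊗ₜ g₁)} := by
      change D'.φ a' ∈ Ideal.span {E.ψ (1 ⊗ₜ g₁)}
      rw [ea', pow_two, mul_assoc]
      exact Ideal.mul_mem_right _ _ (Ideal.mem_span_singleton_self _)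
    rw [h, Ideal.mem_bot] at h2
    exact hau (h2 ▸ Ideal.zero_mem _)
  have ne₂ : contr D' {E.ψ (1 ⊗ₜ g₂)} ≠ ⊥ := by
    intro h
    have h2 : b' ∈ contr D' {E.ψ (1 ⊗ₜ g₂)} := by
      change D'.φ b' ∈ Ideal.span {E.ψ (1 ⊗ₜ g₂)}
      rw [eb', pow_two, mul_assoc]
      exact Ideal.mul_mem_right _ _ (Ideal.mem_span_singleton_self _)
    rw [h, Ideal.mem_bot] at h2
    exact hbu (h2 ▸ Ideal.zero_mem _)
  have hom : ∀ g : D.R, (∃ γ, g ∈ D.gR γ) → (contr D {g, l}).IsHomogeneous D.gA := by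
    intro g hg
    refine contr_homogeneous D _ ?_
    rintro x (rfl | hx)
    · exact hg
    · rw [Set.mem_singleton_iff] at hx
      subst hx
      exact hl
  refine answer_of D.gA hX G n hn Φ (contr D {g₁, l}) (contr D {g₂, l}) (hom g₁ hg₁)
    (hom g₂ hg₂) (key g₁ hg₁ y₁ hy₁ ha₁ ne₁) (key g₂ hg₂ y₂ hy₂ ha₂ ne₂) ?_ hI₁ hI₂
  refine ratA_equiv _ D'.gA E.α E.α_mem _ _ ?_
  rw [map_inclI_contr D D' E hg₁ hl, map_inclI_contr D D' E hg₂ hl]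
  obtain ⟨γ₁, hγ₁⟩ := hg₁
  obtain ⟨γ₂, hγ₂⟩ := hg₂
  obtain ⟨γl, hγl⟩ := hl
  obtain ⟨γu, hγu⟩ := hu
  obtain ⟨γm, hγm⟩ := hm
  obtain ⟨γm', hγm'⟩ := hm'
  exact rat_contr D' hD' h1
    (E.ψ_mem γ₁ _ (Submodule.tmul_mem_baseChange_of_mem _ hγ₁))
    (E.ψ_mem γ₂ _ (Submodule.tmul_mem_baseChange_of_mem _ hγ₂)) hγu
    (E.ψ_mem γl _ (Submodule.tmul_mem_baseChange_of_mem _ hγl)) hγm hγm' ha hb ha' hb' ea eb ea'
    eb' y₁ y₂ yu hy₁ hy₂ hyu ha₁ hb₁ ha₂ hb₂ hau hbu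

end OfCox

end Pool.Agent.SSF.Br
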