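import Pool.Agent.SSF.Br.Bc
import Pool.Agent.SSF.StmtScheme

/-!
# `Proj (B ⊗ A) = Proj A × Spec B`
-/

namespace Pool.Agent.SSF.Br

open CategoryTheory AlgebraicGeometry MonoidalCategory CartesianMonoidalCategory Limits
open TensorProduct HomogeneousLocalization HomogeneousIdeal Graded

variable {k A : Type} [Field k] [CommRing A] [Algebra k A] (𝒜 : ℕ → Submodule k A)
  [GradedAlgebra 𝒜]

/-- The structure morphism `Proj (B ⊗ A) → Spec B`. -/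
noncomputable def projTo (B : Type) [CommRing B] [Algebra k B] :
    Proj (bc 𝒜 B) ⟶ Spec (CommRingCat.of B) :=
  Proj.toSpecZero (bc 𝒜 B) ≫ Spec.map (CommRingCat.ofHom (algebraMap B (bc 𝒜 B 0)))

/-- `Proj A` as a scheme over `k`. -/
noncomputable def projOver : Sch k :=
  Over.mk (Proj.toSpecZero 𝒜 ≫ Spec.map (CommRingCat.ofHom (algebraMap k (𝒜 0))))

/-- `Spec B` as a scheme over `k`. -/
noncomputable def specOver (k : Type) [Field k] (B : Type) [CommRing B] [Algebra k B] : Sch k :=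
  Over.mk (Spec.map (CommRingCat.ofHom (algebraMap k B)))

/-- The morphism of spectra over `k`. -/
noncomputable def specOverMap {B C : Type} [CommRing B] [Algebra k B] [CommRing C] [Algebra k C]
    (φ : B →ₐ[k] C) : specOver k C ⟶ specOver k B :=
  Over.homMk (Spec.map (CommRingCat.ofHom φ.toRingHom)) (by
    simp only [specOver, Over.mk_hom, ← Spec.map_comp, ← CommRingCat.ofHom_comp]
    congr 2
    ext x
    simp)

/-- The graded homomorphism `A → B ⊗ A`. -/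
noncomputable def inclHom (B : Type) [CommRing B] [Algebra k B] : 𝒜 →+*ᵍ (bc 𝒜 B) where
  __ := (Algebra.TensorProduct.includeRight : A →ₐ[k] B ⊗[k] A).toRingHom
  map_mem := fun hx => Submodule.tmul_mem_baseChange_of_mem _ hx

lemma inclHom_irr (B : Type) [CommRing B] [Algebra k B] :
    HomogeneousIdeal.irrelevant (bc 𝒜 B) ≤
      (HomogeneousIdeal.irrelevant 𝒜).map (inclHom 𝒜 B) := by
  rw [HomogeneousIdeal.irrelevant_le]
  intro i hi x hx
  change x ∈ ((HomogeneousIdeal.irrelevant 𝒜).map (inclHom 𝒜 B)).toIdeal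
  have hx' : x ∈ (𝒜 i).baseChange B := hx
  rw [Submodule.baseChange_eq_span] at hx'
  clear hx
  induction hx' using Submodule.span_induction with
  | mem x h =>
    obtain ⟨a, ha, rfl⟩ := h
    have h1 : a ∈ (HomogeneousIdeal.irrelevant 𝒜).toIdeal :=
      HomogeneousIdeal.mem_irrelevant_of_mem 𝒜 hi ha
    exact Ideal.mem_map_of_mem _ h1
  | zero => exact Ideal.zero_mem _
  | add x y _ _ h1 h2 => exact Ideal.add_mem _ h1 h2
  | smul c x _ h1 =>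
    rw [Algebra.smul_def]
    exact Ideal.mul_mem_left _ _ h1

namespace PIX

/-! ### The charts -/

section Alg

variable (B : Type) [CommRing B] [Algebra k B] {i : ℕ} (s : A)

omit [GradedAlgebra 𝒜] in
lemma inclHom_apply (a : A) : inclHom 𝒜 B a = (1 : B) ⊗ₜ[k] a := rfl

/-- `k → A_(s)`. -/
noncomputable def kL : k →+* Away 𝒜 s :=
  (fromZeroRingHom 𝒜 _).comp (algebraMap k (𝒜 0))

/-- `B → (B ⊗ A)_(s)`. -/
noncomputable def bL : B →+* Away (bc 𝒜 B) (inclHom 𝒜 B s) :=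
  (fromZeroRingHom (bc 𝒜 B) _).comp (algebraMap B (bc 𝒜 B 0))

/-- `A_(s) → (B ⊗ A)_(s)`. -/
noncomputable def aL : Away 𝒜 s →+* Away (bc 𝒜 B) (inclHom 𝒜 B s) :=
  Away.map (inclHom 𝒜 B) s

lemma val_kL (t : k) : (kL 𝒜 s t).val = Localization.mk (algebraMap k A t) 1 := rfl

lemma val_bL (b : B) : (bL 𝒜 B s b).val = Localization.mk (b ⊗ₜ[k] (1 : A)) 1 := rfl

lemma aL_mk (hs : s ∈ 𝒜 i) (n : ℕ) (a : A) (ha : a ∈ 𝒜 (n • i)) :
    (aL 𝒜 B s (Away.mk 𝒜 hs n a ha)).val =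
      Localization.mk ((1 : B) ⊗ₜ[k] a)
        (⟨(inclHom 𝒜 B s) ^ n, ⟨n, rfl⟩⟩ : Submonoid.powers (inclHom 𝒜 B s)) := by
  unfold aL
  rw [Away.map_mk, Away.val_mk]
  rfl

lemma comm_kL : (bL 𝒜 B s).comp (algebraMap k B) = (aL 𝒜 B s).comp (kL 𝒜 s) := by
  ext t
  rw [RingHom.comp_apply, RingHom.comp_apply, val_bL]
  have h1 : kL 𝒜 s t = mk ⟨0, ⟨algebraMap k A t, SetLike.algebraMap_mem_graded 𝒜 t⟩,
    ⟨1, SetLike.one_mem_graded 𝒜⟩, Submonoid.one_mem _⟩ := rfl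
  rw [h1]
  unfold aL Away.map
  rw [map_mk, val_mk]
  have h2 : algebraMap k B t ⊗ₜ[k] (1 : A) = (1 : B) ⊗ₜ[k] algebraMap k A t := by
    rw [Algebra.algebraMap_eq_smul_one, Algebra.algebraMap_eq_smul_one, TensorProduct.smul_tmul]
  rw [h2]
  rfl

/-- The algebra structures. -/
noncomputable abbrev algL : Algebra k (Away 𝒜 s) := (kL 𝒜 s).toAlgebra

@[inherit_doc algL]
noncomputable abbrev algL' : Algebra k (Away (bc 𝒜 B) (inclHom 𝒜 B s)) :=
  ((bL 𝒜 B s).comp (algebraMap k B)).toAlgebra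

attribute [local instance] algL algL'

variable {s} in
/-- `a ↦ a / s ^ n`. -/
noncomputable def dl (hs : s ∈ 𝒜 i) (n : ℕ) : 𝒜 (n • i) →ₗ[k] Away 𝒜 s where
  toFun a := Away.mk 𝒜 hs n a.1 a.2
  map_add' a b := by
    apply val_injective
    rw [val_add, Away.val_mk, Away.val_mk, Away.val_mk, Localization.add_mk_self]
    rfl
  map_smul' t a := by
    apply val_injective
    rw [RingHom.id_apply]
    change _ = (kL 𝒜 s t * Away.mk 𝒜 hs n a.1 a.2).val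
    rw [val_mul, val_kL, Away.val_mk, Away.val_mk, Localization.mk_mul, one_mul,
      ← Algebra.smul_def]
    rfl

/-- `B → (B ⊗ A)_(s)`, `A_(s) → (B ⊗ A)_(s)`. -/
noncomputable def bA : B →ₐ[k] Away (bc 𝒜 B) (inclHom 𝒜 B s) :=
  { bL 𝒜 B s with commutes' := fun _ => rfl }

@[inherit_doc bA]
noncomputable def aA : Away 𝒜 s →ₐ[k] Away (bc 𝒜 B) (inclHom 𝒜 B s) :=
  { aL 𝒜 B s with commutes' := fun t => (RingHom.congr_fun (comm_kL 𝒜 B s) t).symm }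

/-- `B ⊗ A_(s) → (B ⊗ A)_(s)`. -/
noncomputable def Ph : B ⊗[k] Away 𝒜 s →ₐ[k] Away (bc 𝒜 B) (inclHom 𝒜 B s) :=
  Algebra.TensorProduct.productMap (bA 𝒜 B s) (aA 𝒜 B s)

variable {s} in
lemma val_Ph (hs : s ∈ 𝒜 i) (n : ℕ) (x : B ⊗[k] 𝒜 (n • i)) :
    (Ph 𝒜 B s (LinearMap.lTensor B (dl 𝒜 hs n) x)).val =
      Localization.mk (LinearMap.lTensor B (𝒜 (n • i)).subtype x)
        (⟨(inclHom 𝒜 B s) ^ n, ⟨n, rfl⟩⟩ : Submonoid.powers (inclHom 𝒜 B s)) := by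
  induction x using TensorProduct.induction_on with
  | zero => rw [map_zero, map_zero, map_zero, val_zero, Localization.mk_zero]
  | tmul b a =>
    rw [LinearMap.lTensor_tmul, LinearMap.lTensor_tmul]
    unfold Ph
    rw [Algebra.TensorProduct.productMap_apply_tmul, val_mul]
    change (bL 𝒜 B s b).val * (aL 𝒜 B s (Away.mk 𝒜 hs n a.1 a.2)).val = _
    rw [val_bL, aL_mk, Localization.mk_mul, one_mul, Algebra.TensorProduct.tmul_mul_tmul, mul_one,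
      one_mul]
    rfl
  | add x y hx hy =>
    rw [map_add, map_add, map_add, val_add, hx, hy, Localization.add_mk_self]

variable {s} in
lemma Ph_surjective (hs : s ∈ 𝒜 i) : Function.Surjective (Ph 𝒜 B s) := by
  intro y
  obtain ⟨n, x, hx, rfl⟩ := Away.mk_surjective (bc 𝒜 B) (f := inclHom 𝒜 B s) (d := i)
    ((inclHom 𝒜 B).map_mem hs) y
  obtain ⟨x', hx'⟩ : ∃ x' : B ⊗[k] 𝒜 (n • i), LinearMap.lTensor B (𝒜 (n • i)).subtype x' = x := by
    have h1 : x ∈ LinearMap.range ((𝒜 (n • i)).subtype.baseChange B) := hx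
    obtain ⟨x', h2⟩ := h1
    exact ⟨x', h2⟩
  refine ⟨LinearMap.lTensor B (dl 𝒜 hs n) x', ?_⟩
  apply val_injective
  rw [val_Ph, hx', Away.val_mk]

variable {s} in
/-- Multiplication by `s ^ m`. -/
noncomputable def mu (hs : s ∈ 𝒜 i) (n m l : ℕ) (h : l = m + n) :
    𝒜 (n • i) →ₗ[k] 𝒜 (l • i) where
  toFun a := ⟨s ^ m * a.1, by
    rw [h, add_smul]
    exact SetLike.mul_mem_graded (SetLike.pow_mem_graded m hs) a.2⟩
  map_add' a b := by
    apply Subtype.ext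
    exact mul_add _ _ _
  map_smul' t a := by
    apply Subtype.ext
    exact mul_smul_comm _ _ _

variable {s} in
lemma dl_mu (hs : s ∈ 𝒜 i) (n m l : ℕ) (h : l = m + n) (a : 𝒜 (n • i)) :
    dl 𝒜 hs l (mu 𝒜 hs n m l h a) = dl 𝒜 hs n a := by
  apply val_injective
  change Localization.mk (s ^ m * a.1) (⟨s ^ l, ⟨l, rfl⟩⟩ : Submonoid.powers s) =
    Localization.mk a.1 (⟨s ^ n, ⟨n, rfl⟩⟩ : Submonoid.powers s)
  rw [Localization.mk_eq_mk_iff, Localization.r_iff_exists]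
  refine ⟨1, ?_⟩
  simp only [OneMemClass.coe_one, one_mul]
  rw [h, pow_add]
  ring

variable {s} in
lemma lT_mu (hs : s ∈ 𝒜 i) (n m l : ℕ) (h : l = m + n) (x : B ⊗[k] 𝒜 (n • i)) :
    LinearMap.lTensor B (dl 𝒜 hs l) (LinearMap.lTensor B (mu 𝒜 hs n m l h) x) =
      LinearMap.lTensor B (dl 𝒜 hs n) x := by
  rw [← LinearMap.comp_apply, ← LinearMap.lTensor_comp]
  congr 2
  ext a
  exact congrArg _ (dl_mu 𝒜 hs n m l h a)

variable {s} in
lemma exists_dl (hs : s ∈ 𝒜 i) (z : B ⊗[k] Away 𝒜 s) :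
    ∃ (n : ℕ) (x : B ⊗[k] 𝒜 (n • i)), z = LinearMap.lTensor B (dl 𝒜 hs n) x := by
  induction z using TensorProduct.induction_on with
  | zero => exact ⟨0, 0, (map_zero _).symm⟩
  | tmul b q =>
    obtain ⟨n, a, ha, rfl⟩ := Away.mk_surjective 𝒜 hs q
    exact ⟨n, b ⊗ₜ ⟨a, ha⟩, rfl⟩
  | add z w hz hw =>
    obtain ⟨n, x, rfl⟩ := hz
    obtain ⟨m, y, rfl⟩ := hw
    refine ⟨m + n, LinearMap.lTensor B (mu 𝒜 hs n m (m + n) rfl) x +
      LinearMap.lTensor B (mu 𝒜 hs m n (m + n) (add_comm m n)) y, ?_⟩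
    rw [map_add, lT_mu, lT_mu]

variable {s} in
lemma sub_mu (hs : s ∈ 𝒜 i) (n m l : ℕ) (h : l = m + n) (x : B ⊗[k] 𝒜 (n • i)) :
    LinearMap.lTensor B (𝒜 (l • i)).subtype (LinearMap.lTensor B (mu 𝒜 hs n m l h) x) =
      (inclHom 𝒜 B s) ^ m * LinearMap.lTensor B (𝒜 (n • i)).subtype x := by
  induction x using TensorProduct.induction_on with
  | zero => rw [map_zero, map_zero, map_zero, mul_zero]
  | tmul b a =>
    rw [LinearMap.lTensor_tmul, LinearMap.lTensor_tmul, LinearMap.lTensor_tmul, inclHom_apply,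
      Algebra.TensorProduct.tmul_pow, one_pow, Algebra.TensorProduct.tmul_mul_tmul, one_mul]
    rfl
  | add x y hx hy => rw [map_add, map_add, map_add, hx, hy, mul_add]

variable {s} in
lemma Ph_injective (hs : s ∈ 𝒜 i) : Function.Injective (Ph 𝒜 B s) := by
  rw [injective_iff_map_eq_zero]
  intro z hz
  obtain ⟨n, x, rfl⟩ := exists_dl 𝒜 B hs z
  have h1 := congrArg HomogeneousLocalization.val hz
  rw [val_Ph, val_zero, ← Localization.mk_zero 1, Localization.mk_eq_mk_iff,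
    Localization.r_iff_exists] at h1
  obtain ⟨⟨_, ⟨m, rfl⟩⟩, h2⟩ := h1
  have h3 : (inclHom 𝒜 B s) ^ m * LinearMap.lTensor B (𝒜 (n • i)).subtype x = 0 := by
    simpa using h2
  rw [← sub_mu 𝒜 B hs n m (m + n) rfl] at h3
  have h4 : Function.Injective (LinearMap.lTensor B (𝒜 ((m + n) • i)).subtype) :=
    Module.Flat.lTensor_preserves_injective_linearMap _ (Submodule.subtype_injective _)
  have h5 : LinearMap.lTensor B (mu 𝒜 hs n m (m + n) rfl) x = 0 :=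
    h4 (h3.trans (map_zero _).symm)
  rw [← lT_mu 𝒜 B hs n m (m + n) rfl, h5, map_zero]

variable {s} in
/-- The charts of `Proj (B ⊗ A)`. -/
theorem chart_isPushout (hs : s ∈ 𝒜 i) :
    IsPushout (CommRingCat.ofHom (kL 𝒜 s)) (CommRingCat.ofHom (algebraMap k B))
      (CommRingCat.ofHom (aL 𝒜 B s)) (CommRingCat.ofHom (bL 𝒜 B s)) := by
  let e : B ⊗[k] Away 𝒜 s ≃+* Away (bc 𝒜 B) (inclHom 𝒜 B s) :=
    RingEquiv.ofBijective (Ph 𝒜 B s).toRingHom ⟨Ph_injective 𝒜 B hs, Ph_surjective 𝒜 B hs⟩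
  refine ((CommRingCat.isPushout_tensorProduct k B (Away 𝒜 s)).of_iso (Iso.refl _) (Iso.refl _)
    (Iso.refl _) e.toCommRingCatIso ?_ ?_ ?_ ?_).flip
  · simp
  · simp
  · ext b
    change (Ph 𝒜 B s (b ⊗ₜ 1)).val = (bL 𝒜 B s b).val
    unfold Ph
    rw [Algebra.TensorProduct.productMap_apply_tmul, map_one, mul_one]
    rfl
  · ext a
    change (Ph 𝒜 B s (1 ⊗ₜ a)).val = (aL 𝒜 B s a).val
    unfold Ph
    rw [Algebra.TensorProduct.productMap_apply_tmul, map_one, one_mul]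
    rfl

end Alg

/-! ### Gluing -/

/-- A square is a pullback if it is so over an open cover. -/
theorem isPullback_of_cover {X Y S T : Scheme.{0}} (f : Y ⟶ X) (g : Y ⟶ T) (q : X ⟶ S)
    (p : T ⟶ S) (w : f ≫ q = g ≫ p) (𝒰 : X.OpenCover) (Y' : 𝒰.I₀ → Scheme.{0})
    (y : ∀ i, Y' i ⟶ Y) (f' : ∀ i, Y' i ⟶ 𝒰.X i)
    (h1 : ∀ i, IsPullback (f' i) (y i) (𝒰.f i) f)
    (h2 : ∀ i, IsPullback (f' i) (y i ≫ g) (𝒰.f i ≫ q) p) : IsPullback f g q p := by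
  let h : Y ⟶ pullback q p := pullback.lift f g w
  have hf : h ≫ pullback.fst q p = f := pullback.lift_fst _ _ _
  have hg : h ≫ pullback.snd q p = g := pullback.lift_snd _ _ _
  have hiso : IsIso h := by
    refine (IsZariskiLocalAtTarget.iff_of_openCover (P := .isomorphisms _)
      (𝒰.pullback₁ (pullback.fst q p))).mpr fun i => ?_
    let u : pullback (pullback.fst q p) (𝒰.f i) ⟶ pullback q p :=
      pullback.fst (pullback.fst q p) (𝒰.f i)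
    let v : pullback (pullback.fst q p) (𝒰.f i) ⟶ 𝒰.X i :=
      pullback.snd (pullback.fst q p) (𝒰.f i)
    have sq1 : IsPullback v u (𝒰.f i) (pullback.fst q p) :=
      (IsPullback.of_hasPullback (pullback.fst q p) (𝒰.f i)).flip
    let z : Y' i ⟶ pullback (pullback.fst q p) (𝒰.f i) :=
      pullback.lift (y i ≫ h) (f' i) (by rw [Category.assoc, hf, (h1 i).w])
    have zu : z ≫ u = y i ≫ h := pullback.lift_fst _ _ _
    have zv : z ≫ v = f' i := pullback.lift_snd _ _ _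
    have sq2 : IsPullback z (y i) u h := by
      refine IsPullback.of_right (h₁₂ := v) (h₂₂ := pullback.fst q p) (v₁₃ := 𝒰.f i) ?_ zu sq1
      rw [zv, hf]
      exact h1 i
    have sq3 : IsPullback v (u ≫ pullback.snd q p) (𝒰.f i ≫ q) p :=
      sq1.paste_vert (IsPullback.of_hasPullback q p)
    have hz : z = ((h2 i).isoIsPullback _ _ sq3).hom := by
      refine sq3.hom_ext ?_ ?_
      · rw [IsPullback.isoIsPullback_hom_fst, zv]
      · rw [IsPullback.isoIsPullback_hom_snd, reassoc_of% zu, hg]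
    have hz' : IsIso z := by
      rw [hz]
      infer_instance
    have key : pullback.snd h u =
        ((IsPullback.of_hasPullback h u).isoIsPullback _ _ sq2.flip).hom ≫ z := by
      rw [IsPullback.isoIsPullback_hom_snd]
    change IsIso (pullback.snd h u)
    rw [key]
    infer_instance
  exact IsPullback.of_iso_pullback ⟨w⟩ (asIso h) hf hg

section Main

variable (B : Type) [CommRing B] [Algebra k B]

/-- The structure morphism of `Proj A`. -/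
noncomputable def qA : Proj 𝒜 ⟶ Spec (CommRingCat.of k) :=
  Proj.toSpecZero 𝒜 ≫ Spec.map (CommRingCat.ofHom (algebraMap k (𝒜 0)))

theorem chart_q {i : ℕ} (s : A) (hs : s ∈ 𝒜 i) (hi : 0 < i) :
    Proj.awayι 𝒜 s hs hi ≫ qA 𝒜 = Spec.map (CommRingCat.ofHom (kL 𝒜 s)) := by
  unfold qA kL
  rw [Proj.awayι_toSpecZero_assoc, ← Spec.map_comp, ← CommRingCat.ofHom_comp]

theorem chart_p {i : ℕ} (s : A) (hs : s ∈ 𝒜 i) (hi : 0 < i) :
    Proj.awayι (bc 𝒜 B) (inclHom 𝒜 B s) ((inclHom 𝒜 B).map_mem hs) hi ≫ projTo 𝒜 B =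
      Spec.map (CommRingCat.ofHom (bL 𝒜 B s)) := by
  unfold projTo bL
  rw [Proj.awayι_toSpecZero_assoc, ← Spec.map_comp, ← CommRingCat.ofHom_comp]

theorem chart_f {i : ℕ} (s : A) (hs : s ∈ 𝒜 i) (hi : 0 < i) :
    Proj.awayι (bc 𝒜 B) (inclHom 𝒜 B s) ((inclHom 𝒜 B).map_mem hs) hi ≫
        Proj.map (inclHom 𝒜 B) (inclHom_irr 𝒜 B) =
      Spec.map (CommRingCat.ofHom (aL 𝒜 B s)) ≫ Proj.awayι 𝒜 s hs hi :=
  Proj.awayι_comp_map (inclHom 𝒜 B) (inclHom_irr 𝒜 B) hi s hs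

theorem isPullback_proj : IsPullback (Proj.map (inclHom 𝒜 B) (inclHom_irr 𝒜 B)) (projTo 𝒜 B)
    (qA 𝒜) (Spec.map (CommRingCat.ofHom (algebraMap k B))) := by
  have hpush : ∀ s : (Σ i : ℕ+, 𝒜 i), IsPullback
      (Spec.map (CommRingCat.ofHom (aL 𝒜 B (s.2 : A))))
      (Spec.map (CommRingCat.ofHom (bL 𝒜 B (s.2 : A))))
      (Spec.map (CommRingCat.ofHom (kL 𝒜 (s.2 : A))))
      (Spec.map (CommRingCat.ofHom (algebraMap k B))) := fun s =>
    isPullback_SpecMap_of_isPushout _ _ _ _ (chart_isPushout 𝒜 B s.2.2)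
  have h1 : ∀ s : (Σ i : ℕ+, 𝒜 i),
      Proj.awayι (bc 𝒜 B) (inclHom 𝒜 B (s.2 : A)) ((inclHom 𝒜 B).map_mem s.2.2) s.1.pos ≫
        (Proj.map (inclHom 𝒜 B) (inclHom_irr 𝒜 B) ≫ qA 𝒜) =
      Proj.awayι (bc 𝒜 B) (inclHom 𝒜 B (s.2 : A)) ((inclHom 𝒜 B).map_mem s.2.2) s.1.pos ≫
        (projTo 𝒜 B ≫ Spec.map (CommRingCat.ofHom (algebraMap k B))) := by
    intro s
    rw [← Category.assoc, ← Category.assoc, chart_f 𝒜 B s.2.1 s.2.2 s.1.pos,
      chart_p 𝒜 B s.2.1 s.2.2 s.1.pos, Category.assoc, chart_q 𝒜 s.2.1 s.2.2 s.1.pos]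
    exact (hpush s).w
  have h2 : ∀ s : (Σ i : ℕ+, 𝒜 i), IsPullback (Spec.map (CommRingCat.ofHom (aL 𝒜 B (s.2 : A))))
      (Proj.awayι (bc 𝒜 B) (inclHom 𝒜 B (s.2 : A)) ((inclHom 𝒜 B).map_mem s.2.2) s.1.pos)
      (Proj.awayι 𝒜 s.2.1 s.2.2 s.1.pos) (Proj.map (inclHom 𝒜 B) (inclHom_irr 𝒜 B)) := by
    intro s
    refine IsOpenImmersion.isPullback _ _ _ _ (chart_f 𝒜 B s.2.1 s.2.2 s.1.pos) ?_
    rw [Proj.opensRange_awayι, Proj.opensRange_awayι]
    rfl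
  have h3 : ∀ s : (Σ i : ℕ+, 𝒜 i), IsPullback (Spec.map (CommRingCat.ofHom (aL 𝒜 B (s.2 : A))))
      (Proj.awayι (bc 𝒜 B) (inclHom 𝒜 B (s.2 : A)) ((inclHom 𝒜 B).map_mem s.2.2) s.1.pos ≫
        projTo 𝒜 B) (Proj.awayι 𝒜 s.2.1 s.2.2 s.1.pos ≫ qA 𝒜)
      (Spec.map (CommRingCat.ofHom (algebraMap k B))) := by
    intro s
    rw [chart_p 𝒜 B s.2.1 s.2.2 s.1.pos, chart_q 𝒜 s.2.1 s.2.2 s.1.pos]
    exact hpush s
  refine isPullback_of_cover _ _ _ _ ?_ (Proj.affineOpenCover 𝒜).openCover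
    (fun s : (Σ i : ℕ+, 𝒜 i) => Spec (CommRingCat.of (Away (bc 𝒜 B) (inclHom 𝒜 B (s.2 : A)))))
    (fun s : (Σ i : ℕ+, 𝒜 i) =>
      Proj.awayι (bc 𝒜 B) (inclHom 𝒜 B (s.2 : A)) ((inclHom 𝒜 B).map_mem s.2.2) s.1.pos)
    (fun s : (Σ i : ℕ+, 𝒜 i) => Spec.map (CommRingCat.ofHom (aL 𝒜 B (s.2 : A)))) h2 h3
  exact (Proj.mapAffineOpenCover (inclHom 𝒜 B) (inclHom_irr 𝒜 B)).openCover.hom_ext _ _ h1

variable {B} {C : Type} [CommRing C] [Algebra k C] (φ : B →ₐ[k] C)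

theorem map_bcHom_incl : Proj.map (bcHom 𝒜 φ) (bcHom_irr 𝒜 φ) ≫
      Proj.map (inclHom 𝒜 B) (inclHom_irr 𝒜 B) =
    Proj.map (inclHom 𝒜 C) (inclHom_irr 𝒜 C) := by
  have h1 : ∀ (g : 𝒜 →+*ᵍ (bc 𝒜 C)) (hg : HomogeneousIdeal.irrelevant (bc 𝒜 C) ≤
      (HomogeneousIdeal.irrelevant 𝒜).map g), g = inclHom 𝒜 C →
      Proj.map g hg = Proj.map (inclHom 𝒜 C) (inclHom_irr 𝒜 C) := by
    rintro g hg rfl
    rfl
  rw [← Proj.map_comp]
  refine h1 _ _ ?_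
  ext a
  change (φ (1 : B)) ⊗ₜ[k] a = (1 : C) ⊗ₜ[k] a
  rw [map_one]

/-- `B → (B ⊗ A)_(s)` in general. -/
noncomputable def gL (B : Type) [CommRing B] [Algebra k B] (s : B ⊗[k] A) :
    B →+* Away (bc 𝒜 B) s :=
  (fromZeroRingHom (bc 𝒜 B) _).comp (algebraMap B (bc 𝒜 B 0))

theorem chart_g (B : Type) [CommRing B] [Algebra k B] {i : ℕ} (s : B ⊗[k] A) (hs : s ∈ bc 𝒜 B i)
    (hi : 0 < i) :
    Proj.awayι (bc 𝒜 B) s hs hi ≫ projTo 𝒜 B = Spec.map (CommRingCat.ofHom (gL 𝒜 B s)) := by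
  unfold projTo gL
  rw [Proj.awayι_toSpecZero_assoc, ← Spec.map_comp, ← CommRingCat.ofHom_comp]

theorem map_gL (s : B ⊗[k] A) :
    (Away.map (bcHom 𝒜 φ) s).comp (gL 𝒜 B s) = (gL 𝒜 C (bcHom 𝒜 φ s)).comp φ.toRingHom := by
  ext b
  have h1 : gL 𝒜 B s b = mk ⟨0, ⟨algebraMap B (B ⊗[k] A) b,
    SetLike.algebraMap_mem_graded (bc 𝒜 B) b⟩,
    ⟨1, SetLike.one_mem_graded (bc 𝒜 B)⟩, Submonoid.one_mem _⟩ := rfl
  rw [RingHom.comp_apply, h1]
  unfold Away.map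
  rw [map_mk, val_mk]
  change Localization.mk (φ b ⊗ₜ[k] (1 : A)) _ = Localization.mk (φ b ⊗ₜ[k] (1 : A)) 1
  congr 1
  apply Subtype.ext
  exact map_one (bcHom 𝒜 φ)

theorem map_bcHom_projTo : Proj.map (bcHom 𝒜 φ) (bcHom_irr 𝒜 φ) ≫ projTo 𝒜 B =
    projTo 𝒜 C ≫ Spec.map (CommRingCat.ofHom φ.toRingHom) := by
  have h1 : ∀ s : (Σ i : ℕ+, bc 𝒜 B i),
      Proj.awayι (bc 𝒜 C) (bcHom 𝒜 φ (s.2 : B ⊗[k] A)) ((bcHom 𝒜 φ).map_mem s.2.2) s.1.pos ≫
        (Proj.map (bcHom 𝒜 φ) (bcHom_irr 𝒜 φ) ≫ projTo 𝒜 B) =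
      Proj.awayι (bc 𝒜 C) (bcHom 𝒜 φ (s.2 : B ⊗[k] A)) ((bcHom 𝒜 φ).map_mem s.2.2) s.1.pos ≫
        (projTo 𝒜 C ≫ Spec.map (CommRingCat.ofHom φ.toRingHom)) := by
    intro s
    rw [← Category.assoc, ← Category.assoc,
      Proj.awayι_comp_map (bcHom 𝒜 φ) (bcHom_irr 𝒜 φ) s.1.pos (s.2 : B ⊗[k] A) s.2.2,
      Category.assoc, chart_g 𝒜 B s.2.1 s.2.2 s.1.pos,
      chart_g 𝒜 C (bcHom 𝒜 φ s.2.1) ((bcHom 𝒜 φ).map_mem s.2.2) s.1.pos]
    rw [← Spec.map_comp, ← Spec.map_comp, ← CommRingCat.ofHom_comp, ← CommRingCat.ofHom_comp]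
    exact congrArg (fun f => Spec.map (CommRingCat.ofHom f)) (map_gL 𝒜 φ s.2.1)
  exact (Proj.mapAffineOpenCover (bcHom 𝒜 φ) (bcHom_irr 𝒜 φ)).openCover.hom_ext _ _ h1

end Main

end PIX

open PIX

/-- Module B1: the isomorphism `Proj (B ⊗ A) = Proj A × Spec B` exists, it is compatible with
the projections and natural in `B`. -/
theorem exists_projIso : ∃ e : ∀ (B : Type) [CommRing B] [Algebra k B],
    Proj (bc 𝒜 B) ≅ (projOver 𝒜 ⊗ specOver k B).left,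
    (∀ (B : Type) [CommRing B] [Algebra k B],
      (e B).hom ≫ (fst (projOver 𝒜) (specOver k B)).left =
        Proj.map (inclHom 𝒜 B) (inclHom_irr 𝒜 B)) ∧
    (∀ (B : Type) [CommRing B] [Algebra k B],
      (e B).hom ≫ (snd (projOver 𝒜) (specOver k B)).left = projTo 𝒜 B) ∧
    (∀ (B C : Type) [CommRing B] [Algebra k B] [CommRing C] [Algebra k C] (φ : B →ₐ[k] C),
      Proj.map (bcHom 𝒜 φ) (bcHom_irr 𝒜 φ) ≫ (e B).hom =
        (e C).hom ≫ (projOver 𝒜 ◁ specOverMap φ).left) := by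
  have hpb : ∀ (B : Type) [CommRing B] [Algebra k B],
      IsPullback (fst (projOver 𝒜) (specOver k B)).left (snd (projOver 𝒜) (specOver k B)).left
        (qA 𝒜) (Spec.map (CommRingCat.ofHom (algebraMap k B))) := fun B _ _ =>
    IsPullback.of_hasPullback _ _
  obtain ⟨e, hfst, hsnd⟩ : ∃ e : ∀ (B : Type) [CommRing B] [Algebra k B],
      Proj (bc 𝒜 B) ≅ (projOver 𝒜 ⊗ specOver k B).left,
      (∀ (B : Type) [CommRing B] [Algebra k B],
        (e B).hom ≫ (fst (projOver 𝒜) (specOver k B)).left =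
          Proj.map (inclHom 𝒜 B) (inclHom_irr 𝒜 B)) ∧
      (∀ (B : Type) [CommRing B] [Algebra k B],
        (e B).hom ≫ (snd (projOver 𝒜) (specOver k B)).left = projTo 𝒜 B) :=
    ⟨fun B _ _ => (isPullback_proj 𝒜 B).isoIsPullback _ _ (hpb B),
      fun B _ _ => IsPullback.isoIsPullback_hom_fst _ _ _ _,
      fun B _ _ => IsPullback.isoIsPullback_hom_snd _ _ _ _⟩
  refine ⟨e, hfst, hsnd, ?_⟩
  intro B C _ _ _ _ φ
  have w1 : (projOver 𝒜 ◁ specOverMap φ).left ≫ (fst (projOver 𝒜) (specOver k B)).left =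
      (fst (projOver 𝒜) (specOver k C)).left := by
    rw [← Over.comp_left, whiskerLeft_fst]
  have w2 : (projOver 𝒜 ◁ specOverMap φ).left ≫ (snd (projOver 𝒜) (specOver k B)).left =
      (snd (projOver 𝒜) (specOver k C)).left ≫ (specOverMap φ).left := by
    rw [← Over.comp_left, whiskerLeft_snd, Over.comp_left]
  refine (hpb B).hom_ext ?_ ?_
  · rw [Category.assoc, Category.assoc, w1, hfst, hfst]
    exact map_bcHom_incl 𝒜 φ
  · rw [Category.assoc, Category.assoc, w2, hsnd, ← Category.assoc, hsnd]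
    exact map_bcHom_projTo 𝒜 φ

end Pool.Agent.SSF.Br
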