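import Pool.Agent.SSF.Br.StepA
import Pool.Agent.SSF.Br.SchBase

/-!
One step of the specialization of cycles.
-/

namespace Pool.Agent.SSF.Br

open AlgebraicGeometry TensorProduct HomogeneousLocalization HomogeneousIdeal Graded IsLocalRing

variable {k A : Type} [Field k] [CommRing A] [Algebra k A] {𝒜 : ℕ → Submodule k A}
  [GradedAlgebra 𝒜]

theorem hgen_of_geom (G : Geom 𝒜) (B : Type) [CommRing B] [Algebra k B]
    (P : ProjectiveSpectrum (bc 𝒜 B)) : ∃ i, ∃ s ∈ bc 𝒜 B i, ∃ t ∈ bc 𝒜 B (i + 1),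
      s ∉ idl (bc 𝒜 B) P ∧ t ∉ idl (bc 𝒜 B) P := by
  obtain ⟨t, ht, htP⟩ := exists_deg_one 𝒜 G B P
  refine ⟨0, 1, SetLike.GradedOne.one_mem, t, by simpa using ht, ?_, htP⟩
  intro h
  exact P.isPrime.ne_top ((Ideal.eq_top_iff_one _).2 h)

theorem isHomogeneous_specialize {O K κ : Type} [CommRing O] [Algebra k O] [CommRing K]
    [Algebra k K] [CommRing κ] [Algebra k κ] (ι : O →ₐ[k] K) (π : O →ₐ[k] κ)
    (P : ProjectiveSpectrum (bc 𝒜 K)) :
    (specialize ι π (idl (bc 𝒜 K) P)).IsHomogeneous (bc 𝒜 κ) :=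
  ((bcPt 𝒜 ι P).asHomogeneousIdeal.map (bcHom 𝒜 π)).isHomogeneous

/-- The multiplicities of one step are the lengths of the specialized ideal. -/
theorem multA_eq_len {B O K κ : Type} [CommRing B] [Algebra k B] [CommRing O] [Algebra k O]
    [Field K] [Algebra k K] [Field κ] [Algebra k κ]
    {ψ : B →ₐ[k] K} {ψ' : B →ₐ[k] κ} (hψ' : FracLike ψ') {f : B}
    (hf : ψ f ≠ 0) (hker : RingHom.ker ψ' = RingHom.ker ψ ⊔ Ideal.span {f})
    {χ : B →ₐ[k] O} {ι : O →ₐ[k] K} {π : O →ₐ[k] κ} (hιχ : ι.comp χ = ψ) (hπχ : π.comp χ = ψ')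
    (hflχ : FracLike χ) (vK : ProjectiveSpectrum (bc 𝒜 K)) (w : ProjectiveSpectrum (bc 𝒜 κ)) :
    multA 𝒜 f (bcPt 𝒜 ψ vK) (bcPt 𝒜 ψ' w) =
      ((len (bc 𝒜 κ) (specialize ι π (idl (bc 𝒜 K) vK)) w).toNat : ℤ) := by
  classical
  have hS : specialize ι π (idl (bc 𝒜 K) vK) =
      (idl (bc 𝒜 B) (bcPt 𝒜 ψ vK)).map (bcMap A ψ') := by
    have h1 := map_comap_eq χ ι π hflχ (idl (bc 𝒜 K) vK)
    rw [hιχ, hπχ] at h1
    exact h1
  have hfv : algebraMap B (B ⊗[k] A) f ∉ idl (bc 𝒜 B) (bcPt 𝒜 ψ vK) := by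
    rw [algebraMap_mem_field]
    exact hf
  have hhom : (idl (bc 𝒜 B) (bcPt 𝒜 ψ vK)).IsHomogeneous (bc 𝒜 B) :=
    (bcPt 𝒜 ψ vK).asHomogeneousIdeal.isHomogeneous
  rw [multA]
  by_cases hle : idl (bc 𝒜 B) (bcPt 𝒜 ψ vK) ≤ idl (bc 𝒜 B) (bcPt 𝒜 ψ' w)
  · rw [if_pos ⟨hle, hfv⟩, hS]
    congr 2
    apply length_fibre hψ' w (idl (bc 𝒜 B) (bcPt 𝒜 ψ vK)) hhom f
    · rw [Ideal.map_le_iff_le_comap]
      intro b hb
      rw [hker] at hb
      obtain ⟨y, hy, z, hz, rfl⟩ := Submodule.mem_sup.1 hb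
      obtain ⟨c, rfl⟩ := Ideal.mem_span_singleton'.1 hz
      rw [Ideal.mem_comap, map_add, map_mul]
      refine Ideal.add_mem _ (Ideal.mem_sup_left (stepA_baseTo_mem_locIdeal ?_))
        (Ideal.mem_sup_right (Ideal.mul_mem_left _ _ (Ideal.mem_span_singleton_self _)))
      rw [algebraMap_mem_field]
      exact hy
    · have : f ∈ RingHom.ker ψ' := by
        rw [hker]
        exact Ideal.mem_sup_right (Ideal.mem_span_singleton_self f)
      exact this
  · rw [if_neg (fun h => hle h.1)]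
    have h0 : len (bc 𝒜 κ) (specialize ι π (idl (bc 𝒜 K) vK)) w = 0 := by
      rw [len_eq_zero_iff (isHomogeneous_specialize ι π vK)]
      intro h
      apply hle
      rw [hS, Ideal.map_le_iff_le_comap] at h
      exact h
    rw [h0]
    rfl

/-- The supports after one step. -/
theorem step_supp {B K κ : Type} [CommRing B] [IsNoetherianRing B]
    [Algebra k B] [Field K] [Algebra k K] [Field κ] [Algebra k κ]
    {ψ : B →ₐ[k] K} {ψ' : B →ₐ[k] κ} {f : B}
    (hker : RingHom.ker ψ' = RingHom.ker ψ ⊔ Ideal.span {f})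
    {v w : ProjectiveSpectrum (bc 𝒜 B)} (h : multA 𝒜 f v w ≠ 0)
    (hv : ∀ b, ψ b = 0 → algebraMap B (B ⊗[k] A) b ∈ idl (bc 𝒜 B) v) :
    ∀ b, ψ' b = 0 → algebraMap B (B ⊗[k] A) b ∈ idl (bc 𝒜 B) w := by
  obtain ⟨h1, -, h3⟩ := multA_ne_zero h
  intro b hb
  have hb' : b ∈ RingHom.ker ψ' := hb
  rw [hker] at hb'
  obtain ⟨y, hy, z, hz, rfl⟩ := Submodule.mem_sup.1 hb'
  obtain ⟨c, rfl⟩ := Ideal.mem_span_singleton'.1 hz
  rw [map_add, map_mul]
  exact Ideal.add_mem _ (h1 (hv y hy)) (Ideal.mul_mem_left _ _ h3)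

/-- Only the components over the previous prime contribute. -/
theorem exists_of_multA {B K κ : Type} [CommRing B] [IsNoetherianRing B]
    [Algebra k B] [Field K] [Algebra k K] [Field κ] [Algebra k κ]
    {ψ : B →ₐ[k] K} {ψ' : B →ₐ[k] κ} (hψ : FracLike ψ) (hψ' : FracLike ψ') {f : B}
    (hf : ψ f ≠ 0) (hker : RingHom.ker ψ' = RingHom.ker ψ ⊔ Ideal.span {f})
    {v : ProjectiveSpectrum (bc 𝒜 B)} {w : ProjectiveSpectrum (bc 𝒜 κ)}
    (h : multA 𝒜 f v (bcPt 𝒜 ψ' w) ≠ 0)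
    (hv : ∀ b, ψ b = 0 → algebraMap B (B ⊗[k] A) b ∈ idl (bc 𝒜 B) v) :
    ∃ vK, bcPt 𝒜 ψ vK = v := by
  obtain ⟨h1, h2, h3⟩ := multA_ne_zero h
  have hvp : (idl (bc 𝒜 B) v).IsPrime := v.isPrime
  have hq : (idl (bc 𝒜 B) v).comap (algebraMap B (B ⊗[k] A)) = RingHom.ker ψ := by
    refine ker_of_between ψ ψ' hψ hψ' f hf hker _ (fun b hb => hv b hb) ?_ h2
    intro b hb
    rw [RingHom.mem_ker]
    exact (algebraMap_mem_field ψ' w b).1 (h1 hb)
  refine exists_bcPt hψ v fun b => ?_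
  have : b ∈ (idl (bc 𝒜 B) v).comap (algebraMap B (B ⊗[k] A)) ↔ b ∈ RingHom.ker ψ := by
    rw [hq]
  exact this

theorem zpow_sum_mul {M ι : Type*} [CommGroup M] (x : M) (s : Finset ι) (c : ι → ℤ)
    (N : ι → ℕ) : x ^ (∑ i ∈ s, c i * (N i : ℤ)) = ∏ i ∈ s, (x ^ N i) ^ c i := by
  classical
  induction s using Finset.induction_on with
  | empty => simp
  | insert a s ha ih =>
    rw [Finset.sum_insert ha, Finset.prod_insert ha, zpow_add, ih, mul_comm (c a), zpow_mul,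
      zpow_natCast]

theorem prod_zpow_right {M ι : Type*} [CommGroup M] (s : Finset ι) (f : ι → M) (m : ℤ) :
    ∏ i ∈ s, f i ^ m = (∏ i ∈ s, f i) ^ m := by
  classical
  induction s using Finset.induction_on with
  | empty => simp
  | insert a s ha ih => rw [Finset.prod_insert ha, Finset.prod_insert ha, ih, mul_zpow]

section Main

variable {n : kˣ}

/-- The homomorphism from the units of a ring to the square classes of a field. -/
noncomputable def sqHom {R L : Type} [CommRing R] [Algebra k R] [Field L] [Algebra k L]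
    (φ : R →ₐ[k] L) : Rˣ →* Sq L :=
  (QuotientGroup.mk' _).comp (Units.map φ.toRingHom.toMonoidHom)

theorem sqHom_apply {R L : Type} [CommRing R] [Algebra k R] [Field L] [Algebra k L]
    (φ : R →ₐ[k] L) (u : Rˣ) : sqHom φ u = sq (Units.map φ.toRingHom.toMonoidHom u) := rfl

/-- Specialization of square classes. -/
theorem sq_descend {O K κ : Type} [CommRing O] [IsDomain O] [IsDiscreteValuationRing O]
    [Algebra k O] [Field K] [Algebra k K] [Field κ] [Algebra k κ] {ι : O →ₐ[k] K}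
    (π : O →ₐ[k] κ) (hinj : Function.Injective ι) (hfl : FracLike ι) (U : Oˣ) (e : kˣ)
    (h : sqHom ι U = sq (Units.map (algebraMap k K).toMonoidHom e)) :
    sqHom π U = sq (Units.map (algebraMap k κ).toMonoidHom e) := by
  have h1 : (sq (Units.map (algebraMap k K).toMonoidHom e) : Sq K) =
      sq (Units.map ι.toRingHom.toMonoidHom U) := h.symm
  rw [QuotientGroup.eq] at h1
  obtain ⟨c, hc⟩ := h1
  have hc' : (c : K) ^ 2 = ι ((algebraMap k O) ((e⁻¹ : kˣ) : k) * (U : O)) := by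
    have := congrArg Units.val hc
    simp only [powMonoidHom_apply, Units.val_pow_eq_pow_val, Units.val_mul] at this
    rw [this, map_mul, AlgHom.commutes, ← map_inv]
    rfl
  obtain ⟨c', h2, h3⟩ := exists_root hinj hfl hc'
  have hu : IsUnit ((algebraMap k O) ((e⁻¹ : kˣ) : k) * (U : O)) :=
    ((e⁻¹).isUnit.map _).mul U.isUnit
  have hcu : IsUnit c' := by
    rw [← h3] at hu
    exact (isUnit_pow_iff (two_ne_zero)).1 hu
  symm
  change (sq (Units.map (algebraMap k κ).toMonoidHom e) : Sq κ) =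
      sq (Units.map π.toRingHom.toMonoidHom U)
  rw [QuotientGroup.eq]
  refine ⟨Units.map π.toRingHom.toMonoidHom hcu.unit, ?_⟩
  apply Units.ext
  simp only [powMonoidHom_apply, Units.val_pow_eq_pow_val, Units.val_mul]
  rw [← map_inv]
  change (π c') ^ 2 = (algebraMap k κ) ((e⁻¹ : kˣ) : k) * π (U : O)
  rw [← map_pow, h3, map_mul, AlgHom.commutes]

/-- Module B7a: one step of the specialization. -/
theorem Datum.step (D : Datum 𝒜 n) (G : Geom 𝒜) {B K κ : Type} [CommRing B] [IsNoetherianRing B]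
    [Algebra k B] [Field K] [Algebra k K] [Field κ] [Algebra k κ]
    (ψ : B →ₐ[k] K) (ψ' : B →ₐ[k] κ) (hψ : FracLike ψ) (hψ' : FracLike ψ') (f : B)
    (hf : ψ f ≠ 0) (hker : RingHom.ker ψ' = RingHom.ker ψ ⊔ Ideal.span {f})
    (C C' : ProjectiveSpectrum (bc 𝒜 B) →₀ ℤ)
    (hsupp : ∀ v, C v ≠ 0 → ∀ b, ψ b = 0 → algebraMap B (B ⊗[k] A) b ∈ idl (bc 𝒜 B) v)
    (hcod : ∀ v : ProjectiveSpectrum (bc 𝒜 K), C (bcPt 𝒜 ψ v) ≠ 0 →
      2 ≤ ringKrullDim (LR (bc 𝒜 K) v))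
    (hC' : ∀ w, C' w = C.sum fun v m => m * multA 𝒜 f v w) :
    (∀ w, C' w ≠ 0 → ∀ b, ψ' b = 0 → algebraMap B (B ⊗[k] A) b ∈ idl (bc 𝒜 B) w) ∧
    (∀ w : ProjectiveSpectrum (bc 𝒜 κ), C' (bcPt 𝒜 ψ' w) ≠ 0 →
      2 ≤ ringKrullDim (LR (bc 𝒜 κ) w)) ∧
    ∀ e : kˣ, D.psi K (C.comapDomain _ (bcPt_injective hψ).injOn) =
        sq (Units.map (algebraMap k K).toMonoidHom e) →
      D.psi κ (C'.comapDomain _ (bcPt_injective hψ').injOn) =
        sq (Units.map (algebraMap k κ).toMonoidHom e) := by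
  classical
  obtain ⟨O, _, _, _, _, χ, ι, π, hιχ, hπχ, hflχ, hιinj, hflι, hπs, hkerπ⟩ :=
    exists_dvr ψ ψ' hψ hψ' f hf hker
  have hflπ : FracLike π := fun c => by
    obtain ⟨o, rfl⟩ := hπs c
    exact ⟨o, 1, by rw [map_one]; exact isUnit_one, by rw [map_one, mul_one]⟩
  have hex : ∀ w, C' w ≠ 0 → ∃ v, C v ≠ 0 ∧ multA 𝒜 f v w ≠ 0 := by
    intro w hw
    rw [hC', Finsupp.sum] at hw
    obtain ⟨v, hv, hne⟩ := Finset.exists_ne_zero_of_sum_ne_zero hw
    exact ⟨v, Finsupp.mem_support_iff.1 hv, right_ne_zero_of_mul hne⟩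
  have hιf : ι (χ f) ≠ 0 := by
    have : ι (χ f) = ψ f := by rw [← hιχ]; rfl
    rw [this]
    exact hf
  have hπf : π (χ f) = 0 := by
    have : χ f ∈ RingHom.ker π := by
      rw [hkerπ]
      exact Ideal.mem_span_singleton_self _
    exact this
  -- the point of the generic fibre and its specializations
  have hltO : ∀ (vK : ProjectiveSpectrum (bc 𝒜 K)) (w : ProjectiveSpectrum (bc 𝒜 κ)),
      specialize ι π (idl (bc 𝒜 K) vK) ≤ idl (bc 𝒜 κ) w → bcPt 𝒜 ι vK < bcPt 𝒜 π w := by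
    intro vK w h
    refine lt_of_le_of_ne ?_ ?_
    · intro y hy
      exact h (Ideal.mem_map_of_mem _ hy)
    · intro heq
      have h1 : algebraMap O (O ⊗[k] A) (χ f) ∈ idl (bc 𝒜 O) (bcPt 𝒜 π w) :=
        (algebraMap_mem_field π w (χ f)).2 hπf
      rw [← heq, algebraMap_mem_field] at h1
      exact hιf h1
  have hchain : ∀ vK : ProjectiveSpectrum (bc 𝒜 K), C (bcPt 𝒜 ψ vK) ≠ 0 →
      ∃ l : LTSeries (ProjectiveSpectrum (bc 𝒜 K)), l.last = vK ∧ l.length = 2 := fun vK hvK =>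
    exists_chain (bc 𝒜 K) (hcod vK hvK)
  have hdimK : ∀ vK : ProjectiveSpectrum (bc 𝒜 K), C (bcPt 𝒜 ψ vK) ≠ 0 →
      DimLE (bc 𝒜 K) (idl (bc 𝒜 K) vK) 2 := by
    intro vK hvK
    obtain ⟨l, hl, hl2⟩ := hchain vK hvK
    exact dimLE_of_chain (c := 2) (d := 2) (G.dim4 K) l hl2.ge fun P hP => hl ▸ hP
  have hdimκ : ∀ vK : ProjectiveSpectrum (bc 𝒜 K), C (bcPt 𝒜 ψ vK) ≠ 0 →
      DimLE (bc 𝒜 κ) (specialize ι π (idl (bc 𝒜 K) vK)) 2 := by
    intro vK hvK
    obtain ⟨l, hl, hl2⟩ := hchain vK hvK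
    intro m hm
    have h1 : (l.map (bcPt 𝒜 ι) (bcPt_strictMono hflι)).last <
        (m.map (bcPt 𝒜 π) (bcPt_strictMono hflπ)).head := by
      rw [LTSeries.last_map, LTSeries.head_map, hl]
      exact hltO vK _ hm
    have h2 := G.dim5 O (RelSeries.append (l.map (bcPt 𝒜 ι) (bcPt_strictMono hflι))
      (m.map (bcPt 𝒜 π) (bcPt_strictMono hflπ)) h1) bot_le
    have h3 : (RelSeries.append (l.map (bcPt 𝒜 ι) (bcPt_strictMono hflι))
      (m.map (bcPt 𝒜 π) (bcPt_strictMono hflπ)) h1).length = l.length + m.length + 1 := rfl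
    omega
  refine ⟨fun w hw => ?_, fun w hw => ?_, fun e he => ?_⟩
  · obtain ⟨v, hv, hm⟩ := hex w hw
    exact step_supp hker hm (hsupp v hv)
  · obtain ⟨v, hv, hm⟩ := hex _ hw
    obtain ⟨vK, rfl⟩ := exists_of_multA hψ hψ' hf hker hm (hsupp v hv)
    obtain ⟨l, hl, hl2⟩ := hchain vK hv
    have hle : specialize ι π (idl (bc 𝒜 K) vK) ≤ idl (bc 𝒜 κ) w := by
      by_contra hnot
      have h0 := (len_eq_zero_iff (isHomogeneous_specialize ι π vK) w).2 hnot
      apply hm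
      rw [multA_eq_len hψ' hf hker hιχ hπχ hflχ, h0]
      rfl
    have hlt := hltO vK w hle
    -- a chain of length three below the image of `w`
    have h1 : (l.map (bcPt 𝒜 ι) (bcPt_strictMono hflι)).last < bcPt 𝒜 π w := by
      rw [LTSeries.last_map, hl]
      exact hlt
    let L := (l.map (bcPt 𝒜 ι) (bcPt_strictMono hflι)).snoc (bcPt 𝒜 π w) h1
    have hL : (3 : WithBot ℕ∞) ≤ ringKrullDim (LR (bc 𝒜 O) (bcPt 𝒜 π w)) := by
      have h2 := le_dim_of_chain (bc 𝒜 O) (l := L)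
      have h3 : L.last = bcPt 𝒜 π w := RelSeries.last_snoc _ _ _
      have h4 : L.length = 3 := by
        change l.length + 1 = 3
        omega
      rw [h3, h4] at h2
      exact h2
    have hN : IsNoetherianRing (LR (bc 𝒜 O) (bcPt 𝒜 π w)) := noetherian_LR 𝒜 G O _
    -- the local ring on the special fibre is the quotient by the parameter
    have hker2 : RingHom.ker (bcLoc 𝒜 π w) = Ideal.span {baseTo 𝒜 (bcPt 𝒜 π w) (χ f)} := by
      rw [bcLoc_ker hflπ w]
      have : RingHom.ker π = Ideal.span {χ f} := hkerπ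
      rw [this, Ideal.map_span, Set.image_singleton]
    have hdimq : ringKrullDim (LR (bc 𝒜 κ) w) =
        ringKrullDim (LR (bc 𝒜 O) (bcPt 𝒜 π w) ⧸
          Ideal.span {baseTo 𝒜 (bcPt 𝒜 π w) (χ f)}) := by
      rw [← hker2]
      exact (ringKrullDim_eq_of_ringEquiv
        (RingHom.quotientKerEquivOfSurjective (bcLoc_surjective hflπ w))).symm
    have hmem : baseTo 𝒜 (bcPt 𝒜 π w) (χ f) ∈ maximalIdeal (LR (bc 𝒜 O) (bcPt 𝒜 π w)) := by
      rw [mem_maximalIdeal, mem_nonunits_iff]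
      intro hu
      have h0 : bcLoc 𝒜 π w (baseTo 𝒜 (bcPt 𝒜 π w) (χ f)) = 0 := by
        have : baseTo 𝒜 (bcPt 𝒜 π w) (χ f) ∈ RingHom.ker (bcLoc 𝒜 π w) := by
          rw [hker2]
          exact Ideal.mem_span_singleton_self _
        exact this
      have := hu.map (bcLoc 𝒜 π w)
      rw [h0] at this
      exact not_isUnit_zero this
    have h5 := ringKrullDim_le_ringKrullDim_quotient_add_card
      (R := LR (bc 𝒜 O) (bcPt 𝒜 π w)) {baseTo 𝒜 (bcPt 𝒜 π w) (χ f)} (by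
        rw [IsLocalRing.ringJacobson_eq_maximalIdeal]
        simpa using hmem)
    rw [Finset.coe_singleton, Finset.card_singleton, ← hdimq] at h5
    have h6 : (2 : WithBot ℕ∞) + 1 ≤ ringKrullDim (LR (bc 𝒜 κ) w) + 1 := by
      have : (2 : WithBot ℕ∞) + 1 = 3 := by norm_num
      rw [this]
      exact_mod_cast hL.trans h5
    exact ENat.WithBot.add_le_add_one_right_iff.1 h6
  · -- the units
    have hu : ∀ vK : ProjectiveSpectrum (bc 𝒜 K), ∃ u : Oˣ, C (bcPt 𝒜 ψ vK) ≠ 0 →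
        D.φ K (idl (bc 𝒜 K) vK) = sqHom ι u ∧
        D.φ κ (specialize ι π (idl (bc 𝒜 K) vK)) = sqHom π u := by
      intro vK
      by_cases h0 : C (bcPt 𝒜 ψ vK) ≠ 0
      · obtain ⟨u, h1, h2⟩ := D.dvr O K κ ι π hιinj hflι hπs vK (hdimK vK h0) (hdimκ vK h0)
        exact ⟨u, fun _ => ⟨h1, h2⟩⟩
      · exact ⟨1, fun h => absurd h h0⟩
    choose u hu using hu
    set CK := C.comapDomain _ (bcPt_injective hψ).injOn with hCK
    have hCKv : ∀ vK, CK vK = C (bcPt 𝒜 ψ vK) := fun vK => Finsupp.comapDomain_apply _ _ _ _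
    have hdev := fun (vK : ProjectiveSpectrum (bc 𝒜 K)) (h0 : C (bcPt 𝒜 ψ vK) ≠ 0) =>
      @devissage _ _ _ _ _ (bc 𝒜 κ) _ (isNoetherianRing_bc 𝒜 G κ) (Sq κ) _
        (hgen_of_geom G κ) 1 (D.φ κ) (D.add κ) (D.low κ)
        (specialize ι π (idl (bc 𝒜 K) vK)) (isHomogeneous_specialize ι π vK) (hdimκ vK h0)
    set U : Oˣ := CK.prod fun vK m => u vK ^ m with hU
    have hK : D.psi K CK = sqHom ι U := by
      rw [Datum.psi, hU, Finsupp.prod, Finsupp.prod, map_prod]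
      refine Finset.prod_congr rfl fun vK hvK => ?_
      have h0 : C (bcPt 𝒜 ψ vK) ≠ 0 := by
        rw [← hCKv]
        exact Finsupp.mem_support_iff.1 hvK
      rw [(hu vK h0).1, map_zpow]
    have hκ : D.psi κ (C'.comapDomain _ (bcPt_injective hψ').injOn) = sqHom π U := by
      set Cκ := C'.comapDomain _ (bcPt_injective hψ').injOn with hCκ
      have hCκw : ∀ w, Cκ w = C' (bcPt 𝒜 ψ' w) := fun w => Finsupp.comapDomain_apply _ _ _ _
      -- the coefficients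
      have hcoef : ∀ w, Cκ w = ∑ vK ∈ CK.support, CK vK *
          ((len (bc 𝒜 κ) (specialize ι π (idl (bc 𝒜 K) vK)) w).toNat : ℤ) := by
        intro w
        rw [hCκw, hC', Finsupp.sum]
        have hsub : CK.support.image (bcPt 𝒜 ψ) ⊆ C.support := by
          intro v hv
          obtain ⟨vK, hvK, rfl⟩ := Finset.mem_image.1 hv
          rw [Finsupp.mem_support_iff, ← hCKv]
          exact Finsupp.mem_support_iff.1 hvK
        rw [← Finset.sum_subset hsub, Finset.sum_image]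
        · refine Finset.sum_congr rfl fun vK _ => ?_
          rw [hCKv, multA_eq_len hψ' hf hker hιχ hπχ hflχ]
        · intro a _ b _ hab
          exact bcPt_injective hψ hab
        · intro v hv hnot
          by_contra hne
          have hm : multA 𝒜 f v (bcPt 𝒜 ψ' w) ≠ 0 := right_ne_zero_of_mul hne
          obtain ⟨vK, rfl⟩ := exists_of_multA hψ hψ' hf hker hm
            (hsupp v (Finsupp.mem_support_iff.1 hv))
          apply hnot
          refine Finset.mem_image_of_mem _ ?_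
          rw [Finsupp.mem_support_iff, hCKv]
          exact Finsupp.mem_support_iff.1 hv
      -- a finite set carrying everything
      let S : ProjectiveSpectrum (bc 𝒜 K) → Finset (ProjectiveSpectrum (bc 𝒜 κ)) := fun vK =>
        if h0 : C (bcPt 𝒜 ψ vK) ≠ 0 then (hdev vK h0).1.toFinset else ∅
      let W := Cκ.support ∪ CK.support.biUnion S
      have hS : ∀ vK (h0 : C (bcPt 𝒜 ψ vK) ≠ 0) w,
          (len (bc 𝒜 κ) (specialize ι π (idl (bc 𝒜 K) vK)) w).toNat ≠ 0 → w ∈ S vK := by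
        intro vK h0 w hw
        change w ∈ dite _ _ _
        rw [dif_pos h0, Set.Finite.mem_toFinset]
        exact hw
      have hprod : ∀ vK ∈ CK.support, ∏ w ∈ W, D.φ κ (idl (bc 𝒜 κ) w) ^
          (len (bc 𝒜 κ) (specialize ι π (idl (bc 𝒜 K) vK)) w).toNat =
          D.φ κ (specialize ι π (idl (bc 𝒜 K) vK)) := by
        intro vK hvK
        have h0 : C (bcPt 𝒜 ψ vK) ≠ 0 := by
          rw [← hCKv]
          exact Finsupp.mem_support_iff.1 hvK
        rw [(hdev vK h0).2]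
        symm
        apply finprod_eq_prod_of_mulSupport_subset
        intro w hw
        have hne : (len (bc 𝒜 κ) (specialize ι π (idl (bc 𝒜 K) vK)) w).toNat ≠ 0 := by
          intro h1
          apply hw
          change _ ^ _ = (1 : Sq κ)
          rw [h1, pow_zero]
        rw [Finset.mem_coe]
        exact Finset.mem_union_right _ (Finset.mem_biUnion.2 ⟨vK, hvK, hS vK h0 w hne⟩)
      rw [Datum.psi, Finsupp.prod]
      have hext : ∏ w ∈ Cκ.support, D.φ κ (idl (bc 𝒜 κ) w) ^ Cκ w =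
          ∏ w ∈ W, D.φ κ (idl (bc 𝒜 κ) w) ^ Cκ w := by
        refine Finset.prod_subset Finset.subset_union_left fun w _ hw => ?_
        rw [Finsupp.notMem_support_iff.1 hw, zpow_zero]
      rw [hext]
      have hrow : ∀ w ∈ W, D.φ κ (idl (bc 𝒜 κ) w) ^ Cκ w =
          ∏ vK ∈ CK.support, (D.φ κ (idl (bc 𝒜 κ) w) ^
            (len (bc 𝒜 κ) (specialize ι π (idl (bc 𝒜 K) vK)) w).toNat) ^ CK vK := by
        intro w _
        rw [hcoef]
        exact zpow_sum_mul (M := Sq κ) (D.φ κ (idl (bc 𝒜 κ) w)) CK.support (fun vK => CK vK)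
          (fun vK => (len (bc 𝒜 κ) (specialize ι π (idl (bc 𝒜 K) vK)) w).toNat)
      rw [Finset.prod_congr rfl hrow, Finset.prod_comm, hU, Finsupp.prod, map_prod]
      refine Finset.prod_congr rfl fun vK hvK => ?_
      have h0 : C (bcPt 𝒜 ψ vK) ≠ 0 := by
        rw [← hCKv]
        exact Finsupp.mem_support_iff.1 hvK
      rw [map_zpow, ← (hu vK h0).2, ← hprod vK hvK]
      exact prod_zpow_right (M := Sq κ) W (fun w => D.φ κ (idl (bc 𝒜 κ) w) ^
        (len (bc 𝒜 κ) (specialize ι π (idl (bc 𝒜 K) vK)) w).toNat) (CK vK)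
    rw [hκ]
    rw [hK] at he
    exact sq_descend π hιinj hflι U e he

end Main

end Pool.Agent.SSF.Br
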