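import Pool.Agent.SSF.Br.Dvr
import Pool.Agent.SSF.Br.Dev
import Pool.Agent.SSF.Br.Dim

/-!
Preparations for one step of the specialization: points, chains, multiplicities.
-/

namespace Pool.Agent.SSF.Br

open AlgebraicGeometry TensorProduct HomogeneousLocalization HomogeneousIdeal Graded IsLocalRing

section Chains

variable {σ A : Type*} [CommRing A] [SetLike σ A] [AddSubgroupClass σ A] {𝒜 : ℕ → σ}
  [GradedRing 𝒜]

theorem le_of_idl_le {P Q : ProjectiveSpectrum 𝒜} (h : idl 𝒜 P ≤ idl 𝒜 Q) : P ≤ Q := h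

theorem dimLE_of_chain {I : Ideal A} {c d : ℕ} (h : DimLE 𝒜 ⊥ (c + d))
    (l₂ : LTSeries (ProjectiveSpectrum 𝒜)) (hc : c ≤ l₂.length)
    (hI : ∀ P : ProjectiveSpectrum 𝒜, I ≤ idl 𝒜 P → l₂.last ≤ P) : DimLE 𝒜 I d := by
  intro l hl
  have h1 := hI _ hl
  rcases h1.eq_or_lt with h2 | h2
  · have h3 := h (RelSeries.smash l₂ l h2) bot_le
    have h4 : (RelSeries.smash l₂ l h2).length = l₂.length + l.length := rfl
    omega
  · have h3 := h (RelSeries.append l₂ l h2) bot_le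
    have h4 : (RelSeries.append l₂ l h2).length = l₂.length + l.length + 1 := rfl
    omega

theorem dimLE_of_chain_lt {I : Ideal A} {c d : ℕ} (h : DimLE 𝒜 ⊥ (c + 1 + d))
    (l₂ : LTSeries (ProjectiveSpectrum 𝒜)) (hc : c ≤ l₂.length)
    (hI : ∀ P : ProjectiveSpectrum 𝒜, I ≤ idl 𝒜 P → l₂.last < P) : DimLE 𝒜 I d := by
  intro l hl
  have h2 := hI _ hl
  have h3 := h (RelSeries.append l₂ l h2) bot_le
  have h4 : (RelSeries.append l₂ l h2).length = l₂.length + l.length + 1 := rfl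
  omega

end Chains

variable {k A : Type} [Field k] [CommRing A] [Algebra k A] {𝒜 : ℕ → Submodule k A}
  [GradedAlgebra 𝒜]

section Points

variable {B C D : Type} [CommRing B] [Algebra k B] [CommRing C] [Algebra k C] [CommRing D]
  [Algebra k D]

theorem bcMap_comp (φ : B →ₐ[k] C) (φ' : C →ₐ[k] D) (y : B ⊗[k] A) :
    bcMap A (φ'.comp φ) y = bcMap A φ' (bcMap A φ y) := by
  induction y using TensorProduct.induction_on with
  | zero => simp
  | tmul b a => rfl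
  | add y1 y2 h1 h2 => rw [map_add, h1, h2, map_add, map_add]

theorem bcPt_comp (φ : B →ₐ[k] C) (φ' : C →ₐ[k] D) (P : ProjectiveSpectrum (bc 𝒜 D)) :
    bcPt 𝒜 (φ'.comp φ) P = bcPt 𝒜 φ (bcPt 𝒜 φ' P) := by
  apply ProjectiveSpectrum.ext
  apply HomogeneousIdeal.toIdeal_injective
  ext y
  change bcMap A (φ'.comp φ) y ∈ idl (bc 𝒜 D) P ↔ bcMap A φ' (bcMap A φ y) ∈ idl (bc 𝒜 D) P
  rw [bcMap_comp]

theorem bcPt_mono (φ : B →ₐ[k] C) : Monotone (bcPt 𝒜 φ) := by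
  intro P Q h y hy
  exact h hy

theorem bcPt_strictMono {φ : B →ₐ[k] C} (h : FracLike φ) : StrictMono (bcPt 𝒜 φ) :=
  (bcPt_mono φ).strictMono_of_injective (bcPt_injective h)

theorem algebraMap_mem_bcPt (φ : B →ₐ[k] C) (P : ProjectiveSpectrum (bc 𝒜 C)) (b : B) :
    algebraMap B (B ⊗[k] A) b ∈ idl (bc 𝒜 B) (bcPt 𝒜 φ P) ↔
      algebraMap C (C ⊗[k] A) (φ b) ∈ idl (bc 𝒜 C) P := Iff.rfl

theorem algebraMap_notMem {c : C} (hc : IsUnit c) (P : ProjectiveSpectrum (bc 𝒜 C)) :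
    algebraMap C (C ⊗[k] A) c ∉ idl (bc 𝒜 C) P := by
  intro h
  exact P.isPrime.ne_top (Ideal.eq_top_of_isUnit_mem _ h (isUnit_algebraMap_tensor hc))

theorem algebraMap_mem_field {K : Type} [Field K] [Algebra k K] (φ : B →ₐ[k] K)
    (P : ProjectiveSpectrum (bc 𝒜 K)) (b : B) :
    algebraMap B (B ⊗[k] A) b ∈ idl (bc 𝒜 B) (bcPt 𝒜 φ P) ↔ φ b = 0 := by
  rw [algebraMap_mem_bcPt]
  constructor
  · intro h
    by_contra h0
    exact algebraMap_notMem (IsUnit.mk0 _ h0) P h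
  · intro h
    rw [h, map_zero]
    exact Ideal.zero_mem _

theorem baseTo_val (w : ProjectiveSpectrum (bc 𝒜 B)) (b : B) :
    (baseTo 𝒜 w b).val = algebraMap (B ⊗[k] A) (Localization.AtPrime (idl (bc 𝒜 B) w))
      (algebraMap B (B ⊗[k] A) b) := by
  rw [← Localization.mk_one_eq_algebraMap]
  rfl

theorem isUnit_baseTo {w : ProjectiveSpectrum (bc 𝒜 B)} {b : B}
    (h : algebraMap B (B ⊗[k] A) b ∉ idl (bc 𝒜 B) w) : IsUnit (baseTo 𝒜 w b) := by
  rw [← HomogeneousLocalization.isUnit_iff_isUnit_val, baseTo_val]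
  exact IsLocalization.map_units (Localization.AtPrime (idl (bc 𝒜 B) w))
    (⟨_, h⟩ : (idl (bc 𝒜 B) w).primeCompl)

theorem stepA_baseTo_mem_locIdeal {w : ProjectiveSpectrum (bc 𝒜 B)} {b : B} {I : Ideal (B ⊗[k] A)}
    (h : algebraMap B (B ⊗[k] A) b ∈ I) : baseTo 𝒜 w b ∈ locIdeal (bc 𝒜 B) I w := by
  rw [locIdeal, Ideal.mem_comap, HomogeneousLocalization.algebraMap_apply, baseTo_val]
  exact Ideal.mem_map_of_mem _ h

theorem multA_ne_zero {f : B} {v w : ProjectiveSpectrum (bc 𝒜 B)} (h : multA 𝒜 f v w ≠ 0) :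
    idl (bc 𝒜 B) v ≤ idl (bc 𝒜 B) w ∧ algebraMap B (B ⊗[k] A) f ∉ idl (bc 𝒜 B) v ∧
      algebraMap B (B ⊗[k] A) f ∈ idl (bc 𝒜 B) w := by
  classical
  rw [multA] at h
  split_ifs at h with hc
  · refine ⟨hc.1, hc.2, ?_⟩
    by_contra hw
    apply h
    have hu := isUnit_baseTo hw
    have htop : (locIdeal (bc 𝒜 B) (idl (bc 𝒜 B) v) w ⊔ Ideal.span {baseTo 𝒜 w f}) = ⊤ := by
      rw [Ideal.span_singleton_eq_top.2 hu, sup_top_eq]
    rw [htop]
    have : Subsingleton (LR (bc 𝒜 B) w ⧸ (⊤ : Ideal (LR (bc 𝒜 B) w))) :=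
      Ideal.Quotient.subsingleton_iff.2 rfl
    rw [Module.length_eq_zero]
    rfl
  · exact absurd rfl h

end Points

/-- Between two consecutive fields there is nothing. -/
theorem ker_of_between {B K κ : Type} [CommRing B] [IsNoetherianRing B]
    [Algebra k B] [Field K] [Algebra k K] [Field κ] [Algebra k κ]
    (ψ : B →ₐ[k] K) (ψ' : B →ₐ[k] κ) (hψ : FracLike ψ) (hψ' : FracLike ψ') (f : B)
    (hf : ψ f ≠ 0) (hker : RingHom.ker ψ' = RingHom.ker ψ ⊔ Ideal.span {f})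
    (q : Ideal B) [q.IsPrime] (h1 : RingHom.ker ψ ≤ q) (h2 : q ≤ RingHom.ker ψ') (h3 : f ∉ q) :
    q = RingHom.ker ψ := by
  obtain ⟨O, _, _, _, _, χ, ι, π, hιχ, hπχ, hflχ, hιinj, hflι, hπs, hkerπ⟩ :=
    exists_dvr ψ ψ' hψ hψ' f hf hker
  have e1 : ∀ b, ι (χ b) = ψ b := fun b => by rw [← hιχ]; rfl
  have e2 : ∀ b, π (χ b) = ψ' b := fun b => by rw [← hπχ]; rfl
  have hmax : maximalIdeal O = Ideal.span {χ f} := by
    rw [← hkerπ]
    exact (IsLocalRing.eq_maximalIdeal (RingHom.ker_isMaximal_of_surjective π hπs)).symm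
  have hirr : Irreducible (χ f) := (IsDiscreteValuationRing.irreducible_iff_uniformizer _).2 hmax
  refine le_antisymm ?_ h1
  intro x hx
  rw [RingHom.mem_ker]
  by_contra hx0
  have hχx : χ x ≠ 0 := by
    intro h0
    apply hx0
    have := e1 x
    rw [h0, map_zero] at this
    exact this.symm
  obtain ⟨n, u, hu⟩ := IsDiscreteValuationRing.eq_unit_mul_pow_irreducible hχx hirr
  obtain ⟨b, s, hs, e⟩ := hflχ (u : O)
  have h4 : χ (x * s - b * f ^ n) = 0 := by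
    rw [map_sub, map_mul, map_mul, map_pow, hu, ← e]
    ring
  have h5 : x * s - b * f ^ n ∈ q := by
    apply h1
    rw [RingHom.mem_ker]
    have := e1 (x * s - b * f ^ n)
    rw [h4, map_zero] at this
    exact this.symm
  have h6 : b * f ^ n ∈ q := by
    have := Ideal.sub_mem q (Ideal.mul_mem_right s q hx) h5
    rwa [sub_sub_cancel] at this
  have h7 : b ∈ q := by
    rcases ‹q.IsPrime›.mem_or_mem h6 with h | h
    · exact h
    · exact absurd (‹q.IsPrime›.mem_of_pow_mem n h) h3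
  have h8 : π (χ b) = 0 := by
    rw [e2]
    exact h2 h7
  have h9 : IsUnit (χ b) := by
    rw [← e]
    exact u.isUnit.mul hs
  exact (h9.map π).ne_zero h8

end Pool.Agent.SSF.Br
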